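import Mathlib

namespace Pool.Agent.Lib.MP_2c9e21_co

open Finset

/-- The t-factorial: product over j = 1..n of (1 - t^j)/(1 - t). -/
noncomputable def qfac (t : ℝ) (n : ℕ) : ℝ := ∏ j ∈ range n, ∑ i ∈ range (j + 1), t ^ i

/-- Macdonald's normalising factor v, product of the t-factorials of the multiplicities
(the part 0 included). -/
noncomputable def vl {N : ℕ} (t : ℝ) (l : Fin N → ℕ) : ℝ :=
  ∏ a ∈ univ.image l, qfac t (univ.filter (fun i => l i = a)).card

/-- The symmetrised sum R of Macdonald III (1.1). -/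
noncomputable def HLR {N : ℕ} (t : ℝ) (l : Fin N → ℕ) (x : Fin N → ℝ) : ℝ :=
  ∑ w : Equiv.Perm (Fin N), (∏ i, x (w i) ^ l i) *
    ∏ p ∈ univ.filter (fun p : Fin N × Fin N => p.1 < p.2),
      (x (w p.1) - t * x (w p.2)) / (x (w p.1) - x (w p.2))

/-- The Hall-Littlewood function P of Macdonald III (2.1) in `N` variables. -/
noncomputable def HLP {N : ℕ} (t : ℝ) (l : Fin N → ℕ) (x : Fin N → ℝ) : ℝ :=
  HLR t l x / vl t l

/-- Partitions of `n` with at most `N` parts, padded by zeros. -/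
noncomputable def Par (N n : ℕ) : Finset (Fin N → ℕ) :=
  (piAntidiag univ n).filter (fun l => ∀ i j, i ≤ j → l j ≤ l i)

/-- The coefficient of u^r in the product of (1 + x_i u)/(1 - x_i u). -/
noncomputable def qq {N : ℕ} (x : Fin N → ℝ) (r : ℕ) : ℝ :=
  PowerSeries.coeff r (∏ i, (1 + PowerSeries.C (x i) * PowerSeries.X) *
    (1 - PowerSeries.C (x i) * PowerSeries.X)⁻¹)

/-- Schur's two-row function. -/
noncomputable def Q2 {N : ℕ} (x : Fin N → ℝ) (r s : ℕ) : ℝ :=
  qq x r * qq x s + 2 * ∑ i ∈ range s, (-1) ^ (i + 1) * (qq x (r + (i + 1)) * qq x (s - (i + 1)))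

/-- Schur's Q-function: the Pfaffian of the two-row functions, expanded along the first row
(even length) or along the added zero part (odd length). -/
noncomputable def SQ {N : ℕ} (x : Fin N → ℝ) : (l : ℕ) → (Fin l → ℕ) → ℝ
  | 0, _ => 1
  | 1, ξ => qq x (ξ 0)
  | (m + 2), ξ =>
    if Even m then
      ∑ j : Fin (m + 1), (-1) ^ j.val *
        (Q2 x (ξ 0) (ξ j.succ) * SQ x m (fun k => ξ (j.succAbove k).succ))
    else
      ∑ j : Fin (m + 2), (-1) ^ j.val * (qq x (ξ j) * SQ x (m + 1) (fun k => ξ (j.succAbove k)))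

/-- `K` is the family of coefficients of Q in the basis P. -/
def IsExp (N : ℕ) {l : ℕ} (ξ : Fin l → ℕ) (K : (Fin N → ℕ) → Polynomial ℤ) : Prop :=
  ∀ t : ℝ, 0 < t → ∀ x : Fin N → ℝ, Function.Injective x →
    SQ x l ξ = ∑ μ ∈ Par N (∑ i, ξ i), Polynomial.aeval t (K μ) * HLP t μ x

/-- t^m K(1/t) = K(t) for some integer m. -/
def Pal (K : Polynomial ℤ) : Prop :=
  ∃ m : ℤ, ∀ t : ℝ, 0 < t → t ^ m * Polynomial.aeval t⁻¹ K = Polynomial.aeval t K

end Pool.Agent.Lib.MP_2c9e21_co
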