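import Mathlib
import Pool.Agent.Lib.MP_2c9e21_co.Defs

namespace Pool.Agent.Lib.MP_2c9e21_co

open Finset

variable {N : ℕ}

def mu (f : Fin N → ℕ) (a : ℕ) : ℕ := ∑ i, if f i = a then 1 else 0
def cn (f : Fin N → ℕ) (s : Fin N → Bool) (a : ℕ) : ℕ :=
  ∑ i, if f i = a ∧ s i = true then 1 else 0
def iv (f : Fin N → ℕ) (s : Fin N → Bool) : ℕ :=
  ∑ i, ∑ j, if i < j ∧ f i = f j ∧ s i = false ∧ s j = true then 1 else 0
def ad (f : Fin N → ℕ) (s : Fin N → Bool) : Fin N → ℕ := fun i => f i + (s i).toNat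
def sb (f : Fin N → ℕ) (s : Fin N → Bool) : Fin N → ℕ := fun i => f i - (s i).toNat
def wt (s : Fin N → Bool) : ℕ := ∑ i, (s i).toNat
def nt (s : Fin N → Bool) : Fin N → Bool := fun i => !s i

theorem mem_Par {n : ℕ} {l : Fin N → ℕ} : l ∈ Par N n ↔ ∑ i, l i = n ∧ Antitone l := by
  unfold Par
  rw [mem_filter, mem_piAntidiag]
  constructor
  · rintro ⟨⟨h, -⟩, h'⟩
    exact ⟨h, fun i j hij => h' i j hij⟩
  · rintro ⟨h, h'⟩
    exact ⟨⟨h, fun i _ => mem_univ i⟩, fun i j hij => h' hij⟩

theorem count_ms (f : Fin N → ℕ) (a : ℕ) : (List.ofFn f).count a = mu f a := by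
  induction N with
  | zero => simp [mu]
  | succ N ih =>
    rw [List.ofFn_succ, List.count_cons, ih]
    unfold mu
    rw [Fin.sum_univ_succ, add_comm]
    simp

theorem perm_of_mu {f g : Fin N → ℕ} (h : mu f = mu g) : (List.ofFn f).Perm (List.ofFn g) := by
  rw [List.perm_iff_count]
  intro a
  rw [count_ms, count_ms, h]

theorem eq_of_mu {f g : Fin N → ℕ} (hf : Antitone f) (hg : Antitone g) (h : mu f = mu g) :
    f = g :=
  List.ofFn_injective ((perm_of_mu h).eq_of_pairwise' hf.sortedGE_ofFn.pairwise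
    hg.sortedGE_ofFn.pairwise)

theorem sum_of_mu {f g : Fin N → ℕ} (h : mu f = mu g) : ∑ i, f i = ∑ i, g i := by
  rw [← List.sum_ofFn, ← List.sum_ofFn]
  exact (perm_of_mu h).sum_eq

theorem mu_comp (f : Fin N → ℕ) (σ : Equiv.Perm (Fin N)) : mu (f ∘ σ) = mu f := by
  funext a
  exact Equiv.sum_comp σ (fun i => if f i = a then 1 else 0)

theorem exists_sort (f : Fin N → ℕ) : ∃ σ : Equiv.Perm (Fin N), Antitone (f ∘ σ) :=
  ⟨Tuple.sort (OrderDual.toDual ∘ f), fun _ _ h =>
    Tuple.monotone_sort (OrderDual.toDual ∘ f) h⟩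

theorem exists_perm_of_mu {f g : Fin N → ℕ} (hg : Antitone g) (h : mu f = mu g) :
    ∃ σ : Equiv.Perm (Fin N), f ∘ σ = g := by
  obtain ⟨σ, hσ⟩ := exists_sort f
  exact ⟨σ, eq_of_mu hσ hg ((mu_comp f σ).trans h)⟩

theorem sum_ad (f : Fin N → ℕ) (s : Fin N → Bool) : ∑ i, ad f s i = ∑ i, f i + wt s := by
  unfold ad wt
  rw [sum_add_distrib]

theorem swap_lt {i j : Fin N} (hij : j.val = i.val + 1) {a b : Fin N} (h1 : ¬ (a = i ∧ b = j))
    (h2 : ¬ (a = j ∧ b = i)) : Equiv.swap i j a < Equiv.swap i j b ↔ a < b := by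
  simp only [Equiv.swap_apply_def, Fin.lt_def, Fin.ext_iff] at *
  split_ifs <;> omega

theorem HLR_swap (t : ℝ) (x : Fin N → ℝ) {i j : Fin N} (hij : j.val = i.val + 1)
    (β : Fin N → ℕ) (hβ : β i = β j) :
    HLR t (fun k => β k + if k = j then 1 else 0) x =
      t * HLR t (fun k => β k + if k = i then 1 else 0) x := by
  have hne : i ≠ j := fun h => by rw [h] at hij; omega
  have hlt : i < j := by rw [Fin.lt_def]; omega
  have hmem : (i, j) ∈ univ.filter (fun p : Fin N × Fin N => p.1 < p.2) := by simp [hlt]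
  have mono : ∀ (w : Equiv.Perm (Fin N)) (c : Fin N),
      ∏ k, x (w k) ^ (β k + if k = c then 1 else 0) = (∏ k, x (w k) ^ β k) * x (w c) := by
    intro w c
    simp only [pow_add, prod_mul_distrib]
    congr 1
    rw [prod_eq_single c]
    · simp
    · intro b _ hb
      simp [hb]
    · simp
  set D := (univ.filter (fun p : Fin N × Fin N => p.1 < p.2)).erase (i, j) with hD
  let F : Equiv.Perm (Fin N) → ℝ := fun w =>
    (∏ k, x (w k) ^ β k) * (∏ p ∈ D, (x (w p.1) - t * x (w p.2)) / (x (w p.1) - x (w p.2))) *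
      ((x (w j) - t * x (w i)) * (x (w i) - t * x (w j)) / (x (w i) - x (w j)))
  have hF : ∀ w, F (w * Equiv.swap i j) = - F w := by
    intro w
    have e1 : ∏ k, x ((w * Equiv.swap i j) k) ^ β k = ∏ k, x (w k) ^ β k := by
      rw [← Equiv.prod_comp (Equiv.swap i j) (fun k => x (w k) ^ β k)]
      refine prod_congr rfl fun k _ => ?_
      have : β (Equiv.swap i j k) = β k := by
        rw [Equiv.swap_apply_def]
        split_ifs with h1 h2
        · rw [h1, hβ]
        · rw [h2, hβ]
        · rfl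
      rw [this]
      rfl
    have e2 : ∏ p ∈ D, (x ((w * Equiv.swap i j) p.1) - t * x ((w * Equiv.swap i j) p.2)) /
        (x ((w * Equiv.swap i j) p.1) - x ((w * Equiv.swap i j) p.2)) =
        ∏ p ∈ D, (x (w p.1) - t * x (w p.2)) / (x (w p.1) - x (w p.2)) := by
      refine prod_equiv (Equiv.prodCongr (Equiv.swap i j) (Equiv.swap i j)) ?_ (fun p _ => rfl)
      rintro ⟨a, b⟩
      simp only [hD, mem_erase, mem_filter, mem_univ, true_and, Equiv.prodCongr_apply, Prod.map,
        ne_eq, Prod.mk.injEq]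
      simp only [Equiv.swap_apply_def, Fin.lt_def, Fin.ext_iff]
      split_ifs <;> omega
    simp only [F]
    rw [e1, e2]
    simp only [Equiv.Perm.mul_apply, Equiv.swap_apply_left, Equiv.swap_apply_right]
    rw [← neg_sub (x (w i)) (x (w j)), div_neg]
    ring
  have hsum : ∑ w, F w = 0 := by
    have h1 : ∑ w, F (w * Equiv.swap i j) = ∑ w, F w :=
      Equiv.sum_comp (Equiv.mulRight (Equiv.swap i j)) F
    simp only [hF, sum_neg_distrib] at h1
    linarith
  rw [← sub_eq_zero, ← hsum]
  unfold HLR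
  rw [mul_sum, ← sum_sub_distrib]
  refine sum_congr rfl fun w _ => ?_
  rw [mono, mono, ← mul_prod_erase _ _ hmem]
  simp only [F]
  ring

theorem iv_swap (f : Fin N → ℕ) (s : Fin N → Bool) {i j : Fin N} (hij : j.val = i.val + 1)
    (hf : f i = f j) (hi : s i = false) (hj : s j = true) :
    iv f (s ∘ Equiv.swap i j) + 1 = iv f s := by
  have hlt : i < j := by rw [Fin.lt_def]; omega
  have hfs : ∀ k, f (Equiv.swap i j k) = f k := by
    intro k
    rw [Equiv.swap_apply_def]
    split_ifs with h1 h2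
    · rw [h1, hf]
    · rw [h2, hf]
    · rfl
  have e1 : iv f (s ∘ Equiv.swap i j) = ∑ a, ∑ b,
      if Equiv.swap i j a < Equiv.swap i j b ∧ f a = f b ∧ s a = false ∧ s b = true
        then 1 else 0 := by
    unfold iv
    rw [← Equiv.sum_comp (Equiv.swap i j)]
    refine sum_congr rfl fun a _ => ?_
    rw [← Equiv.sum_comp (Equiv.swap i j)]
    refine sum_congr rfl fun b _ => ?_
    simp only [hfs, Function.comp, Equiv.swap_apply_self]
  have e2 : (1 : ℕ) = ∑ a, ∑ b, if a = i ∧ b = j then 1 else 0 := by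
    rw [sum_eq_single i]
    · simp
    · intro a _ ha
      simp [ha]
    · simp
  rw [e1]
  refine (congrArg₂ (· + ·) rfl e2).trans ?_
  rw [← sum_add_distrib]
  unfold iv
  refine sum_congr rfl fun a _ => ?_
  rw [← sum_add_distrib]
  refine sum_congr rfl fun b _ => ?_
  by_cases h1 : a = i ∧ b = j
  · obtain ⟨rfl, rfl⟩ := h1
    simp [hlt, hlt.le, hf, hi, hj]
  · by_cases h2 : a = j ∧ b = i
    · obtain ⟨rfl, rfl⟩ := h2
      simp [hj, hlt.ne']
    · simp only [swap_lt hij h1 h2, if_neg h1, add_zero]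

theorem straighten (t : ℝ) (x : Fin N → ℝ) {l m : Fin N → ℕ} (hl : Antitone l) (hm : Antitone m) :
    ∀ (n : ℕ) (s : Fin N → Bool), iv l s = n → mu (ad l s) = mu m →
      HLR t (ad l s) x = t ^ n * HLR t m x := by
  intro n
  induction n using Nat.strong_induction_on with
  | _ n ih =>
    intro s hn hs
    by_cases ha : Antitone (ad l s)
    · have h0 : iv l s = 0 := by
        unfold iv
        refine sum_eq_zero fun a _ => sum_eq_zero fun b _ => if_neg ?_
        rintro ⟨h1, h2, h3, h4⟩
        have := ha h1.le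
        simp only [ad, h2, h3, h4] at this
        simp at this
      rw [← hn, h0, eq_of_mu ha hm hs, pow_zero, one_mul]
    · obtain ⟨i, j, hij, hlt⟩ : ∃ i j : Fin N, j.val = i.val + 1 ∧ ad l s i < ad l s j := by
        by_contra hc
        apply ha
        cases N with
        | zero => exact fun a => a.elim0
        | succ N =>
          rw [Fin.antitone_iff_succ_le]
          intro k
          by_contra h
          exact hc ⟨k.castSucc, k.succ, by simp, not_le.1 h⟩
      have hle : l j ≤ l i := hl (by rw [Fin.le_def]; omega)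
      have hne : i ≠ j := fun h => by rw [h] at hij; omega
      have h3 : l i = l j ∧ s i = false ∧ s j = true := by
        unfold ad at hlt
        cases hi : s i <;> cases hj : s j <;> simp [hi, hj] at hlt ⊢ <;> omega
      obtain ⟨h4, h5, h6⟩ := h3
      have h7 := iv_swap l s hij h4 h5 h6
      let β : Fin N → ℕ := fun k => if k = j then l k else ad l s k
      have e1 : ad l s = fun k => β k + if k = j then 1 else 0 := by
        funext k
        by_cases hk : k = j
        · subst hk
          simp [β, ad, h6]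
        · simp [β, hk]
      have e2 : ad l (s ∘ Equiv.swap i j) = fun k => β k + if k = i then 1 else 0 := by
        funext k
        by_cases hk : k = j
        · subst hk
          simp [β, ad, h5, hne.symm]
        · by_cases hk' : k = i
          · subst hk'
            simp [β, ad, h5, h6, hk]
          · simp [β, ad, hk, hk', Equiv.swap_apply_of_ne_of_ne hk' hk]
      have e3 : ad l (s ∘ Equiv.swap i j) = ad l s ∘ Equiv.swap i j := by
        funext k
        simp only [ad, Function.comp]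
        congr 1
        rw [Equiv.swap_apply_def]
        split_ifs with h1 h2
        · rw [h1, h4]
        · rw [h2, h4]
        · rfl
      have hβ : β i = β j := by simp [β, hne, ad, h5, h4]
      have h8 := ih (iv l (s ∘ Equiv.swap i j)) (by omega) (s ∘ Equiv.swap i j) rfl
        (by rw [e3, mu_comp, hs])
      rw [e1, HLR_swap t x hij β hβ, ← e2, h8, ← hn, ← h7, pow_succ]
      ring

noncomputable def ee (x : Fin N → ℝ) (r : ℕ) : ℝ :=
  ∑ s : Fin N → Bool, if wt s = r then ∏ i, x i ^ (s i).toNat else 0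

theorem ee_perm (x : Fin N → ℝ) (r : ℕ) (w : Equiv.Perm (Fin N)) :
    ee (fun i => x (w i)) r = ee x r := by
  unfold ee
  rw [← Equiv.sum_comp (Equiv.arrowCongr w.symm (Equiv.refl Bool))]
  refine sum_congr rfl fun s _ => ?_
  have e1 : wt (Equiv.arrowCongr w.symm (Equiv.refl Bool) s) = wt s :=
    Equiv.sum_comp w (fun i => (s i).toNat)
  have e2 : ∏ i, x (w i) ^ (Equiv.arrowCongr w.symm (Equiv.refl Bool) s i).toNat =
      ∏ i, x i ^ (s i).toNat := Equiv.prod_comp w (fun i => x i ^ (s i).toNat)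
  rw [e1, e2]

theorem ee_HLR (t : ℝ) (x : Fin N → ℝ) (r : ℕ) (l : Fin N → ℕ) :
    ee x r * HLR t l x = ∑ s : Fin N → Bool, if wt s = r then HLR t (ad l s) x else 0 := by
  unfold HLR
  rw [mul_sum]
  have h : ∀ s : Fin N → Bool, (if wt s = r then ∑ w : Equiv.Perm (Fin N),
      (∏ i, x (w i) ^ ad l s i) * ∏ p ∈ univ.filter (fun p : Fin N × Fin N => p.1 < p.2),
        (x (w p.1) - t * x (w p.2)) / (x (w p.1) - x (w p.2)) else 0) =
      ∑ w : Equiv.Perm (Fin N), (if wt s = r then ∏ i, x (w i) ^ (s i).toNat else 0) *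
        ((∏ i, x (w i) ^ l i) * ∏ p ∈ univ.filter (fun p : Fin N × Fin N => p.1 < p.2),
        (x (w p.1) - t * x (w p.2)) / (x (w p.1) - x (w p.2))) := by
    intro s
    split_ifs
    · refine sum_congr rfl fun w _ => ?_
      simp only [ad, pow_add, prod_mul_distrib]
      ring
    · simp
  simp only [h]
  rw [sum_comm]
  refine sum_congr rfl fun w _ => ?_
  rw [← sum_mul, ← ee_perm x r w]
  rfl

end Pool.Agent.Lib.MP_2c9e21_co
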