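import Mathlib
import Pool.Agent.Lib.MP_2c9e21_co.Str

namespace Pool.Agent.Lib.MP_2c9e21_co

open Finset

variable {N : ℕ}

noncomputable def qi (t : ℝ) (n : ℕ) : ℝ := ∑ i ∈ range n, t ^ i

theorem qfac_succ (t : ℝ) (n : ℕ) : qfac t (n + 1) = qfac t n * qi t (n + 1) := by
  unfold qfac qi
  rw [prod_range_succ]

theorem qfac_zero (t : ℝ) : qfac t 0 = 1 := by simp [qfac]

theorem qi_zero (t : ℝ) : qi t 0 = 0 := by simp [qi]

theorem qi_add (t : ℝ) (a b : ℕ) : qi t (a + b) = qi t a + t ^ a * qi t b := by
  unfold qi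
  rw [sum_range_add, mul_sum]
  simp only [pow_add]

theorem qi_pos {t : ℝ} (ht : 0 < t) (n : ℕ) : 0 < qi t (n + 1) :=
  sum_pos (fun i _ => pow_pos ht i) nonempty_range_add_one

theorem qfac_pos {t : ℝ} (ht : 0 < t) (n : ℕ) : 0 < qfac t n :=
  prod_pos fun j _ => qi_pos ht j

theorem qi_mul (t : ℝ) (n : ℕ) : (1 - t) * qi t n = 1 - t ^ n := mul_neg_geom_sum t n

noncomputable def PF (t : ℝ) (M : ℕ) (g : ℕ → ℕ) : ℝ := ∏ a ∈ range M, qfac t (g a)

theorem PF_pos {t : ℝ} (ht : 0 < t) (M : ℕ) (g : ℕ → ℕ) : 0 < PF t M g :=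
  prod_pos fun _ _ => qfac_pos ht _

theorem PF_step (t : ℝ) {M c : ℕ} (hc : c < M) {g g' : ℕ → ℕ}
    (h : ∀ a, g a = (if c = a then 1 else 0) + g' a) : PF t M g = qi t (g c) * PF t M g' := by
  unfold PF
  rw [← mul_prod_erase _ _ (mem_range.2 hc), ← mul_prod_erase (range M) _ (mem_range.2 hc)]
  have h1 : g c = g' c + 1 := by rw [h c, if_pos rfl, add_comm]
  have h2 : ∏ a ∈ (range M).erase c, qfac t (g a) = ∏ a ∈ (range M).erase c, qfac t (g' a) := by
    refine prod_congr rfl fun a ha => ?_
    rw [h a, if_neg (ne_of_mem_erase ha).symm, zero_add]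
  rw [h2, h1, qfac_succ]
  ring

theorem mu_split (f : Fin N → ℕ) (s : Fin N → Bool) (a : ℕ) :
    mu f a = cn f s a + cn f (nt s) a := by
  unfold mu cn nt
  rw [← sum_add_distrib]
  refine sum_congr rfl fun i _ => ?_
  by_cases h : f i = a <;> cases s i <;> simp [h]

theorem sum_cons (F : (Fin (N + 1) → Bool) → ℝ) :
    ∑ s, F s = ∑ s : Fin N → Bool, F (Fin.cons false s) + ∑ s : Fin N → Bool, F (Fin.cons true s) := by
  rw [← Equiv.sum_comp (Fin.consEquiv (fun _ => Bool)) F, Fintype.sum_prod_type,
    Fintype.sum_bool, add_comm]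
  rfl

theorem cn_cons (f : Fin (N + 1) → ℕ) (b : Bool) (s : Fin N → Bool) (a : ℕ) :
    cn f (Fin.cons b s) a = (if f 0 = a ∧ b = true then 1 else 0) + cn (Fin.tail f) s a := by
  unfold cn
  rw [Fin.sum_univ_succ]
  rfl

theorem mu_cons (f : Fin (N + 1) → ℕ) (a : ℕ) :
    mu f a = (if f 0 = a then 1 else 0) + mu (Fin.tail f) a := by
  unfold mu
  rw [Fin.sum_univ_succ]
  rfl

theorem iv_cons (f : Fin (N + 1) → ℕ) (b : Bool) (s : Fin N → Bool) :
    iv f (Fin.cons b s) = (if b = false then cn (Fin.tail f) s (f 0) else 0) +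
      iv (Fin.tail f) s := by
  unfold iv cn
  rw [Fin.sum_univ_succ, Fin.sum_univ_succ]
  congr 1
  · cases b
    · rw [if_neg (by simp), zero_add, if_pos rfl]
      refine sum_congr rfl fun i _ => if_congr ?_ rfl rfl
      simp only [Fin.succ_pos, Fin.cons_zero, Fin.cons_succ, true_and, Fin.tail]
      rw [eq_comm]
    · simp
  · refine sum_congr rfl fun i _ => ?_
    rw [Fin.sum_univ_succ, if_neg (by simp), zero_add]
    refine sum_congr rfl fun j _ => if_congr ?_ rfl rfl
    simp only [Fin.succ_lt_succ_iff, Fin.cons_succ, Fin.tail]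

open Classical in
noncomputable def ZZ (t : ℝ) (f : Fin N → ℕ) (k : ℕ → ℕ) : ℝ :=
  ∑ s : Fin N → Bool, if cn f s = k then t ^ iv f s else 0

theorem ZZ_eq (t : ℝ) (M : ℕ) : ∀ (N : ℕ) (f : Fin N → ℕ) (k d : ℕ → ℕ), (∀ i, f i < M) →
    (∀ a, mu f a = k a + d a) → ZZ t f k * (PF t M k * PF t M d) = PF t M (mu f) := by
  intro N
  induction N with
  | zero =>
    intro f k d _ h
    have h0 : ∀ a, mu f a = 0 := fun a => by simp [mu]
    have hk : k = fun _ => 0 := funext fun a => by have := h a; have := h0 a; omega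
    have hd : d = fun _ => 0 := funext fun a => by have := h a; have := h0 a; omega
    have hm : mu f = fun _ => 0 := funext h0
    have hc : ∀ s : Fin 0 → Bool, cn f s = fun _ => 0 := fun s => funext fun a => by simp [cn]
    rw [hk, hd, hm]
    simp [ZZ, hc, iv, PF, qfac_zero]
  | succ N ih =>
    intro f k d hM h
    classical
    have hc := hM 0
    have hM' : ∀ i, Fin.tail f i < M := fun i => hM _
    have e0 : PF t M (mu f) = qi t (mu f (f 0)) * PF t M (mu (Fin.tail f)) :=
      PF_step t hc (mu_cons f)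
    have p1 : (∑ s : Fin N → Bool, if cn f (Fin.cons false s) = k then
        t ^ iv f (Fin.cons false s) else 0) * (PF t M k * PF t M d) =
        t ^ k (f 0) * qi t (d (f 0)) * PF t M (mu (Fin.tail f)) := by
      have e1 : (∑ s : Fin N → Bool, if cn f (Fin.cons false s) = k then
          t ^ iv f (Fin.cons false s) else 0) = t ^ k (f 0) * ZZ t (Fin.tail f) k := by
        unfold ZZ
        rw [mul_sum]
        refine sum_congr rfl fun s _ => ?_
        have : cn f (Fin.cons false s) = cn (Fin.tail f) s := funext fun a => by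
          rw [cn_cons]; simp
        rw [this, iv_cons]
        split_ifs with h1 h2
        · rw [h1, pow_add]
        · exact absurd rfl h2
        · simp
      rw [e1]
      rcases Nat.eq_zero_or_pos (d (f 0)) with hd | hd
      · have : ZZ t (Fin.tail f) k = 0 := by
          unfold ZZ
          refine sum_eq_zero fun s _ => if_neg fun hs => ?_
          have h1 := mu_split (Fin.tail f) s (f 0)
          have h2 := mu_cons f (f 0)
          have h3 := h (f 0)
          rw [hs] at h1
          rw [if_pos rfl] at h2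
          omega
        rw [this, hd, qi_zero]
        ring
      · have h1 := ih (Fin.tail f) k (fun a => d a - if f 0 = a then 1 else 0) hM' (fun a => by
          have h2 := mu_cons f a
          have h3 := h a
          by_cases ha : f 0 = a
          · subst ha
            simp only [if_true] at h2 ⊢
            omega
          · simp only [if_neg ha] at h2 ⊢
            omega)
        have h2 : PF t M d = qi t (d (f 0)) *
            PF t M (fun a => d a - if f 0 = a then 1 else 0) :=
          PF_step t hc (fun a => by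
            by_cases ha : f 0 = a
            · subst ha
              simp only [if_true]
              omega
            · simp [ha])
        rw [← h1, h2]
        ring
    have p2 : (∑ s : Fin N → Bool, if cn f (Fin.cons true s) = k then
        t ^ iv f (Fin.cons true s) else 0) * (PF t M k * PF t M d) =
        qi t (k (f 0)) * PF t M (mu (Fin.tail f)) := by
      rcases Nat.eq_zero_or_pos (k (f 0)) with hk | hk
      · rw [sum_eq_zero, hk, qi_zero]
        · ring
        · intro s _
          refine if_neg fun hs => ?_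
          have h1 := cn_cons f true s (f 0)
          rw [hs, if_pos ⟨rfl, rfl⟩] at h1
          omega
      · have hk' : ∀ a, k a = (if f 0 = a then 1 else 0) + (k a - if f 0 = a then 1 else 0) := by
          intro a
          by_cases ha : f 0 = a
          · subst ha
            simp only [if_true]
            omega
          · simp [ha]
        have e1 : (∑ s : Fin N → Bool, if cn f (Fin.cons true s) = k then
            t ^ iv f (Fin.cons true s) else 0) =
            ZZ t (Fin.tail f) (fun a => k a - if f 0 = a then 1 else 0) := by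
          unfold ZZ
          refine sum_congr rfl fun s _ => ?_
          have h1 : cn f (Fin.cons true s) = k ↔
              cn (Fin.tail f) s = fun a => k a - if f 0 = a then 1 else 0 := by
            rw [funext_iff, funext_iff]
            refine forall_congr' fun a => ?_
            have := hk' a
            rw [cn_cons]
            simp only [and_true]
            omega
          rw [iv_cons]
          simp only [h1]
          simp
        have h1 := ih (Fin.tail f) (fun a => k a - if f 0 = a then 1 else 0) d hM' (fun a => by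
          have h2 := mu_cons f a
          have h3 := h a
          have := hk' a
          omega)
        rw [e1, ← h1, PF_step t hc hk']
        ring
    unfold ZZ
    rw [sum_cons, add_mul, p1, p2, e0, h, qi_add]
    ring

theorem mu_eq_zero {f : Fin N → ℕ} {a : ℕ} (h : ∀ i, f i ≠ a) : mu f a = 0 :=
  sum_eq_zero fun i _ => if_neg (h i)

theorem vl_eq (t : ℝ) (f : Fin N → ℕ) {M : ℕ} (hM : ∀ i, f i < M) :
    vl t f = PF t M (mu f) := by
  unfold vl PF
  have h : ∀ a, (univ.filter (fun i => f i = a)).card = mu f a := fun a => by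
    rw [card_filter]
    rfl
  simp only [h]
  refine prod_subset (fun a ha => ?_) (fun a _ ha => ?_)
  · obtain ⟨i, -, rfl⟩ := mem_image.1 ha
    exact mem_range.2 (hM i)
  · rw [mu_eq_zero (fun i hi => ha (mem_image.2 ⟨i, mem_univ i, hi⟩)), qfac_zero]

theorem vl_pos {t : ℝ} (ht : 0 < t) (f : Fin N → ℕ) : 0 < vl t f :=
  prod_pos fun _ _ => qfac_pos ht _

def Compat (l m : Fin N → ℕ) (k d : ℕ → ℕ) : Prop :=
  (∀ a, mu l a = k a + d a) ∧ mu m 0 = d 0 ∧ ∀ a, mu m (a + 1) = d (a + 1) + k a

theorem Compat.unique {l m : Fin N → ℕ} {k d k' d' : ℕ → ℕ} (h : Compat l m k d)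
    (h' : Compat l m k' d') : k = k' ∧ d = d' := by
  have hd : ∀ a, d a = d' a := by
    intro a
    induction a with
    | zero => rw [← h.2.1, h'.2.1]
    | succ a ih =>
      have := h.1 a
      have := h'.1 a
      have := h.2.2 a
      have := h'.2.2 a
      omega
  refine ⟨funext fun a => ?_, funext hd⟩
  have := h.1 a
  have := h'.1 a
  have := hd a
  omega

theorem mu_ad_zero (l : Fin N → ℕ) (s : Fin N → Bool) : mu (ad l s) 0 = cn l (nt s) 0 := by
  unfold mu cn ad nt
  refine sum_congr rfl fun i _ => ?_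
  cases s i <;> simp

theorem mu_ad_succ (l : Fin N → ℕ) (s : Fin N → Bool) (a : ℕ) :
    mu (ad l s) (a + 1) = cn l (nt s) (a + 1) + cn l s a := by
  unfold mu cn ad nt
  rw [← sum_add_distrib]
  refine sum_congr rfl fun i _ => ?_
  cases s i <;> simp

def Sup (m : Fin N → ℕ) (s : Fin N → Bool) : Prop := ∀ i, s i = true → 0 < m i

theorem sup_iff (m : Fin N → ℕ) (s : Fin N → Bool) : Sup m s ↔ cn m s 0 = 0 := by
  unfold Sup cn
  rw [sum_eq_zero_iff]
  refine forall_congr' fun i => ?_
  cases s i <;> simp [Nat.pos_iff_ne_zero]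

theorem mu_sb {m : Fin N → ℕ} {s : Fin N → Bool} (h : Sup m s) (a : ℕ) :
    mu (sb m s) a = cn m s (a + 1) + cn m (nt s) a := by
  unfold mu cn sb nt
  rw [← sum_add_distrib]
  refine sum_congr rfl fun i _ => ?_
  have := h i
  cases hs : s i
  · simp
  · have h1 := this hs
    have h2 : m i - 1 = a ↔ m i = a + 1 := by omega
    simp [h2]

theorem sum_sb {m : Fin N → ℕ} {s : Fin N → Bool} (h : Sup m s) :
    ∑ i, sb m s i + wt s = ∑ i, m i := by
  unfold sb wt
  rw [← sum_add_distrib]
  refine sum_congr rfl fun i _ => ?_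
  have := h i
  cases hs : s i
  · simp
  · have h1 := this hs
    simp
    omega

open Classical in
noncomputable def AA (t : ℝ) (l m : Fin N → ℕ) : ℝ :=
  ∑ s : Fin N → Bool, if mu (ad l s) = mu m then t ^ iv l s else 0

open Classical in
noncomputable def BB (t : ℝ) (m l : Fin N → ℕ) : ℝ :=
  ∑ s : Fin N → Bool, if Sup m s ∧ mu (sb m s) = mu l then t ^ iv m (nt s) else 0

theorem compat_A {l m : Fin N → ℕ} {s : Fin N → Bool} (h : mu (ad l s) = mu m) :
    Compat l m (cn l s) (cn l (nt s)) :=
  ⟨mu_split l s, by rw [← h, mu_ad_zero], fun a => by rw [← h, mu_ad_succ]⟩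

theorem compat_B {l m : Fin N → ℕ} {s : Fin N → Bool} (h0 : Sup m s) (h : mu (sb m s) = mu l) :
    Compat l m (fun a => cn m s (a + 1)) (cn m (nt s)) := by
  refine ⟨fun a => by rw [← h, mu_sb h0], ?_, fun a => by rw [mu_split m s, add_comm]⟩
  rw [mu_split m s, (sup_iff m s).1 h0, zero_add]

theorem AA_eq (t : ℝ) {l m : Fin N → ℕ} {k d : ℕ → ℕ} (h : Compat l m k d) :
    AA t l m = ZZ t l k := by
  classical
  unfold AA ZZ
  refine sum_congr rfl fun s _ => if_congr ⟨fun hs => ((compat_A hs).unique h).1, fun hs => ?_⟩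
    rfl rfl
  have h1 : ∀ a, cn l (nt s) a = d a := fun a => by
    have := mu_split l s a
    have := h.1 a
    have := congrFun hs a
    omega
  funext a
  cases a with
  | zero => rw [mu_ad_zero, h1, h.2.1]
  | succ a => rw [mu_ad_succ, h1, hs, h.2.2]

theorem nt_nt (s : Fin N → Bool) : nt (nt s) = s := funext fun i => by simp [nt]

theorem BB_eq (t : ℝ) {l m : Fin N → ℕ} {k d : ℕ → ℕ} (h : Compat l m k d) :
    BB t m l = ZZ t m d := by
  classical
  unfold BB ZZ
  rw [← Equiv.sum_comp (Function.Involutive.toPerm nt nt_nt)]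
  refine sum_congr rfl fun s _ => ?_
  simp only [Function.Involutive.coe_toPerm, nt_nt]
  refine if_congr ⟨fun hs => ?_, fun hs => ?_⟩ rfl rfl
  · have := ((compat_B hs.1 hs.2).unique h).2
    rwa [nt_nt] at this
  · have h0 : Sup m (nt s) := by
      rw [sup_iff]
      have := mu_split m s 0
      have := h.2.1
      have := congrFun hs 0
      omega
    refine ⟨h0, funext fun a => ?_⟩
    rw [mu_sb h0, nt_nt]
    have := mu_split m s (a + 1)
    have := h.2.2 a
    have := h.1 a
    have := congrFun hs a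
    have := congrFun hs (a + 1)
    omega

def shf (k : ℕ → ℕ) : ℕ → ℕ
  | 0 => 0
  | (a + 1) => k a

theorem PF_shf (t : ℝ) (M : ℕ) (k : ℕ → ℕ) : PF t (M + 1) (shf k) = PF t M k := by
  unfold PF
  rw [prod_range_succ']
  simp [shf, qfac_zero]

theorem BB_val (t : ℝ) {l m : Fin N → ℕ} {k d : ℕ → ℕ} (h : Compat l m k d) {M : ℕ}
    (hm : ∀ i, m i < M + 1) :
    BB t m l * (PF t (M + 1) d * PF t M k) = PF t (M + 1) (mu m) := by
  rw [BB_eq t h, ← PF_shf t M k]
  refine ZZ_eq t (M + 1) N m d (shf k) hm fun a => ?_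
  cases a with
  | zero => exact h.2.1
  | succ a => exact h.2.2 a

theorem AB (t : ℝ) (l m : Fin N → ℕ) : AA t l m * vl t m = BB t m l * vl t l := by
  by_cases h : ∃ k d, Compat l m k d
  · obtain ⟨k, d, h⟩ := h
    obtain ⟨M, hl, hm⟩ : ∃ M, (∀ i, l i < M) ∧ ∀ i, m i < M + 1 := by
      refine ⟨∑ i, l i + ∑ i, m i + 1, fun i => ?_, fun i => ?_⟩
      · have := single_le_sum (f := l) (fun _ _ => Nat.zero_le _) (mem_univ i)
        omega
      · have := single_le_sum (f := m) (fun _ _ => Nat.zero_le _) (mem_univ i)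
        omega
    have hl' : ∀ i, l i < M + 1 := fun i => (hl i).trans (Nat.lt_succ_self M)
    have h1 := ZZ_eq t (M + 1) N l k d hl' h.1
    have h2 := BB_val t h hm
    have h3 : PF t (M + 1) k = PF t M k := by
      have h4 : mu l M = 0 := mu_eq_zero fun i => (hl i).ne
      have h5 : k M = 0 := by have := h.1 M; omega
      unfold PF
      rw [prod_range_succ, h5, qfac_zero, mul_one]
    rw [vl_eq t m hm, vl_eq t l hl', AA_eq t h, ← h1, ← h2, h3]
    ring
  · have h1 : AA t l m = 0 := sum_eq_zero fun s _ => if_neg fun hs => h ⟨_, _, compat_A hs⟩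
    have h2 : BB t m l = 0 :=
      sum_eq_zero fun s _ => if_neg fun hs => h ⟨_, _, compat_B hs.1 hs.2⟩
    rw [h1, h2, zero_mul, zero_mul]

theorem exists_unique_Par (α : Fin N → ℕ) :
    ∃ m ∈ Par N (∑ i, α i), mu α = mu m ∧ ∀ m' , Antitone m' → mu α = mu m' → m' = m := by
  obtain ⟨σ, hσ⟩ := exists_sort α
  refine ⟨α ∘ σ, mem_Par.2 ⟨Equiv.sum_comp σ α, hσ⟩, (mu_comp α σ).symm, fun m' h1 h2 => ?_⟩
  exact eq_of_mu h1 hσ (h2.symm.trans (mu_comp α σ).symm)

theorem pieri {t : ℝ} (ht : 0 < t) (x : Fin N → ℝ) (r : ℕ) {n : ℕ} {l : Fin N → ℕ}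
    (hl : l ∈ Par N n) :
    ee x r * HLP t l x = ∑ m ∈ Par N (n + r), BB t m l * HLP t m x := by
  classical
  obtain ⟨hl1, hl2⟩ := mem_Par.1 hl
  have h1 : ee x r * HLR t l x = ∑ m ∈ Par N (n + r), AA t l m * HLR t m x := by
    rw [ee_HLR]
    unfold AA
    simp only [sum_mul]
    rw [sum_comm]
    refine sum_congr rfl fun s _ => ?_
    by_cases hs : wt s = r
    · obtain ⟨m, hm, h2, h3⟩ := exists_unique_Par (ad l s)
      rw [sum_ad, hl1, hs] at hm
      rw [if_pos hs, sum_eq_single m, if_pos h2]
      · exact straighten t x hl2 (mem_Par.1 hm).2 _ s rfl h2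
      · intro m' hm' hne
        rw [if_neg fun h => hne (h3 m' (mem_Par.1 hm').2 h), zero_mul]
      · intro h
        exact absurd hm h
    · rw [if_neg hs]
      refine (sum_eq_zero fun m hm => ?_).symm
      rw [if_neg, zero_mul]
      intro h
      have h2 := sum_of_mu h
      rw [sum_ad, hl1, (mem_Par.1 hm).1] at h2
      omega
  unfold HLP
  rw [← mul_div_assoc, h1, sum_div]
  refine sum_congr rfl fun m _ => ?_
  have h2 := AB t l m
  have h3 := (vl_pos ht l).ne'
  have h4 := (vl_pos ht m).ne'
  field_simp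
  linear_combination (HLR t m x) * h2

end Pool.Agent.Lib.MP_2c9e21_co
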