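import Mathlib
import Pool.Agent.Lib.MP_2c9e21_co.Pieri

namespace Pool.Agent.Lib.MP_2c9e21_co

open Finset Polynomial

theorem lag0 {ι : Type} [DecidableEq ι] (s : Finset ι) (v : ι → ℝ) (hv : Set.InjOn v s) (t : ℝ)
    (h0 : ∀ i ∈ s, v i ≠ 0) :
    (1 - t) * ∑ k ∈ s, ∏ j ∈ s.erase k, (v k - t * v j) / (v k - v j) = 1 - t ^ s.card := by
  rcases s.eq_empty_or_nonempty with rfl | hs
  · simp
  have hc : 0 < s.card := hs.card_pos
  set A : ℝ[X] := ∏ j ∈ s, (X - C (t * v j)) with hA
  set B : ℝ[X] := ∏ j ∈ s, (X - C (v j)) with hB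
  have mA : A.Monic := monic_prod_of_monic _ _ fun j _ => monic_X_sub_C _
  have mB : B.Monic := monic_prod_of_monic _ _ fun j _ => monic_X_sub_C _
  have dA : A.natDegree = s.card := by
    rw [hA, natDegree_prod_of_monic _ _ fun j _ => monic_X_sub_C _]
    simp only [natDegree_X_sub_C, sum_const, smul_eq_mul, mul_one]
  have dB : B.natDegree = s.card := by
    rw [hB, natDegree_prod_of_monic _ _ fun j _ => monic_X_sub_C _]
    simp only [natDegree_X_sub_C, sum_const, smul_eq_mul, mul_one]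
  set p : ℝ[X] := A - C (t ^ s.card) * B with hp
  have p0 : p.coeff 0 = 0 := by
    rw [coeff_zero_eq_eval_zero, hp, hA, hB]
    simp only [eval_sub, eval_mul, eval_C, eval_prod, eval_X, zero_sub]
    rw [← prod_const, ← prod_mul_distrib, sub_eq_zero]
    exact prod_congr rfl fun j _ => by ring
  have hq : p.divX * X = p := by
    have := divX_mul_X_add p
    rwa [p0, C_0, add_zero] at this
  have hd : p.divX.degree < s.card := by
    rw [degree_lt_iff_coeff_zero]
    intro m hm
    rw [coeff_divX, hp, coeff_sub, coeff_C_mul, coeff_eq_zero_of_natDegree_lt (by omega),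
      coeff_eq_zero_of_natDegree_lt (by omega)]
    simp
  have h1 := Lagrange.coeff_eq_sum hv hd
  rw [coeff_divX, Nat.sub_add_cancel hc, hp, coeff_sub, coeff_C_mul] at h1
  have a1 : A.coeff s.card = 1 := by rw [← dA]; exact mA.coeff_natDegree
  have b1 : B.coeff s.card = 1 := by rw [← dB]; exact mB.coeff_natDegree
  rw [a1, b1, mul_one] at h1
  rw [h1, mul_sum]
  refine sum_congr rfl fun k hk => ?_
  have h2 := congrArg (eval (v k)) hq
  rw [eval_mul, eval_X] at h2
  have h3 : eval (v k) p = ((1 - t) * ∏ j ∈ s.erase k, (v k - t * v j)) * v k := by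
    rw [hp, hA, hB]
    simp only [eval_sub, eval_mul, eval_C, eval_prod, eval_X]
    rw [← mul_prod_erase s (fun j => v k - t * v j) hk, ← mul_prod_erase s (fun j => v k - v j) hk]
    ring
  rw [h3] at h2
  rw [mul_right_cancel₀ (h0 k hk) h2, prod_div_distrib, mul_div_assoc]

theorem lag1 {ι : Type} [DecidableEq ι] (s : Finset ι) (v : ι → ℝ) (hv : Set.InjOn v s) (t : ℝ)
    (h0 : ∀ i ∈ s, v i ≠ 0) :
    ∑ k ∈ s, ∏ j ∈ s.erase k, (v k - t * v j) / (v k - v j) = qi t s.card := by
  by_cases ht : t = 1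
  · subst ht
    have : ∀ k ∈ s, ∏ j ∈ s.erase k, (v k - 1 * v j) / (v k - v j) = 1 := by
      intro k hk
      refine prod_eq_one fun j hj => ?_
      rw [one_mul]
      exact div_self (sub_ne_zero.2 fun h =>
        (ne_of_mem_erase hj).symm (hv hk (mem_of_mem_erase hj) h))
    rw [sum_congr rfl this]
    simp [qi]
  · refine mul_left_cancel₀ (sub_ne_zero.2 (Ne.symm ht)) ?_
    rw [lag0 s v hv t h0, qi_mul]

theorem lag {ι : Type} [DecidableEq ι] (s : Finset ι) (v : ι → ℝ) (hv : Set.InjOn v s) (t : ℝ) :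
    ∑ k ∈ s, ∏ j ∈ s.erase k, (v k - t * v j) / (v k - v j) = qi t s.card := by
  by_cases h0 : ∀ i ∈ s, v i ≠ 0
  · exact lag1 s v hv t h0
  push Not at h0
  obtain ⟨c, hc, hc0⟩ := h0
  have hn : ∀ i ∈ s.erase c, v i ≠ 0 := fun i hi h =>
    ne_of_mem_erase hi (hv (mem_of_mem_erase hi) hc (h.trans hc0.symm))
  have h1 := lag1 (s.erase c) v (hv.mono (by simp)) t hn
  rw [← add_sum_erase s _ hc, ← card_erase_add_one hc, qi_add, ← h1, add_comm]
  congr 1
  · refine sum_congr rfl fun k hk => ?_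
    have hck : c ∈ s.erase k := mem_erase.2 ⟨(ne_of_mem_erase hk).symm, hc⟩
    rw [← mul_prod_erase _ _ hck, hc0, erase_right_comm]
    simp [hn k hk]
  · have : ∀ j ∈ s.erase c, (v c - t * v j) / (v c - v j) = t := by
      intro j hj
      have := hn j hj
      rw [hc0]
      field_simp
      ring
    rw [prod_congr rfl this]
    simp [qi]

def cons {n : ℕ} (k : Fin (n + 1)) (σ : Equiv.Perm (Fin n)) : Equiv.Perm (Fin (n + 1)) :=
  (finSuccEquiv n).trans ((Equiv.optionCongr σ).trans (finSuccEquiv' k).symm)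

theorem cons_zero {n : ℕ} (k : Fin (n + 1)) (σ : Equiv.Perm (Fin n)) : cons k σ 0 = k := by
  simp [cons]

theorem cons_succ {n : ℕ} (k : Fin (n + 1)) (σ : Equiv.Perm (Fin n)) (i : Fin n) :
    cons k σ i.succ = k.succAbove (σ i) := by
  simp [cons]

theorem cons_bij (n : ℕ) :
    Function.Bijective (fun p : Fin (n + 1) × Equiv.Perm (Fin n) => cons p.1 p.2) := by
  rw [Fintype.bijective_iff_injective_and_card]
  refine ⟨?_, by simp [Fintype.card_perm, Nat.factorial_succ]⟩
  rintro ⟨k, σ⟩ ⟨l, τ⟩ h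
  have h' : cons k σ = cons l τ := h
  have hk : k = l := by rw [← cons_zero k σ, h', cons_zero]
  subst hk
  have : σ = τ := by
    ext i
    have := cons_succ k σ i
    rw [h', cons_succ] at this
    exact congrArg Fin.val (Fin.succAbove_right_injective this).symm
  rw [this]

theorem pairs_succ {n : ℕ} (F : Fin (n + 1) → Fin (n + 1) → ℝ) :
    ∏ p ∈ univ.filter (fun p : Fin (n + 1) × Fin (n + 1) => p.1 < p.2), F p.1 p.2 =
      (∏ j : Fin n, F 0 j.succ) *
        ∏ p ∈ univ.filter (fun p : Fin n × Fin n => p.1 < p.2), F p.1.succ p.2.succ := by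
  rw [prod_filter, prod_filter, Fintype.prod_prod_type, Fintype.prod_prod_type,
    Fin.prod_univ_succ, Fin.prod_univ_succ]
  congr 1
  · simp
  · refine prod_congr rfl fun i _ => ?_
    rw [Fin.prod_univ_succ]
    simp

theorem prod_erase_succAbove {n : ℕ} (k : Fin (n + 1)) (F : Fin (n + 1) → ℝ) :
    ∏ j ∈ univ.erase k, F j = ∏ j : Fin n, F (k.succAbove j) := by
  rw [← compl_singleton, ← Fin.image_succAbove_univ,
    prod_image fun _ _ _ _ h => Fin.succAbove_right_injective h]

theorem HLR_zero (t : ℝ) : ∀ (N : ℕ) (x : Fin N → ℝ), Function.Injective x →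
    HLR t (fun _ => 0) x = qfac t N := by
  intro N
  induction N with
  | zero => intro x _; simp [HLR, qfac]
  | succ N ih =>
    intro x hx
    have h1 := lag univ x hx.injOn t
    rw [card_univ, Fintype.card_fin] at h1
    rw [qfac_succ, ← h1, mul_sum]
    unfold HLR
    rw [← (cons_bij N).sum_comp, Fintype.sum_prod_type]
    refine sum_congr rfl fun k _ => ?_
    rw [← ih (fun i => x (k.succAbove i)) (hx.comp Fin.succAbove_right_injective)]
    unfold HLR
    rw [sum_mul]
    refine sum_congr rfl fun σ _ => ?_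
    simp only [pow_zero, prod_const_one, one_mul]
    rw [pairs_succ (fun a b => (x (cons k σ a) - t * x (cons k σ b)) /
      (x (cons k σ a) - x (cons k σ b))), mul_comm, prod_erase_succAbove]
    simp only [cons_zero, cons_succ]
    congr 1
    exact Equiv.prod_comp σ (fun j => (x k - t * x (k.succAbove j)) / (x k - x (k.succAbove j)))

theorem HLP_zero {N : ℕ} {t : ℝ} (ht : 0 < t) {x : Fin N → ℝ} (hx : Function.Injective x) :
    HLP t (fun _ => 0) x = 1 := by
  unfold HLP
  rw [HLR_zero t N x hx, vl_eq t (fun _ => 0) (M := 1) (fun _ => Nat.one_pos)]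
  have : PF t 1 (mu (fun _ : Fin N => 0)) = qfac t N := by simp [PF, mu]
  rw [this]
  exact div_self (qfac_pos ht N).ne'

end Pool.Agent.Lib.MP_2c9e21_co
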