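import Mathlib
import Pool.Agent.Lib.MP_2c9e21_co.R0

namespace Pool.Agent.Lib.MP_2c9e21_co

open Finset

variable {N : ℕ}

theorem ee_eq (x : Fin N → ℝ) (r : ℕ) :
    ee x r = ∑ T : Finset (Fin N), if T.card = r then ∏ i ∈ T, x i else 0 := by
  unfold ee
  refine Fintype.sum_equiv ⟨fun s => univ.filter (fun i => s i = true),
    fun T i => decide (i ∈ T), fun s => by funext i; simp, fun T => by ext i; simp⟩ _ _
    fun s => ?_
  have h1 : wt s = (univ.filter (fun i => s i = true)).card := by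
    unfold wt
    rw [card_filter]
    refine sum_congr rfl fun i _ => ?_
    cases s i <;> simp
  have h2 : ∏ i, x i ^ (s i).toNat = ∏ i ∈ univ.filter (fun i => s i = true), x i := by
    rw [prod_filter]
    refine prod_congr rfl fun i _ => ?_
    cases s i <;> simp
  rw [h1, h2]
  rfl

theorem ee_esymm (x : Fin N → ℝ) (r : ℕ) :
    MvPolynomial.aeval x (MvPolynomial.esymm (Fin N) ℝ r) = ee x r := by
  rw [ee_eq, MvPolynomial.esymm, map_sum, powersetCard_eq_filter, powerset_univ, sum_filter]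
  refine sum_congr rfl fun T _ => ?_
  simp

def InSp (t : ℝ) (n : ℕ) (f : (Fin N → ℝ) → ℝ) : Prop :=
  ∃ c : (Fin N → ℕ) → ℝ, ∀ x, Function.Injective x → f x = ∑ μ ∈ Par N n, c μ * HLP t μ x

theorem Par_zero : Par N 0 = {fun _ => 0} := by
  ext l
  rw [mem_Par, mem_singleton]
  constructor
  · rintro ⟨h, -⟩
    funext i
    exact sum_eq_zero_iff.1 h i (mem_univ i)
  · rintro rfl
    exact ⟨by simp, antitone_const⟩

theorem exp_ee {t : ℝ} (ht : 0 < t) (x : Fin N → ℝ) (r n : ℕ) (c : (Fin N → ℕ) → ℝ) :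
    ee x r * ∑ l ∈ Par N n, c l * HLP t l x =
      ∑ m ∈ Par N (n + r), (∑ l ∈ Par N n, BB t m l * c l) * HLP t m x := by
  simp only [mul_sum, sum_mul]
  rw [sum_comm]
  refine sum_congr rfl fun l hl => ?_
  rw [mul_left_comm, pieri ht x r hl, mul_sum]
  exact sum_congr rfl fun m _ => by ring

theorem InSp.ee {t : ℝ} (ht : 0 < t) {n : ℕ} {f : (Fin N → ℝ) → ℝ} (h : InSp t n f) (r : ℕ) :
    InSp t (n + r) (fun x => ee x r * f x) := by
  obtain ⟨c, hc⟩ := h
  exact ⟨_, fun x hx => (congrArg _ (hc x hx)).trans (exp_ee ht x r n c)⟩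

theorem InSp.pow {t : ℝ} (ht : 0 < t) {n : ℕ} {f : (Fin N → ℝ) → ℝ} (h : InSp t n f) (r k : ℕ) :
    InSp t (n + r * k) (fun x => Pool.Agent.Lib.MP_2c9e21_co.ee x r ^ k * f x) := by
  induction k with
  | zero => simpa using h
  | succ k ih =>
    have := ih.ee ht r
    rw [mul_add, mul_one, ← add_assoc]
    simpa only [pow_succ', mul_assoc] using this

theorem inSp_prod {t : ℝ} (ht : 0 < t) (d : Fin N → ℕ) (s : Finset (Fin N)) :
    InSp t (∑ i ∈ s, (i.val + 1) * d i) (fun x : Fin N → ℝ => ∏ i ∈ s, ee x (i + 1) ^ d i) := by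
  induction s using Finset.induction_on with
  | empty => exact ⟨fun _ => 1, fun x hx => by simp [Par_zero, HLP_zero ht hx]⟩
  | insert a s ha ih =>
    simp only [sum_insert ha, prod_insert ha]
    rw [add_comm]
    exact ih.pow ht _ _

def ex (l : Fin N → ℕ) (i : ℕ) : ℕ := if h : i < N then l ⟨i, h⟩ else 0

noncomputable def df (l : Fin N → ℕ) : Fin N →₀ ℕ :=
  Finsupp.equivFunOnFinite.symm fun i => ex l i - ex l (i + 1)

theorem ex_anti {l : Fin N → ℕ} (hl : Antitone l) (i : ℕ) : ex l (i + 1) ≤ ex l i := by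
  unfold ex
  split_ifs with h1 h2 h2
  · exact hl (by simp [Fin.le_def])
  · omega
  · omega
  · omega

theorem abel_ex {l : Fin N → ℕ} (hl : Antitone l) (M : ℕ) :
    ∑ i ∈ range M, (i + 1) * (ex l i - ex l (i + 1)) + M * ex l M = ∑ i ∈ range M, ex l i := by
  induction M with
  | zero => simp
  | succ M ih =>
    obtain ⟨c, hc⟩ := Nat.exists_eq_add_of_le (ex_anti hl M)
    rw [sum_range_succ, sum_range_succ, ← ih, hc, Nat.add_sub_cancel_left]
    ring

theorem sum_df {l : Fin N → ℕ} (hl : Antitone l) : ∑ i, (i.val + 1) * df l i = ∑ i, l i := by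
  have h := abel_ex hl N
  have h0 : ex l N = 0 := by simp [ex]
  rw [h0, mul_zero, add_zero, sum_range, sum_range] at h
  simpa [ex, df] using h

theorem df_inj {l m : Fin N → ℕ} (hl : Antitone l) (hm : Antitone m) (h : df l = df m) :
    l = m := by
  have key : ∀ k i, i + k = N → ex l i = ex m i := by
    intro k
    induction k with
    | zero => intro i hi; simp [ex, show i = N by omega]
    | succ k ih =>
      intro i hi
      have h1 := ih (i + 1) (by omega)
      have h2 := congrArg (fun d : Fin N →₀ ℕ => d ⟨i, by omega⟩) h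
      simp only [df, Finsupp.equivFunOnFinite_symm_apply_apply] at h2
      have := ex_anti hl i
      have := ex_anti hm i
      omega
  funext i
  have := key (N - i) i (by omega)
  simpa [ex] using this

theorem mv_zero (q : MvPolynomial (Fin N) ℝ)
    (h : ∀ x : Fin N → ℝ, Function.Injective x → MvPolynomial.aeval x q = 0) : q = 0 := by
  refine MvPolynomial.funext_set (fun i : Fin N => Set.Ioo (i.val : ℝ) (i.val + 1))
    (fun i => Set.Ioo_infinite (by linarith)) fun x hx => ?_
  rw [map_zero]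
  refine h x fun i j hij => ?_
  have h1 := hx i trivial
  have h2 := hx j trivial
  rw [hij] at h1
  have h3 : (i.val : ℝ) < j.val + 1 := h1.1.trans h2.2
  have h4 : (j.val : ℝ) < i.val + 1 := h2.1.trans h1.2
  have h5 : i.val < j.val + 1 := by exact_mod_cast h3
  have h6 : j.val < i.val + 1 := by exact_mod_cast h4
  exact Fin.ext (by omega)

theorem indep_e (n : ℕ) : LinearIndependent ℝ (fun (l : Par N n)
    (x : {x : Fin N → ℝ // Function.Injective x}) => ∏ i, ee x.1 (i.val + 1) ^ df l.1 i) := by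
  classical
  rw [Fintype.linearIndependent_iff]
  intro c hc l
  set p : MvPolynomial (Fin N) ℝ := ∑ m : Par N n, MvPolynomial.monomial (df m.1) (c m) with hp
  have h1 : (MvPolynomial.esymmAlgHom (Fin N) ℝ N p).val = 0 := by
    refine mv_zero _ fun x hx => ?_
    have h2 := congrFun hc ⟨x, hx⟩
    simp only [Finset.sum_apply, Pi.smul_apply, smul_eq_mul, Pi.zero_apply] at h2
    rw [MvPolynomial.esymmAlgHom_apply, hp, map_sum, map_sum, ← h2]
    refine sum_congr rfl fun m _ => ?_
    rw [MvPolynomial.aeval_monomial, Finsupp.prod_fintype _ _ (by simp), map_mul, map_prod]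
    simp only [map_pow, ee_esymm]
    simp
  have h2 : p = 0 := MvPolynomial.esymmAlgHom_fin_injective ℝ (le_refl N)
    (by rw [map_zero]; exact Subtype.ext h1)
  have h3 := congrArg (MvPolynomial.coeff (df l.1)) h2
  rw [hp, MvPolynomial.coeff_sum, sum_eq_single l] at h3
  · simpa using h3
  · intro m _ hm
    rw [MvPolynomial.coeff_monomial, if_neg]
    exact fun h => hm (Subtype.ext (df_inj (mem_Par.1 m.2).2 (mem_Par.1 l.2).2 h))
  · simp

theorem indep_P {t : ℝ} (ht : 0 < t) (n : ℕ) : LinearIndependent ℝ (fun (l : Par N n)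
    (x : {x : Fin N → ℝ // Function.Injective x}) => HLP t l.1 x.1) := by
  have h := indep_e (N := N) n
  rw [linearIndependent_iff_card_le_finrank_span] at h ⊢
  refine h.trans ?_
  unfold Set.finrank
  have := Module.Finite.span_of_finite ℝ (Set.finite_range (fun (l : Par N n)
    (x : {x : Fin N → ℝ // Function.Injective x}) => HLP t l.1 x.1))
  refine Submodule.finrank_mono (Submodule.span_le.2 ?_)
  rintro _ ⟨l, rfl⟩
  obtain ⟨c, hc⟩ := inSp_prod ht (df l.1) univ
  rw [sum_df (mem_Par.1 l.2).2, (mem_Par.1 l.2).1] at hc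
  rw [SetLike.mem_coe, Submodule.mem_span_range_iff_exists_fun]
  refine ⟨fun m => c m.1, funext fun x => ?_⟩
  simp only [Finset.sum_apply, Pi.smul_apply, smul_eq_mul]
  exact (sum_coe_sort (Par N n) (fun m => c m * HLP t m x.1)).trans (hc x.1 x.2).symm

theorem coef_unique {t : ℝ} (ht : 0 < t) {n : ℕ} {c c' : (Fin N → ℕ) → ℝ}
    (h : ∀ x, Function.Injective x →
      ∑ μ ∈ Par N n, c μ * HLP t μ x = ∑ μ ∈ Par N n, c' μ * HLP t μ x) :
    ∀ μ ∈ Par N n, c μ = c' μ := by
  intro μ hμ
  have h1 := Fintype.linearIndependent_iff.1 (indep_P (N := N) ht n) (fun m => c m.1 - c' m.1)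
    (funext fun x => by
      simp only [Finset.sum_apply, Pi.smul_apply, smul_eq_mul, Pi.zero_apply, sub_mul,
        sum_sub_distrib]
      rw [sub_eq_zero, sum_coe_sort (Par N n) (fun m => c m * HLP t m x.1),
        sum_coe_sort (Par N n) (fun m => c' m * HLP t m x.1)]
      exact h x.1 x.2) ⟨μ, hμ⟩
  exact sub_eq_zero.1 h1

theorem poly_ext {p q : Polynomial ℤ}
    (h : ∀ t : ℝ, 0 < t → Polynomial.aeval t p = Polynomial.aeval t q) : p = q := by
  refine Polynomial.map_injective (algebraMap ℤ ℝ) (algebraMap ℤ ℝ).injective_int ?_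
  refine Polynomial.eq_of_infinite_eval_eq _ _ ((Set.Ioi_infinite (0 : ℝ)).mono fun t ht => ?_)
  simpa only [Set.mem_ofPred_eq, Polynomial.eval_map_algebraMap] using h t ht

theorem IsExp.unique {l : ℕ} {ξ : Fin l → ℕ} {K K' : (Fin N → ℕ) → Polynomial ℤ}
    (h : IsExp N ξ K) (h' : IsExp N ξ K') : ∀ μ ∈ Par N (∑ i, ξ i), K' μ = K μ :=
  fun μ hμ => poly_ext fun t ht => coef_unique ht
    (c := fun μ => Polynomial.aeval t (K' μ)) (c' := fun μ => Polynomial.aeval t (K μ))
    (fun x hx => (h' t ht x hx).symm.trans (h t ht x hx)) μ hμ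

end Pool.Agent.Lib.MP_2c9e21_co
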