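import Mathlib
import Pool.Agent.Lib.MP_2c9e21_co.Indep

namespace Pool.Agent.Lib.MP_2c9e21_co

open Finset

variable {N : ℕ}

def tri (N a b : ℕ) : Fin N → ℕ := fun i => if i.val < a then 2 else if i.val < a + b then 1 else 0

theorem cnt {a : ℕ} (h : a ≤ N) : ∑ i : Fin N, (if i.val < a then 1 else 0) = a := by
  rw [← card_filter, Fin.card_filter_val_lt]
  omega

theorem tri_anti (a b : ℕ) : Antitone (tri N a b) := by
  intro i j hij
  have : i.val ≤ j.val := hij
  unfold tri
  split_ifs <;> omega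

theorem mu_tri_two {a b : ℕ} (h : a + b ≤ N) : mu (tri N a b) 2 = a := by
  refine Eq.trans (sum_congr rfl fun i _ => ?_) (cnt (N := N) (by omega))
  unfold tri
  split_ifs <;> omega

theorem mu_tri_one {a b : ℕ} (h : a + b ≤ N) : mu (tri N a b) 1 = b := by
  have h1 : mu (tri N a b) 1 + ∑ i : Fin N, (if i.val < a then 1 else 0) =
      ∑ i : Fin N, (if i.val < a + b then 1 else 0) := by
    unfold mu
    rw [← sum_add_distrib]
    refine sum_congr rfl fun i _ => ?_
    unfold tri
    split_ifs <;> first | omega | contradiction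
  rw [cnt h, cnt (by omega)] at h1
  omega

theorem mu_tri_zero {a b : ℕ} (h : a + b ≤ N) : mu (tri N a b) 0 = N - (a + b) := by
  have h1 : mu (tri N a b) 0 + ∑ i : Fin N, (if i.val < a + b then 1 else 0) =
      ∑ i : Fin N, (if i.val < N then 1 else 0) := by
    unfold mu
    rw [← sum_add_distrib]
    refine sum_congr rfl fun i _ => ?_
    have := i.2
    unfold tri
    split_ifs <;> first | omega | contradiction
  rw [cnt h, cnt le_rfl] at h1
  omega

theorem mu_tri_big (a b c : ℕ) : mu (tri N a b) (c + 3) = 0 := by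
  refine mu_eq_zero fun i => ?_
  unfold tri
  split_ifs <;> omega

theorem sum_tri {a b : ℕ} (h : a + b ≤ N) : ∑ i, tri N a b i = 2 * a + b := by
  have h1 : ∑ i, tri N a b i = ∑ i : Fin N, (if i.val < a then 1 else 0) +
      ∑ i : Fin N, (if i.val < a + b then 1 else 0) := by
    rw [← sum_add_distrib]
    refine sum_congr rfl fun i _ => ?_
    unfold tri
    split_ifs <;> omega
  rw [h1, cnt h, cnt (by omega)]
  omega

theorem tri_mem {a b n : ℕ} (h : a + b ≤ N) (hn : 2 * a + b = n) : tri N a b ∈ Par N n :=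
  mem_Par.2 ⟨(sum_tri h).trans hn, tri_anti a b⟩

theorem mu_total {f : Fin N → ℕ} (h : ∀ c, mu f (c + 3) = 0) :
    mu f 0 + mu f 1 + mu f 2 = N := by
  have h1 : ∀ i, f i < 3 := fun i => by
    by_contra hc
    have h2 := sum_eq_zero_iff.1 (h (f i - 3)) i (mem_univ i)
    rw [if_pos (by omega)] at h2
    omega
  refine Eq.trans ?_ (cnt (N := N) le_rfl)
  unfold mu
  rw [← sum_add_distrib, ← sum_add_distrib]
  refine sum_congr rfl fun i _ => ?_
  have := h1 i
  have := i.2
  split_ifs <;> omega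

theorem eq_tri {l : Fin N → ℕ} (hl : Antitone l) (h : ∀ c, mu l (c + 3) = 0) :
    l = tri N (mu l 2) (mu l 1) := by
  have h1 := mu_total h
  refine eq_of_mu hl (tri_anti _ _) (funext fun c => ?_)
  match c with
  | 0 => rw [mu_tri_zero (by omega)]; omega
  | 1 => rw [mu_tri_one (by omega)]
  | 2 => rw [mu_tri_two (by omega)]
  | (c + 3) => rw [mu_tri_big, h]

theorem BB_ne {t : ℝ} {a b n : ℕ} (h : a + b ≤ N) {l : Fin N → ℕ} (hl : l ∈ Par N n)
    (hB : BB t (tri N a b) l ≠ 0) : ∃ a' k1 d1 k0, a = a' + k1 ∧ b = d1 + k0 ∧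
      l = tri N a' (k1 + d1) ∧ 2 * a' + (k1 + d1) = n := by
  classical
  obtain ⟨s, -, hs⟩ := exists_ne_zero_of_sum_ne_zero hB
  have hs' : Sup (tri N a b) s ∧ mu (sb (tri N a b) s) = mu l := by
    by_contra hc
    exact hs (if_neg hc)
  obtain ⟨k, d, h1, -, h3⟩ : ∃ k d, Compat l (tri N a b) k d := ⟨_, _, compat_B hs'.1 hs'.2⟩
  have e1 := h3 0
  have e2 := h3 1
  have e3 := h3 2
  rw [zero_add, mu_tri_one h] at e1
  rw [show 1 + 1 = 2 from rfl, mu_tri_two h] at e2
  rw [show 2 + 1 = 0 + 3 from rfl, mu_tri_big] at e3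
  have e4 : ∀ c, mu l (c + 3) = 0 := fun c => by
    have f1 := h3 (c + 2)
    have f2 := h3 (c + 3)
    rw [show c + 2 + 1 = c + 3 from rfl, mu_tri_big] at f1
    rw [show c + 3 + 1 = (c + 1) + 3 from rfl, mu_tri_big] at f2
    have := h1 (c + 3)
    omega
  have e5 := eq_tri (mem_Par.1 hl).2 e4
  rw [h1 2, h1 1, show k 2 + d 2 = d 2 by omega] at e5
  refine ⟨d 2, k 1, d 1, k 0, e2, e1, e5, ?_⟩
  rw [← (mem_Par.1 hl).1, e5, sum_tri (by omega)]

theorem BB_tri {t : ℝ} (ht : 0 < t) {a' k1 d1 k0 a b b' : ℕ} (ha : a = a' + k1) (hb : b = d1 + k0)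
    (hb' : b' = k1 + d1) (h : a + b ≤ N) :
    BB t (tri N a b) (tri N a' b') =
      qfac t b * qfac t a / (qfac t d1 * qfac t a' * (qfac t k0 * qfac t k1)) := by
  have hc : Compat (tri N a' b') (tri N a b)
      (fun c => if c = 0 then k0 else if c = 1 then k1 else 0)
      (fun c => if c = 0 then N - (a + b) else if c = 1 then d1 else if c = 2 then a' else 0) := by
    refine ⟨fun c => ?_, ?_, fun c => ?_⟩
    · match c with
      | 0 => rw [mu_tri_zero (by omega)]; simp; omega
      | 1 => rw [mu_tri_one (by omega)]; simp; omega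
      | 2 => rw [mu_tri_two (by omega)]; simp
      | (c + 3) => rw [mu_tri_big]; simp
    · rw [mu_tri_zero h]; simp
    · match c with
      | 0 => rw [zero_add, mu_tri_one h]; simp; omega
      | 1 => rw [show 1 + 1 = 2 from rfl, mu_tri_two h]; simp; omega
      | (c + 2) => rw [show c + 2 + 1 = c + 3 from rfl, mu_tri_big]; simp
  have h1 := BB_val t hc (M := 2) (fun i => by unfold tri; split_ifs <;> omega)
  simp only [PF, prod_range_succ, range_zero, prod_empty, one_mul, mu_tri_zero h, mu_tri_one h,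
    mu_tri_two h] at h1
  simp only [if_true, OfNat.ofNat_ne_zero, if_false, one_ne_zero, OfNat.ofNat_ne_one] at h1
  have p0 := (qfac_pos ht (N - (a + b))).ne'
  have p1 := (qfac_pos ht d1).ne'
  have p2 := (qfac_pos ht a').ne'
  have p3 := (qfac_pos ht k0).ne'
  have p4 := (qfac_pos ht k1).ne'
  rw [eq_div_iff (by positivity)]
  refine mul_left_cancel₀ p0 ?_
  linear_combination h1

open Classical in
noncomputable def BBp (m l : Fin N → ℕ) : Polynomial ℤ :=
  ∑ s : Fin N → Bool, if Sup m s ∧ mu (sb m s) = mu l then Polynomial.X ^ iv m (nt s) else 0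

theorem aeval_BBp (t : ℝ) (m l : Fin N → ℕ) : Polynomial.aeval t (BBp m l) = BB t m l := by
  unfold BBp BB
  rw [map_sum]
  refine sum_congr rfl fun s _ => ?_
  split_ifs <;> simp

end Pool.Agent.Lib.MP_2c9e21_co
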