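import Mathlib
import Pool.Agent.Lib.MP_2c9e21_co.Tri

namespace Pool.Agent.Lib.MP_2c9e21_co

open Finset Polynomial

variable {N : ℕ}

def Good (d : ℕ) (f : (Fin N → ℝ) → ℝ) (a b : ℝ → ℝ) : Prop :=
  ∃ c : (Fin N → ℕ) → ℤ[X],
    (∀ t : ℝ, 0 < t → ∀ x, Function.Injective x →
      f x = ∑ μ ∈ Par N d, aeval t (c μ) * HLP t μ x) ∧
    (d ≤ N → ∀ t : ℝ, 0 < t → t ≠ 1 → aeval t (c (tri N 0 d)) = qfac t d * a t ∧
      (1 - t) * (if 2 ≤ d then aeval t (c (tri N 1 (d - 2))) else 0) =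
        qfac t (d - 2) * (b t - qi t d * a t))

theorem Good.congr {d : ℕ} {f f' : (Fin N → ℝ) → ℝ} {a b a' b' : ℝ → ℝ} (h : Good d f a b)
    (hf : ∀ x, f' x = f x) (ha : ∀ t, 0 < t → t ≠ 1 → a' t = a t)
    (hb : ∀ t, 0 < t → t ≠ 1 → b' t = b t) : Good d f' a' b' := by
  obtain ⟨c, h1, h2⟩ := h
  refine ⟨c, fun t ht x hx => (hf x).trans (h1 t ht x hx), fun hd t ht ht1 => ?_⟩
  rw [ha t ht ht1, hb t ht ht1]
  exact h2 hd t ht ht1

theorem Good.lin {d : ℕ} {f f' : (Fin N → ℝ) → ℝ} {a b a' b' : ℝ → ℝ} (h : Good d f a b)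
    (h' : Good d f' a' b') (z : ℤ) : Good d (fun x => z * f x + f' x) (fun t => z * a t + a' t)
      (fun t => z * b t + b' t) := by
  obtain ⟨c, h1, h2⟩ := h
  obtain ⟨c', h1', h2'⟩ := h'
  refine ⟨fun μ => C z * c μ + c' μ, fun t ht x hx => ?_, fun hd t ht ht1 => ?_⟩
  · simp only [h1 t ht x hx, h1' t ht x hx, mul_sum, ← sum_add_distrib, map_add, map_mul,
      eq_intCast, map_intCast]
    exact sum_congr rfl fun _ _ => by ring
  · obtain ⟨e1, e2⟩ := h2 hd t ht ht1
    obtain ⟨e1', e2'⟩ := h2' hd t ht ht1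
    simp only [map_add, map_mul, eq_intCast, map_intCast]
    refine ⟨by rw [e1, e1']; ring, ?_⟩
    split_ifs at e2 e2' ⊢ <;> linear_combination z * e2 + e2'

theorem good_zero (d : ℕ) : Good (N := N) d (fun _ => 0) (fun _ => 0) (fun _ => 0) :=
  ⟨fun _ => 0, fun _ _ _ _ => by simp, fun _ _ _ _ => by simp⟩

theorem good_one : Good (N := N) 0 (fun _ => 1) (fun _ => 1) (fun _ => 0) :=
  ⟨fun _ => 1, fun t ht x hx => by simp [Par_zero, HLP_zero ht hx],
    fun _ _ _ _ => by simp [qfac_zero, qi_zero]⟩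

theorem qfac_one (t : ℝ) : qfac t 1 = 1 := by simp [qfac]

theorem qi_one (t : ℝ) : qi t 1 = 1 := by simp [qi]

theorem Good.e {d : ℕ} {g : (Fin N → ℝ) → ℝ} {a b : ℝ → ℝ} (h : Good d g a b) (r : ℕ) :
    Good (d + (r + 1)) (fun x => ee x (r + 1) * g x) (fun t => (qfac t (r + 1))⁻¹ * a t)
      (fun t => (qfac t (r + 1))⁻¹ * b t + (qfac t r)⁻¹ * a t) := by
  obtain ⟨c, h1, h2⟩ := h
  refine ⟨fun m => ∑ l ∈ Par N d, BBp m l * c l, fun t ht x hx => ?_, fun hd t ht ht1 => ?_⟩
  · simp only [map_sum, map_mul, aeval_BBp]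
    rw [h1 t ht x hx, exp_ee ht]
  obtain ⟨e1, e2⟩ := h2 (by omega) t ht ht1
  simp only [map_sum, map_mul, aeval_BBp]
  have p1 := (qfac_pos ht r).ne'
  have p2 := (qi_pos ht r).ne'
  have p3 := (qfac_pos ht d).ne'
  constructor
  · rw [sum_eq_single (tri N 0 d), e1,
      BB_tri ht (a' := 0) (k1 := 0) (d1 := d) (k0 := r + 1) rfl rfl (by omega) (by omega)]
    · rw [qfac_zero, qfac_succ t r]
      field_simp
    · intro l hl hne
      refine mul_eq_zero_of_left ?_ _
      by_contra hB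
      obtain ⟨a', k1, d1, k0, f1, f2, f3, f4⟩ := BB_ne (by omega) hl hB
      exact hne (by rw [f3, show a' = 0 by omega, show k1 + d1 = d by omega])
    · intro h
      exact absurd (tri_mem (by omega) (by omega)) h
  match d, e1, e2, hd, p3 with
  | 0, e1, e2, hd, _ =>
    have z : (if 2 ≤ 0 + (r + 1) then ∑ l ∈ Par N 0,
        BB t (tri N 1 (0 + (r + 1) - 2)) l * aeval t (c l) else 0) = 0 := by
      split_ifs with h0
      · refine sum_eq_zero fun l hl => mul_eq_zero_of_left ?_ _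
        by_contra hB
        obtain ⟨a', k1, d1, k0, f1, f2, f3, f4⟩ := BB_ne (by omega) hl hB
        omega
      · rfl
    rw [z]
    rw [if_neg (by omega), qfac_zero, qi_zero] at e2
    have hb : b t = 0 := by linear_combination -e2
    rw [hb, zero_add, qfac_succ t r]
    field_simp
    ring
  | 1, e1, e2, hd, _ =>
    rw [if_neg (by omega), qfac_zero, qi_one] at e2
    have hb : b t = a t := by linear_combination -e2
    rw [if_pos (by omega), show 1 + (r + 1) - 2 = r by omega, sum_eq_single (tri N 0 1), e1,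
      BB_tri ht (a' := 0) (k1 := 1) (d1 := 0) (k0 := r) rfl (by omega) rfl (by omega)]
    · have q1 := qi_mul t (r + 1)
      rw [hb, qfac_zero, qfac_one, qfac_succ t r, add_comm 1 (r + 1), qi_add t (r + 1) 1, qi_one]
      field_simp
      linear_combination (a t) * q1
    · intro l hl hne
      refine mul_eq_zero_of_left ?_ _
      by_contra hB
      obtain ⟨a', k1, d1, k0, f1, f2, f3, f4⟩ := BB_ne (by omega) hl hB
      exact hne (by rw [f3, show a' = 0 by omega, show k1 + d1 = 1 by omega])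
    · intro h
      exact absurd (tri_mem (by omega) (by omega)) h
  | (d + 2), e1, e2, hd, _ =>
    rw [if_pos (by omega), Nat.add_sub_cancel] at e2
    rw [if_pos (by omega), show d + 2 + (r + 1) - 2 = d + 1 + r by omega,
      sum_eq_add_of_mem (tri N 0 (d + 2)) (tri N 1 d) (tri_mem (by omega) (by omega))
        (tri_mem (by omega) (by omega)), e1,
      BB_tri ht (a' := 0) (k1 := 1) (d1 := d + 1) (k0 := r) rfl rfl (by omega) (by omega),
      BB_tri ht (a' := 1) (k1 := 0) (d1 := d) (k0 := r + 1) rfl (by omega) (by omega) (by omega)]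
    · have q1 := qi_mul t (r + 1)
      have q2 := qi_mul t (d + 2)
      have p4 := (qfac_pos ht d).ne'
      have p5 := (qi_pos ht d).ne'
      have e3 : (1 - t) * aeval t (c (tri N 1 d)) / qfac t d = b t - qi t (d + 2) * a t := by
        rw [e2]
        field_simp
      have e4 : b t = (1 - t) * aeval t (c (tri N 1 d)) / qfac t d + qi t (d + 2) * a t := by
        linear_combination -e3
      rw [e4, qfac_zero, qfac_one, qfac_succ t r, qfac_succ t (d + 1), qfac_succ t d,
        qi_add t (d + 2) (r + 1)]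
      field_simp
      linear_combination (qfac t (d + 1 + r) * a t * qfac t d * qi t (r + 1)) * q2
    · intro h
      have := congrArg (fun l => mu l 2) h
      simp only [mu_tri_two (show 0 + (d + 2) ≤ N by omega),
        mu_tri_two (show 1 + d ≤ N by omega)] at this
      omega
    · rintro l hl ⟨hne, hne'⟩
      refine mul_eq_zero_of_left ?_ _
      by_contra hB
      obtain ⟨a', k1, d1, k0, f1, f2, f3, f4⟩ := BB_ne (by omega) hl hB
      rcases Nat.eq_zero_or_pos a' with h0 | h0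
      · exact hne (by rw [f3, h0, show k1 + d1 = d + 2 by omega])
      · exact hne' (by rw [f3, show a' = 1 by omega, show k1 + d1 = d by omega])

def Mu (r : ℕ) (f : (Fin N → ℝ) → ℝ) (a b : ℝ → ℝ) : Prop :=
  ∀ d g a' b', Good d g a' b' → Good (d + r) (fun x => f x * g x) (fun t => a t * a' t)
    (fun t => a t * b' t + b t * a' t)

theorem Mu.congr {d : ℕ} {f f' : (Fin N → ℝ) → ℝ} {a b a' b' : ℝ → ℝ} (h : Mu d f a b)
    (hf : ∀ x, f' x = f x) (ha : ∀ t, 0 < t → t ≠ 1 → a' t = a t)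
    (hb : ∀ t, 0 < t → t ≠ 1 → b' t = b t) : Mu d f' a' b' := fun _ _ _ _ hg =>
  (h _ _ _ _ hg).congr (fun x => by rw [hf]) (fun t h1 h2 => by rw [ha t h1 h2])
    (fun t h1 h2 => by rw [ha t h1 h2, hb t h1 h2])

theorem mu_e (r : ℕ) : Mu (N := N) (r + 1) (fun x => ee x (r + 1)) (fun t => (qfac t (r + 1))⁻¹)
    (fun t => (qfac t r)⁻¹) := fun _ _ _ _ hg => hg.e r

theorem mu_one : Mu (N := N) 0 (fun _ => 1) (fun _ => 1) (fun _ => 0) := fun _ _ _ _ hg =>
  hg.congr (fun x => by ring) (fun t _ _ => by ring) (fun t _ _ => by ring)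

theorem mu_zero (r : ℕ) : Mu (N := N) r (fun _ => 0) (fun _ => 0) (fun _ => 0) :=
  fun _ _ _ _ _ =>
  (good_zero _).congr (fun x => by ring) (fun t _ _ => by ring) (fun t _ _ => by ring)

theorem Mu.lin {d : ℕ} {f f' : (Fin N → ℝ) → ℝ} {a b a' b' : ℝ → ℝ} (h : Mu d f a b)
    (h' : Mu d f' a' b') (z : ℤ) : Mu d (fun x => z * f x + f' x) (fun t => z * a t + a' t)
      (fun t => z * b t + b' t) := fun _ _ _ _ hg =>
  ((h _ _ _ _ hg).lin (h' _ _ _ _ hg) z).congr (fun x => by ring) (fun t _ _ => by ring)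
    (fun t _ _ => by ring)

theorem Mu.mul {d d' n : ℕ} {f f' : (Fin N → ℝ) → ℝ} {a b a' b' : ℝ → ℝ} (h : Mu d f a b)
    (h' : Mu d' f' a' b') (hn : n = d + d') : Mu n (fun x => f x * f' x) (fun t => a t * a' t)
      (fun t => a t * b' t + b t * a' t) := by
  intro e g a'' b'' hg
  rw [hn, show e + (d + d') = e + d' + d by omega]
  exact (h _ _ _ _ (h' _ _ _ _ hg)).congr (fun x => by ring) (fun t _ _ => by ring)
    (fun t _ _ => by ring)

theorem mu_sum {ι : Type} (s : Finset ι) {d : ℕ} {f : ι → (Fin N → ℝ) → ℝ} {a b : ι → ℝ → ℝ}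
    (e : ι → ℕ) (h : ∀ i ∈ s, Mu d (f i) (a i) (b i)) :
    Mu d (fun x => ∑ i ∈ s, (-1) ^ e i * f i x) (fun t => ∑ i ∈ s, (-1) ^ e i * a i t)
      (fun t => ∑ i ∈ s, (-1) ^ e i * b i t) := by
  classical
  induction s using Finset.induction_on with
  | empty => simpa using mu_zero d
  | insert i s hi ih =>
    simp only [sum_insert hi]
    simpa using (h i (mem_insert_self _ _)).lin (ih fun j hj => h j (mem_insert_of_mem hj))
      ((-1) ^ e i)

theorem Mu.good {d : ℕ} {f : (Fin N → ℝ) → ℝ} {a b : ℝ → ℝ} (h : Mu d f a b) : Good d f a b := by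
  have := h _ _ _ _ good_one
  rw [zero_add] at this
  exact this.congr (fun x => by ring) (fun t _ _ => by ring) (fun t _ _ => by ring)

end Pool.Agent.Lib.MP_2c9e21_co
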