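import Mathlib
import Pool.Agent.Lib.MP_2c9e21_co.Good

namespace Pool.Agent.Lib.MP_2c9e21_co

open Finset

variable {N : ℕ}

theorem coeff_E (x : Fin N → ℝ) (r : ℕ) :
    PowerSeries.coeff r (∏ i, (1 + PowerSeries.C (x i) * PowerSeries.X)) = ee x r := by
  rw [prod_one_add, powerset_univ, map_sum, ee_eq]
  refine sum_congr rfl fun T _ => ?_
  rw [prod_mul_distrib, prod_const, ← map_prod, PowerSeries.coeff_C_mul, PowerSeries.coeff_X_pow]
  by_cases h : T.card = r
  · rw [if_pos h, if_pos h.symm, mul_one]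
  · rw [if_neg h, if_neg (Ne.symm h), mul_zero]

theorem ee_neg (x : Fin N → ℝ) (r : ℕ) : ee (fun i => - x i) r = (-1) ^ r * ee x r := by
  rw [ee_eq, ee_eq, mul_sum]
  refine sum_congr rfl fun T _ => ?_
  split_ifs with h
  · rw [prod_neg, h]
  · simp

theorem ee_zero (x : Fin N → ℝ) : ee x 0 = 1 := by
  rw [← coeff_E]
  simp [map_prod]

theorem qq_rec (x : Fin N → ℝ) (r : ℕ) :
    ∑ p ∈ antidiagonal r, (-1) ^ p.1 * (ee x p.1 * qq x p.2) = ee x r := by
  have h : (∏ i, (1 + PowerSeries.C (- x i) * PowerSeries.X)) *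
      ∏ i, ((1 + PowerSeries.C (x i) * PowerSeries.X) *
        (1 - PowerSeries.C (x i) * PowerSeries.X)⁻¹) =
      ∏ i, (1 + PowerSeries.C (x i) * PowerSeries.X) := by
    rw [← prod_mul_distrib]
    refine prod_congr rfl fun i _ => ?_
    have h1 : (1 - PowerSeries.C (x i) * PowerSeries.X) *
        (1 - PowerSeries.C (x i) * PowerSeries.X)⁻¹ = 1 :=
      PowerSeries.mul_inv_cancel _ (by simp)
    rw [map_neg]
    linear_combination (1 + PowerSeries.C (x i) * PowerSeries.X) * h1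
  rw [← coeff_E x r, ← h, PowerSeries.coeff_mul]
  refine sum_congr rfl fun p _ => ?_
  rw [coeff_E (fun i => - x i), ee_neg, mul_assoc]
  rfl

theorem qq_zero (x : Fin N → ℝ) : qq x 0 = 1 := by
  simpa [ee_zero] using qq_rec x 0

noncomputable def aq (t : ℝ) (r : ℕ) : ℝ := (∏ i ∈ range r, (1 + t ^ i)) / qfac t r

theorem aq_zero (t : ℝ) : aq t 0 = 1 := by simp [aq, qfac_zero]

theorem aq_succ {t : ℝ} (ht : 0 < t) (r : ℕ) :
    qi t (r + 1) * aq t (r + 1) = (1 + t ^ r) * aq t r := by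
  have p1 := (qfac_pos ht r).ne'
  have p2 := (qi_pos ht r).ne'
  unfold aq
  rw [prod_range_succ, qfac_succ]
  field_simp

theorem inv_succ {t : ℝ} (ht : 0 < t) (r : ℕ) :
    qi t (r + 1) * (qfac t (r + 1))⁻¹ = (qfac t r)⁻¹ := by
  have p1 := (qfac_pos ht r).ne'
  have p2 := (qi_pos ht r).ne'
  rw [qfac_succ]
  field_simp

theorem Fsum {t : ℝ} (ht : 0 < t) (r : ℕ) :
    ∑ p ∈ antidiagonal r, (-1) ^ p.1 * ((qfac t p.1)⁻¹ * aq t p.2) = (qfac t r)⁻¹ := by
  induction r with
  | zero => simp [aq_zero]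
  | succ r ih =>
    refine mul_left_cancel₀ (qi_pos ht r).ne' ?_
    rw [inv_succ ht, ← ih, mul_sum]
    have h1 : ∀ p ∈ antidiagonal (r + 1),
        qi t (r + 1) * ((-1) ^ p.1 * ((qfac t p.1)⁻¹ * aq t p.2)) =
        (-1) ^ p.1 * ((qfac t p.1)⁻¹ * (qi t p.2 * aq t p.2)) +
          (-1) ^ p.1 * ((qi t p.1 * (qfac t p.1)⁻¹) * (t ^ p.2 * aq t p.2)) := by
      intro p hp
      rw [← mem_antidiagonal.1 hp, add_comm p.1, qi_add]
      ring
    rw [sum_congr rfl h1, sum_add_distrib, Nat.sum_antidiagonal_succ', Nat.sum_antidiagonal_succ]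
    simp only [qi_zero, zero_mul, mul_zero, zero_add, aq_succ ht, inv_succ ht]
    rw [← sum_add_distrib]
    exact sum_congr rfl fun p _ => by ring

noncomputable def bq (t : ℝ) : ℕ → ℝ
  | 0 => 0
  | (r + 1) => 2 * aq t r

theorem Gsum {t : ℝ} (ht : 0 < t) (r : ℕ) :
    ∑ p ∈ antidiagonal r, (-1) ^ (p.1 + 1) * ((qfac t (p.1 + 1))⁻¹ * bq t p.2) =
      2 * ((qfac t r)⁻¹ - aq t r) := by
  cases r with
  | zero => simp [bq, aq_zero, qfac_zero]
  | succ r =>
    rw [← Fsum ht (r + 1), Nat.sum_antidiagonal_succ', Nat.sum_antidiagonal_succ]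
    simp only [bq, qfac_zero, mul_zero, zero_add, pow_zero, inv_one, one_mul, add_sub_cancel_left,
      mul_sum]
    exact sum_congr rfl fun p _ => by ring

theorem mu_q (r : ℕ) : Mu (N := N) r (fun x => qq x r) (fun t => aq t r) (fun t => bq t r) := by
  induction r using Nat.strong_induction_on with
  | _ r ih =>
    cases r with
    | zero => exact mu_one.congr (fun x => qq_zero x) (fun t _ _ => aq_zero t) (fun t _ _ => rfl)
    | succ r =>
      have h := (mu_sum (N := N) (antidiagonal r) (d := r + 1) (fun p => p.1 + 1)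
        (fun p hp => (mu_e p.1).mul (ih p.2 (by have := mem_antidiagonal.1 hp; omega))
          (by have := mem_antidiagonal.1 hp; omega))).lin (mu_e r) (-1)
      refine h.congr (fun x => ?_) (fun t ht _ => ?_) (fun t ht _ => ?_)
      · have h1 := qq_rec x (r + 1)
        rw [Nat.sum_antidiagonal_succ, ee_zero] at h1
        push_cast
        linear_combination h1
      · have h1 := Fsum ht (r + 1)
        rw [Nat.sum_antidiagonal_succ, qfac_zero] at h1
        push_cast
        linear_combination h1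
      · have h1 := Fsum ht r
        have h2 := Gsum ht r
        simp only [mul_add, sum_add_distrib, h2]
        simp only [pow_succ, mul_neg, mul_one, neg_mul, sum_neg_distrib, h1, bq]
        push_cast
        ring

noncomputable def ka (t : ℝ) : ℝ := 2 * t / (1 - t) ^ 2
noncomputable def rho (t : ℝ) (r : ℕ) : ℝ := (1 + t * t ^ r) / (t + t ^ r)
noncomputable def g2 (t : ℝ) (r s : ℕ) : ℝ := (t ^ s - t ^ r) / (1 - t ^ r * t ^ s)

theorem one_sub_pow {t : ℝ} (ht : 0 < t) (h1 : t ≠ 1) {r : ℕ} (hr : r ≠ 0) : 1 - t ^ r ≠ 0 :=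
  fun h => h1 ((pow_eq_one_iff_of_nonneg ht.le hr).1 (by linarith))

theorem aq_succ' {t : ℝ} (ht : 0 < t) (h1 : t ≠ 1) (r : ℕ) :
    aq t (r + 1) = aq t r * ((1 + t ^ r) * (1 - t) / (1 - t * t ^ r)) := by
  have h2 := one_sub_pow ht h1 (r := r + 1) (by omega)
  rw [pow_succ'] at h2
  have h3 := qi_mul t (r + 1)
  have h4 := aq_succ ht r
  rw [pow_succ'] at h3
  rw [← mul_div_assoc, eq_div_iff h2]
  linear_combination (1 - t) * h4 - aq t (r + 1) * h3

theorem bq_eq {t : ℝ} (ht : 0 < t) (h1 : t ≠ 1) (r : ℕ) :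
    bq t r = aq t r * (ka t * (rho t r - 1)) := by
  have h0 : 1 - t ≠ 0 := sub_ne_zero.2 h1.symm
  cases r with
  | zero =>
    have : rho t 0 = 1 := by
      unfold rho
      field_simp
      ring
    simp [bq, this]
  | succ r =>
    have h2 := one_sub_pow ht h1 (r := r + 1) (by omega)
    rw [pow_succ'] at h2
    have h3 : 0 < t ^ r := pow_pos ht r
    rw [aq_succ' ht h1, bq, ka, rho, pow_succ' t r]
    generalize t ^ r = y at h2 h3 ⊢
    generalize hA : 1 - t * y = A at h2 ⊢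
    field_simp
    subst hA
    ring

theorem Q2_rec (x : Fin N → ℝ) (r s : ℕ) :
    Q2 x r (s + 1) = qq x r * qq x (s + 1) - qq x (r + 1) * qq x s - Q2 x (r + 1) s := by
  unfold Q2
  rw [sum_range_succ']
  have : ∑ i ∈ range s, (-1 : ℝ) ^ (i + 1 + 1) * (qq x (r + (i + 1 + 1)) * qq x (s + 1 - (i + 1 + 1)))
      = - ∑ i ∈ range s, (-1 : ℝ) ^ (i + 1) * (qq x (r + 1 + (i + 1)) * qq x (s - (i + 1))) := by
    rw [← sum_neg_distrib]
    refine sum_congr rfl fun i _ => ?_
    rw [show r + (i + 1 + 1) = r + 1 + (i + 1) by omega, Nat.add_sub_add_right]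
    ring
  rw [this]
  simp only [zero_add, Nat.add_sub_cancel]
  ring

theorem alg_a {t y z : ℝ} (h1 : 1 - t * y ≠ 0) (h2 : 1 - t * z ≠ 0) (h3 : 1 - t * y * z ≠ 0) :
    (1 + z) / (1 - t * z) * ((t * z - y) / (1 - t * y * z)) =
      (1 + z) / (1 - t * z) - (1 + y) / (1 - t * y) -
        (1 + y) / (1 - t * y) * ((z - t * y) / (1 - t * y * z)) := by
  generalize hA : 1 - t * y = A at h1 ⊢
  generalize hB : 1 - t * z = B at h2 ⊢
  generalize hC : 1 - t * y * z = C at h3 ⊢
  field_simp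
  subst hA hB hC
  ring

theorem alg_b {t y z : ℝ} (ht : 0 < t) (hy : 0 < y) (hz : 0 < z) (h1 : 1 - t * y ≠ 0)
    (h2 : 1 - t * z ≠ 0) (h3 : 1 - t * y * z ≠ 0) :
    (1 + z) / (1 - t * z) * ((t * z - y) / (1 - t * y * z)) *
        ((1 + t * y) / (t + y) * ((1 + t * (t * z)) / (t + t * z)) - 1) =
      (1 + z) / (1 - t * z) * ((1 + t * y) / (t + y) + (1 + t * (t * z)) / (t + t * z) - 2) -
        (1 + y) / (1 - t * y) * ((1 + t * (t * y)) / (t + t * y) + (1 + t * z) / (t + z) - 2) -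
        (1 + y) / (1 - t * y) * ((z - t * y) / (1 - t * y * z)) *
          ((1 + t * (t * y)) / (t + t * y) * ((1 + t * z) / (t + z)) - 1) := by
  generalize hA : 1 - t * y = A at h1 ⊢
  generalize hB : 1 - t * z = B at h2 ⊢
  generalize hC : 1 - t * y * z = C at h3 ⊢
  field_simp
  subst hA hB hC
  ring

theorem mu_Q2 (s : ℕ) : ∀ r, r ≠ 0 → Mu (N := N) (r + s) (fun x => Q2 x r s)
    (fun t => aq t r * aq t s * g2 t r s)
    (fun t => aq t r * aq t s * g2 t r s * (ka t * (rho t r * rho t s - 1))) := by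
  induction s with
  | zero =>
    intro r hr
    have hg : ∀ t : ℝ, 0 < t → t ≠ 1 → g2 t r 0 = 1 := fun t ht h1 => by
      have := one_sub_pow ht h1 hr
      unfold g2
      rw [pow_zero, mul_one, div_self this]
    refine (mu_q r).congr (fun x => by simp [Q2, qq_zero]) (fun t ht h1 => ?_) (fun t ht h1 => ?_)
    · rw [hg t ht h1, aq_zero]; ring
    · have : rho t 0 = 1 := by
        unfold rho
        field_simp
        ring
      rw [hg t ht h1, aq_zero, bq_eq ht h1, this]; ring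
  | succ s ih =>
    intro r hr
    have h := (ih (r + 1) (by omega)).lin ((((mu_q (r + 1)).mul (mu_q s) rfl).lin
      ((mu_q r).mul (mu_q (s + 1)) (n := r + 1 + s) (by omega)) (-1))) (-1)
    rw [show r + (s + 1) = r + 1 + s by omega]
    refine h.congr (fun x => ?_) (fun t ht h1 => ?_) (fun t ht h1 => ?_)
    · rw [Q2_rec]
      push_cast
      ring
    all_goals
      have n1 := one_sub_pow ht h1 (r := r + 1) (by omega)
      have n2 := one_sub_pow ht h1 (r := s + 1) (by omega)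
      have n3 := one_sub_pow ht h1 (r := 1 + r + s) (by omega)
      rw [pow_succ'] at n1 n2
      rw [pow_add, pow_add, pow_one] at n3
      have e1 : 1 - t ^ r * (t * t ^ s) = 1 - t * t ^ r * t ^ s := by ring
      simp only [bq_eq ht h1, aq_succ' ht h1, g2, rho, pow_succ', e1]
      push_cast
    · linear_combination (aq t r * aq t s * (1 - t)) * alg_a n1 n2 n3
    · linear_combination (aq t r * aq t s * (1 - t) * ka t) *
        alg_b ht (pow_pos ht r) (pow_pos ht s) n1 n2 n3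

end Pool.Agent.Lib.MP_2c9e21_co
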