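import Mathlib
import Pool.Agent.Lib.MP_2c9e21_co.QVal

namespace Pool.Agent.Lib.MP_2c9e21_co

open Finset Polynomial

section
variable {R R' : Type} [CommRing R] [CommRing R']

def DL (a : ℕ → R) : List ℕ → (List ℕ → R) → R
  | [], _ => 0
  | r :: l, F => a r * F l - DL a l fun η => F (r :: η)

theorem DL_hom (φ : R →+ R') {a : ℕ → R} {a' : ℕ → R'} (l : List ℕ) : ∀ {F : List ℕ → R}
    {F' : List ℕ → R'}, (∀ s η, φ (a s * F η) = a' s * F' η) → φ (DL a l F) = DL a' l F' := by
  induction l with
  | nil => intro F F' _; exact map_zero φ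
  | cons r l ih => intro F F' h; rw [DL, DL, map_sub, h, ih fun s η => h s (r :: η)]

theorem DL_lin {a a1 a2 : ℕ → R} (c1 c2 : R) (l : List ℕ) : ∀ {F F1 F2 : List ℕ → R},
    (∀ s η, a s * F η = c1 * (a1 s * F1 η) + c2 * (a2 s * F2 η)) →
      DL a l F = c1 * DL a1 l F1 + c2 * DL a2 l F2 := by
  induction l with
  | nil => intro F F1 F2 _; simp [DL]
  | cons r l ih =>
    intro F F1 F2 h
    rw [DL, DL, DL, h, ih fun s η => h s (r :: η)]
    ring

theorem DL_zero (a : ℕ → R) (l : List ℕ) : DL a l (fun _ => 0) = 0 := by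
  simpa using DL_lin (a := a) (a1 := a) (a2 := a) 0 0 l (F := fun _ => 0) (F1 := fun _ => 0)
    (F2 := fun _ => 0) fun _ _ => by simp

theorem DL_cons (a b : ℕ → R) (r : ℕ) (l : List ℕ) (F : List ℕ → R) :
    DL a (r :: l) (fun η => DL b η F) = a r * DL b l F - b r * DL a l F +
      DL a l fun η => DL b η fun ζ => F (r :: ζ) := by
  rw [DL, DL_lin (a1 := a) (a2 := a) (b r) (-1) l (F := fun η => DL b (r :: η) F) (F1 := F)
    (F2 := fun η => DL b η fun ζ => F (r :: ζ)) fun s η => by rw [DL]; ring]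
  ring

theorem DL_anti (a b : ℕ → R) (l : List ℕ) : ∀ F : List ℕ → R,
    DL a l (fun η => DL b η F) = - DL b l fun η => DL a η F := by
  induction l with
  | nil => intro F; simp [DL]
  | cons r l ih => intro F; rw [DL_cons, DL_cons, ih]; ring

theorem DL_self (a : ℕ → R) (l : List ℕ) : ∀ F : List ℕ → R, DL a l (fun η => DL a η F) = 0 := by
  induction l with
  | nil => intro F; rfl
  | cons r l ih => intro F; rw [DL_cons, ih]; ring

def PfL (A : ℕ → ℕ → R) : ℕ → List ℕ → R
  | 0, _ => 0
  | n + 1, [] => if n = 0 then 1 else 0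
  | n + 1, r :: l => DL (A r) l (PfL A n)

theorem PfL_upd {A A' : ℕ → ℕ → R} {a b : ℕ → R}
    (h : ∀ r s, A' r s = A r s + a r * b s - b r * a s) (n : ℕ) : ∀ l,
    PfL A' (n + 1) l = PfL A (n + 1) l + DL a l fun η => DL b η (PfL A n) := by
  induction n with
  | zero =>
    intro l
    cases l <;> simp [PfL, DL, DL_zero]
  | succ n ih =>
    intro l
    cases l with
    | nil => simp [PfL, DL]
    | cons r l =>
      have e1 : ∀ G, DL (A' r) l G = DL (A r) l G + a r * DL b l G - b r * DL a l G := fun G => by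
        rw [DL_lin (a1 := fun s => A r s + a r * b s) (a2 := a) 1 (- b r) l (F1 := G) (F2 := G)
          fun s η => by rw [h]; ring, DL_lin (a1 := A r) (a2 := b) 1 (a r) l (F1 := G) (F2 := G)
          fun s η => by ring]
        ring
      have e2 : DL (A r) l (fun η => DL a η fun ζ => DL b ζ (PfL A n)) =
          DL a l fun η => DL b η fun ζ => DL (A r) ζ (PfL A n) := by
        rw [DL_anti, DL_lin (a1 := a) (a2 := a) (-1) 0 l
          (F1 := fun η => DL b η fun ζ => DL (A r) ζ (PfL A n)) (F2 := fun _ => 0)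
          fun s η => by rw [DL_anti]; ring]
        ring
      rw [PfL, PfL, DL_lin (a1 := A' r) (a2 := A' r) 1 1 l (F1 := PfL A (n + 1))
        (F2 := fun η => DL a η fun ζ => DL b ζ (PfL A n)) fun s η => by rw [ih]; ring,
        e1, e1, DL_self, e2, DL_anti b a, DL_cons]
      simp only [DL_self, DL_zero, PfL]
      ring

def A2 (q : ℕ → R) : ℕ → ℕ → R
  | r, 0 => q r * q 0
  | r, s + 1 => q r * q (s + 1) - q (r + 1) * q s - A2 q (r + 1) s

def SL (q : ℕ → R) (l : List ℕ) : R :=
  if Even l.length then PfL (A2 q) (l.length / 2 + 1) l else DL q l (PfL (A2 q) (l.length / 2 + 1))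

section
variable (H : ℕ → R → R' → Prop) (h0 : ∀ n, H n 0 0) (h1 : H 0 1 1)
  (hs : ∀ {n x y x' y'}, H n x x' → H n y y' → H n (x - y) (x' - y'))
  (hm : ∀ {m n x y x' y'}, H m x x' → H n y y' → H (m + n) (x * y) (x' * y'))
include h0 hs hm

theorem DL_rel {a : ℕ → R} {a' : ℕ → R'} {w : ℕ} (ha : ∀ s, H (w + s) (a s) (a' s)) (l : List ℕ) :
    ∀ {F : List ℕ → R} {F' : List ℕ → R'} {v : ℕ}, (∀ η, H (v + η.sum) (F η) (F' η)) →
      H (w + v + l.sum) (DL a l F) (DL a' l F') := by
  induction l with
  | nil => intro F F' v _; exact h0 _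
  | cons r l ih =>
    intro F F' v h
    rw [DL, DL, List.sum_cons]
    refine hs ?_ ?_
    · convert hm (ha r) (h l) using 1
      ring
    · convert ih (v := v + r) fun η => by simpa only [List.sum_cons, add_assoc] using h (r :: η)
        using 1
      ring

include h1

theorem SL_rel {q : ℕ → R} {q' : ℕ → R'} (hq : ∀ r, H r (q r) (q' r)) :
    (∀ n l, H l.sum (PfL (A2 q) n l) (PfL (A2 q') n l)) ∧ ∀ l, H l.sum (SL q l) (SL q' l) := by
  have e1 : ∀ s r, H (r + s) (A2 q r s) (A2 q' r s) := by
    intro s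
    induction s with
    | zero => exact fun r => hm (hq r) (hq 0)
    | succ s ih =>
      intro r
      refine hs (hs (hm (hq r) (hq (s + 1))) ?_) ?_
      · convert hm (hq (r + 1)) (hq s) using 1
        ring
      · convert ih (r + 1) using 1
        ring
  have e2 : ∀ n l, H l.sum (PfL (A2 q) n l) (PfL (A2 q') n l) := by
    intro n
    induction n with
    | zero => exact fun l => h0 _
    | succ n ih =>
      intro l
      cases l with
      | nil =>
        simp only [PfL]
        split_ifs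
        · exact h1
        · exact h0 _
      | cons r l =>
        simpa only [PfL, List.sum_cons, add_zero] using
          DL_rel H h0 hs hm (fun s => e1 s r) l (v := 0) fun η => by simpa using ih η
  refine ⟨e2, fun l => ?_⟩
  unfold SL
  split_ifs
  · exact e2 _ _
  · simpa only [add_zero, zero_add] using DL_rel H h0 hs hm (w := 0) (fun s => by simpa using hq s) l
      (v := 0) fun η => by simpa using e2 _ η

end

theorem SL_map (φ : R →+* R') (c : R') {q : ℕ → R} {q' : ℕ → R'} (h : ∀ r, q' r = c ^ r * φ (q r)) :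
    (∀ n l, PfL (A2 q') n l = c ^ l.sum * φ (PfL (A2 q) n l)) ∧
      ∀ l, SL q' l = c ^ l.sum * φ (SL q l) :=
  SL_rel (fun n x y => y = c ^ n * φ x) (fun _ => by simp) (by simp)
    (fun h1 h2 => by rw [h1, h2, map_sub]; ring) (fun h1 h2 => by rw [h1, h2, map_mul]; ring) h

noncomputable def Lam (b : ℕ → R) (r : ℕ) : R[X] →ₗ[R] R :=
  Polynomial.lsum (fun j => ((-1) ^ j * b (r + j)) • LinearMap.id)

theorem Lam_mono (b : ℕ → R) (r j : ℕ) (c : R) :
    Lam b r (monomial j c) = (-1) ^ j * b (r + j) * c := by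
  unfold Lam
  rw [Polynomial.lsum_apply, Polynomial.sum_monomial_index]
  · rfl
  · simp

theorem Lam_C_mul (b : ℕ → R) (r : ℕ) (c : R) (p : R[X]) : Lam b r (C c * p) = c * Lam b r p := by
  rw [← smul_eq_C_mul, map_smul, smul_eq_mul]

theorem Lam_C (b : ℕ → R) (r : ℕ) (c : R) : Lam b r (C c) = b r * c := by
  rw [← monomial_zero_left, Lam_mono]
  simp

theorem Lam_X (b : ℕ → R) (r : ℕ) (p : R[X]) : Lam b r (X * p) = - Lam b (r + 1) p := by
  induction p using Polynomial.induction_on' with
  | add p q hp hq => rw [mul_add, map_add, map_add, hp, hq, neg_add]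
  | monomial m c =>
    rw [X_mul_monomial, Lam_mono, Lam_mono, show r + (m + 1) = r + 1 + m by omega]
    ring

theorem DL_deg {a : ℕ → R[X]} {s : ℕ} (l : List ℕ) : (∀ r ∈ l, (a r).natDegree ≤ s) →
    ∀ G : List ℕ → R, (DL a l fun η => C (G η)).natDegree ≤ s := by
  induction l with
  | nil => intro _ G; simp [DL]
  | cons r l ih =>
    intro h G
    rw [DL]
    refine (natDegree_sub_le _ _).trans (max_le ((natDegree_mul_C_le _ _).trans (h r (by simp)))
      (ih (fun r hr => h r (by simp [hr])) fun η => G (r :: η)))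

theorem SL_split {b : ℕ → R} {a : ℕ → R[X]} (b0 : b 0 = 1) (a0 : a 0 = 1)
    (h : ∀ n, a (n + 1) = C (b (n + 1)) + X * (a n + C (b n))) (l : List ℕ) :
    (∀ s, (∀ r ∈ l, r ≤ s) → (SL a l).natDegree ≤ s) ∧ ∀ r, SL b (r :: l) = Lam b r (SL a l) := by
  have d : ∀ n, (a n).natDegree ≤ n := by
    intro n
    induction n with
    | zero => simp [a0]
    | succ n ih =>
      rw [h]
      refine (natDegree_add_le _ _).trans (max_le (by simp) (natDegree_mul_le.trans ?_))
      have := natDegree_add_le (a n) (C (b n))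
      have := natDegree_X_le (R := R)
      rw [natDegree_C] at *
      omega
  have e1 : ∀ s r, Lam b r (a s) = A2 b r s := by
    intro s
    induction s with
    | zero => intro r; rw [a0, ← C_1, Lam_C, A2, b0]
    | succ s ih => intro r; rw [h, map_add, Lam_X, map_add, ih, Lam_C, Lam_C, A2]; ring
  have e2 : ∀ s r, A2 a r s = A2 (fun n => C (b n)) r s + a r * C (b s) - C (b r) * a s := by
    intro s
    induction s with
    | zero => intro r; simp [A2, a0, b0]
    | succ s ih => intro r; rw [A2, A2, ih, h r, h s]; ring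
  have e3 := (SL_map (C : R →+* R[X]) 1 (q := b) (q' := fun n => C (b n)) fun r => by simp).1
  simp only [one_pow, one_mul] at e3
  have e4 : ∀ n l, PfL (A2 a) (n + 1) l = C (PfL (A2 b) (n + 1) l) +
      DL a l fun η => C (DL b η (PfL (A2 b) n)) := fun n l => by
    rw [PfL_upd (fun r s => e2 s r), e3]
    congr 2
    funext η
    exact (DL_hom (C : R →+* R[X]).toAddMonoidHom η fun s η => by simp [e3]).symm
  obtain ⟨c, G, g1, g2⟩ : ∃ (c : R) (G : List ℕ → R), SL a l = C c + DL a l (fun η => C (G η)) ∧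
      ∀ r, SL b (r :: l) = b r * c + DL (A2 b r) l G := by
    unfold SL
    simp only [List.length_cons, Nat.even_add_one]
    by_cases he : Even l.length
    · refine ⟨_, _, by rw [if_pos he, e4], fun r => ?_⟩
      rw [if_neg (not_not.2 he), show (l.length + 1) / 2 = l.length / 2 by
        obtain ⟨k, hk⟩ := he; omega, DL, DL_anti (A2 b r) b]
      simp only [PfL]
      ring
    · refine ⟨0, PfL (A2 b) (l.length / 2 + 1), ?_, fun r => ?_⟩
      · rw [if_neg he, DL_lin (a1 := a) (a2 := a) 1 1 l
          (F1 := fun η => C (PfL (A2 b) (l.length / 2 + 1) η))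
          (F2 := fun l' => DL a l' fun η => C (DL b η (PfL (A2 b) (l.length / 2))))
          fun s η => by rw [e4]; ring, DL_self]
        simp
      · rw [if_pos he, show (l.length + 1) / 2 = l.length / 2 + 1 by
          have := Nat.not_even_iff.1 he; omega, PfL]
        simp
  refine ⟨fun s hs => ?_, fun r => ?_⟩
  · rw [g1]
    exact (natDegree_add_le _ _).trans (max_le (by simp)
      (DL_deg l (fun r hr => (d r).trans (hs r hr)) G))
  · rw [g1, g2, map_add, Lam_C]
    congr 1
    exact (DL_hom (Lam b r).toAddMonoidHom l fun s η => by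
      rw [mul_comm, LinearMap.toAddMonoidHom_coe, Lam_C_mul, e1, mul_comm]).symm

theorem DL_ofFn (a : ℕ → R) (m : ℕ) : ∀ (ξ : Fin (m + 1) → ℕ) (F : List ℕ → R),
    DL a (List.ofFn ξ) F =
      ∑ j : Fin (m + 1), (-1) ^ j.val * (a (ξ j) * F (List.ofFn fun k => ξ (j.succAbove k))) := by
  induction m with
  | zero => intro ξ F; simp [DL]
  | succ m ih =>
    intro ξ F
    rw [List.ofFn_succ, DL, ih, Fin.sum_univ_succ (n := m + 1), sub_eq_add_neg, ← sum_neg_distrib]
    congr 1
    · simp
    · refine sum_congr rfl fun j _ => ?_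
      rw [List.ofFn_succ]
      simp only [Fin.succ_succAbove_zero, Fin.succ_succAbove_succ, Fin.val_succ]
      ring

end

theorem Q2_eq {N : ℕ} (x : Fin N → ℝ) (s : ℕ) : ∀ r, Q2 x r s = A2 (qq x) r s := by
  induction s with
  | zero => intro r; simp [Q2, A2]
  | succ s ih => intro r; rw [Q2_rec, A2, ih]

theorem SQ_eq {N : ℕ} (x : Fin N → ℝ) : ∀ (l : ℕ) (ξ : Fin l → ℕ),
    SQ x l ξ = SL (qq x) (List.ofFn ξ) := by
  intro l
  induction l using Nat.strong_induction_on with
  | _ l ih =>
    match l with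
    | 0 => intro ξ; simp [SQ, SL, PfL]
    | 1 => intro ξ; simp [SQ, SL, PfL, DL]
    | (m + 2) =>
      intro ξ
      rw [SQ, SL, List.length_ofFn]
      by_cases he : Even m
      · rw [if_pos he, if_pos (he.add even_two), List.ofFn_succ, PfL, DL_ofFn]
        refine sum_congr rfl fun j _ => ?_
        rw [ih m (by omega), SL, List.length_ofFn, if_pos he, Q2_eq,
          show (m + 2) / 2 = m / 2 + 1 by omega]
      · have h1 := Nat.not_even_iff.1 he
        rw [if_neg he, if_neg (Nat.not_even_iff.2 (by omega)), DL_ofFn]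
        refine sum_congr rfl fun j _ => ?_
        rw [ih (m + 1) (by omega), SL, List.length_ofFn, if_pos (Nat.even_iff.2 (by omega)),
          show (m + 2) / 2 = (m + 1) / 2 by omega]

end Pool.Agent.Lib.MP_2c9e21_co
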