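import Mathlib
import Pool.Agent.Lib.MP_2c9e21_co.LPf

namespace Pool.Agent.Lib.MP_2c9e21_co

open Finset Polynomial

section
variable {R R' : Type} [CommRing R] [CommRing R']

def QE (e q : ℕ → R) : Prop := ∀ r, ∑ p ∈ antidiagonal r, (-1) ^ p.1 * (e p.1 * q p.2) = e r

theorem QE_iff {e q : ℕ → R} : QE e q ↔
    (PowerSeries.mk fun n => (-1) ^ n * e n) * PowerSeries.mk q = PowerSeries.mk e := by
  rw [PowerSeries.ext_iff]
  simp only [QE, PowerSeries.coeff_mul, PowerSeries.coeff_mk, mul_assoc]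

theorem QE.map {e q : ℕ → R} (h : QE e q) (φ : R →+* R') : QE (fun n => φ (e n)) fun n => φ (q n) :=
  fun r => by simpa using congrArg φ (h r)

theorem unit_neg {e : ℕ → R} (h : e 0 = 1) : IsUnit (PowerSeries.mk fun n => (-1) ^ n * e n) :=
  PowerSeries.isUnit_iff_constantCoeff.2 (by simp [h])

theorem QE.uniq {e q q' : ℕ → R} (h : QE e q) (h' : QE e q') (h0 : e 0 = 1) (n : ℕ) :
    q n = q' n := by
  simpa using congrArg (PowerSeries.coeff n)
    ((unit_neg h0).mul_left_cancel ((QE_iff.1 h).trans (QE_iff.1 h').symm))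

theorem QE_ex {e : ℕ → R} (h0 : e 0 = 1) : ∃ q, QE e q := by
  obtain ⟨v, hv⟩ := (unit_neg h0).exists_right_inv
  refine ⟨fun n => PowerSeries.coeff n (v * PowerSeries.mk e), QE_iff.2 ?_⟩
  have : (PowerSeries.mk fun n => PowerSeries.coeff n (v * PowerSeries.mk e)) =
      v * PowerSeries.mk e := by ext; simp
  rw [this, ← mul_assoc, hv, one_mul]

theorem QE.zero {e q : ℕ → R} (h : QE e q) (h0 : e 0 = 1) : q 0 = 1 := by
  simpa [h0] using h 0

theorem add_var (z : R) {e q e' q' : ℕ → R} (h0 : e 0 = 1) (h0' : e' 0 = 1)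
    (he : ∀ n, e' (n + 1) = e (n + 1) + z * e n) (h : QE e q) (h' : QE e' q') :
    (1 - PowerSeries.C z * PowerSeries.X) * PowerSeries.mk q' =
      (1 + PowerSeries.C z * PowerSeries.X) * PowerSeries.mk q := by
  have e1 : PowerSeries.mk e' = (1 + PowerSeries.C z * PowerSeries.X) * PowerSeries.mk e := by
    ext n
    cases n <;> simp [add_mul, mul_assoc, PowerSeries.coeff_succ_X_mul, h0, h0', he]
  have e2 : (PowerSeries.mk fun n => (-1) ^ n * e' n) =
      (1 - PowerSeries.C z * PowerSeries.X) * PowerSeries.mk fun n => (-1) ^ n * e n := by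
    ext n
    cases n <;> simp [sub_mul, mul_assoc, PowerSeries.coeff_succ_X_mul, h0, h0', he]
    ring
  have a1 := QE_iff.1 h
  have a2 := QE_iff.1 h'
  rw [e1, e2] at a2
  refine (unit_neg h0).mul_left_cancel ?_
  linear_combination a2 - (1 + PowerSeries.C z * PowerSeries.X) * a1

end

abbrev AR := MvPolynomial ℕ ℝ

noncomputable def eA : ℕ → AR
  | 0 => 1
  | i + 1 => MvPolynomial.X i

noncomputable def qA : ℕ → AR := (QE_ex (e := eA) rfl).choose

theorem qA_spec : QE eA qA := (QE_ex (e := eA) rfl).choose_spec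

noncomputable def WH (n : ℕ) : Submodule ℝ AR :=
  MvPolynomial.weightedHomogeneousSubmodule ℝ (fun i : ℕ => i + 1) n

theorem WH_mul {m n : ℕ} {x y : AR} (h : x ∈ WH m) (h' : y ∈ WH n) : x * y ∈ WH (m + n) :=
  MvPolynomial.IsWeightedHomogeneous.mul h h'

theorem WH_one : (1 : AR) ∈ WH 0 := MvPolynomial.isWeightedHomogeneous_one _ _

theorem WH_eA (n : ℕ) : eA n ∈ WH n := by
  cases n with
  | zero => exact WH_one
  | succ n => exact MvPolynomial.isWeightedHomogeneous_X _ (fun i : ℕ => i + 1) n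

theorem WH_qA (n : ℕ) : qA n ∈ WH n := by
  induction n using Nat.strong_induction_on with
  | _ n ih =>
    cases n with
    | zero => rw [qA_spec.zero rfl]; exact WH_one
    | succ n =>
      have h := qA_spec (n + 1)
      rw [Nat.sum_antidiagonal_succ] at h
      have e : qA (n + 1) = eA (n + 1) -
          ∑ p ∈ antidiagonal n, (-1 : ℝ) ^ (p.1 + 1) • (eA (p.1 + 1) * qA p.2) := by
        rw [← h]
        simp [eA, Algebra.smul_def]
      rw [e]
      refine sub_mem (WH_eA _) (sum_mem fun p hp => Submodule.smul_mem _ _ ?_)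
      have := mem_antidiagonal.1 hp
      convert WH_mul (WH_eA (p.1 + 1)) (ih p.2 (by omega)) using 2
      omega

theorem WH_SL (l : List ℕ) : SL qA l ∈ WH l.sum :=
  (SL_rel (fun n x (_ : AR) => x ∈ WH n) (fun _ => zero_mem _) WH_one (fun h h' => sub_mem h h')
    (fun h h' => WH_mul h h') (q' := qA) WH_qA).2 l

noncomputable def sg : AR →ₐ[ℝ] AR[X] := MvPolynomial.aeval fun i => C (eA (i + 1)) + X * C (eA i)

theorem sg_eA (n : ℕ) : sg (eA (n + 1)) = C (eA (n + 1)) + X * C (eA n) := MvPolynomial.aeval_X _ _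

theorem sg_split (l : List ℕ) : (∀ s, (∀ r ∈ l, r ≤ s) → (sg (SL qA l)).natDegree ≤ s) ∧
    ∀ r, SL qA (r :: l) = Lam qA r (sg (SL qA l)) := by
  have e := (SL_map (sg : AR →+* AR[X]) 1 (q := qA) (q' := fun n => sg (qA n)) fun r => by simp).2 l
  rw [one_pow, one_mul, RingHom.coe_coe] at e
  rw [← e]
  refine SL_split (qA_spec.zero rfl) (by rw [qA_spec.zero rfl, map_one]) (fun n => ?_) l
  have h := congrArg (PowerSeries.coeff (n + 1)) (add_var (X : AR[X]) (by simp [eA]) (by simp [eA])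
    sg_eA (qA_spec.map C) (qA_spec.map (sg : AR →+* AR[X])))
  simp only [sub_mul, add_mul, one_mul, mul_assoc, map_sub, map_add, PowerSeries.coeff_C_mul,
    PowerSeries.coeff_succ_X_mul, PowerSeries.coeff_mk, RingHom.coe_coe] at h
  linear_combination h

def dg (α : ℕ →₀ ℕ) : ℕ := α.sum fun _ e => e

theorem dg_add (α β : ℕ →₀ ℕ) : dg (α + β) = dg α + dg β :=
  Finsupp.sum_add_index' (fun _ => rfl) fun _ _ _ => rfl

theorem dg_single (i n : ℕ) : dg (Finsupp.single i n) = n := Finsupp.sum_single_index rfl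

theorem mono_ind {P : (ℕ →₀ ℕ) → Prop} (h0 : P 0)
    (h1 : ∀ i α, P α → P (Finsupp.single i 1 + α)) (α : ℕ →₀ ℕ) : P α := by
  induction α using Finsupp.induction with
  | zero => exact h0
  | single_add i n α _ _ ih =>
    rename_i h2 h3
    clear h2 h3
    induction n with
    | zero => simpa using ih
    | succ n ih' =>
      rw [add_comm n 1, Finsupp.single_add, add_assoc]
      exact h1 _ _ ih'

theorem mono_step (i : ℕ) (α : ℕ →₀ ℕ) : (MvPolynomial.monomial (Finsupp.single i 1 + α) 1 : AR) =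
    eA (i + 1) * MvPolynomial.monomial α 1 := by
  rw [eA, MvPolynomial.X, MvPolynomial.monomial_mul, one_mul]

noncomputable def sh : (ℕ →₀ ℕ) →+ (ℕ →₀ ℕ) := Finsupp.comapDomain.addMonoidHom Nat.succ_injective

theorem sh_apply (α : ℕ →₀ ℕ) (i : ℕ) : sh α i = α (i + 1) := rfl

theorem sh_single (i : ℕ) : (MvPolynomial.monomial (sh (Finsupp.single i 1)) 1 : AR) = eA i ∧
    (Finsupp.single i 1 : ℕ →₀ ℕ) 0 + dg (sh (Finsupp.single i 1)) = 1 := by
  cases i with
  | zero =>
    have : sh (Finsupp.single 0 1) = 0 := by ext j; simp [sh_apply]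
    rw [this]
    exact ⟨rfl, by simp [dg]⟩
  | succ i =>
    have : sh (Finsupp.single (i + 1) 1) = Finsupp.single i 1 := by
      ext j; simp [sh_apply, Finsupp.single_apply]
    rw [this]
    exact ⟨rfl, by simp [dg]⟩

theorem sg_mono (α : ℕ →₀ ℕ) : (sg (MvPolynomial.monomial α 1)).natDegree ≤ dg α ∧
    (sg (MvPolynomial.monomial α 1)).coeff (dg α) = MvPolynomial.monomial (sh α) 1 ∧
    α 0 + dg (sh α) = dg α := by
  induction α using mono_ind with
  | h0 => simp [dg]
  | h1 i α ih =>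
    have d : (sg (eA (i + 1))).natDegree ≤ 1 := by
      rw [sg_eA]
      exact (natDegree_add_le _ _).trans (max_le (by simp) ((natDegree_mul_C_le _ _).trans
        natDegree_X_le))
    rw [mono_step, map_mul, dg_add, dg_single, map_add, dg_add, Finsupp.add_apply]
    refine ⟨natDegree_mul_le.trans (add_le_add d ih.1), ?_, ?_⟩
    · rw [coeff_mul_add_eq_of_natDegree_le d ih.1, ih.2.1, sg_eA, ← (sh_single i).1]
      simp [MvPolynomial.monomial_mul, coeff_C]
    · have := (sh_single i).2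
      have := ih.2.2
      omega

theorem tdeg_le {Φ : AR} {α : ℕ →₀ ℕ} (hα : α ∈ Φ.support) : dg α ≤ (sg Φ).natDegree := by
  obtain ⟨β, hβ, hm⟩ := exists_max_image Φ.support dg ⟨α, hα⟩
  refine (hm α hα).trans (le_natDegree_of_ne_zero fun h => MvPolynomial.mem_support_iff.1 hβ ?_)
  have e : sg Φ = ∑ γ ∈ Φ.support, Φ.coeff γ • sg (MvPolynomial.monomial γ 1) := by
    conv_lhs => rw [Φ.as_sum, map_sum]
    exact sum_congr rfl fun γ _ => by rw [← map_smul, MvPolynomial.smul_monomial, smul_eq_mul, mul_one]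
  have h2 := congrArg (MvPolynomial.coeff (sh β)) h
  rw [e, finsetSum_coeff, MvPolynomial.coeff_sum, sum_eq_single β] at h2
  · simpa [(sg_mono β).2.1] using h2
  · intro γ hγ hne
    rw [coeff_smul, MvPolynomial.coeff_smul]
    rcases (hm γ hγ).eq_or_lt with h3 | h3
    · rw [← h3, (sg_mono γ).2.1, MvPolynomial.coeff_monomial, if_neg, smul_zero]
      intro h4
      refine hne (Finsupp.ext fun i => ?_)
      cases i with
      | zero =>
        have a1 := (sg_mono γ).2.2
        have a2 := (sg_mono β).2.2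
        rw [h4] at a1
        omega
      | succ i => rw [← sh_apply, h4, sh_apply]
    · rw [coeff_eq_zero_of_natDegree_lt ((sg_mono γ).1.trans_lt h3)]
      simp
  · exact fun h => absurd hβ h

end Pool.Agent.Lib.MP_2c9e21_co
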