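import Mathlib

namespace Pool.Agent.Lib.MP_2c9e21_co

open Finset Polynomial

abbrev ZK := ZMod 1000

set_option linter.unusedSectionVars false

variable {ι : Type} [DecidableEq ι]

noncomputable def WW (s : Finset ι) (x : ι → ℤ) : ℤ[X] := ∏ i ∈ s, (X - C (x i))

theorem WW_monic (s : Finset ι) (x : ι → ℤ) : (WW s x).Monic :=
  monic_prod_of_monic _ _ fun _ _ => monic_X_sub_C _

theorem WW_deg (s : Finset ι) (x : ι → ℤ) : (WW s x).degree = s.card := by
  rw [degree_eq_natDegree (WW_monic s x).ne_zero, WW,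
    natDegree_prod_of_monic _ _ fun j _ => monic_X_sub_C _]
  simp only [natDegree_X_sub_C, sum_const, smul_eq_mul, mul_one]

theorem WW_root {s : Finset ι} (x : ι → ℤ) {i : ι} (hi : i ∈ s) :
    aeval (x i : ℝ) (WW s x) = 0 := by
  rw [WW, map_prod]
  exact prod_eq_zero hi (by simp)

theorem dd_coeff {s : Finset ι} {x : ι → ℤ} (hx : Set.InjOn x s) (H : ℤ[X]) :
    ∑ i ∈ s, aeval (x i : ℝ) H / ∏ j ∈ s.erase i, ((x i : ℝ) - x j) =
      ((H %ₘ WW s x).coeff (s.card - 1) : ℝ) := by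
  have hd : ((H %ₘ WW s x).map (Int.castRingHom ℝ)).degree < s.card :=
    degree_map_le.trans_lt (WW_deg s x ▸ degree_modByMonic_lt H (WW_monic s x))
  have h := Lagrange.coeff_eq_sum (v := fun i => (x i : ℝ))
    (fun i hi j hj e => hx hi hj (Int.cast_injective e)) hd
  rw [coeff_map, eq_intCast] at h
  rw [h]
  refine sum_congr rfl fun i hi => ?_
  have h2 := congrArg (aeval (x i : ℝ)) (modByMonic_add_div H (WW s x))
  rw [map_add, map_mul, WW_root x hi, zero_mul, add_zero] at h2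
  rw [← h2]
  congr 1
  exact (eval_map_algebraMap _ _).symm

noncomputable def ph : ℤ[X] →+* PowerSeries ZK :=
  Polynomial.coeToPowerSeries.ringHom.comp (mapRingHom (Int.castRingHom ZK))

theorem ph_coeff (H : ℤ[X]) (n : ℕ) : PowerSeries.coeff n (ph H) = (H.coeff n : ZK) := by
  simp [ph]

theorem ph_X : ph X = PowerSeries.X := by simp [ph]

theorem ph_C (c : ℤ) : ph (C c) = PowerSeries.C (c : ZK) := by
  simp only [eq_intCast, map_intCast]

noncomputable def LL (e : ZK) (q : ℕ) (S : PowerSeries ZK) : ZK :=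
  PowerSeries.coeff (q + 1) S + e * PowerSeries.coeff (q + 2) S + e ^ 2 * PowerSeries.coeff (q + 3) S

theorem LL_add (e : ZK) (q : ℕ) (S T : PowerSeries ZK) : LL e q (S + T) = LL e q S + LL e q T := by
  simp only [LL, map_add]
  ring

theorem LL_C (e c : ZK) (q : ℕ) (S : PowerSeries ZK) :
    LL e q (PowerSeries.C c * S) = c * LL e q S := by
  simp only [LL, PowerSeries.coeff_C_mul]
  ring

theorem LL_V {e : ZK} (he : e ^ 3 = 0) (q : ℕ) (S : PowerSeries ZK) :
    LL e q (PowerSeries.X ^ q * (PowerSeries.X - PowerSeries.C e) * S) =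
      PowerSeries.coeff 0 S := by
  unfold LL
  rw [mul_assoc, add_comm q 1, add_comm q 2, add_comm q 3, PowerSeries.coeff_X_pow_mul,
    PowerSeries.coeff_X_pow_mul, PowerSeries.coeff_X_pow_mul]
  simp only [sub_mul, map_sub, PowerSeries.coeff_C_mul]
  rw [PowerSeries.coeff_succ_X_mul 0, PowerSeries.coeff_succ_X_mul 1,
    PowerSeries.coeff_succ_X_mul 2]
  linear_combination (- PowerSeries.coeff 3 S) * he

theorem LL_W {e : ZK} (he : e ^ 3 = 0) (q : ℕ) (S : PowerSeries ZK) :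
    LL e q (PowerSeries.X ^ (q + 1) * (PowerSeries.X - PowerSeries.C e) * S) = 0 := by
  have h := LL_V he q (PowerSeries.X * S)
  rw [PowerSeries.coeff_zero_X_mul] at h
  rw [← h]
  congr 1
  ring

theorem X_prod (s : Finset ι) (x : ι → ZK) (h : ∀ i ∈ s, ∀ j ∈ s, i ≠ j → x i * x j = 0) :
    PowerSeries.X * ∏ i ∈ s, (PowerSeries.X - PowerSeries.C (x i)) =
      PowerSeries.X ^ s.card * (PowerSeries.X - PowerSeries.C (∑ i ∈ s, x i)) := by
  induction s using Finset.induction_on with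
  | empty => simp
  | insert a s ha ih =>
    have h1 : x a * ∑ i ∈ s, x i = 0 := by
      rw [mul_sum]
      exact sum_eq_zero fun i hi => h a (mem_insert_self _ _) i (mem_insert_of_mem hi)
        fun e => ha (e ▸ hi)
    have h2 := congrArg PowerSeries.C h1
    rw [map_mul, map_zero] at h2
    rw [prod_insert ha, sum_insert ha, card_insert_of_notMem ha, mul_left_comm,
      ih fun i hi j hj => h i (mem_insert_of_mem hi) j (mem_insert_of_mem hj), map_add]
    linear_combination PowerSeries.X ^ s.card * h2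

def Inv (W Q : ℤ[X]) : Prop := ∃ (J G : ℤ[X]) (n : ℤ), IsUnit (n : ZK) ∧ Q * J = C n + W * G

theorem Inv.mul {W Q Q' : ℤ[X]} (h : Inv W Q) (h' : Inv W Q') : Inv W (Q * Q') := by
  obtain ⟨J, G, n, u, e⟩ := h
  obtain ⟨J', G', n', u', e'⟩ := h'
  refine ⟨J * J', G * C n' + C n * G' + W * G * G', n * n', by push_cast; exact u.mul u', ?_⟩
  rw [C_mul]
  linear_combination (Q' * J') * e + (C n + W * G) * e'

theorem inv_prod {κ : Type} (W : ℤ[X]) (T : Finset κ) {Q : κ → ℤ[X]} (h : ∀ k ∈ T, Inv W (Q k)) :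
    Inv W (∏ k ∈ T, Q k) :=
  prod_induction Q (Inv W) (fun _ _ => Inv.mul) ⟨1, 0, 1, by simp, by simp⟩ h

theorem inv_lin (s : Finset ι) (x : ι → ℤ) (hx : ∀ i ∈ s, (x i : ZK) ^ 3 = 0) (c : ℤ) :
    Inv (WW s x) (1 - C c * X) := by
  have h : ∃ J : ℤ[X], (1 - C c * X) * J = C (∏ i ∈ s, (1 - c * x i)) - C c ^ s.card * WW s x := by
    clear hx
    unfold WW
    induction s using Finset.induction_on with
    | empty => exact ⟨0, by simp⟩
    | insert a s ha ih =>
      obtain ⟨J, hJ⟩ := ih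
      refine ⟨C (1 - c * x a) * J + C c ^ s.card * ∏ i ∈ s, (X - C (x i)), ?_⟩
      rw [prod_insert ha, prod_insert ha, card_insert_of_notMem ha, C_mul]
      simp only [C_sub, C_mul, C_1]
      linear_combination (1 - C c * C (x a)) * hJ
  obtain ⟨J, hJ⟩ := h
  refine ⟨J, - C c ^ s.card, _, ?_, by rw [hJ]; ring⟩
  push_cast
  refine IsUnit.prod_iff.2 fun i hi => IsNilpotent.isUnit_one_sub ⟨3, ?_⟩
  rw [mul_pow, hx i hi, mul_zero]

theorem ten_cube : (10 : ZK) ^ 3 = 0 := rfl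

theorem not_unit_ten (y : ZK) : ¬ IsUnit (10 * y) := fun h => by
  have h1 := h.pow 3
  rw [mul_pow, ten_cube, zero_mul] at h1
  have : Fact (1 < 1000) := ⟨by norm_num⟩
  exact not_isUnit_zero h1

theorem dd_main {s : Finset ι} {q : ℕ} (hq : s.card = q + 2) {n : ι → ℕ} (hn : Set.InjOn n s)
    (h1 : ∀ i ∈ s, n i ≠ 0) {P Q : ℤ[X]} (hQ : Inv (WW s fun i => 10 ^ n i) Q)
    {F : PowerSeries ZK} (hF : ph Q * F = ph P) (hF0 : PowerSeries.coeff 0 F = 1) (e : ℤ)
    (h : ∑ i ∈ s, aeval ((10 : ℝ) ^ n i) P / aeval ((10 : ℝ) ^ n i) Q * (1 - 10 ^ e / 10 ^ n i) /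
      ∏ j ∈ s.erase i, ((10 : ℝ) ^ n i - 10 ^ n j) = 0) :
    ∃ k : ℕ, e = (∑ i ∈ s, n i : ℕ) + k ∧ (-1) ^ (q + 1) * LL (∑ i ∈ s, 10 ^ n i) q F = 10 ^ k := by
  obtain ⟨J, G, N, hu, hJ⟩ := hQ
  set x : ι → ℤ := fun i => 10 ^ n i with hx
  set W := WW s x with hW
  have xi : Set.InjOn x s := fun i hi j hj e =>
    hn hi hj (pow_right_injective₀ (by norm_num : (0 : ℤ) < 10) (by norm_num) e)
  have he : (∑ i ∈ s, (10 : ZK) ^ n i) ^ 3 = 0 := by
    have : ∑ i ∈ s, (10 : ZK) ^ n i = 10 * ∑ i ∈ s, 10 ^ (n i - 1) := by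
      rw [mul_sum]
      exact sum_congr rfl fun i hi => by
        rw [← pow_succ', Nat.sub_add_cancel (Nat.pos_of_ne_zero (h1 i hi))]
    rw [this, mul_pow, ten_cube, zero_mul]
  have pW : ph W = PowerSeries.X ^ (q + 1) *
      (PowerSeries.X - PowerSeries.C (∑ i ∈ s, (10 : ZK) ^ n i)) := by
    refine PowerSeries.X_mul_cancel ?_
    rw [← mul_assoc, ← pow_succ', ← hq, ← X_prod s _ fun i hi j hj hne => ?_]
    · simp only [hW, WW, map_prod, map_sub, ph_X, ph_C, hx]
      push_cast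
      rfl
    · have a1 := h1 i hi
      have a2 := h1 j hj
      have a3 : n i ≠ n j := fun e => hne (hn hi hj e)
      rw [← pow_add, show n i + n j = 3 + (n i + n j - 3) by omega, pow_add, ten_cube, zero_mul]
  have md : ∀ H : ℤ[X], ((H %ₘ W).coeff (q + 1) : ZK) = LL (∑ i ∈ s, 10 ^ n i) q (ph H) := by
    intro H
    have hd : (H %ₘ W).degree < (q + 2 : ℕ) := by
      rw [← hq, ← WW_deg s x]
      exact degree_modByMonic_lt H (WW_monic s x)
    conv_rhs => rw [← modByMonic_add_div H W, map_add, map_mul, LL_add, pW, LL_W he, add_zero]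
    unfold LL
    rw [ph_coeff, ph_coeff, ph_coeff, coeff_eq_zero_of_degree_lt hd,
      coeff_eq_zero_of_degree_lt (n := q + 3) (hd.trans (by exact_mod_cast Nat.lt_succ_self _))]
    simp
  have pJ : ph P * ph J = PowerSeries.C (N : ZK) * F + ph W * (ph G * F) := by
    have := congrArg ph hJ
    rw [map_mul, map_add, map_mul, ph_C] at this
    rw [← hF]
    linear_combination F * this
  have W0 : W.coeff 0 = (-1) ^ q * 10 ^ (∑ i ∈ s, n i) := by
    rw [coeff_zero_eq_eval_zero, hW, WW, eval_prod]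
    simp only [eval_sub, eval_X, eval_C, zero_sub, hx]
    rw [prod_neg, hq, prod_pow_eq_pow_sum]
    ring
  have pD : ph W.divX = PowerSeries.X ^ q *
      (PowerSeries.X - PowerSeries.C (∑ i ∈ s, (10 : ZK) ^ n i)) := by
    refine PowerSeries.X_mul_cancel ?_
    have a1 := congrArg ph (divX_mul_X_add W)
    have a2 : (W.coeff 0 : ZK) = 0 := by rw [← ph_coeff, pW]; simp
    rw [map_add, map_mul, ph_X, ph_C, a2, map_zero, add_zero, pW] at a1
    linear_combination a1
  have mα := md (P * J)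
  have mβ := md (P * J * W.divX)
  rw [map_mul, pJ, LL_add, LL_C, pW, LL_W he, add_zero] at mα
  rw [map_mul, map_mul, pJ, pD, add_mul, LL_add, pW, mul_assoc (PowerSeries.C _), LL_C,
    mul_comm F, LL_V he, hF0, mul_one, mul_assoc _ (ph G * F), LL_W he, add_zero] at mβ
  have N0 : (N : ℝ) ≠ 0 := by
    intro h0
    have : N = 0 := by exact_mod_cast h0
    rw [this, Int.cast_zero, ← mul_zero 10] at hu
    exact not_unit_ten _ hu
  have rα := dd_coeff xi (P * J)
  have rβ := dd_coeff xi (P * J * W.divX)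
  rw [hq, ← hW, show q + 2 - 1 = q + 1 from rfl] at rα rβ
  generalize (P * J %ₘ W).coeff (q + 1) = α at rα mα
  generalize (P * J * W.divX %ₘ W).coeff (q + 1) = β at rβ mβ
  have key : (α : ℝ) * ((-1) ^ q * 10 ^ (∑ i ∈ s, n i)) + 10 ^ e * β = 0 := by
    rw [← rα, ← rβ, sum_mul, mul_sum, ← sum_add_distrib,
      ← mul_zero ((N : ℝ) * ((-1) ^ q * 10 ^ (∑ i ∈ s, n i))), ← h, mul_sum]
    refine sum_congr rfl fun i hi => ?_
    have a1 := congrArg (aeval (x i : ℝ)) hJ
    have a2 := congrArg (aeval (x i : ℝ)) (divX_mul_X_add W)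
    rw [map_mul, map_add, map_mul, WW_root x hi, zero_mul, add_zero, aeval_C, eq_intCast] at a1
    rw [map_add, map_mul, aeval_X, aeval_C, W0, WW_root x hi, eq_intCast] at a2
    simp only [map_mul, hx] at a1 a2 ⊢
    push_cast at a1 a2 ⊢
    have a3 : aeval ((10 : ℝ) ^ n i) Q ≠ 0 := fun h0 => N0 (by rw [← a1, h0, zero_mul])
    have a4 : aeval ((10 : ℝ) ^ n i) W.divX = - ((-1) ^ q * 10 ^ (∑ i ∈ s, n i)) / 10 ^ n i := by
      rw [eq_div_iff (by positivity)]
      linear_combination a2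
    rw [a4, ← a1]
    field_simp
    ring
  obtain ⟨k, hk | hk⟩ := Int.eq_nat_or_neg (e - (∑ i ∈ s, n i : ℕ))
  · refine ⟨k, by omega, hu.mul_left_cancel ?_⟩
    rw [show e = (∑ i ∈ s, n i : ℕ) + k by omega, zpow_add₀ (by norm_num), zpow_natCast,
      zpow_natCast] at key
    have a1 : (α : ℝ) * (-1) ^ q + 10 ^ k * β = 0 :=
      mul_left_cancel₀ (a := (10 : ℝ) ^ (∑ i ∈ s, n i)) (by positivity) (by linear_combination key)
    have a2 : α * (-1) ^ q + 10 ^ k * β = 0 := by exact_mod_cast a1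
    have a3 := congrArg (Int.cast : ℤ → ZK) a2
    push_cast at a3
    rw [mα, mβ] at a3
    linear_combination - a3
  · rw [show e = (∑ i ∈ s, n i : ℕ) - k by omega, zpow_sub₀ (by norm_num), zpow_natCast,
      zpow_natCast] at key
    have a1 : (10 : ℝ) ^ k * (α * (-1) ^ q) + β = 0 := by
      refine mul_left_cancel₀ (a := (10 : ℝ) ^ (∑ i ∈ s, n i) / 10 ^ k) (by positivity) ?_
      rw [mul_zero, ← key]
      field_simp
    have a2 : 10 ^ k * (α * (-1) ^ q) + β = 0 := by exact_mod_cast a1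
    have a3 := congrArg (Int.cast : ℤ → ZK) a2
    push_cast at a3
    rw [mα, mβ] at a3
    cases k with
    | zero => exact ⟨0, by omega, hu.mul_left_cancel (by linear_combination - a3)⟩
    | succ k =>
      refine absurd hu ?_
      rw [show (N : ZK) = 10 * - (10 ^ k * (N * LL (∑ i ∈ s, 10 ^ n i) q F * (-1) ^ q)) by
        linear_combination a3]
      exact not_unit_ten _

end Pool.Agent.Lib.MP_2c9e21_co
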