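import Mathlib
import Pool.Agent.Lib.MP_2c9e21_co.QVal

namespace Pool.Agent.Lib.MP_2c9e21_co

open Finset

variable {N : ℕ}

theorem pairs_one : univ.filter (fun p : Fin 1 × Fin 1 => p.1 < p.2) = ∅ := by decide

theorem pairs_del : ∀ (n : ℕ) (F : Fin (n + 1) → Fin (n + 1) → ℝ) (_ : ∀ a b, F a b = - F b a)
    (j : Fin (n + 1)),
    ∏ p ∈ univ.filter (fun p : Fin (n + 1) × Fin (n + 1) => p.1 < p.2), F p.1 p.2 =
      (-1) ^ j.val * (∏ k : Fin n, F j (j.succAbove k)) *
        ∏ p ∈ univ.filter (fun p : Fin n × Fin n => p.1 < p.2),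
          F (j.succAbove p.1) (j.succAbove p.2) := by
  intro n
  induction n with
  | zero => intro F _ j; rw [pairs_one]; simp [Fin.eq_zero j]
  | succ n ih =>
    intro F hF j
    refine Fin.cases ?_ (fun j => ?_) j
    · rw [pairs_succ]
      simp
    · rw [pairs_succ, ih (fun a b => F a.succ b.succ) (fun a b => hF _ _) j,
        pairs_succ (fun a b => F (j.succ.succAbove a) (j.succ.succAbove b)),
        Fin.prod_univ_succAbove _ j, Fin.prod_univ_succ (fun k => F j.succ (j.succ.succAbove k))]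
      simp only [Fin.succ_succAbove_zero, Fin.succ_succAbove_succ, Fin.val_succ]
      rw [hF 0 j.succ]
      ring

noncomputable def GG (Z Y : ℝ) : ℝ := (Y - Z) / (Y + Z)

noncomputable def UU {m : ℕ} (v : Fin (m + 1) → ℝ) (j : Fin (m + 1)) : ℝ :=
  ∏ k, (v j + v (j.succAbove k)) / (v j - v (j.succAbove k))

theorem qi_neg_one (n : ℕ) : qi (-1) n = if Even n then 0 else 1 := neg_one_geom_sum

theorem lagU {m : ℕ} (v : Fin (m + 1) → ℝ) (hv : Function.Injective v) :
    ∑ j, UU v j = if Even (m + 1) then 0 else 1 := by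
  have h := lag univ v hv.injOn (-1)
  rw [card_univ, Fintype.card_fin, qi_neg_one] at h
  rw [← h]
  refine sum_congr rfl fun j _ => ?_
  rw [prod_erase_succAbove]
  exact prod_congr rfl fun k _ => by ring

theorem sumU {m : ℕ} (hm : Even m) {v : Fin (m + 1) → ℝ} (hv : Function.Injective v) :
    ∑ j, UU v j = 1 := by
  rw [lagU v hv, if_neg (by simpa [Nat.even_add_one] using hm)]

theorem sumUG {m : ℕ} (hm : Even m) {v : Fin (m + 1) → ℝ} (hv : Function.Injective v) {Z : ℝ}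
    (hZ : ∀ k, v k + Z ≠ 0) : ∑ j, UU v j * GG Z (v j) = ∏ k, GG Z (v k) := by
  have hi : Function.Injective (Fin.cons (-Z) v : Fin (m + 2) → ℝ) := by
    rw [Fin.cons_injective_iff]
    exact ⟨fun ⟨k, hk⟩ => hZ k (by rw [hk]; ring), hv⟩
  have h := lagU _ hi
  rw [if_pos (by simpa [Nat.even_add_one] using hm), Fin.sum_univ_succ] at h
  have e0 : UU (Fin.cons (-Z) v : Fin (m + 2) → ℝ) 0 = - ∏ k, GG Z (v k) := by
    have : ∀ k, (-Z + v k) / (-Z - v k) = - GG Z (v k) := fun k => by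
      unfold GG
      rw [← div_neg]
      congr 1 <;> ring
    unfold UU
    simp only [Fin.cons_zero, Fin.succAbove_zero, Fin.cons_succ, this]
    rw [prod_neg, card_univ, Fintype.card_fin, pow_succ, hm.neg_one_pow]
    ring
  have e1 : ∀ j : Fin (m + 1), UU (Fin.cons (-Z) v : Fin (m + 2) → ℝ) j.succ =
      UU v j * GG Z (v j) := fun j => by
    unfold UU GG
    rw [Fin.prod_univ_succ, mul_comm]
    simp only [Fin.succ_succAbove_zero, Fin.succ_succAbove_succ, Fin.cons_zero, Fin.cons_succ]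
    congr 2
    ring
  simp only [e0, e1] at h
  linear_combination h

theorem GG_inv {Y τ : ℝ} (h1 : Y + τ ≠ 0) (h2 : Y + -τ ≠ 0) : GG (-τ) Y * GG τ Y = 1 := by
  unfold GG
  rw [sub_neg_eq_add, ← sub_eq_add_neg] at *
  field_simp

theorem prod_GG_inv {m : ℕ} {v : Fin m → ℝ} {τ : ℝ} (h1 : ∀ k, v k + τ ≠ 0)
    (h2 : ∀ k, v k + -τ ≠ 0) : (∏ k, GG (-τ) (v k)) * ∏ k, GG τ (v k) = 1 := by
  rw [← prod_mul_distrib]
  exact prod_eq_one fun k _ => GG_inv (h1 k) (h2 k)

theorem odd_b {m : ℕ} (hm : Even m) {v : Fin (m + 1) → ℝ} (hv : Function.Injective v) {τ : ℝ}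
    (h1 : ∀ k, v k + τ ≠ 0) (h2 : ∀ k, v k + -τ ≠ 0) :
    ∑ j, UU v j * ((∏ k, GG (-τ) (v k)) * GG τ (v j) + GG (-τ) (v j) - 2) =
      ∏ k, GG (-τ) (v k) - 1 := by
  have e : ∀ j, UU v j * ((∏ k, GG (-τ) (v k)) * GG τ (v j) + GG (-τ) (v j) - 2) =
      (∏ k, GG (-τ) (v k)) * (UU v j * GG τ (v j)) + UU v j * GG (-τ) (v j) - 2 * UU v j :=
    fun j => by ring
  simp only [e, sum_sub_distrib, sum_add_distrib, ← mul_sum, sumU hm hv, sumUG hm hv h1,
    sumUG hm hv h2, prod_GG_inv h1 h2]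
  ring

theorem even_b {m : ℕ} (hm : Even m) {v : Fin (m + 1) → ℝ} (hv : Function.Injective v) {Z τ : ℝ}
    (h1 : ∀ k, v k + τ ≠ 0) (h2 : ∀ k, v k + -τ ≠ 0) (h3 : ∀ k, v k + Z ≠ 0) (h4 : Z + -τ ≠ 0) :
    ∑ j, UU v j * GG Z (v j) *
        ((∏ k, GG (-τ) (v k)) * GG τ (v j) + GG (-τ) Z * GG (-τ) (v j) - 2) =
      (∏ k, GG Z (v k)) * (GG (-τ) Z * ∏ k, GG (-τ) (v k) - 1) := by
  have e : ∀ j, UU v j * GG Z (v j) *
      ((∏ k, GG (-τ) (v k)) * GG τ (v j) + GG (-τ) Z * GG (-τ) (v j) - 2) =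
      ((∏ k, GG (-τ) (v k)) + GG (-τ) Z) * UU v j +
        ((∏ k, GG (-τ) (v k)) * GG (-τ) Z - 1) * (UU v j * GG Z (v j)) -
        (∏ k, GG (-τ) (v k)) * GG (-τ) Z * (UU v j * GG τ (v j)) - UU v j * GG (-τ) (v j) := by
    intro j
    have a1 := h1 j
    have a2 := h2 j
    have a3 := h3 j
    have f1 : GG (-τ) Z * GG Z (v j) * GG (-τ) (v j) = GG (-τ) Z + GG Z (v j) - GG (-τ) (v j) := by
      unfold GG
      field_simp
      ring
    have f2 : GG Z (v j) * GG τ (v j) = 1 + GG (-τ) Z * (GG Z (v j) - GG τ (v j)) := by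
      unfold GG
      field_simp
      ring
    linear_combination (UU v j) * f1 + (UU v j * ∏ k, GG (-τ) (v k)) * f2
  simp only [e, sum_sub_distrib, sum_add_distrib, ← mul_sum, sumU hm hv, sumUG hm hv h1,
    sumUG hm hv h2, sumUG hm hv h3]
  linear_combination (- GG (-τ) Z) * prod_GG_inv h1 h2

noncomputable def Yv (t : ℝ) (r : ℕ) : ℝ := (1 + t ^ r) / (1 - t ^ r)
noncomputable def ta (t : ℝ) : ℝ := (1 - t) / (1 + t)

section
variable {t : ℝ} (ht : 0 < t) (h1 : t ≠ 1) {r s : ℕ} (hr : r ≠ 0) (hs : s ≠ 0)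
include ht h1 hr

theorem Y_add_ta : Yv t r + ta t = 2 * (1 + t * t ^ r) / ((1 - t ^ r) * (1 + t)) := by
  have := one_sub_pow ht h1 hr
  unfold Yv ta
  field_simp
  ring

theorem Y_sub_ta : Yv t r + - ta t = 2 * (t + t ^ r) / ((1 - t ^ r) * (1 + t)) := by
  have := one_sub_pow ht h1 hr
  unfold Yv ta
  field_simp
  ring

theorem Y_add_ta_ne : Yv t r + ta t ≠ 0 := by
  have := one_sub_pow ht h1 hr
  rw [Y_add_ta ht h1 hr]
  positivity

theorem Y_sub_ta_ne : Yv t r + - ta t ≠ 0 := by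
  have := one_sub_pow ht h1 hr
  rw [Y_sub_ta ht h1 hr]
  positivity

theorem rho_eq : rho t r = GG (- ta t) (Yv t r) := by
  have := one_sub_pow ht h1 hr
  unfold GG rho
  rw [sub_neg_eq_add, Y_add_ta ht h1 hr, Y_sub_ta ht h1 hr]
  field_simp

include hs

theorem Y_add : Yv t s + Yv t r = 2 * (1 - t ^ r * t ^ s) / ((1 - t ^ r) * (1 - t ^ s)) := by
  have := one_sub_pow ht h1 hr
  have := one_sub_pow ht h1 hs
  unfold Yv
  field_simp
  ring

theorem Y_sub : Yv t s - Yv t r = 2 * (t ^ s - t ^ r) / ((1 - t ^ r) * (1 - t ^ s)) := by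
  have := one_sub_pow ht h1 hr
  have := one_sub_pow ht h1 hs
  unfold Yv
  field_simp
  ring

theorem Y_add_ne : Yv t s + Yv t r ≠ 0 := by
  have := one_sub_pow ht h1 hr
  have := one_sub_pow ht h1 hs
  have := one_sub_pow ht h1 (r := r + s) (by omega)
  rw [pow_add] at this
  rw [Y_add ht h1 hr hs]
  positivity

theorem Y_inj (h : Yv t s = Yv t r) : s = r := by
  have a1 := one_sub_pow ht h1 hr
  have a2 := one_sub_pow ht h1 hs
  have a3 := Y_sub ht h1 hr hs
  rw [h, sub_self, eq_comm, div_eq_zero_iff] at a3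
  rcases a3 with a3 | a3
  · exact pow_right_injective₀ ht h1 (by simpa [sub_eq_zero] using a3)
  · exact absurd a3 (mul_ne_zero a1 a2)

theorem g2_eq : g2 t r s = GG (Yv t r) (Yv t s) := by
  have := one_sub_pow ht h1 hr
  have := one_sub_pow ht h1 hs
  unfold GG g2
  rw [Y_add ht h1 hr hs, Y_sub ht h1 hr hs]
  field_simp

end

noncomputable def AV (t : ℝ) {l : ℕ} (ξ : Fin l → ℕ) : ℝ :=
  (∏ i, aq t (ξ i)) *
    ∏ p ∈ univ.filter (fun p : Fin l × Fin l => p.1 < p.2), GG (Yv t (ξ p.1)) (Yv t (ξ p.2))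

theorem GG_anti (a b : ℝ) : GG a b = - GG b a := by
  unfold GG
  rw [← neg_div, add_comm, neg_sub]

theorem AV_del {t : ℝ} (ht : 0 < t) (h1 : t ≠ 1) {m : ℕ} (hm : Even m) {η : Fin (m + 1) → ℕ}
    (hi : Function.Injective η) (h0 : ∀ i, η i ≠ 0) (j : Fin (m + 1)) :
    (-1) ^ j.val * (aq t (η j) * AV t (fun k => η (j.succAbove k))) =
      AV t η * UU (fun k => Yv t (η k)) j := by
  have e : (∏ k, GG (Yv t (η j)) (Yv t (η (j.succAbove k)))) * UU (fun k => Yv t (η k)) j = 1 := by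
    unfold UU
    rw [← prod_mul_distrib]
    have : ∀ k, GG (Yv t (η j)) (Yv t (η (j.succAbove k))) *
        ((Yv t (η j) + Yv t (η (j.succAbove k))) / (Yv t (η j) - Yv t (η (j.succAbove k)))) = -1 := by
      intro k
      have a1 := Y_add_ne ht h1 (h0 j) (h0 (j.succAbove k))
      have a2 : Yv t (η j) - Yv t (η (j.succAbove k)) ≠ 0 := sub_ne_zero.2 fun h =>
        Fin.succAbove_ne j k (hi (Y_inj ht h1 (h0 _) (h0 _) h)).symm
      unfold GG
      field_simp
      ring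
    simp only [this]
    rw [prod_const, card_univ, Fintype.card_fin, hm.neg_one_pow]
  unfold AV
  rw [pairs_del m (fun a b => GG (Yv t (η a)) (Yv t (η b))) (fun a b => GG_anti _ _) j,
    Fin.prod_univ_succAbove _ j]
  linear_combination (-(-1) ^ j.val * aq t (η j) * (∏ k, aq t (η (j.succAbove k))) *
    ∏ p ∈ univ.filter (fun p : Fin m × Fin m => p.1 < p.2),
      GG (Yv t (η (j.succAbove p.1))) (Yv t (η (j.succAbove p.2)))) * e

theorem rho_del {t : ℝ} (ht : 0 < t) (h1 : t ≠ 1) {m : ℕ} {η : Fin (m + 1) → ℕ}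
    (h0 : ∀ i, η i ≠ 0) (j : Fin (m + 1)) : ∏ k, rho t (η (j.succAbove k)) =
      (∏ k, GG (- ta t) (Yv t (η k))) * GG (ta t) (Yv t (η j)) := by
  rw [Fin.prod_univ_succAbove _ j, mul_right_comm,
    GG_inv (Y_add_ta_ne ht h1 (h0 j)) (Y_sub_ta_ne ht h1 (h0 j)), one_mul]
  exact prod_congr rfl fun k _ => rho_eq ht h1 (h0 _)

theorem mu_SQ : ∀ (l : ℕ) (ξ : Fin l → ℕ), Function.Injective ξ → (∀ i, ξ i ≠ 0) →
    Mu (N := N) (∑ i, ξ i) (fun x => SQ x l ξ) (fun t => AV t ξ)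
      (fun t => AV t ξ * (ka t * (∏ i, rho t (ξ i) - 1))) := by
  intro l
  induction l using Nat.strong_induction_on with
  | _ l ih =>
  intro ξ hi h0
  match l, ih, ξ, hi, h0 with
  | 0, _, ξ, _, _ =>
    exact mu_one.congr (fun x => by simp [SQ]) (fun t _ _ => by simp [AV]) (fun t _ _ => by simp)
  | 1, _, ξ, _, _ =>
    rw [Fin.sum_univ_one]
    exact (mu_q (ξ 0)).congr (fun x => by simp [SQ]) (fun t _ _ => by simp [AV, pairs_one])
      (fun t ht h1 => by simp [AV, pairs_one, bq_eq ht h1])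
  | (m + 2), ih, ξ, hi, h0 =>
    by_cases hm : Even m
    · have hη : Function.Injective (fun k : Fin (m + 1) => ξ k.succ) :=
        hi.comp (Fin.succ_injective _)
      have h := mu_sum (N := N) univ (d := ∑ i, ξ i) (fun j : Fin (m + 1) => j.val)
        (fun j _ => (mu_Q2 (ξ j.succ) (ξ 0) (h0 0)).mul
          (ih m (by omega) (fun k => ξ (j.succAbove k).succ)
            (hη.comp Fin.succAbove_right_injective) (fun k => h0 _))
          (by rw [Fin.sum_univ_succ, Fin.sum_univ_succAbove _ j, ← add_assoc]))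
      have key : ∀ t : ℝ, 0 < t → t ≠ 1 → AV t ξ = aq t (ξ 0) * AV t (fun k : Fin (m + 1) => ξ k.succ)
          * ∏ k : Fin (m + 1), GG (Yv t (ξ 0)) (Yv t (ξ k.succ)) := fun t _ _ => by
        unfold AV
        rw [pairs_succ (fun a b => GG (Yv t (ξ a)) (Yv t (ξ b))), Fin.prod_univ_succ]
        ring
      refine h.congr (fun x => by rw [SQ, if_pos hm]) (fun t ht h1 => ?_) (fun t ht h1 => ?_)
      all_goals
        have hv : Function.Injective (fun k : Fin (m + 1) => Yv t (ξ k.succ)) :=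
          fun a b hab => hη (Y_inj ht h1 (h0 _) (h0 _) hab)
        have hd := AV_del ht h1 hm hη (fun k => h0 _)
      · rw [key t ht h1, ← sumUG hm hv (fun k => Y_add_ne ht h1 (h0 _) (h0 _)), mul_sum]
        refine sum_congr rfl fun j _ => ?_
        rw [g2_eq ht h1 (h0 _) (h0 _)]
        linear_combination (- aq t (ξ 0) * GG (Yv t (ξ 0)) (Yv t (ξ j.succ))) * hd j
      · have hb := even_b hm hv (Z := Yv t (ξ 0)) (τ := ta t) (fun k => Y_add_ta_ne ht h1 (h0 _))
          (fun k => Y_sub_ta_ne ht h1 (h0 _)) (fun k => Y_add_ne ht h1 (h0 _) (h0 _))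
          (Y_sub_ta_ne ht h1 (h0 _))
        have hp : ∏ i, rho t (ξ i) = GG (- ta t) (Yv t (ξ 0)) *
            ∏ k : Fin (m + 1), GG (- ta t) (Yv t (ξ k.succ)) := by
          rw [← Fin.prod_univ_succ (fun i => GG (- ta t) (Yv t (ξ i)))]
          exact prod_congr rfl fun i _ => rho_eq ht h1 (h0 _)
        rw [key t ht h1, hp, mul_assoc, mul_left_comm (∏ k : Fin (m + 1), _), ← hb, mul_sum,
          mul_sum]
        refine sum_congr rfl fun j _ => ?_
        rw [g2_eq ht h1 (h0 _) (h0 _), rho_del ht h1 (η := fun k => ξ k.succ) (fun k => h0 _) j,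
          rho_eq ht h1 (h0 0), rho_eq ht h1 (h0 j.succ)]
        linear_combination (- aq t (ξ 0) * GG (Yv t (ξ 0)) (Yv t (ξ j.succ)) * ka t *
          ((∏ k : Fin (m + 1), GG (- ta t) (Yv t (ξ k.succ))) * GG (ta t) (Yv t (ξ j.succ)) +
            GG (- ta t) (Yv t (ξ 0)) * GG (- ta t) (Yv t (ξ j.succ)) - 2)) * hd j
    · have hm' : Even (m + 1) := Nat.even_add_one.2 hm
      have h := mu_sum (N := N) univ (d := ∑ i, ξ i) (fun j : Fin (m + 2) => j.val)
        (fun j _ => (mu_q (ξ j)).mul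
          (ih (m + 1) (by omega) (fun k => ξ (j.succAbove k))
            (hi.comp Fin.succAbove_right_injective) (fun k => h0 _))
          (Fin.sum_univ_succAbove _ j))
      refine h.congr (fun x => by rw [SQ, if_neg hm]) (fun t ht h1 => ?_) (fun t ht h1 => ?_)
      all_goals
        have hv : Function.Injective (fun k : Fin (m + 2) => Yv t (ξ k)) :=
          fun a b hab => hi (Y_inj ht h1 (h0 _) (h0 _) hab)
        have hd := AV_del ht h1 hm' hi h0
      · simp only [hd]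
        rw [← mul_sum, sumU hm' hv, mul_one]
      · have hb := odd_b hm' hv (τ := ta t) (fun k => Y_add_ta_ne ht h1 (h0 _))
          (fun k => Y_sub_ta_ne ht h1 (h0 _))
        rw [prod_congr rfl fun i _ => rho_eq ht h1 (h0 i), ← hb, mul_sum, mul_sum]
        refine sum_congr rfl fun j _ => ?_
        rw [rho_del ht h1 h0 j, bq_eq ht h1, rho_eq ht h1 (h0 j)]
        linear_combination (- ka t *
          ((∏ k : Fin (m + 2), GG (- ta t) (Yv t (ξ k))) * GG (ta t) (Yv t (ξ j)) +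
            GG (- ta t) (Yv t (ξ j)) - 2)) * hd j

end Pool.Agent.Lib.MP_2c9e21_co
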