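import Mathlib
import Pool.Agent.Lib.MP_2c9e21_co.Pf

namespace Pool.Agent.Lib.MP_2c9e21_co

open Finset

variable {N : ℕ}

def Rl (u v : ℝ) : Prop := v ≠ 0 ∧ ∃ e : ℤ, u = 10 ^ e * v

theorem Rl.mul {u v u' v' : ℝ} (h : Rl u v) (h' : Rl u' v') : Rl (u * u') (v * v') := by
  obtain ⟨h0, e, rfl⟩ := h
  obtain ⟨h0', e', rfl⟩ := h'
  exact ⟨mul_ne_zero h0 h0', e + e', by rw [zpow_add₀ (by norm_num)]; ring⟩

theorem Rl.div {u v u' v' : ℝ} (h : Rl u v) (h' : Rl u' v') : Rl (u / u') (v / v') := by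
  obtain ⟨h0, e, rfl⟩ := h
  obtain ⟨h0', e', rfl⟩ := h'
  exact ⟨div_ne_zero h0 h0', e - e', by rw [zpow_sub₀ (by norm_num), mul_div_mul_comm]⟩

theorem rl_prod {ι : Type} (s : Finset ι) {u v : ι → ℝ} (h : ∀ i ∈ s, Rl (u i) (v i)) :
    Rl (∏ i ∈ s, u i) (∏ i ∈ s, v i) := by
  classical
  induction s using Finset.induction_on with
  | empty => exact ⟨by simp, 0, by simp⟩
  | insert a s ha ih =>
    rw [prod_insert ha, prod_insert ha]
    exact (h a (mem_insert_self _ _)).mul (ih fun i hi => h i (mem_insert_of_mem hi))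

theorem qi_ten (n : ℕ) : qi 10 n = (10 ^ n - 1) / 9 := by
  linear_combination (-1 / 9 : ℝ) * qi_mul 10 n

theorem qi_tenth (n : ℕ) : qi 10⁻¹ n = 10 * (10 ^ n - 1) / (9 * 10 ^ n) := by
  have h := qi_mul (10 : ℝ)⁻¹ n
  rw [inv_pow] at h
  have h1 : (10 : ℝ) ^ n * (10 ^ n)⁻¹ = 1 := mul_inv_cancel₀ (by positivity)
  rw [eq_div_iff (by positivity)]
  linear_combination (10 * 10 ^ n) * h - 10 * h1

theorem rl_qfac (n : ℕ) : Rl (qfac 10⁻¹ n) (qfac 10 n) := by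
  refine rl_prod _ fun j _ => ⟨(qi_pos (by norm_num) j).ne', -j, ?_⟩
  have h1 := qi_ten (j + 1)
  have h2 := qi_tenth (j + 1)
  unfold qi at h1 h2
  rw [h1, h2, zpow_neg, zpow_natCast, pow_succ]
  field_simp

theorem rl_aq (n : ℕ) : Rl (aq 10⁻¹ n) (aq 10 n) := by
  unfold aq
  refine Rl.div (rl_prod _ fun j _ => ⟨by positivity, -j, ?_⟩) (rl_qfac n)
  rw [zpow_neg, zpow_natCast, inv_pow]
  field_simp
  ring

theorem Yv_inv {r : ℕ} (hr : r ≠ 0) : Yv 10⁻¹ r = - Yv 10 r := by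
  have h := one_sub_pow (t := 10) (by norm_num) (by norm_num) hr
  have h' : (10 : ℝ) ^ r - 1 ≠ 0 := fun h0 => h (by linarith)
  unfold Yv
  rw [inv_pow]
  field_simp
  ring

theorem rl_AV {l : ℕ} {ξ : Fin l → ℕ} (hi : Function.Injective ξ) (h0 : ∀ i, ξ i ≠ 0) :
    Rl (AV 10⁻¹ ξ) (AV 10 ξ) := by
  refine (rl_prod _ fun i _ => rl_aq _).mul (rl_prod _ fun p hp => ⟨?_, 0, ?_⟩)
  · refine div_ne_zero (sub_ne_zero.2 fun h => ?_)
      (Y_add_ne (by norm_num) (by norm_num) (h0 _) (h0 _))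
    exact (mem_filter.1 hp).2.ne' (hi (Y_inj (by norm_num) (by norm_num) (h0 _) (h0 _) h))
  · rw [Yv_inv (h0 _), Yv_inv (h0 _), zpow_zero, one_mul]
    unfold GG
    rw [← neg_div_neg_eq]
    congr 1 <;> ring

theorem rho_inv (r : ℕ) : rho 10⁻¹ r = rho 10 r := by
  unfold rho
  rw [inv_pow]
  field_simp
  ring

theorem prod_single {R : Type} [CommMonoid R] {l : ℕ} {ξ : Fin l → ℕ} (hi : Function.Injective ξ)
    (v : ℕ) (c : R) : ∏ j, (if ξ j = v then c else 1) = if ∃ j, ξ j = v then c else 1 := by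
  split_ifs with h
  · obtain ⟨j, rfl⟩ := h
    rw [prod_eq_single j, if_pos rfl]
    · intro k _ hk
      exact if_neg fun h => hk (hi h)
    · simp
  · exact prod_eq_one fun j _ => if_neg fun hj => h ⟨j, hj⟩

def ww : Fin 4 → ZMod 1000 := ![1, 10, 100, 0]

theorem pw (e : ℕ) : (10 : ZMod 1000) ^ e = ww ⟨min e 3, by omega⟩ := by
  match e with
  | 0 => rfl
  | 1 => rfl
  | 2 => rfl
  | (e + 3) =>
    have : (10 : ZMod 1000) ^ 3 = 0 := rfl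
    rw [pow_add, this, mul_zero]
    simp only [show min (e + 3) 3 = 3 by omega]
    rfl

theorem P1_mod {l : ℕ} {ξ : Fin l → ℕ} (hi : Function.Injective ξ) (h0 : ∀ i, ξ i ≠ 0) :
    ∏ j, (1 + 10 * (10 : ZMod 1000) ^ ξ j) = if ∃ j, ξ j = 1 then 101 else 1 := by
  rw [← prod_single hi]
  refine prod_congr rfl fun j _ => ?_
  have := h0 j
  match hj : ξ j with
  | 0 => exact absurd hj this
  | 1 => rfl
  | (e + 2) =>
    have : (10 : ZMod 1000) ^ 3 = 0 := rfl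
    rw [if_neg (by omega)]
    linear_combination 10 ^ e * this

theorem P3_mod {l : ℕ} {ξ : Fin l → ℕ} (hi : Function.Injective ξ) (h0 : ∀ i, ξ i ≠ 0) :
    ∏ j, (1 + (10 : ZMod 1000) ^ (ξ j - 1)) = (if ∃ j, ξ j = 1 then 2 else 1) *
      (if ∃ j, ξ j = 2 then 11 else 1) * (if ∃ j, ξ j = 3 then 101 else 1) := by
  rw [← prod_single hi, ← prod_single hi, ← prod_single hi, ← prod_mul_distrib, ← prod_mul_distrib]
  refine prod_congr rfl fun j _ => ?_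
  have := h0 j
  match hj : ξ j with
  | 0 => exact absurd hj this
  | 1 => rfl
  | 2 => rfl
  | 3 => rfl
  | (e + 4) =>
    have : (10 : ZMod 1000) ^ 3 = 0 := rfl
    rw [if_neg (by omega), if_neg (by omega), if_neg (by omega), show e + 4 - 1 = e + 3 from rfl]
    linear_combination 10 ^ e * this

theorem fin_check : ∀ (a1 a2 a3 : Bool) (p d j : Fin 4), p ≠ 0 → d ≠ 0 → (p ≠ 1 → d = 3) →
    ∀ A B : ZMod 1000,
    A = 2 * (if a1 then 101 else 1) - ww p * (11 + 90 * ww p * ww d) *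
      ((if a1 then 2 else 1) * (if a2 then 11 else 1) * (if a3 then 101 else 1)) →
    B = (110 * ww p * ww d - 9) *
      ((if a1 then 2 else 1) * (if a2 then 11 else 1) * (if a3 then 101 else 1)) -
        2 * ww d * (if a1 then 101 else 1) →
    (A = ww j * B ∨ ww j * A = B) → a1 = true ∧ (p = 1 ∨ (p = 2 ∧ a2 = true ∧ a3 = true)) := by
  intro a1 a2 a3 p d j h1 h2 h3 A B hA hB
  subst hA hB
  revert p d j
  cases a1 <;> cases a2 <;> cases a3 <;> decide +kernel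

theorem int_step {p d : ℕ} {ξ : Fin (p + 1) → ℕ} (hi : Function.Injective ξ) (h0 : ∀ i, ξ i ≠ 0)
    (hp : p ≠ 0) (hd : d ≠ 0) (hpd : p ≠ 1 → 3 ≤ d) (k : ℤ) (A B : ℤ)
    (hA : A = 2 * ∏ j, (1 + 10 * 10 ^ ξ j) -
      10 ^ p * (11 + 90 * 10 ^ p * 10 ^ d) * ∏ j, (1 + 10 ^ (ξ j - 1)))
    (hB : B = (110 * 10 ^ p * 10 ^ d - 9) * ∏ j, (1 + 10 ^ (ξ j - 1)) -
      2 * 10 ^ d * ∏ j, (1 + 10 * 10 ^ ξ j))
    (h : (A : ℝ) = 10 ^ k * B) :
    (∃ j, ξ j = 1) ∧ (p = 1 ∨ (p = 2 ∧ (∃ j, ξ j = 2) ∧ ∃ j, ξ j = 3)) := by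
  obtain ⟨j, hj⟩ : ∃ j : ℕ, A = 10 ^ j * B ∨ 10 ^ j * A = B := by
    obtain ⟨j, rfl | rfl⟩ := Int.eq_nat_or_neg k
    · exact ⟨j, Or.inl (by rw [zpow_natCast] at h; exact_mod_cast h)⟩
    · refine ⟨j, Or.inr ?_⟩
      have : (10 : ℝ) ^ j * A = B := by
        rw [h, zpow_neg, zpow_natCast]
        field_simp
      exact_mod_cast this
  have h2 := fin_check (decide (∃ j, ξ j = 1)) (decide (∃ j, ξ j = 2)) (decide (∃ j, ξ j = 3))
    ⟨min p 3, by omega⟩ ⟨min d 3, by omega⟩ ⟨min j 3, by omega⟩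
    (by simp [Fin.ext_iff]; omega) (by simp [Fin.ext_iff]; omega)
    (by simp only [Fin.ext_iff, ne_eq, Fin.val_one]; intro h; show min d 3 = 3; omega) A B
    (by rw [hA]; push_cast; simp only [← pw, P1_mod hi h0, P3_mod hi h0, decide_eq_true_eq])
    (by rw [hB]; push_cast; simp only [← pw, P1_mod hi h0, P3_mod hi h0, decide_eq_true_eq])
    (by
      rw [← pw]
      rcases hj with hj | hj
      · exact Or.inl (by exact_mod_cast congrArg (Int.cast : ℤ → ZMod 1000) hj)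
      · exact Or.inr (by exact_mod_cast congrArg (Int.cast : ℤ → ZMod 1000) hj))
  simp only [decide_eq_true_eq, Fin.ext_iff, Fin.val_one, Fin.val_two] at h2
  refine ⟨h2.1, h2.2.imp (by omega) fun h => ⟨by omega, h.2⟩⟩

theorem neg_core {p d : ℕ} {ξ : Fin (p + 1) → ℕ} (hi : Function.Injective ξ) (h0 : ∀ i, ξ i ≠ 0)
    (hp : p ≠ 0) (hd : d ≠ 0) (hpd : p ≠ 1 → 3 ≤ d) {K : Polynomial ℤ} (m : ℕ)
    (hK : ∀ t : ℝ, 0 < t → t ≠ 1 → (1 - t) * Polynomial.aeval t K = qfac t m *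
      (AV t ξ * (ka t * (∏ i, rho t (ξ i) - 1)) - qi t (p + 1 + d) * AV t ξ)) (h : Pal K) :
    (∃ j, ξ j = 1) ∧ (p = 1 ∨ (p = 2 ∧ (∃ j, ξ j = 2) ∧ ∃ j, ξ j = 3)) := by
  obtain ⟨k, hk⟩ := h
  have e0 := hk 10 (by norm_num)
  have e1 := hK 10 (by norm_num) (by norm_num)
  have e2 := hK 10⁻¹ (by norm_num) (by norm_num)
  obtain ⟨n1, a, e3⟩ := rl_qfac m
  obtain ⟨n2, b, e4⟩ := rl_AV hi h0
  simp only [rho_inv] at e2
  rw [e3, e4, qi_tenth] at e2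
  rw [qi_ten] at e1
  have k1 : ka 10 = 20 / 81 := by norm_num [ka]
  have k2 : ka 10⁻¹ = 20 / 81 := by norm_num [ka]
  rw [k1] at e1
  rw [k2] at e2
  have hR : (∏ i, rho 10 (ξ i)) * (10 * 10 ^ p * ∏ j, (1 + (10 : ℝ) ^ (ξ j - 1))) =
      ∏ j, (1 + 10 * (10 : ℝ) ^ ξ j) := by
    have : (10 : ℝ) * 10 ^ p = ∏ _j : Fin (p + 1), 10 := by simp [pow_succ']
    rw [this, ← prod_mul_distrib, ← prod_mul_distrib]
    refine prod_congr rfl fun j _ => ?_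
    obtain ⟨e, he⟩ := Nat.exists_eq_succ_of_ne_zero (h0 j)
    unfold rho
    rw [he, Nat.succ_sub_one, pow_succ]
    field_simp
  refine int_step hi h0 hp hd hpd (k + a + b + 1 - d) _ _ rfl rfl ?_
  push_cast
  rw [← hR, zpow_sub₀ (by norm_num), zpow_add_one₀ (by norm_num), zpow_add₀ (by norm_num), zpow_add₀ (by norm_num),
    zpow_natCast]
  have e5 : (20 / 81 * (∏ i, rho 10 (ξ i) - 1) - (10 ^ (p + 1 + d) - 1) / 9 : ℝ) =
      - (10 * 10 ^ k * 10 ^ a * 10 ^ b) * (20 / 81 * (∏ i, rho 10 (ξ i) - 1) -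
        10 * (10 ^ (p + 1 + d) - 1) / (9 * 10 ^ (p + 1 + d))) := by
    refine mul_left_cancel₀ (mul_ne_zero n1 n2) ?_
    linear_combination - e1 - 10 * 10 ^ k * e2 + 9 * e0
  rw [pow_add, pow_succ] at e5
  generalize ∏ i, rho 10 (ξ i) = R at e5 ⊢
  generalize ∏ j, (1 + (10 : ℝ) ^ (ξ j - 1)) = P at e5 ⊢
  have q1 : (0 : ℝ) < 10 ^ p := by positivity
  have q2 : (0 : ℝ) < 10 ^ d := by positivity
  generalize (10 : ℝ) ^ p = L at e5 q1 ⊢
  generalize (10 : ℝ) ^ d = D at e5 q2 ⊢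
  field_simp at e5 ⊢
  linear_combination P / 9 * e5

theorem sum_lower {p : ℕ} {ξ : Fin (p + 1) → ℕ} (ha : StrictAnti ξ) (h0 : ∀ i, 0 < ξ i)
    (hp : p ≠ 0) : p + 2 ≤ ∑ i, ξ i ∧ (p ≠ 1 → p + 4 ≤ ∑ i, ξ i) := by
  have hs : ∀ {q : ℕ} (η : Fin q → ℕ), (∀ i, 0 < η i) → q ≤ ∑ i, η i := fun η h => by
    simpa using card_nsmul_le_sum univ η 1 fun i _ => h i
  match p, ξ, ha, h0 with
  | 0, _, _, _ => exact absurd rfl hp
  | 1, ξ, ha, h0 =>
    have := ha (show (0 : Fin 2) < 1 by decide)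
    have := h0 1
    rw [Fin.sum_univ_two]
    omega
  | (q + 2), ξ, ha, h0 =>
    have h1 := ha (show (0 : Fin (q + 3)) < (0 : Fin (q + 2)).succ by simp)
    have h2 := ha (show (0 : Fin (q + 2)).succ < (0 : Fin (q + 1)).succ.succ by
      rw [Fin.succ_lt_succ_iff]; simp)
    have h3 := h0 (0 : Fin (q + 1)).succ.succ
    have h4 := hs (fun i : Fin (q + 1) => ξ i.succ.succ) fun i => h0 _
    rw [Fin.sum_univ_succ, Fin.sum_univ_succ]
    omega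

theorem neg_main {l : ℕ} {ξ : Fin l → ℕ} (ha : StrictAnti ξ) (h0 : ∀ i, 0 < ξ i)
    (hN : ∑ i, ξ i ≤ N) : ∃ K, IsExp N ξ K ∧ (2 ≤ l → Pal (K (tri N 1 (∑ i, ξ i - 2))) →
      (l = 2 ∧ ∃ i, ξ i = 1) ∨ List.ofFn ξ = [3, 2, 1]) := by
  obtain ⟨K, h1, h2⟩ := (mu_SQ (N := N) l ξ ha.injective fun i => (h0 i).ne').good
  refine ⟨K, h1, fun hl hP => ?_⟩
  obtain ⟨p, rfl⟩ : ∃ p, l = p + 1 := ⟨l - 1, by omega⟩
  obtain ⟨s1, s2⟩ := sum_lower ha h0 (by omega)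
  obtain ⟨d, hd⟩ : ∃ d, ∑ i, ξ i = p + 1 + d := ⟨∑ i, ξ i - (p + 1), by omega⟩
  have h3 := neg_core ha.injective (fun i => (h0 i).ne') (d := d) (by omega) (by omega)
    (fun h => by have := s2 h; omega) (∑ i, ξ i - 2) (fun t ht h1 => by
      have := (h2 hN t ht h1).2
      rw [if_pos (by omega)] at this
      rw [this, hd]) hP
  obtain ⟨h4, rfl | ⟨rfl, ⟨i2, e2⟩, i3, e3⟩⟩ := h3
  · exact Or.inl ⟨rfl, h4⟩
  · obtain ⟨i1, e1⟩ := h4
    have a1 := ha (show (0 : Fin 3) < 1 by decide)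
    have a2 := ha (show (1 : Fin 3) < 2 by decide)
    have : ξ 0 = 3 ∧ ξ 1 = 2 ∧ ξ 2 = 1 := by
      fin_cases i1 <;> fin_cases i2 <;> fin_cases i3 <;> simp at e1 e2 e3 <;> omega
    exact Or.inr (by simp [List.ofFn_succ, this.1, this.2.1, this.2.2])

end Pool.Agent.Lib.MP_2c9e21_co
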