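import Mathlib
import Pool.Agent.Lib.MP_2c9e21_co.Neg

namespace Pool.Agent.Lib.MP_2c9e21_co

open Finset

variable {N : ℕ}

open Classical in
theorem BB_sum (t : ℝ) (m : Fin N → ℕ) (b : ℕ) {c : (Fin N → ℕ) → ℝ}
    (hc : ∀ α β, mu α = mu β → c α = c β) :
    ∑ l ∈ Par N b, BB t m l * c l = ∑ s : Fin N → Bool,
      if Sup m s ∧ ∑ i, sb m s i = b then t ^ iv m (nt s) * c (sb m s) else 0 := by
  unfold BB
  simp only [sum_mul]
  rw [sum_comm]
  refine sum_congr rfl fun s _ => ?_
  split_ifs with hs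
  · obtain ⟨l, hl, h2, h3⟩ := exists_unique_Par (sb m s)
    rw [hs.2] at hl
    rw [sum_eq_single l, if_pos ⟨hs.1, h2⟩, hc _ _ h2]
    · intro l' hl' hne
      rw [if_neg fun h => hne (h3 l' (mem_Par.1 hl').2 h.2), zero_mul]
    · intro h
      exact absurd hl h
  · refine sum_eq_zero fun l hl => ?_
    rw [if_neg fun h => hs ⟨h.1, (sum_of_mu h.2).trans (mem_Par.1 hl).1⟩, zero_mul]

def nn (α : Fin N → ℕ) : ℕ := ∑ i, ∑ j, if i < j then min (α i) (α j) else 0

theorem nn_two (α : Fin N → ℕ) : 2 * nn α + ∑ i, α i = ∑ i, ∑ j, min (α i) (α j) := by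
  have h1 : nn α = ∑ i, ∑ j, if j < i then min (α i) (α j) else 0 := by
    unfold nn
    rw [sum_comm]
    simp only [min_comm]
  have h2 : ∑ i, α i = ∑ i, ∑ j, if i = j then min (α i) (α j) else 0 := by simp
  rw [two_mul, h2]
  nth_rewrite 2 [h1]
  unfold nn
  simp only [← sum_add_distrib]
  refine sum_congr rfl fun i _ => sum_congr rfl fun j _ => ?_
  rcases lt_trichotomy i j with h | h | h
  · simp [h, h.ne, h.not_gt]
  · simp [h]
  · simp [h, h.ne', h.not_gt]

theorem nn_comp (α : Fin N → ℕ) (σ : Equiv.Perm (Fin N)) : nn (α ∘ σ) = nn α := by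
  have h1 := nn_two α
  have h2 := nn_two (α ∘ σ)
  have h3 : ∑ i, (α ∘ σ) i = ∑ i, α i := Equiv.sum_comp σ α
  have h4 : ∑ i, ∑ j, min ((α ∘ σ) i) ((α ∘ σ) j) = ∑ i, ∑ j, min (α i) (α j) := by
    rw [← Equiv.sum_comp σ (fun i => ∑ j, min (α i) (α j))]
    exact sum_congr rfl fun i _ => Equiv.sum_comp σ (fun j => min (α (σ i)) (α j))
  omega

theorem nn_mu {α β : Fin N → ℕ} (h : mu α = mu β) : nn α = nn β := by
  obtain ⟨σ, hσ⟩ := exists_sort β
  obtain ⟨τ, hτ⟩ := exists_perm_of_mu hσ (h.trans (mu_comp β σ).symm)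
  rw [← nn_comp α τ, hτ, nn_comp]

theorem nn_dec {α α' : Fin N → ℕ} {i : Fin N} (h1 : α i = α' i + 1) (h2 : ∀ j, j ≠ i → α j = α' j) :
    nn α = nn α' + (∑ q, if i < q ∧ α i ≤ α q then 1 else 0) +
      ∑ p, if p < i ∧ α i ≤ α p then 1 else 0 := by
  have e1 : (∑ q, if i < q ∧ α i ≤ α q then 1 else 0) =
      ∑ p, ∑ q, if p = i then (if i < q ∧ α i ≤ α q then 1 else 0) else 0 := by simp
  have e2 : (∑ p, if p < i ∧ α i ≤ α p then 1 else 0) =
      ∑ p, ∑ q, if q = i then (if p < i ∧ α i ≤ α p then 1 else 0) else 0 := by simp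
  rw [e1, e2]
  unfold nn
  simp only [← sum_add_distrib]
  refine sum_congr rfl fun p _ => sum_congr rfl fun q _ => ?_
  by_cases hp : p = i <;> by_cases hq : q = i
  · simp [hp, hq]
  · have := h2 q hq
    subst hp
    simp only [if_true, if_neg hq]
    split_ifs <;> omega
  · have := h2 p hp
    subst hq
    simp only [if_true, if_neg hp]
    split_ifs <;> omega
  · simp only [if_neg hp, if_neg hq, h2 p hp, h2 q hq, add_zero]

theorem mu_dec {α α' : Fin N → ℕ} {i : Fin N} (h1 : α i = α' i + 1) (h2 : ∀ j, j ≠ i → α j = α' j) :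
    mu α' 0 = mu α 0 + if α i = 1 then 1 else 0 := by
  have e1 : (if α i = 1 then 1 else 0) = ∑ p, if p = i then (if α i = 1 then 1 else 0) else 0 := by
    simp
  rw [e1]
  unfold mu
  rw [← sum_add_distrib]
  refine sum_congr rfl fun p _ => ?_
  by_cases hp : p = i
  · subst hp
    simp only [if_true]
    split_ifs <;> omega
  · simp only [if_neg hp, h2 p hp, add_zero]

noncomputable def cc (t : ℝ) (α : Fin N → ℕ) : ℝ :=
  t ^ nn α * ∏ k ∈ range (N - mu α 0), (1 + t⁻¹ ^ k)

theorem cc_mu (t : ℝ) (α β : Fin N → ℕ) (h : mu α = mu β) : cc t α = cc t β := by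
  unfold cc
  rw [nn_mu h, h]

theorem cc_col {t : ℝ} (ht : 0 < t) : ∀ d ≤ N, cc t (tri N 0 d) = qfac t d * aq t d := by
  intro d
  induction d with
  | zero =>
    intro _
    have : nn (tri N 0 0) = 0 := by simp [nn, tri]
    simp [cc, this, mu_tri_zero, qfac_zero, aq_zero]
  | succ d ih =>
    intro hd
    have h1 := nn_dec (α := tri N 0 (d + 1)) (α' := tri N 0 d) (i := ⟨d, hd⟩) (by simp [tri])
      (fun j hj => by
        have : j.val ≠ d := fun h => hj (Fin.ext h)
        unfold tri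
        split_ifs <;> omega)
    have h2 : (∑ q : Fin N, if (⟨d, hd⟩ : Fin N) < q ∧ tri N 0 (d + 1) ⟨d, hd⟩ ≤ tri N 0 (d + 1) q
        then 1 else 0) = 0 := sum_eq_zero fun q _ => if_neg (by
      simp only [Fin.lt_def, tri]
      split_ifs <;> omega)
    have h3 : (∑ p : Fin N, if p < (⟨d, hd⟩ : Fin N) ∧ tri N 0 (d + 1) ⟨d, hd⟩ ≤ tri N 0 (d + 1) p
        then 1 else 0) = d := by
      refine Eq.trans (sum_congr rfl fun p _ => if_congr ?_ rfl rfl) (cnt (N := N) (by omega))
      simp only [Fin.lt_def, tri]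
      split_ifs <;> omega
    have h4 := ih (by omega)
    have h5 := aq_succ ht d
    unfold cc at h4 ⊢
    rw [mu_tri_zero (by omega), show N - (N - (0 + d)) = d by omega] at h4
    rw [mu_tri_zero (by omega), show N - (N - (0 + (d + 1))) = d + 1 by omega, h1, h2, h3,
      prod_range_succ, qfac_succ, pow_add, add_zero]
    have h6 : t ^ d * t⁻¹ ^ d = 1 := by rw [← mul_pow, mul_inv_cancel₀ ht.ne', one_pow]
    linear_combination (1 + t ^ d) * h4 - qfac t d * h5 +
      (t ^ nn (tri N 0 d) * ∏ k ∈ range d, (1 + t⁻¹ ^ k)) * h6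

open Classical in
theorem toggle (t : ℝ) {m : Fin (N + 1) → ℕ} (hm : Antitone m) (h2 : 2 ≤ m 0) :
    ∑ s : Fin (N + 1) → Bool,
      (if Sup m s then (-1) ^ wt s * (t ^ iv m (nt s) * cc t (sb m s)) else 0) = 0 := by
  rw [sum_cons, ← sum_add_distrib]
  refine sum_eq_zero fun s _ => ?_
  have e0 : Sup m (Fin.cons true s) ↔ Sup m (Fin.cons false s) := by
    unfold Sup
    simp only [Fin.forall_fin_succ, Fin.cons_zero, Fin.cons_succ]
    simp only [Bool.false_eq_true, false_imp_iff, true_and, and_iff_right_iff_imp]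
    omega
  have e1 : ∀ b, nt (Fin.cons b s : Fin (N + 1) → Bool) = Fin.cons (!b) (nt s) := fun b =>
    funext fun i => Fin.cases rfl (fun _ => rfl) i
  have e2 : ∀ b, wt (Fin.cons b s : Fin (N + 1) → Bool) = b.toNat + wt s := fun b => by
    unfold wt
    rw [Fin.sum_univ_succ]
    rfl
  have d1 : sb m (Fin.cons false s) 0 = sb m (Fin.cons true s) 0 + 1 := by
    simp [sb]
    omega
  have d2 : ∀ j, j ≠ 0 → sb m (Fin.cons false s) j = sb m (Fin.cons true s) j := fun j hj => by
    obtain ⟨k, rfl⟩ := Fin.exists_succ_eq.2 hj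
    rfl
  have e3 := nn_dec d1 d2
  have e4 := mu_dec d1 d2
  have e5 : sb m (Fin.cons false s) 0 = m 0 := rfl
  have e6 : (∑ q, if 0 < q ∧ m 0 ≤ sb m (Fin.cons false s) q then 1 else 0) =
      cn (Fin.tail m) (nt s) (m 0) := by
    rw [Fin.sum_univ_succ, if_neg (by simp), zero_add]
    refine sum_congr rfl fun j _ => if_congr ?_ rfl rfl
    have := hm (Fin.zero_le j.succ)
    simp only [Fin.succ_pos, true_and, sb, Fin.cons_succ, Fin.tail, nt]
    cases s j <;> simp <;> omega
  rw [e5, if_neg (by omega), add_zero] at e4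
  rw [e5, e6] at e3
  simp only [Fin.not_lt_zero, false_and, if_false, sum_const_zero, add_zero] at e3
  simp only [e0]
  split_ifs
  · rw [e1, e1, e2, e2, iv_cons, iv_cons]
    unfold cc
    rw [e3, e4]
    simp [pow_add]
    ring
  · simp

theorem star_coef {t : ℝ} (ht : 0 < t) {n : ℕ} {m : Fin N → ℕ} (hm : m ∈ Par N n) :
    ∑ p ∈ antidiagonal n, (-1) ^ p.1 * ∑ l ∈ Par N p.2, BB t m l * cc t l =
      BB t m (fun _ => 0) := by
  classical
  obtain ⟨h1, h2⟩ := mem_Par.1 hm
  by_cases h : ∀ i, m i ≤ 1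
  · have e1 : ∀ c, mu m (c + 2) = 0 := fun c => mu_eq_zero fun i hi => by have := h i; omega
    have e2 := eq_tri h2 fun c => e1 (c + 1)
    have e3 := mu_total fun c => e1 (c + 1)
    rw [e1 0] at e2 e3
    have e4 : mu m 1 = n := by rw [← h1, e2, sum_tri (by omega), ← e2]; omega
    have e5 : (fun _ => 0) = tri N 0 0 := funext fun i => by simp [tri]
    rw [e4] at e2 e3
    have pn := (qfac_pos ht n).ne'
    have e6 : ∀ p ∈ antidiagonal n, (-1) ^ p.1 * ∑ l ∈ Par N p.2, BB t (tri N 0 n) l * cc t l =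
        qfac t n * ((-1) ^ p.1 * ((qfac t p.1)⁻¹ * aq t p.2)) := by
      intro p hp
      have hp' := mem_antidiagonal.1 hp
      rw [sum_eq_single (tri N 0 p.2), cc_col ht _ (by omega),
        BB_tri ht (a' := 0) (k1 := 0) (d1 := p.2) (k0 := p.1) rfl (by omega) (by omega) (by omega)]
      · have := (qfac_pos ht p.1).ne'
        have := (qfac_pos ht p.2).ne'
        rw [qfac_zero]
        field_simp
      · intro l hl hne
        refine mul_eq_zero_of_left ?_ _
        by_contra hB
        obtain ⟨a', k1, d1, k0, f1, f2, f3, f4⟩ := BB_ne (by omega) hl hB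
        exact hne (by rw [f3, show a' = 0 by omega, show k1 + d1 = p.2 by omega])
      · intro h
        exact absurd (tri_mem (by omega) (by omega)) h
    rw [e2, e5, sum_congr rfl e6, ← mul_sum, Fsum ht,
      BB_tri ht (a' := 0) (k1 := 0) (d1 := 0) (k0 := n) rfl (by omega) rfl (by omega), qfac_zero]
    field_simp
  · push Not at h
    obtain ⟨i, hi⟩ := h
    cases N with
    | zero => exact i.elim0
    | succ N =>
      have h3 : 2 ≤ m 0 := hi.trans_le (h2 (Fin.zero_le i))
      have e1 : BB t m (fun _ => 0) = 0 := by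
        refine sum_eq_zero fun s _ => if_neg fun hs => ?_
        have h4 := sum_of_mu hs.2
        rw [sum_const_zero] at h4
        have h5 := sum_eq_zero_iff.1 h4 0 (mem_univ _)
        unfold sb at h5
        cases hs0 : s 0 <;> simp [hs0] at h5 <;> omega
      rw [e1, ← toggle t h2 h3]
      simp only [BB_sum t m _ (cc_mu t), mul_sum]
      rw [sum_comm]
      refine sum_congr rfl fun s _ => ?_
      split_ifs with hs
      · have h4 := sum_sb hs
        rw [sum_eq_single (wt s, ∑ i, sb m s i), if_pos ⟨hs, rfl⟩]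
        · intro p hp hne
          have := mem_antidiagonal.1 hp
          rw [if_neg fun h => hne (Prod.ext (by have := h.2; simp only; omega) h.2.symm), mul_zero]
        · intro h
          exact absurd (HasAntidiagonal.mem_antidiagonal.2 (by simp only; omega)) h
      · simp [hs]

theorem qq_exp {t : ℝ} (ht : 0 < t) {x : Fin N → ℝ} (hx : Function.Injective x) (n : ℕ) :
    qq x n = ∑ μ ∈ Par N n, cc t μ * HLP t μ x := by
  induction n using Nat.strong_induction_on with
  | _ n ih =>
    have h1 : ∑ p ∈ antidiagonal n, (-1) ^ p.1 * (ee x p.1 * ∑ l ∈ Par N p.2, cc t l * HLP t l x)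
        = ee x n := by
      have h2 := pieri ht x n (n := 0) (l := fun _ => 0) (by simp [Par_zero])
      rw [HLP_zero ht hx, mul_one, zero_add] at h2
      rw [h2, ← sum_congr rfl fun m hm => congrArg (· * HLP t m x) (star_coef ht hm)]
      simp only [sum_mul]
      rw [sum_comm]
      refine sum_congr rfl fun p hp => ?_
      rw [exp_ee ht, add_comm, mem_antidiagonal.1 hp, mul_sum]
      exact sum_congr rfl fun m _ => by ring
    have h2 := qq_rec x n
    cases n with
    | zero => simpa [ee_zero, qq_zero] using h1.symm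
    | succ n =>
      rw [Nat.sum_antidiagonal_succ, ee_zero] at h1 h2
      rw [sum_congr rfl fun p hp => by
        rw [ih p.2 (by have := mem_antidiagonal.1 hp; omega)]] at h2
      linear_combination h2 - h1

end Pool.Agent.Lib.MP_2c9e21_co
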