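import Mathlib
import Pool.Agent.Lib.MP_2c9e21_co.Row

namespace Pool.Agent.Lib.MP_2c9e21_co

open Finset

variable {N : ℕ}

def PalF (F : ℝ → ℝ) : Prop := ∃ m : ℤ, ∀ t : ℝ, 0 < t → t ≠ 1 → t ^ m * F t⁻¹ = F t

theorem PalF.pal {F : ℝ → ℝ} (h : PalF F) {K : Polynomial ℤ}
    (hK : ∀ t : ℝ, 0 < t → t ≠ 1 → Polynomial.aeval t K = F t) : Pal K := by
  obtain ⟨m, hm⟩ := h
  refine ⟨m, fun t ht => ?_⟩
  by_cases h1 : t = 1
  · simp [h1]
  · rw [hK t ht h1, hK t⁻¹ (inv_pos.2 ht) (by simpa using h1), hm t ht h1]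

theorem PalF.mul {F G : ℝ → ℝ} (h : PalF F) (h' : PalF G) : PalF fun t => F t * G t := by
  obtain ⟨m, hm⟩ := h
  obtain ⟨m', hm'⟩ := h'
  refine ⟨m + m', fun t ht h1 => ?_⟩
  simp only [← hm t ht h1, ← hm' t ht h1, zpow_add₀ ht.ne']
  ring

theorem palF_const (c : ℝ) : PalF fun _ => c := ⟨0, fun _ _ _ => by simp⟩

theorem palF_pow (k : ℕ) : PalF fun t => t ^ k := by
  refine ⟨k + k, fun t ht _ => ?_⟩
  simp only [zpow_add₀ ht.ne', zpow_natCast, inv_pow]
  field_simp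

theorem palF_prod (n : ℕ) : PalF fun t => ∏ k ∈ range n, (1 + t⁻¹ ^ k) := by
  induction n with
  | zero => simpa using palF_const 1
  | succ n ih =>
    simp only [prod_range_succ]
    refine ih.mul ⟨-n, fun t ht _ => ?_⟩
    simp only [zpow_neg, zpow_natCast, inv_pow, inv_inv]
    field_simp
    ring

theorem palF_br (k : ℕ) : PalF fun t => (t⁻¹ - t⁻¹ ^ k) / (1 - t⁻¹) := by
  refine ⟨-k, fun t ht h1 => ?_⟩
  have h2 : 1 - t ≠ 0 := sub_ne_zero.2 h1.symm
  have h3 : t - 1 ≠ 0 := sub_ne_zero.2 h1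
  simp only [zpow_neg, zpow_natCast, inv_pow, inv_inv]
  field_simp
  ring

theorem pos_row {l : ℕ} {ξ : Fin l → ℕ} (hl : l ≤ 1) {K : (Fin N → ℕ) → Polynomial ℤ}
    (hK : IsExp N ξ K) : ∀ μ ∈ Par N (∑ i, ξ i), Pal (K μ) := by
  intro μ hμ
  have h : ∀ x : Fin N → ℝ, SQ x l ξ = qq x (∑ i, ξ i) := fun x => by
    match l, ξ, hl with
    | 0, ξ, _ => simp [SQ, qq_zero]
    | 1, ξ, _ => simp [SQ]
  refine ((palF_pow (nn μ)).mul (palF_prod (N - mu μ 0))).pal fun t ht _ => ?_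
  exact coef_unique ht (c := fun μ => Polynomial.aeval t (K μ)) (c' := cc t)
    (fun x hx => by rw [← qq_exp ht hx, ← h, hK t ht x hx]) μ hμ

def dl (i : Fin N) : Fin N → Bool := fun j => decide (j = i)

theorem sum_wt_one (G : (Fin N → Bool) → ℝ) :
    ∑ s : Fin N → Bool, (if wt s = 1 then G s else 0) = ∑ i, G (dl i) := by
  rw [← sum_filter]
  refine (sum_bij (fun i _ => dl i) (fun i _ => ?_) (fun i _ j _ h => ?_) (fun s hs => ?_)
    (fun _ _ => rfl)).symm
  · rw [mem_filter]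
    refine ⟨mem_univ _, ?_⟩
    unfold wt dl
    rw [sum_eq_single i] <;> simp +contextual
  · simpa [dl] using congrFun h i
  · have h1 : (univ.filter (fun i => s i = true)).card = 1 := by
      rw [← (mem_filter.1 hs).2, card_filter]
      refine sum_congr rfl fun i _ => ?_
      cases s i <;> simp
    obtain ⟨i, hi⟩ := card_eq_one.1 h1
    refine ⟨i, mem_univ _, funext fun j => ?_⟩
    have := congrArg (fun T => j ∈ T) hi
    simp only [mem_filter, mem_univ, true_and, mem_singleton, eq_iff_iff] at this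
    unfold dl
    cases hj : s j
    · simp [← this, hj]
    · simp [← this, hj]

theorem thr {m : Fin N → ℕ} (hm : Antitone m) (c : ℕ) :
    ∃ s ≤ N, ∀ i : Fin N, c ≤ m i ↔ i.val < s := by
  classical
  have h0 : ∃ k, ∀ i : Fin N, k ≤ i.val → m i < c := ⟨N, fun i hi => absurd i.2 (by omega)⟩
  refine ⟨Nat.find h0, Nat.find_min' h0 fun i hi => absurd i.2 (by omega), fun i => ⟨?_, ?_⟩⟩
  · intro h
    by_contra hc
    have := Nat.find_spec h0 i (by omega)
    omega
  · intro h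
    have h1 := Nat.find_min h0 h
    push Not at h1
    obtain ⟨j, hj, h2⟩ := h1
    exact h2.trans (hm hj)

theorem sum_qi (u : ℝ) {s : ℕ} (hs : s ≤ N) :
    ∑ i : Fin N, (if i.val < s then u ^ i.val else 0) = qi u s := by
  rw [Fin.sum_univ_eq_sum_range (fun i => if i < s then u ^ i else 0) N, ← sum_filter]
  refine sum_congr ?_ fun _ _ => rfl
  ext i
  simp only [mem_filter, mem_range]
  omega

theorem hook_coef {n : ℕ} {m : Fin N → ℕ} (hm : m ∈ Par N (n + 1)) :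
    ∃ a b c : ℕ, ∀ t : ℝ, 0 < t → t ≠ 1 → ∑ l ∈ Par N n, BB t m l * cc t l - cc t m =
      t ^ a * (∏ k ∈ range b, (1 + t⁻¹ ^ k)) * ((t⁻¹ - t⁻¹ ^ c) / (1 - t⁻¹)) := by
  classical
  obtain ⟨h1, h2⟩ := mem_Par.1 hm
  obtain ⟨L, hL, h3⟩ := thr h2 1
  obtain ⟨s, hs, h4⟩ := thr h2 2
  have e1 : mu m 0 + L = N := by
    rw [← cnt hL]
    refine Eq.trans ?_ (cnt (N := N) le_rfl)
    unfold mu
    rw [← sum_add_distrib]
    refine sum_congr rfl fun i _ => ?_
    have := h3 i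
    have := i.2
    split_ifs <;> omega
  obtain ⟨L, rfl⟩ : ∃ L', L = L' + 1 := by
    refine Nat.exists_eq_succ_of_ne_zero fun h => ?_
    rw [sum_eq_zero fun i _ => by have := h3 i; omega] at h1
    omega
  refine ⟨nn m, L, L + s, fun t ht ht1 => ?_⟩
  have e2 : ∀ σ : Fin N → Bool, (if Sup m σ ∧ ∑ i, sb m σ i = n then
      t ^ iv m (nt σ) * cc t (sb m σ) else 0) =
      if wt σ = 1 then (if Sup m σ then t ^ iv m (nt σ) * cc t (sb m σ) else 0) else 0 := by
    intro σ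
    by_cases h : Sup m σ
    · have := sum_sb h
      simp only [h, true_and, if_true]
      exact if_congr (by omega) rfl rfl
    · simp [h]
  have e3 : ∀ i : Fin N, (if Sup m (dl i) then t ^ iv m (nt (dl i)) * cc t (sb m (dl i)) else 0) =
      t ^ nn m * (∏ k ∈ range L, (1 + t⁻¹ ^ k)) * ((if i.val < L + 1 then t⁻¹ ^ i.val else 0) +
        t⁻¹ ^ L * if i.val < s then t⁻¹ ^ i.val else 0) := by
    intro i
    have f0 : Sup m (dl i) ↔ 1 ≤ m i := by simp [Sup, dl, Nat.one_le_iff_ne_zero, pos_iff_ne_zero]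
    have g3 := h3 i
    have g4 := h4 i
    by_cases hi : 1 ≤ m i
    · have d1 : m i = sb m (dl i) i + 1 := by simp [sb, dl]; omega
      have d2 : ∀ j, j ≠ i → m j = sb m (dl i) j := fun j hj => by simp [sb, dl, hj]
      have f1 := nn_dec d1 d2
      have f2 := mu_dec d1 d2
      have f3 : (∑ q, if i < q ∧ m i ≤ m q then 1 else 0) = iv m (nt (dl i)) := by
        unfold iv
        symm
        rw [sum_eq_single i]
        · refine sum_congr rfl fun q _ => if_congr (Iff.symm ?_) rfl rfl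
          simp only [nt, dl, decide_true, Bool.not_true, true_and, Bool.not_eq_eq_eq_not,
            decide_eq_false_iff_not]
          exact ⟨fun h => ⟨h.1, le_antisymm h.2 (h2 h.1.le), h.1.ne'⟩, fun h => ⟨h.1, h.2.1.le⟩⟩
        · intro p _ hp
          simp [nt, dl, hp]
        · simp
      have f4 : (∑ p, if p < i ∧ m i ≤ m p then 1 else 0) = i.val := by
        refine Eq.trans (sum_congr rfl fun p _ => if_congr ?_ rfl rfl) (cnt (N := N) i.2.le)
        exact ⟨fun h => h.1, fun h => ⟨h, h2 (le_of_lt h)⟩⟩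
      have f5 : t ^ i.val * t⁻¹ ^ i.val = 1 := by rw [← mul_pow, mul_inv_cancel₀ ht.ne', one_pow]
      rw [if_pos (f0.2 hi), if_pos (g3.1 hi), f1, f3, f4, pow_add, pow_add]
      unfold cc
      by_cases h5 : m i = 1
      · rw [if_pos h5] at f2
        rw [if_neg (by omega), show N - mu (sb m (dl i)) 0 = L by omega]
        linear_combination (- t ^ iv m (nt (dl i)) * t ^ nn (sb m (dl i)) *
          ∏ k ∈ range L, (1 + t⁻¹ ^ k)) * f5
      · rw [if_neg h5] at f2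
        rw [if_pos (by omega), show N - mu (sb m (dl i)) 0 = L + 1 by omega, prod_range_succ]
        linear_combination (- t ^ iv m (nt (dl i)) * t ^ nn (sb m (dl i)) *
          (∏ k ∈ range L, (1 + t⁻¹ ^ k)) * (1 + t⁻¹ ^ L)) * f5
    · rw [if_neg (fun h => hi (f0.1 h)), if_neg (by omega), if_neg (by omega)]
      ring
  have e4 : 1 - t⁻¹ ≠ 0 := sub_ne_zero.2 (by simpa using ht1)
  rw [BB_sum t m n (cc_mu t), sum_congr rfl fun σ _ => e2 σ, sum_wt_one,
    sum_congr rfl fun i _ => e3 i, ← mul_sum, sum_add_distrib, ← mul_sum, sum_qi _ hL, sum_qi _ hs]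
  unfold cc
  rw [show N - mu m 0 = L + 1 by omega, prod_range_succ, ← mul_div_assoc, eq_div_iff e4]
  linear_combination (t ^ nn m * ∏ k ∈ range L, (1 + t⁻¹ ^ k)) *
    (qi_mul t⁻¹ (L + 1) + t⁻¹ ^ L * qi_mul t⁻¹ s)

theorem qq_one (x : Fin N → ℝ) : qq x 1 = 2 * ee x 1 := by
  have h := qq_rec x (0 + 1)
  rw [Nat.sum_antidiagonal_succ] at h
  simp only [Nat.antidiagonal_zero, sum_singleton, ee_zero, qq_zero, zero_add] at h
  linear_combination h

theorem pos_hook {ξ : Fin 2 → ℕ} (h1 : ξ 1 = 1) {K : (Fin N → ℕ) → Polynomial ℤ}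
    (hK : IsExp N ξ K) : ∀ μ ∈ Par N (∑ i, ξ i), Pal (K μ) := by
  intro μ hμ
  unfold IsExp at hK
  rw [Fin.sum_univ_two, h1] at hμ hK
  have h : ∀ x : Fin N → ℝ, SQ x 2 ξ = 2 * (ee x 1 * qq x (ξ 0) - qq x (ξ 0 + 1)) := fun x => by
    have : SQ x 2 ξ = Q2 x (ξ 0) (ξ 1) := by simp [SQ]
    rw [this, h1]
    simp [Q2, qq_zero, qq_one]
    ring
  obtain ⟨a, b, c, h2⟩ := hook_coef hμ
  refine ((palF_const 2).mul (((palF_pow a).mul (palF_prod b)).mul (palF_br c))).pal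
    fun t ht ht1 => ?_
  rw [← h2 t ht ht1]
  exact coef_unique ht (c := fun μ => Polynomial.aeval t (K μ))
    (c' := fun m => 2 * (∑ l ∈ Par N (ξ 0), BB t m l * cc t l - cc t m))
    (fun x hx => by
      rw [← hK t ht x hx, h, qq_exp ht hx, qq_exp ht hx, exp_ee ht, ← sum_sub_distrib, mul_sum]
      exact sum_congr rfl fun m _ => by ring) μ hμ

end Pool.Agent.Lib.MP_2c9e21_co
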