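import Mathlib
import Pool.Agent.Lib.MP_2c9e21_co.Hook

namespace Pool.Agent.Lib.MP_2c9e21_co

open Finset

variable {N : ℕ}

theorem le_of_mu {α l : Fin N → ℕ} (h : mu α = mu l) {c : ℕ} (hl : ∀ i, l i ≤ c) (i : Fin N) :
    α i ≤ c := by
  by_contra hc
  have h1 : mu l (α i) = 0 := mu_eq_zero fun j hj => by have := hl j; omega
  rw [← h] at h1
  have h2 := sum_eq_zero_iff.1 h1 i (mem_univ i)
  simp at h2

theorem BB_le (t : ℝ) {m l : Fin N → ℕ} {c : ℕ} (hl : ∀ i, l i ≤ c) {i : Fin N}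
    (hi : c + 1 < m i) : BB t m l = 0 := by
  refine sum_eq_zero fun s _ => if_neg fun hs => ?_
  have := le_of_mu hs.2 hl i
  unfold sb at this
  cases h : s i <;> simp [h] at this <;> omega

theorem tri_le (a b : ℕ) (i : Fin N) : tri N a b i ≤ 2 := by
  unfold tri
  split_ifs <;> omega

theorem col_le (b : ℕ) (i : Fin N) : tri N 0 b i ≤ 1 := by
  unfold tri
  split_ifs <;> omega

theorem is_tri {n : ℕ} {m : Fin N → ℕ} (hm : m ∈ Par N n) (h : ∀ i, m i ≤ 2) :
    ∃ a b, a + b ≤ N ∧ 2 * a + b = n ∧ m = tri N a b := by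
  obtain ⟨h1, h2⟩ := mem_Par.1 hm
  have e1 : ∀ c, mu m (c + 3) = 0 := fun c => mu_eq_zero fun i hi => by have := h i; omega
  have e2 := eq_tri h2 e1
  have e3 := mu_total e1
  exact ⟨_, _, by omega, by rw [← h1, ← sum_tri (N := N) (by omega), ← e2], e2⟩

theorem tri_inj {a b a' b' : ℕ} (h : a + b ≤ N) (h' : a' + b' ≤ N) (e : tri N a b = tri N a' b') :
    a = a' ∧ b = b' :=
  ⟨by rw [← mu_tri_two h, e, mu_tri_two h'], by rw [← mu_tri_one h, e, mu_tri_one h']⟩

theorem BB_zero (t : ℝ) {a b a' b' : ℕ} (h : a + b ≤ N) (h' : a' + b' ≤ N)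
    (hn : a < a' ∨ a' + b' < a ∨ a + b < a' + b') : BB t (tri N a b) (tri N a' b') = 0 := by
  by_contra hB
  obtain ⟨a1, k1, d1, k0, f1, f2, f3, -⟩ := BB_ne h (tri_mem h' rfl) hB
  have := tri_inj h' (by omega) f3
  omega

theorem ee_P {t : ℝ} (ht : 0 < t) {x : Fin N → ℝ} (hx : Function.Injective x) {r : ℕ}
    (hr : r ≤ N) : ee x r = HLP t (tri N 0 r) x := by
  have h2 := pieri ht x r (n := 0) (l := tri N 0 0) (tri_mem (by omega) rfl)
  have e5 : tri N 0 0 = fun _ => 0 := funext fun i => by simp [tri]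
  rw [sum_eq_single (tri N 0 r),
    BB_tri ht (a' := 0) (k1 := 0) (d1 := 0) (k0 := r) rfl (by omega) rfl (by omega), e5,
    HLP_zero ht hx, qfac_zero] at h2
  · have := (qfac_pos ht r).ne'
    field_simp at h2
    exact h2
  · intro m hm hne
    refine mul_eq_zero_of_left ?_ _
    by_cases h : ∀ i, m i ≤ 1
    · obtain ⟨a, b, f1, f2, rfl⟩ := is_tri hm fun i => (h i).trans (by omega)
      refine BB_zero t f1 (by omega) ?_
      rcases Nat.eq_zero_or_pos a with rfl | h0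
      · exact absurd (by rw [show b = r by omega]) hne
      · omega
    · push Not at h
      obtain ⟨i, hi⟩ := h
      exact BB_le t (c := 0) (fun j => by simp [tri]) hi
  · intro h
    exact absurd (tri_mem (by omega) (by omega)) h

theorem sum_par5 (hN : 5 ≤ N) (g : (Fin N → ℕ) → ℝ) (hg : ∀ l i, 2 < l i → g l = 0) :
    ∑ l ∈ Par N 5, g l = g (tri N 2 1) + g (tri N 1 3) + g (tri N 0 5) := by
  classical
  have n1 : tri N 2 1 ≠ tri N 1 3 := fun h => by have := tri_inj (by omega) (by omega) h; omega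
  have n2 : tri N 2 1 ≠ tri N 0 5 := fun h => by have := tri_inj (by omega) (by omega) h; omega
  have n3 : tri N 1 3 ≠ tri N 0 5 := fun h => by have := tri_inj (by omega) (by omega) h; omega
  rw [← sum_subset (s₁ := {tri N 2 1, tri N 1 3, tri N 0 5}), sum_insert (by simp [n1, n2]),
    sum_pair n3, add_assoc]
  · intro l hl
    simp only [mem_insert, mem_singleton] at hl
    rcases hl with rfl | rfl | rfl <;> exact tri_mem (by omega) rfl
  · intro l hl hne
    by_contra h0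
    obtain ⟨a, b, f1, f2, rfl⟩ := is_tri hl fun i => not_lt.1 fun hi => h0 (hg l i hi)
    have : (a = 2 ∧ b = 1) ∨ (a = 1 ∧ b = 3) ∨ (a = 0 ∧ b = 5) := by omega
    rcases this with ⟨rfl, rfl⟩ | ⟨rfl, rfl⟩ | ⟨rfl, rfl⟩ <;> simp at hne

theorem qf2 (t : ℝ) : qfac t 2 = 1 + t := by simp [qfac, prod_range_succ, sum_range_succ]
theorem qf3 (t : ℝ) : qfac t 3 = (1 + t) * (1 + t + t ^ 2) := by
  simp [qfac, prod_range_succ, sum_range_succ]
theorem qf4 (t : ℝ) : qfac t 4 = (1 + t) * (1 + t + t ^ 2) * ((1 + t) * (1 + t ^ 2)) := by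
  simp only [qfac, prod_range_succ, sum_range_succ, range_zero, prod_empty, sum_empty]
  ring
theorem qf5 (t : ℝ) : qfac t 5 = (1 + t) * (1 + t + t ^ 2) * ((1 + t) * (1 + t ^ 2)) *
    (1 + t + t ^ 2 + t ^ 3 + t ^ 4) := by
  simp only [qfac, prod_range_succ, sum_range_succ, range_zero, prod_empty, sum_empty]
  ring
theorem qf6 (t : ℝ) : qfac t 6 = (1 + t) * (1 + t + t ^ 2) * ((1 + t) * (1 + t ^ 2)) *
    (1 + t + t ^ 2 + t ^ 3 + t ^ 4) * ((1 + t + t ^ 2) * (1 + t ^ 3)) := by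
  simp only [qfac, prod_range_succ, sum_range_succ, range_zero, prod_empty, sum_empty]
  ring

theorem five {t : ℝ} (ht : 0 < t) {x : Fin N → ℝ} (hx : Function.Injective x) (hN : 5 ≤ N) :
    ee x 3 * ee x 2 - ee x 1 * ee x 4 + ee x 5 = HLP t (tri N 2 1) x +
      (t + t ^ 2) * HLP t (tri N 1 3) x +
      (1 + t ^ 2 + t ^ 3 + t ^ 4 + t ^ 5 + t ^ 6) * HLP t (tri N 0 5) x := by
  rw [ee_P ht hx (r := 2) (by omega), ee_P ht hx (r := 4) (by omega), ee_P ht hx (r := 5) hN,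
    pieri ht x 3 (tri_mem (a := 0) (b := 2) (by omega) rfl),
    pieri ht x 1 (tri_mem (a := 0) (b := 4) (by omega) rfl),
    sum_par5 hN _ fun l i hi => by rw [BB_le t (col_le 2) hi, zero_mul],
    sum_par5 hN _ fun l i hi => by rw [BB_le t (col_le 4) hi, zero_mul],
    BB_tri ht (a := 2) (b := 1) (a' := 0) (k1 := 2) (d1 := 0) (k0 := 1) rfl rfl rfl (by omega),
    BB_tri ht (a := 1) (b := 3) (a' := 0) (k1 := 1) (d1 := 1) (k0 := 2) rfl rfl rfl (by omega),
    BB_tri ht (a := 0) (b := 5) (a' := 0) (k1 := 0) (d1 := 2) (k0 := 3) rfl rfl rfl (by omega),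
    BB_zero t (a := 2) (b := 1) (by omega) (by omega) (by omega),
    BB_tri ht (a := 1) (b := 3) (a' := 0) (k1 := 1) (d1 := 3) (k0 := 0) rfl rfl rfl (by omega),
    BB_tri ht (a := 0) (b := 5) (a' := 0) (k1 := 0) (d1 := 4) (k0 := 1) rfl rfl rfl (by omega)]
  simp only [qfac_zero, qfac_one, qf2, qf3, qf4, qf5]
  field_simp
  ring

theorem Q321 (x : Fin N → ℝ) : SQ x 3 ![3, 2, 1] =
    8 * (ee x 1 * (ee x 3 * ee x 2 - ee x 1 * ee x 4 + ee x 5) - ee x 3 * ee x 3) := by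
  have h1 := qq_one x
  have h2 := qq_rec x 2
  have h3 := qq_rec x 3
  have h4 := qq_rec x 4
  have h5 := qq_rec x 5
  simp only [Nat.sum_antidiagonal_succ, Nat.antidiagonal_zero, sum_singleton, ee_zero, qq_zero]
    at h2 h3 h4 h5
  norm_num at h2 h3 h4 h5
  have e : SQ x 3 ![3, 2, 1] = qq x 3 * Q2 x 2 1 - qq x 2 * Q2 x 3 1 + qq x 1 * Q2 x 3 2 := by
    simp [SQ, Fin.sum_univ_succ, Fin.succAbove]
    ring
  rw [e]
  simp only [Q2, sum_range_succ, range_zero, sum_empty]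
  norm_num [qq_zero]
  have g2 : qq x 2 = 2 * ee x 1 ^ 2 := by rw [h1] at h2; linear_combination h2
  have g3 : qq x 3 = 2 * ee x 1 ^ 3 - 2 * ee x 1 * ee x 2 + 2 * ee x 3 := by
    rw [h1, g2] at h3; linear_combination h3
  have g4 : qq x 4 = ee x 1 * qq x 3 - ee x 2 * qq x 2 + ee x 3 * qq x 1 := by
    linear_combination h4
  have g5 : qq x 5 = ee x 1 * qq x 4 - ee x 2 * qq x 3 + ee x 3 * qq x 2 - ee x 4 * qq x 1 +
      2 * ee x 5 := by
    linear_combination h5
  rw [g5, g4, g3, g2, h1]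
  ring

open Classical in
theorem BB_top (t : ℝ) {m l : Fin (N + 1) → ℕ} {n : ℕ} (hm : m ∈ Par (N + 1) (n + 1))
    (hl : l ∈ Par (N + 1) n) (h2 : ∀ i, l i ≤ 2) (h3 : 2 < m 0) :
    BB t m l = if mu (sb m (dl 0)) = mu l then t ^ iv m (nt (dl 0)) else 0 := by
  have e2 : ∀ σ : Fin (N + 1) → Bool, (if Sup m σ ∧ mu (sb m σ) = mu l then t ^ iv m (nt σ) else 0)
      = if wt σ = 1 then (if Sup m σ ∧ mu (sb m σ) = mu l then t ^ iv m (nt σ) else 0) else 0 := by
    intro σ
    by_cases h : Sup m σ ∧ mu (sb m σ) = mu l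
    · have := sum_sb h.1
      have := sum_of_mu h.2
      have := (mem_Par.1 hm).1
      have := (mem_Par.1 hl).1
      rw [if_pos (show wt σ = 1 by omega)]
    · simp [h]
  unfold BB
  rw [sum_congr rfl fun σ _ => e2 σ, sum_wt_one, sum_eq_single 0]
  · have : Sup m (dl 0) := by
      simp [Sup, dl]
      omega
    simp only [this, true_and]
  · intro i _ hi
    refine if_neg fun h => ?_
    have := le_of_mu h.2 h2 0
    simp [sb, dl, hi.symm] at this
    omega
  · simp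

theorem pos321 (hN : 6 ≤ N) {K : (Fin N → ℕ) → Polynomial ℤ} (hK : IsExp N ![3, 2, 1] K) :
    ∀ μ ∈ Par N 6, Pal (K μ) := by
  intro μ hμ
  have hv : ∀ t : ℝ, 0 < t → Polynomial.aeval t (K μ) = 8 * (BB t μ (tri N 2 1) +
      (t + t ^ 2) * BB t μ (tri N 1 3) + (1 + t ^ 2 + t ^ 3 + t ^ 4 + t ^ 5 + t ^ 6) *
        BB t μ (tri N 0 5) - BB t μ (tri N 0 3)) := fun t ht =>
    coef_unique ht (c := fun μ => Polynomial.aeval t (K μ))
      (c' := fun μ => 8 * (BB t μ (tri N 2 1) +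
      (t + t ^ 2) * BB t μ (tri N 1 3) + (1 + t ^ 2 + t ^ 3 + t ^ 4 + t ^ 5 + t ^ 6) *
        BB t μ (tri N 0 5) - BB t μ (tri N 0 3))) (fun x hx => by
      have h0 : SQ x 3 ![3, 2, 1] = ∑ μ ∈ Par N 6, Polynomial.aeval t (K μ) * HLP t μ x :=
        hK t ht x hx
      have p1 := pieri ht x 1 (tri_mem (N := N) (a := 2) (b := 1) (n := 5) (by omega) rfl)
      have p2 := pieri ht x 1 (tri_mem (N := N) (a := 1) (b := 3) (n := 5) (by omega) rfl)
      have p3 := pieri ht x 1 (tri_mem (N := N) (a := 0) (b := 5) (n := 5) (by omega) rfl)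
      have p4 := pieri ht x 3 (tri_mem (N := N) (a := 0) (b := 3) (n := 3) (by omega) rfl)
      rw [← ee_P ht hx (by omega)] at p4
      simp only [mul_sub, mul_add, sub_mul, add_mul, sum_sub_distrib, sum_add_distrib, mul_assoc,
        ← mul_sum]
      rw [← h0, Q321, five ht hx (by omega), ← p1, ← p2, ← p3, ← p4]
      ring) μ hμ
  by_cases h : ∀ i, μ i ≤ 2
  · obtain ⟨a, b, f1, f2, rfl⟩ := is_tri hμ h
    have : (a = 3 ∧ b = 0) ∨ (a = 2 ∧ b = 2) ∨ (a = 1 ∧ b = 4) ∨ (a = 0 ∧ b = 6) := by omega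
    rcases this with ⟨rfl, rfl⟩ | ⟨rfl, rfl⟩ | ⟨rfl, rfl⟩ | ⟨rfl, rfl⟩
    · refine ⟨3, ?_⟩
      have : ∀ t : ℝ, 0 < t → Polynomial.aeval t (K (tri N 3 0)) = 8 * (t + t ^ 2) := by
        intro t ht
        rw [hv t ht, BB_tri ht (a' := 2) (k1 := 1) (d1 := 0) (k0 := 0) rfl rfl rfl f1,
          BB_zero t f1 (by omega) (by omega), BB_zero t f1 (by omega) (by omega),
          BB_tri ht (a' := 0) (k1 := 3) (d1 := 0) (k0 := 0) rfl rfl rfl f1]
        simp only [Nat.reduceAdd, qfac_zero, qfac_one, qf2, qf3]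
        field_simp
        ring
      intro t ht
      rw [this t ht, this t⁻¹ (inv_pos.2 ht)]
      field_simp
      ring
    · refine ⟨4, ?_⟩
      have : ∀ t : ℝ, 0 < t → Polynomial.aeval t (K (tri N 2 2)) = 8 * (t * (1 + t) ^ 2) := by
        intro t ht
        rw [hv t ht, BB_tri ht (a' := 2) (k1 := 0) (d1 := 1) (k0 := 1) rfl rfl rfl f1,
          BB_tri ht (a' := 1) (k1 := 1) (d1 := 2) (k0 := 0) rfl rfl rfl f1,
          BB_zero t f1 (by omega) (by omega),
          BB_tri ht (a' := 0) (k1 := 2) (d1 := 1) (k0 := 1) rfl rfl rfl f1]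
        simp only [Nat.reduceAdd, qfac_zero, qfac_one, qf2]
        field_simp
        ring
      intro t ht
      rw [this t ht, this t⁻¹ (inv_pos.2 ht)]
      field_simp
      ring
    · refine ⟨8, ?_⟩
      have : ∀ t : ℝ, 0 < t → Polynomial.aeval t (K (tri N 1 4)) =
          8 * (t ^ 2 + 2 * t ^ 3 + 2 * t ^ 4 + 2 * t ^ 5 + t ^ 6) := by
        intro t ht
        rw [hv t ht, BB_zero t f1 (by omega) (by omega),
          BB_tri ht (a' := 1) (k1 := 0) (d1 := 3) (k0 := 1) rfl rfl rfl f1,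
          BB_tri ht (a' := 0) (k1 := 1) (d1 := 4) (k0 := 0) rfl rfl rfl f1,
          BB_tri ht (a' := 0) (k1 := 1) (d1 := 2) (k0 := 2) rfl rfl rfl f1]
        simp only [Nat.reduceAdd, qfac_zero, qfac_one, qf2, qf3, qf4]
        field_simp
        ring
      intro t ht
      rw [this t ht, this t⁻¹ (inv_pos.2 ht)]
      field_simp
      ring
    · refine ⟨15, ?_⟩
      have : ∀ t : ℝ, 0 < t → Polynomial.aeval t (K (tri N 0 6)) =
          8 * (t ^ 4 * (1 + t) ^ 2 * (1 + t ^ 2) * (1 + t ^ 3)) := by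
        intro t ht
        rw [hv t ht, BB_zero t f1 (by omega) (by omega), BB_zero t f1 (by omega) (by omega),
          BB_tri ht (a' := 0) (k1 := 0) (d1 := 5) (k0 := 1) rfl rfl rfl f1,
          BB_tri ht (a' := 0) (k1 := 0) (d1 := 3) (k0 := 3) rfl rfl rfl f1]
        simp only [Nat.reduceAdd, qfac_zero, qfac_one, qf3, qf5, qf6]
        field_simp
        ring
      intro t ht
      rw [this t ht, this t⁻¹ (inv_pos.2 ht)]
      field_simp
      ring
  · push Not at h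
    obtain ⟨i, hi⟩ := h
    obtain ⟨N, rfl⟩ : ∃ M, N = M + 1 := ⟨N - 1, by omega⟩
    have h3 : 2 < μ 0 := hi.trans_le ((mem_Par.1 hμ).2 (Fin.zero_le i))
    have b1 := fun t => BB_top t hμ (tri_mem (a := 2) (b := 1) (by omega) rfl) (tri_le _ _) h3
    have b2 := fun t => BB_top t hμ (tri_mem (a := 1) (b := 3) (by omega) rfl) (tri_le _ _) h3
    simp only [b1, b2, BB_le _ (col_le _) hi] at hv
    by_cases c1 : mu (sb μ (dl 0)) = mu (tri (N + 1) 2 1)
    · have c2 : ¬ mu (sb μ (dl 0)) = mu (tri (N + 1) 1 3) := fun c2 => by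
        have := congrFun (c1.symm.trans c2) 2
        rw [mu_tri_two (by omega), mu_tri_two (by omega)] at this
        omega
      refine ((palF_const 8).mul (palF_pow (iv μ (nt (dl 0))))).pal fun t ht _ => ?_
      rw [hv t ht, if_pos c1, if_neg c2]
      ring
    · by_cases c2 : mu (sb μ (dl 0)) = mu (tri (N + 1) 1 3)
      · have p : PalF fun t => t + t ^ 2 := ⟨3, fun t ht _ => by field_simp; ring⟩
        refine (((palF_const 8).mul p).mul (palF_pow (iv μ (nt (dl 0))))).pal fun t ht _ => ?_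
        rw [hv t ht, if_neg c1, if_pos c2]
        ring
      · refine (palF_const 0).pal fun t ht _ => ?_
        rw [hv t ht, if_neg c1, if_neg c2]
        ring

end Pool.Agent.Lib.MP_2c9e21_co
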