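import Mathlib
import Pool.Agent.Lib.MP_2c9e21_co.Stair

namespace Pool.Agent.Lib.MP_2c9e21_co

open Finset Polynomial

variable {M : ℕ}

noncomputable def TT (w : ℝ) (a : ℕ) : ℝ[X] →ₗ[ℝ] ℝ :=
  Polynomial.lsum (fun m => (if a ≤ m then w ^ (m - a) else 0) • LinearMap.id)

theorem TT_mono (w : ℝ) (a m : ℕ) (c : ℝ) :
    TT w a (monomial m c) = (if a ≤ m then w ^ (m - a) else 0) * c := by
  unfold TT
  rw [Polynomial.lsum_apply, Polynomial.sum_monomial_index]
  · rfl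
  · simp

theorem TT_C_mul (w : ℝ) (a : ℕ) (c : ℝ) (p : ℝ[X]) : TT w a (C c * p) = c * TT w a p := by
  rw [← smul_eq_C_mul, map_smul, smul_eq_mul]

theorem TT_X (w : ℝ) (a : ℕ) (p : ℝ[X]) : TT w (a + 1) (X * p) = TT w a p := by
  induction p using Polynomial.induction_on' with
  | add p q hp hq => rw [mul_add, map_add, map_add, hp, hq]
  | monomial m c => rw [X_mul_monomial, TT_mono, TT_mono]; simp

theorem TT_X0 (w : ℝ) (p : ℝ[X]) : TT w 0 (X * p) = w * TT w 0 p := by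
  induction p using Polynomial.induction_on' with
  | add p q hp hq => rw [mul_add, map_add, map_add, hp, hq, mul_add]
  | monomial m c => rw [X_mul_monomial, TT_mono, TT_mono]; simp; ring

theorem TT_zero (w : ℝ) (p : ℝ[X]) : TT w 0 p = p.coeff 0 + w * TT w 1 p := by
  induction p using Polynomial.induction_on' with
  | add p q hp hq => rw [map_add, map_add, hp, hq, coeff_add]; ring
  | monomial m c =>
    rw [TT_mono, TT_mono, coeff_monomial]
    cases m with
    | zero => simp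
    | succ m => simp; ring

theorem TT_C (w : ℝ) (a : ℕ) (c : ℝ) : TT w a (C c) = if a = 0 then c else 0 := by
  rw [← monomial_zero_left, TT_mono]
  by_cases h : a = 0 <;> simp [h]

def hk (M a k : ℕ) : Fin (M + 1) → ℕ := Fin.cons a (tri M 0 k)

theorem hk_anti {a : ℕ} (ha : 1 ≤ a) (k : ℕ) : Antitone (hk M a k) := by
  intro i j hij
  refine Fin.cases (motive := fun j => i ≤ j → hk M a k j ≤ hk M a k i) ?_ (fun j => ?_) j hij
  · intro h
    rw [Fin.le_zero_iff.1 h]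
  · refine Fin.cases (motive := fun i => i ≤ j.succ → hk M a k j.succ ≤ hk M a k i) ?_
      (fun i => ?_) i
    · intro _
      exact (col_le k j).trans ha
    · intro h
      exact tri_anti 0 k (Fin.succ_le_succ_iff.1 h)

theorem hk_sum {a k : ℕ} (h : k ≤ M) : ∑ i, hk M a k i = a + k := by
  rw [Fin.sum_univ_succ]
  have := sum_tri (N := M) (a := 0) (b := k) (by omega)
  simp only [hk, Fin.cons_zero, Fin.cons_succ, this]
  omega

theorem hk_mem {a k n : ℕ} (ha : 1 ≤ a) (h : k ≤ M) (hn : a + k = n) : hk M a k ∈ Par (M + 1) n :=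
  mem_Par.2 ⟨(hk_sum h).trans hn, hk_anti ha k⟩

theorem hk_one (k : ℕ) : hk M 1 k = tri (M + 1) 0 (k + 1) := by
  funext i
  refine Fin.cases ?_ (fun i => ?_) i <;> simp [hk, tri]

theorem mu_hk (a k c : ℕ) : mu (hk M a k) c = (if a = c then 1 else 0) + mu (tri M 0 k) c :=
  mu_cons _ c

theorem mu_sb_hk (a k : ℕ) (b : Bool) (s : Fin M → Bool) (c : ℕ) :
    mu (sb (hk M a k) (Fin.cons b s)) c =
      (if a - b.toNat = c then 1 else 0) + mu (sb (tri M 0 k) s) c := mu_cons _ c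

theorem mu_big {f : Fin M → ℕ} (h : ∀ i, f i ≤ 1) {c : ℕ} (hc : 2 ≤ c) : mu f c = 0 :=
  mu_eq_zero fun i hi => by have := h i; omega

theorem sb_col (k : ℕ) (s : Fin M → Bool) (i : Fin M) : sb (tri M 0 k) s i ≤ 1 :=
  (Nat.sub_le _ _).trans (col_le k i)

open Classical in
theorem BB_hk_eq (t : ℝ) {a : ℕ} (ha : 2 ≤ a) (k : ℕ) (l : Fin (M + 1) → ℕ) :
    BB t (hk M a k) l = (∑ s : Fin M → Bool, if Sup (tri M 0 k) s ∧
      mu (sb (hk M a k) (Fin.cons false s)) = mu l then t ^ iv (tri M 0 k) (nt s) else 0) +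
      ∑ s : Fin M → Bool, if Sup (tri M 0 k) s ∧
      mu (sb (hk M a k) (Fin.cons true s)) = mu l then t ^ iv (tri M 0 k) (nt s) else 0 := by
  have e0 : ∀ b s, Sup (hk M a k) (Fin.cons b s) ↔ Sup (tri M 0 k) s := fun b s => by
    unfold Sup
    simp only [Fin.forall_fin_succ, hk, Fin.cons_zero, Fin.cons_succ, and_iff_right_iff_imp]
    omega
  have e1 : ∀ b s, iv (hk M a k) (nt (Fin.cons b s)) = iv (tri M 0 k) (nt s) := fun b s => by
    have h1 : nt (Fin.cons b s : Fin (M + 1) → Bool) = Fin.cons (!b) (nt s) :=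
      funext fun i => Fin.cases rfl (fun _ => rfl) i
    have h2 : cn (tri M 0 k) (nt s) a = 0 := by
      have := mu_split (tri M 0 k) s a
      have := mu_big (col_le (N := M) k) ha
      omega
    rw [h1, iv_cons]
    show (if (!b) = false then cn (tri M 0 k) (nt s) a else 0) + iv (tri M 0 k) (nt s) = _
    rw [h2, ite_self, zero_add]
  unfold BB
  rw [sum_cons]
  simp only [e0, e1]

open Classical in
theorem BB_hk1 (t : ℝ) {a : ℕ} (ha : 2 ≤ a) (k j : ℕ) :
    BB t (hk M a k) (hk M a j) = BB t (tri M 0 k) (tri M 0 j) := by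
  rw [BB_hk_eq t ha]
  refine (congrArg₂ (· + ·) ?_ (sum_eq_zero ?_)).trans (add_zero _)
  · refine sum_congr rfl fun s _ => if_congr (and_congr_right fun _ => ?_) rfl rfl
    simp only [funext_iff, mu_sb_hk, mu_hk, Bool.toNat_false, Nat.sub_zero, add_right_inj]
  · intro s _
    refine if_neg fun h => ?_
    have := congrFun h.2 a
    rw [mu_sb_hk, mu_hk, mu_big (sb_col k s) ha, if_pos rfl, if_neg (by simp; omega)] at this
    omega

open Classical in
theorem BB_hk2 (t : ℝ) {a : ℕ} (ha : 1 ≤ a) (k j : ℕ) :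
    BB t (hk M (a + 1) k) (hk M a j) = BB t (tri M 0 k) (tri M 0 j) := by
  rw [BB_hk_eq t (by omega), add_comm]
  refine (congrArg₂ (· + ·) ?_ (sum_eq_zero ?_)).trans (add_zero _)
  · refine sum_congr rfl fun s _ => if_congr (and_congr_right fun _ => ?_) rfl rfl
    simp only [funext_iff, mu_sb_hk, mu_hk, Bool.toNat_true, Nat.add_sub_cancel, add_right_inj]
  · intro s _
    refine if_neg fun h => ?_
    have := congrFun h.2 (a + 1)
    rw [mu_sb_hk, mu_hk, mu_big (col_le j) (by omega), if_pos (by simp), if_neg (by omega)] at this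
    omega

theorem BB_hk_ne {t : ℝ} {a k n : ℕ} (ha : 1 ≤ a) (hk' : k ≤ M) {l : Fin (M + 1) → ℕ}
    (hl : l ∈ Par (M + 1) n) (hB : BB t (hk M (a + 1) k) l ≠ 0) :
    ∃ j ≤ k, (l = hk M (a + 1) j ∧ a + 1 + j = n) ∨ (l = hk M a j ∧ a + j = n) := by
  classical
  obtain ⟨s, -, hs⟩ := exists_ne_zero_of_sum_ne_zero hB
  have hs' : Sup (hk M (a + 1) k) s ∧ mu (sb (hk M (a + 1) k) s) = mu l := by
    by_contra hc
    exact hs (if_neg hc)
  obtain ⟨b, s, rfl⟩ : ∃ b s', s = Fin.cons b s' := ⟨s 0, Fin.tail s, (Fin.cons_self_tail s).symm⟩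
  obtain ⟨m, hm, h1, -⟩ := exists_unique_Par (sb (tri M 0 k) s)
  obtain ⟨a', j, f1, f2, rfl⟩ := is_tri hm fun i =>
    (le_of_mu h1.symm (sb_col k s) i).trans (by omega)
  have h2 : a' = 0 := by rw [← mu_tri_two f1, ← h1, mu_big (sb_col k s) le_rfl]
  subst h2
  have h3 : j ≤ k := by
    have h4 : ∑ i, sb (tri M 0 k) s i ≤ ∑ i, tri M 0 k i := sum_le_sum fun i _ => Nat.sub_le _ _
    rw [sum_tri (by omega)] at h4
    omega
  have h4 : l = hk M (a + 1 - b.toNat) j := eq_of_mu (mem_Par.1 hl).2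
    (hk_anti (by cases b <;> simp; omega) j) (funext fun c => by
      rw [← hs'.2, mu_sb_hk, mu_hk, h1])
  have h5 := (mem_Par.1 hl).1
  rw [h4, hk_sum (by omega)] at h5
  refine ⟨j, h3, ?_⟩
  cases b
  · exact Or.inl ⟨h4, h5⟩
  · exact Or.inr ⟨h4, h5⟩

theorem BB_col {t : ℝ} (ht : 0 < t) {k j r : ℕ} (h : k = j + r) (hk' : k ≤ M) :
    BB t (tri M 0 k) (tri M 0 j) = qfac t k / (qfac t j * qfac t r) := by
  rw [BB_tri ht (a' := 0) (k1 := 0) (d1 := j) (k0 := r) rfl h (by omega) (by omega), qfac_zero]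
  simp

def GoodH (d : ℕ) (f : (Fin (M + 1) → ℝ) → ℝ) (Φ : ℝ → ℝ[X]) : Prop :=
  ∃ c : (Fin (M + 1) → ℕ) → ℤ[X],
    (∀ t : ℝ, 0 < t → ∀ x, Function.Injective x →
      f x = ∑ μ ∈ Par (M + 1) d, aeval t (c μ) * HLP t μ x) ∧
    (d ≤ M + 1 → ∀ t : ℝ, 0 < t → t ≠ 1 →
      aeval t (c (tri (M + 1) 0 d)) = qfac t d * (Φ t).coeff 0 ∧
      TT (t - 1) 0 (Φ t) = t ^ d * (Φ t).coeff 0 ∧
      (∀ a k, 2 ≤ a → a + k = d → aeval t (c (hk M a k)) = qfac t k * TT (t - 1) a (Φ t)) ∧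
      ∀ a, d < a → TT (t - 1) a (Φ t) = 0)

theorem GoodH.congr {d : ℕ} {f f' : (Fin (M + 1) → ℝ) → ℝ} {Φ Φ' : ℝ → ℝ[X]} (h : GoodH d f Φ)
    (hf : ∀ x, f' x = f x) (ha : ∀ t, 0 < t → t ≠ 1 → Φ' t = Φ t) : GoodH d f' Φ' := by
  obtain ⟨c, h1, h2⟩ := h
  refine ⟨c, fun t ht x hx => (hf x).trans (h1 t ht x hx), fun hd t ht ht1 => ?_⟩
  rw [ha t ht ht1]
  exact h2 hd t ht ht1

theorem GoodH.lin {d : ℕ} {f f' : (Fin (M + 1) → ℝ) → ℝ} {Φ Φ' : ℝ → ℝ[X]} (h : GoodH d f Φ)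
    (h' : GoodH d f' Φ') (z : ℤ) :
    GoodH d (fun x => z * f x + f' x) (fun t => C (z : ℝ) * Φ t + Φ' t) := by
  obtain ⟨c, h1, h2⟩ := h
  obtain ⟨c', h1', h2'⟩ := h'
  refine ⟨fun μ => C z * c μ + c' μ, fun t ht x hx => ?_, fun hd t ht ht1 => ?_⟩
  · simp only [h1 t ht x hx, h1' t ht x hx, mul_sum, ← sum_add_distrib, map_add, map_mul,
      eq_intCast, map_intCast]
    exact sum_congr rfl fun _ _ => by ring
  · obtain ⟨e1, e2, e3, e4⟩ := h2 hd t ht ht1
    obtain ⟨e1', e2', e3', e4'⟩ := h2' hd t ht ht1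
    simp only [map_add, TT_C_mul, coeff_add, coeff_C_mul]
    simp only [map_mul, eq_intCast, map_intCast]
    refine ⟨by rw [e1, e1']; ring, by rw [e2, e2']; ring, fun a k ha hk => ?_, fun a ha => ?_⟩
    · rw [e3 a k ha hk, e3' a k ha hk]; ring
    · rw [e4 a ha, e4' a ha]; ring

theorem goodH_zero (d : ℕ) : GoodH (M := M) d (fun _ => 0) (fun _ => 0) :=
  ⟨fun _ => 0, fun _ _ _ _ => by simp, fun _ _ _ _ => by simp⟩

theorem goodH_one : GoodH (M := M) 0 (fun _ => 1) (fun _ => 1) :=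
  ⟨fun _ => 1, fun t ht x hx => by simp [Par_zero, HLP_zero ht hx], fun _ t _ _ =>
    ⟨by simp [qfac_zero], by rw [← C_1, TT_C]; simp, fun a k ha hk => by omega,
      fun a ha => by rw [← C_1, TT_C, if_neg (by omega)]⟩⟩

theorem GoodH.e {d : ℕ} {g : (Fin (M + 1) → ℝ) → ℝ} {Φ : ℝ → ℝ[X]} (h : GoodH d g Φ) (r : ℕ) :
    GoodH (d + (r + 1)) (fun x => ee x (r + 1) * g x)
      (fun t => (C (qfac t (r + 1))⁻¹ + C (qfac t r)⁻¹ * X) * Φ t) := by
  obtain ⟨c, h1, h2⟩ := h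
  refine ⟨fun m => ∑ l ∈ Par (M + 1) d, BBp m l * c l, fun t ht x hx => ?_, fun hd t ht ht1 => ?_⟩
  · simp only [map_sum, map_mul, aeval_BBp]
    rw [h1 t ht x hx, exp_ee ht]
  obtain ⟨e1, e2, e3, e4⟩ := h2 (by omega) t ht ht1
  have p1 := (qfac_pos ht r).ne'
  have p2 := (qi_pos ht r).ne'
  have p3 := (qfac_pos ht d).ne'
  have e5 : ∀ a k, 1 ≤ a → a + k = d →
      aeval t (c (hk M a k)) = qfac t k * TT (t - 1) a (Φ t) := by
    intro a k ha hk
    rcases ha.eq_or_lt with rfl | ha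
    · have h3 := TT_zero (t - 1) (Φ t)
      have h4 := qi_mul t d
      have h5 : TT (t - 1) 1 (Φ t) = qi t d * (Φ t).coeff 0 :=
        mul_left_cancel₀ (sub_ne_zero.2 ht1) (by linear_combination e2 - h3 + (Φ t).coeff 0 * h4)
      rw [hk_one, show k + 1 = d by omega, e1, h5, ← show k + 1 = d by omega, qfac_succ]
      ring
    · exact e3 a k ha hk
  have c0 : ((C (qfac t (r + 1))⁻¹ + C (qfac t r)⁻¹ * X) * Φ t).coeff 0 =
      (qfac t (r + 1))⁻¹ * (Φ t).coeff 0 := by simp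
  simp only [map_sum, map_mul, aeval_BBp, c0]
  simp only [add_mul, mul_assoc, map_add, TT_C_mul]
  refine ⟨?_, ?_, fun a k ha hk' => ?_, fun a ha => ?_⟩
  · rw [sum_eq_single (tri (M + 1) 0 d), e1, BB_col ht rfl hd]
    · field_simp
    · intro l hl hne
      refine mul_eq_zero_of_left ?_ _
      by_contra hB
      obtain ⟨a', k1, d1, k0, f1, f2, f3, f4⟩ := BB_ne (by omega) hl hB
      exact hne (by rw [f3, show a' = 0 by omega, show k1 + d1 = d by omega])
    · intro h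
      exact absurd (tri_mem (by omega) (by omega)) h
  · have := qi_mul t (r + 1)
    rw [TT_X0, e2, qfac_succ, pow_add]
    field_simp
    linear_combination (- (Φ t).coeff 0) * this
  · obtain ⟨a, rfl⟩ : ∃ a', a = a' + 1 := ⟨a - 1, by omega⟩
    rw [TT_X]
    rcases lt_trichotomy k r with h | rfl | h
    · rw [e4 _ (by omega), e4 _ (by omega), sum_eq_zero]
      · ring
      · intro l hl
        refine mul_eq_zero_of_left ?_ _
        by_contra hB
        obtain ⟨j, f1, f2⟩ := BB_hk_ne (by omega) (by omega) hl hB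
        omega
    · rw [e4 _ (by omega), sum_eq_single (hk M a 0), e5 a 0 (by omega) (by omega),
        BB_hk2 t (by omega), BB_col ht (r := k) (by omega) (by omega), qfac_zero]
      · field_simp
        ring
      · intro l hl hne
        refine mul_eq_zero_of_left ?_ _
        by_contra hB
        obtain ⟨j, f1, f2 | f2⟩ := BB_hk_ne (by omega) (by omega) hl hB
        · omega
        · exact hne (by rw [f2.1, show j = 0 by omega])
      · intro h
        exact absurd (hk_mem (by omega) (by omega) (by omega)) h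
    · obtain ⟨j, rfl⟩ : ∃ j, k = j + (r + 1) := ⟨k - (r + 1), by omega⟩
      rw [sum_eq_add_of_mem (hk M (a + 1) j) (hk M a (j + 1))
        (hk_mem (by omega) (by omega) (by omega)) (hk_mem (by omega) (by omega) (by omega)),
        e5 (a + 1) j (by omega) (by omega), e5 a (j + 1) (by omega) (by omega),
        BB_hk1 t (by omega), BB_hk2 t (by omega), BB_col ht rfl (by omega),
        BB_col ht (r := r) (by omega) (by omega)]
      · have := (qfac_pos ht j).ne'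
        have := (qfac_pos ht (j + 1)).ne'
        have := (qfac_pos ht (r + 1)).ne'
        field_simp
      · intro h
        have := congrFun h 0
        simp [hk] at this
      · rintro l hl ⟨hne, hne'⟩
        refine mul_eq_zero_of_left ?_ _
        by_contra hB
        obtain ⟨i, f1, f2 | f2⟩ := BB_hk_ne (by omega) (by omega) hl hB
        · exact hne (by rw [f2.1, show i = j by omega])
        · exact hne' (by rw [f2.1, show i = j + 1 by omega])
  · obtain ⟨a, rfl⟩ : ∃ a', a = a' + 1 := ⟨a - 1, by omega⟩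
    rw [TT_X, e4 _ (by omega), e4 _ (by omega)]
    ring

def MuH (r : ℕ) (f : (Fin (M + 1) → ℝ) → ℝ) (Ψ : ℝ → ℝ[X]) : Prop :=
  ∀ d g Φ, GoodH d g Φ → GoodH (d + r) (fun x => f x * g x) (fun t => Ψ t * Φ t)

theorem MuH.congr {d : ℕ} {f f' : (Fin (M + 1) → ℝ) → ℝ} {Ψ Ψ' : ℝ → ℝ[X]} (h : MuH d f Ψ)
    (hf : ∀ x, f' x = f x) (ha : ∀ t, 0 < t → t ≠ 1 → ∀ z, (Ψ' t).eval z = (Ψ t).eval z) :
    MuH d f' Ψ' := fun _ _ _ hg =>
  (h _ _ _ hg).congr (fun x => by rw [hf]) (fun t h1 h2 => by rw [Polynomial.funext (ha t h1 h2)])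

theorem muH_e (r : ℕ) : MuH (M := M) (r + 1) (fun x => ee x (r + 1))
    (fun t => C (qfac t (r + 1))⁻¹ + C (qfac t r)⁻¹ * X) := fun _ _ _ hg => hg.e r

theorem muH_one : MuH (M := M) 0 (fun _ => 1) (fun _ => 1) := fun _ _ _ hg =>
  hg.congr (fun x => by ring) (fun t _ _ => by ring)

theorem muH_zero (r : ℕ) : MuH (M := M) r (fun _ => 0) (fun _ => 0) := fun _ _ _ _ =>
  (goodH_zero _).congr (fun x => by ring) (fun t _ _ => by ring)

theorem MuH.lin {d : ℕ} {f f' : (Fin (M + 1) → ℝ) → ℝ} {Ψ Ψ' : ℝ → ℝ[X]} (h : MuH d f Ψ)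
    (h' : MuH d f' Ψ') (z : ℤ) :
    MuH d (fun x => z * f x + f' x) (fun t => C (z : ℝ) * Ψ t + Ψ' t) := fun _ _ _ hg =>
  ((h _ _ _ hg).lin (h' _ _ _ hg) z).congr (fun x => by ring) (fun t _ _ => by ring)

theorem MuH.mul {d d' n : ℕ} {f f' : (Fin (M + 1) → ℝ) → ℝ} {Ψ Ψ' : ℝ → ℝ[X]} (h : MuH d f Ψ)
    (h' : MuH d' f' Ψ') (hn : n = d + d') :
    MuH n (fun x => f x * f' x) (fun t => Ψ t * Ψ' t) := by
  intro e g Φ hg
  rw [hn, show e + (d + d') = e + d' + d by omega]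
  exact (h _ _ _ (h' _ _ _ hg)).congr (fun x => by ring) (fun t _ _ => by ring)

theorem muH_sum {ι : Type} (s : Finset ι) {d : ℕ} {f : ι → (Fin (M + 1) → ℝ) → ℝ}
    {Ψ : ι → ℝ → ℝ[X]} (e : ι → ℕ) (h : ∀ i ∈ s, MuH d (f i) (Ψ i)) :
    MuH d (fun x => ∑ i ∈ s, (-1) ^ e i * f i x) (fun t => ∑ i ∈ s, (-1) ^ e i * Ψ i t) := by
  classical
  induction s using Finset.induction_on with
  | empty => simpa using muH_zero d
  | insert i s hi ih =>
    simp only [sum_insert hi]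
    simpa using (h i (mem_insert_self _ _)).lin (ih fun j hj => h j (mem_insert_of_mem hj))
      ((-1) ^ e i)

theorem MuH.good {d : ℕ} {f : (Fin (M + 1) → ℝ) → ℝ} {Ψ : ℝ → ℝ[X]} (h : MuH d f Ψ) :
    GoodH d f Ψ := by
  have := h _ _ _ goodH_one
  rw [zero_add] at this
  exact this.congr (fun x => by ring) (fun t _ _ => by ring)

end Pool.Agent.Lib.MP_2c9e21_co
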