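import Mathlib
import Pool.Agent.Lib.MP_2c9e21_co.Hk

namespace Pool.Agent.Lib.MP_2c9e21_co

open Finset Polynomial

variable {M : ℕ}

noncomputable def PS (t : ℝ) : ℕ → ℝ[X]
  | 0 => 0
  | (r + 1) => X * (C (2 * aq t r) + PS t r)

noncomputable def ps (t : ℝ) (r : ℕ) (z : ℝ) : ℝ := (PS t r).eval z

theorem ps_zero (t z : ℝ) : ps t 0 z = 0 := by simp [ps, PS]

theorem ps_succ (t z : ℝ) (r : ℕ) : ps t (r + 1) z = z * (2 * aq t r + ps t r z) := by
  simp [ps, PS]

theorem Ssum {t : ℝ} (ht : 0 < t) (z : ℝ) (n : ℕ) :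
    ∑ p ∈ antidiagonal (n + 1), (-1) ^ p.1 * ((qfac t p.1)⁻¹ * (aq t p.2 + ps t p.2 z)) =
      (qfac t (n + 1))⁻¹ + z * (qfac t n)⁻¹ +
        z * ∑ p ∈ antidiagonal n, (-1) ^ p.1 * ((qfac t p.1)⁻¹ * (aq t p.2 + ps t p.2 z)) := by
  rw [← Fsum ht (n + 1), ← Fsum ht n, Nat.sum_antidiagonal_succ', Nat.sum_antidiagonal_succ']
  simp only [ps_zero, ps_succ, add_zero, mul_sum, add_assoc, ← sum_add_distrib]
  congr 1
  exact sum_congr rfl fun p _ => by ring

theorem muH_q (r : ℕ) : MuH (M := M) r (fun x => qq x r) (fun t => C (aq t r) + PS t r) := by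
  induction r using Nat.strong_induction_on with
  | _ r ih =>
    cases r with
    | zero => exact muH_one.congr (fun x => qq_zero x) (fun t _ _ z => by simp [aq_zero, PS])
    | succ r =>
      have h := (muH_sum (M := M) (antidiagonal r) (d := r + 1) (fun p => p.1 + 1)
        (fun p hp => (muH_e p.1).mul (ih p.2 (by have := mem_antidiagonal.1 hp; omega))
          (by have := mem_antidiagonal.1 hp; omega))).lin (muH_e r) (-1)
      refine h.congr (fun x => ?_) (fun t ht _ z => ?_)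
      · have h1 := qq_rec x (r + 1)
        rw [Nat.sum_antidiagonal_succ, ee_zero] at h1
        push_cast
        linear_combination h1
      · have h1 := Ssum ht z r
        rw [Nat.sum_antidiagonal_succ, qfac_zero] at h1
        simp only [eval_add, eval_mul, eval_C, eval_X, eval_finsetSum, eval_pow, eval_neg,
          eval_one]
        have h2 : ∀ p : ℕ × ℕ, (-1 : ℝ) ^ (p.1 + 1) * (((qfac t (p.1 + 1))⁻¹ + (qfac t p.1)⁻¹ * z) *
            (aq t p.2 + eval z (PS t p.2))) =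
            (-1) ^ (p.1 + 1) * ((qfac t (p.1 + 1))⁻¹ * (aq t p.2 + ps t p.2 z)) -
              z * ((-1) ^ p.1 * ((qfac t p.1)⁻¹ * (aq t p.2 + ps t p.2 z))) := fun p => by
          unfold ps
          ring
        simp only [h2, sum_sub_distrib, ← mul_sum]
        push_cast
        unfold ps at h1 ⊢
        linear_combination h1

theorem aq_g2 {t : ℝ} (ht : 0 < t) (h1 : t ≠ 1) (r s : ℕ) :
    aq t r * aq t (s + 1) * g2 t r (s + 1) = aq t r * aq t (s + 1) - aq t (r + 1) * aq t s -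
      aq t (r + 1) * aq t s * g2 t (r + 1) s := by
  have n1 := one_sub_pow ht h1 (r := r + 1) (by omega)
  have n2 := one_sub_pow ht h1 (r := s + 1) (by omega)
  have n3 := one_sub_pow ht h1 (r := 1 + r + s) (by omega)
  rw [pow_succ'] at n1 n2
  rw [pow_add, pow_add, pow_one] at n3
  have e1 : 1 - t ^ r * (t * t ^ s) = 1 - t * t ^ r * t ^ s := by ring
  simp only [aq_succ' ht h1, g2, pow_succ', e1]
  linear_combination (aq t r * aq t s * (1 - t)) * alg_a n1 n2 n3

theorem muH_Q2 (s : ℕ) : ∀ r, r ≠ 0 → MuH (M := M) (r + s) (fun x => Q2 x r s)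
    (fun t => C (aq t r * aq t s * g2 t r s) + PS t r * C (aq t s) - PS t s * C (aq t r)) := by
  induction s with
  | zero =>
    intro r hr
    refine (muH_q r).congr (fun x => by simp [Q2, qq_zero]) (fun t ht h1 z => ?_)
    have := one_sub_pow ht h1 hr
    have hg : g2 t r 0 = 1 := by
      unfold g2
      rw [pow_zero, mul_one, div_self this]
    simp [hg, aq_zero, PS]
  | succ s ih =>
    intro r hr
    have h := (ih (r + 1) (by omega)).lin ((((muH_q (r + 1)).mul (muH_q s) rfl).lin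
      ((muH_q r).mul (muH_q (s + 1)) (n := r + 1 + s) (by omega)) (-1))) (-1)
    rw [show r + (s + 1) = r + 1 + s by omega]
    refine h.congr (fun x => ?_) (fun t ht h1 z => ?_)
    · rw [Q2_rec]
      push_cast
      ring
    · simp only [eval_add, eval_sub, eval_mul, eval_C, eval_X, PS]
      push_cast
      linear_combination aq_g2 ht h1 r s

noncomputable def VV {l : ℕ} (v : Fin l → ℝ) (i : Fin l) : ℝ :=
  ∏ j, if j = i then 1 else (GG (v i) (v j))⁻¹

theorem VV_eq {m : ℕ} (v : Fin (m + 1) → ℝ) (i : Fin (m + 1)) :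
    VV v i = ∏ k, (GG (v i) (v (i.succAbove k)))⁻¹ := by
  unfold VV
  rw [Fin.prod_univ_succAbove _ i, if_pos rfl, one_mul]
  exact prod_congr rfl fun k _ => if_neg (Fin.succAbove_ne i k)

theorem VV_UU {m : ℕ} (hm : Even m) (v : Fin (m + 1) → ℝ) (i : Fin (m + 1)) : VV v i = UU v i := by
  rw [VV_eq]
  have : ∀ k, (GG (v i) (v (i.succAbove k)))⁻¹ =
      - ((v i + v (i.succAbove k)) / (v i - v (i.succAbove k))) := fun k => by
    unfold GG
    rw [inv_div, ← div_neg, neg_sub, add_comm]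
  simp only [this]
  rw [prod_neg, card_univ, Fintype.card_fin, hm.neg_one_pow, one_mul]
  rfl

theorem GG_ne {a b : ℝ} (h1 : b ≠ a) (h2 : b + a ≠ 0) : GG a b ≠ 0 :=
  div_ne_zero (sub_ne_zero.2 h1) h2

theorem GG_self (a : ℝ) : GG a a = 0 := by simp [GG]

theorem VV_del {m : ℕ} {v : Fin (m + 1) → ℝ} (hv : Function.Injective v)
    (h0 : ∀ i j, v i + v j ≠ 0) (θ : Fin (m + 1) → ℝ) (j : Fin (m + 1)) :
    ∑ k, VV (fun k => v (j.succAbove k)) k * θ (j.succAbove k) =
      ∑ i, VV v i * θ i * GG (v i) (v j) := by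
  rw [Fin.sum_univ_succAbove _ j, GG_self, mul_zero, zero_add]
  refine sum_congr rfl fun k _ => ?_
  have h1 : GG (v (j.succAbove k)) (v j) ≠ 0 :=
    GG_ne (fun h => Fin.succAbove_ne j k (hv h).symm) (h0 _ _)
  have h2 : VV v (j.succAbove k) =
      (GG (v (j.succAbove k)) (v j))⁻¹ * VV (fun k => v (j.succAbove k)) k := by
    unfold VV
    rw [Fin.prod_univ_succAbove _ j, if_neg (Fin.succAbove_ne j k).symm]
    simp only [Fin.succAbove_right_inj]
  rw [h2]
  field_simp

theorem quad_zero {m : ℕ} (v φ : Fin m → ℝ) :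
    ∑ j, φ j * ∑ i, φ i * GG (v i) (v j) = 0 := by
  have h : ∑ j, φ j * ∑ i, φ i * GG (v i) (v j) = - ∑ j, φ j * ∑ i, φ i * GG (v i) (v j) := by
    simp only [mul_sum]
    conv_lhs => rw [sum_comm]
    simp only [← sum_neg_distrib]
    exact sum_congr rfl fun j _ => sum_congr rfl fun i _ => by rw [GG_anti (v j)]; ring
  linarith

theorem lin_zero {m : ℕ} (hm : Even m) {v : Fin (m + 1) → ℝ} (hv : Function.Injective v)
    (h0 : ∀ i j, v i + v j ≠ 0) (i : Fin (m + 1)) : ∑ j, UU v j * GG (v i) (v j) = 0 := by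
  rw [sumUG hm hv fun k => h0 k i]
  exact prod_eq_zero (mem_univ i) (GG_self _)

theorem lin_zero' {m : ℕ} (hm : Even m) {v : Fin (m + 1) → ℝ} (hv : Function.Injective v)
    (h0 : ∀ i j, v i + v j ≠ 0) (φ : Fin (m + 1) → ℝ) :
    ∑ j, UU v j * ∑ i, φ i * GG (v i) (v j) = 0 := by
  simp only [mul_sum]
  rw [sum_comm]
  refine sum_eq_zero fun i _ => ?_
  rw [← mul_zero (φ i), ← lin_zero hm hv h0 i, mul_sum]
  exact sum_congr rfl fun j _ => by ring

theorem odd_h {m : ℕ} (hm : Even m) {v : Fin (m + 1) → ℝ} (hv : Function.Injective v)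
    (h0 : ∀ i j, v i + v j ≠ 0) (θ : Fin (m + 1) → ℝ) :
    ∑ j, UU v j * ((1 + θ j) * (1 + ∑ i, UU v i * θ i * GG (v i) (v j))) =
      1 + ∑ i, UU v i * θ i := by
  have e : ∀ j, UU v j * ((1 + θ j) * (1 + ∑ i, UU v i * θ i * GG (v i) (v j))) =
      UU v j + UU v j * θ j + UU v j * ∑ i, UU v i * θ i * GG (v i) (v j) +
        UU v j * θ j * ∑ i, UU v i * θ i * GG (v i) (v j) := fun j => by ring
  simp only [e, sum_add_distrib, sumU hm hv, lin_zero' hm hv h0,
    quad_zero v (fun i => UU v i * θ i), add_zero]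

theorem even_h {m : ℕ} (hm : Even m) {v : Fin (m + 1) → ℝ} (hv : Function.Injective v)
    (h0 : ∀ i j, v i + v j ≠ 0) {Z : ℝ} (h1 : ∀ k, v k + Z ≠ 0) (h2 : ∀ k, v k ≠ Z) (θ0 : ℝ)
    (θ : Fin (m + 1) → ℝ) :
    ∑ j, UU v j * ((GG Z (v j) + θ0 - θ j) * (1 + ∑ i, UU v i * θ i * GG (v i) (v j))) =
      (∏ k, GG Z (v k)) * (1 + ((∏ k, (GG Z (v k))⁻¹) * θ0 +
        ∑ i, (GG (v i) Z)⁻¹ * UU v i * θ i)) := by
  have g0 : ∀ k, GG Z (v k) ≠ 0 := fun k => GG_ne (h2 k) (h1 k)
  have e : ∀ j, UU v j * ((GG Z (v j) + θ0 - θ j) * (1 + ∑ i, UU v i * θ i * GG (v i) (v j))) =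
      UU v j * GG Z (v j) + θ0 * UU v j - UU v j * θ j +
        UU v j * GG Z (v j) * ∑ i, UU v i * θ i * GG (v i) (v j) +
        θ0 * (UU v j * ∑ i, UU v i * θ i * GG (v i) (v j)) -
        UU v j * θ j * ∑ i, UU v i * θ i * GG (v i) (v j) := fun j => by ring
  have e2 : ∀ i, ∑ j, UU v j * GG Z (v j) * GG (v i) (v j) =
      1 + (∏ k, GG Z (v k)) * (GG (v i) Z)⁻¹ := fun i => by
    have f : ∀ j, UU v j * GG Z (v j) * GG (v i) (v j) = UU v j + (GG (v i) Z)⁻¹ *
        (UU v j * GG Z (v j) - UU v j * GG (v i) (v j)) := fun j => by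
      have a1 := h1 j
      have a2 := h0 j i
      have a3 : Z - v i ≠ 0 := sub_ne_zero.2 (h2 i).symm
      unfold GG
      rw [inv_div]
      field_simp
      ring
    simp only [f, sum_add_distrib, ← mul_sum, sum_sub_distrib, sumU hm hv, sumUG hm hv h1,
      lin_zero hm hv h0]
    ring
  have e3 : ∑ j, UU v j * GG Z (v j) * ∑ i, UU v i * θ i * GG (v i) (v j) =
      ∑ i, UU v i * θ i + (∏ k, GG Z (v k)) * ∑ i, (GG (v i) Z)⁻¹ * UU v i * θ i := by
    simp only [mul_sum]
    rw [sum_comm, ← sum_add_distrib]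
    refine sum_congr rfl fun i _ => ?_
    have := congrArg (UU v i * θ i * ·) (e2 i)
    simp only [mul_sum] at this
    rw [← sub_eq_zero, ← sub_eq_zero.2 this]
    congr 1
    · exact sum_congr rfl fun j _ => by ring
    · ring
  have e4 : (∏ k, GG Z (v k)) * ∏ k, (GG Z (v k))⁻¹ = 1 := by
    rw [← prod_mul_distrib]
    exact prod_eq_one fun k _ => mul_inv_cancel₀ (g0 k)
  simp only [e, sum_add_distrib, sum_sub_distrib, ← mul_sum, sumU hm hv, sumUG hm hv h1, e3,
    lin_zero' hm hv h0, quad_zero v (fun i => UU v i * θ i)]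
  linear_combination (- θ0) * e4

theorem aq_pos {t : ℝ} (ht : 0 < t) (r : ℕ) : 0 < aq t r :=
  div_pos (prod_pos fun _ _ => by positivity) (qfac_pos ht r)

noncomputable def BV (t : ℝ) {l : ℕ} (ξ : Fin l → ℕ) (i : Fin l) : ℝ :=
  VV (fun j => Yv t (ξ j)) i / aq t (ξ i)

noncomputable def PH (t : ℝ) {l : ℕ} (ξ : Fin l → ℕ) : ℝ[X] :=
  C (AV t ξ) * (1 + ∑ i, C (BV t ξ i) * PS t (ξ i))

theorem eval_PH (t z : ℝ) {l : ℕ} (ξ : Fin l → ℕ) : (PH t ξ).eval z =
    AV t ξ * (1 + ∑ i, VV (fun j => Yv t (ξ j)) i * (ps t (ξ i) z / aq t (ξ i))) := by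
  simp only [PH, BV, ps, eval_add, eval_mul, eval_C, eval_one, eval_finsetSum]
  congr 2
  exact sum_congr rfl fun i _ => by ring

theorem muH_SQ : ∀ (l : ℕ) (ξ : Fin l → ℕ), Function.Injective ξ → (∀ i, ξ i ≠ 0) →
    MuH (M := M) (∑ i, ξ i) (fun x => SQ x l ξ) (fun t => PH t ξ) := by
  intro l
  induction l using Nat.strong_induction_on with
  | _ l ih =>
  intro ξ hi h0
  match l, ih, ξ, hi, h0 with
  | 0, _, ξ, _, _ =>
    exact muH_one.congr (fun x => by simp [SQ]) (fun t _ _ z => by simp [eval_PH, AV])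
  | 1, _, ξ, _, _ =>
    rw [Fin.sum_univ_one]
    refine (muH_q (ξ 0)).congr (fun x => by simp [SQ]) (fun t ht _ z => ?_)
    have := (aq_pos ht (ξ 0)).ne'
    simp [eval_PH, AV, pairs_one, VV, ps]
    field_simp
  | (m + 2), ih, ξ, hi, h0 =>
    by_cases hm : Even m
    · have hη : Function.Injective (fun k : Fin (m + 1) => ξ k.succ) :=
        hi.comp (Fin.succ_injective _)
      have h := muH_sum (M := M) univ (d := ∑ i, ξ i) (fun j : Fin (m + 1) => j.val)
        (fun j _ => (muH_Q2 (ξ j.succ) (ξ 0) (h0 0)).mul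
          (ih m (by omega) (fun k => ξ (j.succAbove k).succ)
            (hη.comp Fin.succAbove_right_injective) (fun k => h0 _))
          (by rw [Fin.sum_univ_succ, Fin.sum_univ_succAbove _ j, ← add_assoc]))
      refine h.congr (fun x => by rw [SQ, if_pos hm]) (fun t ht h1 z => ?_)
      have key : AV t ξ = aq t (ξ 0) * AV t (fun k : Fin (m + 1) => ξ k.succ)
          * ∏ k : Fin (m + 1), GG (Yv t (ξ 0)) (Yv t (ξ k.succ)) := by
        unfold AV
        rw [pairs_succ (fun a b => GG (Yv t (ξ a)) (Yv t (ξ b))), Fin.prod_univ_succ]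
        ring
      have hv : Function.Injective (fun k : Fin (m + 1) => Yv t (ξ k.succ)) :=
        fun a b hab => hη (Y_inj ht h1 (h0 _) (h0 _) hab)
      have hs : ∀ i j : Fin (m + 1), Yv t (ξ i.succ) + Yv t (ξ j.succ) ≠ 0 :=
        fun i j => Y_add_ne ht h1 (h0 _) (h0 _)
      have hd := AV_del ht h1 hm hη (fun k => h0 _)
      have hb := even_h hm hv hs (Z := Yv t (ξ 0)) (fun k => Y_add_ne ht h1 (h0 _) (h0 _))
        (fun k h => Fin.succ_ne_zero k (hi (Y_inj ht h1 (h0 _) (h0 _) h)))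
        (ps t (ξ 0) z / aq t (ξ 0)) (fun k => ps t (ξ k.succ) z / aq t (ξ k.succ))
      have v1 : ∀ i : Fin (m + 1), VV (fun j => Yv t (ξ j)) i.succ =
          (GG (Yv t (ξ i.succ)) (Yv t (ξ 0)))⁻¹ * UU (fun k => Yv t (ξ k.succ)) i := fun i => by
        rw [← VV_UU hm]
        unfold VV
        rw [Fin.prod_univ_succ, if_neg (Fin.succ_ne_zero i).symm]
        simp only [Fin.succ_inj]
      rw [eval_PH, Fin.sum_univ_succ, VV_eq]
      simp only [v1, Fin.succAbove_zero]
      rw [key, mul_assoc, ← hb, mul_sum, eval_finsetSum]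
      refine sum_congr rfl fun j _ => ?_
      have h3 := VV_del hv hs (fun k => ps t (ξ k.succ) z / aq t (ξ k.succ)) j
      simp only [VV_UU hm] at h3
      simp only [eval_mul, eval_pow, eval_neg, eval_one, eval_add, eval_sub, eval_C, eval_PH, h3]
      rw [g2_eq ht h1 (h0 _) (h0 _)]
      have a1 := (aq_pos ht (ξ 0)).ne'
      have a2 := (aq_pos ht (ξ j.succ)).ne'
      have a3 : eval z (PS t (ξ 0)) = aq t (ξ 0) * (ps t (ξ 0) z / aq t (ξ 0)) := by
        unfold ps; field_simp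
      have a4 : eval z (PS t (ξ j.succ)) = aq t (ξ j.succ) * (ps t (ξ j.succ) z / aq t (ξ j.succ)) := by
        unfold ps; field_simp
      rw [a3, a4]
      linear_combination (- aq t (ξ 0) * ((GG (Yv t (ξ 0)) (Yv t (ξ j.succ)) +
        ps t (ξ 0) z / aq t (ξ 0) - ps t (ξ j.succ) z / aq t (ξ j.succ)) *
        (1 + ∑ i : Fin (m + 1), UU (fun k => Yv t (ξ k.succ)) i *
          (ps t (ξ i.succ) z / aq t (ξ i.succ)) * GG (Yv t (ξ i.succ)) (Yv t (ξ j.succ))))) * hd j
    · have hm' : Even (m + 1) := Nat.even_add_one.2 hm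
      have h := muH_sum (M := M) univ (d := ∑ i, ξ i) (fun j : Fin (m + 2) => j.val)
        (fun j _ => (muH_q (ξ j)).mul
          (ih (m + 1) (by omega) (fun k => ξ (j.succAbove k))
            (hi.comp Fin.succAbove_right_injective) (fun k => h0 _))
          (Fin.sum_univ_succAbove _ j))
      refine h.congr (fun x => by rw [SQ, if_neg hm]) (fun t ht h1 z => ?_)
      have hv : Function.Injective (fun k : Fin (m + 2) => Yv t (ξ k)) :=
        fun a b hab => hi (Y_inj ht h1 (h0 _) (h0 _) hab)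
      have hs : ∀ i j : Fin (m + 2), Yv t (ξ i) + Yv t (ξ j) ≠ 0 :=
        fun i j => Y_add_ne ht h1 (h0 _) (h0 _)
      have hd := AV_del ht h1 hm' hi h0
      have hb := odd_h hm' hv hs (fun k => ps t (ξ k) z / aq t (ξ k))
      rw [eval_PH]
      simp only [VV_UU hm']
      rw [← hb, mul_sum, eval_finsetSum]
      refine sum_congr rfl fun j _ => ?_
      have h3 := VV_del hv hs (fun k => ps t (ξ k) z / aq t (ξ k)) j
      simp only [VV_UU hm'] at h3
      simp only [eval_mul, eval_pow, eval_neg, eval_one, eval_add, eval_C, eval_PH, h3]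
      have a2 := (aq_pos ht (ξ j)).ne'
      have a4 : eval z (PS t (ξ j)) = aq t (ξ j) * (ps t (ξ j) z / aq t (ξ j)) := by
        unfold ps; field_simp
      rw [a4]
      linear_combination (- ((1 + ps t (ξ j) z / aq t (ξ j)) *
        (1 + ∑ i : Fin (m + 2), UU (fun k => Yv t (ξ k)) i *
          (ps t (ξ i) z / aq t (ξ i)) * GG (Yv t (ξ i)) (Yv t (ξ j))))) * hd j

end Pool.Agent.Lib.MP_2c9e21_co
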