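import Mathlib
import Pool.Agent.Lib.MP_2c9e21_co.HkPf

namespace Pool.Agent.Lib.MP_2c9e21_co

open Finset Polynomial

variable {M : ℕ}

noncomputable def cq (t : ℝ) (d : ℕ) : ℝ := (∏ j ∈ range d, (1 + t ^ (j + 1))) / qfac t d

theorem TT_PS0 {t : ℝ} (ht : 0 < t) (r : ℕ) :
    TT (t - 1) 0 (C (2 * aq t r) + PS t r) = 2 * cq t r := by
  induction r with
  | zero => simp [PS, TT_C, aq_zero, cq, qfac_zero]
  | succ r ih =>
    have p1 := (qfac_pos ht r).ne'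
    have p2 := (qi_pos ht r).ne'
    have h := qi_mul t (r + 1)
    rw [map_add, TT_C, if_pos rfl, PS, TT_X0, ih]
    unfold aq cq
    rw [prod_range_succ', prod_range_succ, qfac_succ]
    field_simp
    linear_combination (-1 : ℝ) * h

theorem TT_PS {t : ℝ} (ht : 0 < t) : ∀ r a : ℕ, TT (t - 1) (a + 1) (PS t r) =
    2 * if a + 1 ≤ r then cq t (r - (a + 1)) else 0 := by
  intro r
  induction r with
  | zero => intro a; simp [PS]
  | succ r ih =>
    intro a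
    rw [PS, TT_X]
    cases a with
    | zero => rw [TT_PS0 ht]; simp
    | succ a => rw [map_add, TT_C, if_neg (by omega), zero_add, ih]; simp

noncomputable def SS (t : ℝ) {l : ℕ} (ξ : Fin l → ℕ) (a : ℕ) : ℝ :=
  ∑ i, BV t ξ i * if a ≤ ξ i then cq t (ξ i - a) else 0

theorem TT_PH {t : ℝ} (ht : 0 < t) {l : ℕ} (ξ : Fin l → ℕ) (a : ℕ) :
    TT (t - 1) (a + 1) (PH t ξ) = 2 * AV t ξ * SS t ξ (a + 1) := by
  unfold PH SS
  rw [TT_C_mul, map_add, ← C_1, TT_C, if_neg (by omega), zero_add, map_sum]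
  simp only [TT_C_mul, TT_PS ht, mul_sum]
  exact sum_congr rfl fun i _ => by ring

theorem coeff_PH (t : ℝ) {l : ℕ} (ξ : Fin l → ℕ) : (PH t ξ).coeff 0 = AV t ξ := by
  have : ∀ r, ps t r 0 = 0 := fun r => by cases r <;> simp [ps_zero, ps_succ]
  rw [coeff_zero_eq_eval_zero, eval_PH]
  simp [this]

theorem hook_formula {l : ℕ} {ξ : Fin l → ℕ} (hi : Function.Injective ξ) (h0 : ∀ i, ξ i ≠ 0)
    (hN : ∑ i, ξ i ≤ M + 1) : ∃ K, IsExp (M + 1) ξ K ∧ ∀ t : ℝ, 0 < t → t ≠ 1 →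
      aeval t (K (tri (M + 1) 0 (∑ i, ξ i))) = qfac t (∑ i, ξ i) * AV t ξ ∧
      ∀ a k, 2 ≤ a → a + k = ∑ i, ξ i →
        aeval t (K (hk M a k)) = qfac t k * (2 * AV t ξ * SS t ξ a) := by
  obtain ⟨K, h1, h2⟩ := (muH_SQ (M := M) l ξ hi h0).good
  refine ⟨K, h1, fun t ht ht1 => ?_⟩
  obtain ⟨e1, -, e3, -⟩ := h2 hN t ht ht1
  refine ⟨by rw [e1, coeff_PH], fun a k ha hk => ?_⟩
  obtain ⟨a, rfl⟩ : ∃ a', a = a' + 1 := ⟨a - 1, by omega⟩
  rw [e3 _ k ha hk, TT_PH ht]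

def tr (n : ℕ) : ℕ := ∑ j ∈ range n, j

section
variable {t : ℝ} (ht : 0 < t) (h1 : t ≠ 1)
include ht h1

theorem qi_inv (n : ℕ) : qi t⁻¹ (n + 1) * t ^ n = qi t (n + 1) := by
  have a1 := qi_mul t⁻¹ (n + 1)
  have a2 := qi_mul t (n + 1)
  have a3 : t * t⁻¹ = 1 := mul_inv_cancel₀ ht.ne'
  have a4 : t ^ (n + 1) * t⁻¹ ^ (n + 1) = 1 := by rw [← mul_pow, a3, one_pow]
  refine mul_left_cancel₀ (sub_ne_zero.2 h1) ?_
  linear_combination t ^ (n + 1) * a1 + a2 - a4 + (qi t⁻¹ (n + 1) * t ^ n) * a3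

theorem qfac_inv (n : ℕ) : qfac t⁻¹ n * t ^ tr n = qfac t n := by
  induction n with
  | zero => simp [qfac_zero, tr]
  | succ n ih =>
    rw [qfac_succ, qfac_succ, ← ih, ← qi_inv ht h1, tr, sum_range_succ, pow_add, tr]
    ring

omit h1 in
theorem one_add_inv (n : ℕ) : (1 + t⁻¹ ^ n) * t ^ n = 1 + t ^ n := by
  rw [inv_pow]
  field_simp
  ring

theorem aq_inv (r : ℕ) : aq t⁻¹ r = aq t r := by
  unfold aq
  rw [← qfac_inv ht h1, ← prod_congr rfl fun i _ => one_add_inv ht i, prod_mul_distrib,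
    prod_pow_eq_pow_sum, tr, mul_div_mul_right _ _ (by positivity)]

theorem cq_inv (d : ℕ) : cq t⁻¹ d * t ^ d = cq t d := by
  unfold cq
  rw [← qfac_inv ht h1, ← prod_congr rfl fun i _ => one_add_inv ht (i + 1), prod_mul_distrib,
    prod_pow_eq_pow_sum, sum_add_distrib, sum_const, card_range, smul_eq_mul, mul_one, pow_add, tr]
  have := (qfac_pos (inv_pos.2 ht) d).ne'
  field_simp

theorem Yv_inv' {r : ℕ} (hr : r ≠ 0) : Yv t⁻¹ r = - Yv t r := by
  have h := one_sub_pow ht h1 hr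
  have h' : t ^ r - 1 ≠ 0 := fun h0 => h (by linarith)
  unfold Yv
  rw [inv_pow]
  field_simp
  ring

omit ht h1 in
theorem GG_neg (a b : ℝ) : GG (-a) (-b) = GG a b := by
  unfold GG
  rw [← neg_div_neg_eq]
  congr 1 <;> ring

theorem AV_inv {l : ℕ} {ξ : Fin l → ℕ} (h0 : ∀ i, ξ i ≠ 0) : AV t⁻¹ ξ = AV t ξ := by
  unfold AV
  simp only [aq_inv ht h1, Yv_inv' ht h1 (h0 _), GG_neg]

theorem BV_inv {l : ℕ} {ξ : Fin l → ℕ} (h0 : ∀ i, ξ i ≠ 0) (i : Fin l) :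
    BV t⁻¹ ξ i = BV t ξ i := by
  unfold BV VV
  simp only [aq_inv ht h1, Yv_inv' ht h1 (h0 _), GG_neg]

end

theorem palF_qfac (n : ℕ) : PalF fun t => qfac t n :=
  ⟨tr n, fun t ht h1 => by rw [zpow_natCast, mul_comm, qfac_inv ht h1]⟩

theorem palF_AV {l : ℕ} {ξ : Fin l → ℕ} (h0 : ∀ i, ξ i ≠ 0) : PalF fun t => AV t ξ :=
  ⟨0, fun t ht h1 => by simp [AV_inv ht h1 h0]⟩

theorem palF_SS_one {l : ℕ} {ξ : Fin l → ℕ} (h0 : ∀ i, ξ i ≠ 0) {a : ℕ}
    (h : ∀ i : Fin l, i.val ≠ 0 → ξ i < a) : PalF fun t => SS t ξ a := by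
  cases l with
  | zero => simpa [SS] using palF_const 0
  | succ l =>
    have e : ∀ t, SS t ξ a = BV t ξ 0 * if a ≤ ξ 0 then cq t (ξ 0 - a) else 0 := fun t => by
      unfold SS
      rw [Fin.sum_univ_succ, sum_eq_zero fun i _ => by
        rw [if_neg (not_le.2 (h i.succ (by simp))), mul_zero], add_zero]
    refine ⟨(ξ 0 - a : ℕ), fun t ht h1 => ?_⟩
    simp only [e, BV_inv ht h1 h0, zpow_natCast]
    split_ifs
    · rw [← cq_inv ht h1]
      ring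
    · ring

noncomputable def hh (t : ℝ) (b s : ℕ) : ℝ := g2 t (b + 2) s / g2 t (b + 1) s

theorem pow_sub_ne {t : ℝ} (ht : 0 < t) (h1 : t ≠ 1) {r s : ℕ} (h : s ≠ r) : t ^ s - t ^ r ≠ 0 :=
  sub_ne_zero.2 fun e => h (pow_right_injective₀ ht h1 e)

theorem tele {t : ℝ} (ht : 0 < t) (h1 : t ≠ 1) (b : ℕ) : ∀ n ≤ b,
    (∏ s ∈ range n, hh t b (s + 1)) * ((1 - t * t ^ (b + 1) * t ^ n) * (t ^ n - t ^ (b + 1))) =
      t ^ n * ((1 - t * t ^ (b + 1)) * (1 - t ^ (b + 1))) := by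
  intro n
  induction n with
  | zero => intro _; simp
  | succ n ih =>
    intro hn
    have a1 := pow_sub_ne ht h1 (r := b + 1) (s := n + 1) (by omega)
    have a2 := one_sub_pow ht h1 (r := b + 2 + (n + 1)) (by omega)
    have a3 := one_sub_pow ht h1 (r := b + 1 + (n + 1)) (by omega)
    have a4 : hh t b (n + 1) * ((1 - t ^ (b + 2) * t ^ (n + 1)) * (t ^ (n + 1) - t ^ (b + 1))) =
        (t ^ (n + 1) - t ^ (b + 2)) * (1 - t ^ (b + 1) * t ^ (n + 1)) := by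
      rw [pow_add] at a2 a3
      unfold hh g2
      generalize 1 - t ^ (b + 2) * t ^ (n + 1) = A at a2 ⊢
      generalize 1 - t ^ (b + 1) * t ^ (n + 1) = B at a3 ⊢
      generalize t ^ (n + 1) - t ^ (b + 1) = D at a1 ⊢
      field_simp
    rw [prod_range_succ]
    linear_combination (∏ s ∈ range n, hh t b (s + 1)) * a4 + t * ih (by omega)

theorem tele_full {t : ℝ} (ht : 0 < t) (h1 : t ≠ 1) (b : ℕ) :
    aq t (b + 2) / aq t (b + 1) * ∏ s ∈ range b, hh t b (s + 1) = 1 := by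
  have a0 := tele ht h1 b b le_rfl
  have a1 := one_sub_pow ht h1 (r := b + 1) (by omega)
  have a2 := one_sub_pow ht h1 (r := b + 1 + 1) (by omega)
  rw [pow_succ' t (b + 1)] at a2
  have a3 := (aq_pos ht (b + 1)).ne'
  rw [aq_succ' ht h1 (b + 1), mul_div_cancel_left₀ _ a3, div_mul_eq_mul_div, div_eq_one_iff_eq a2]
  refine mul_left_cancel₀ (mul_ne_zero (pow_pos ht b).ne' a1) ?_
  linear_combination a0

theorem hh_gt {b s : ℕ} (h1 : s ≠ 0) (h2 : s ≤ b) : 1 < hh 10 b s := by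
  have a1 : (1 : ℝ) < 10 ^ s := one_lt_pow₀ (by norm_num) h1
  have a2 : (10 : ℝ) ^ s < 10 ^ (b + 1) := pow_lt_pow_right₀ (by norm_num) (by omega)
  unfold hh g2
  rw [pow_succ' 10 (b + 1)]
  generalize (10 : ℝ) ^ s = y at a1 a2 ⊢
  generalize (10 : ℝ) ^ (b + 1) = A at a2 ⊢
  have b1 : 0 < A * y - 1 := by nlinarith
  have b2 : 0 < 10 * A * y - 1 := by nlinarith
  have b3 : 0 < A - y := by linarith
  have e : (y - 10 * A) / (1 - 10 * A * y) / ((y - A) / (1 - A * y)) =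
      (10 * A - y) * (A * y - 1) / ((10 * A * y - 1) * (A - y)) := by
    rw [← neg_div_neg_eq (y - 10 * A), ← neg_div_neg_eq (y - A)]
    simp only [neg_sub]
    field_simp
  rw [e, one_lt_div (mul_pos b2 b3)]
  have : 0 < A * (y * y - 1) := mul_pos (by linarith) (by nlinarith)
  nlinarith

theorem SS_two {m b : ℕ} {ξ : Fin (m + 2) → ℕ} (e0 : ξ 0 = b + 2) (e1 : ξ 1 = b + 1)
    (h : ∀ j : Fin m, ξ j.succ.succ < b + 1) (t : ℝ) :
    SS t ξ (b + 1) = BV t ξ 0 * (1 + t) + BV t ξ 1 := by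
  unfold SS
  rw [Fin.sum_univ_succ, Fin.sum_univ_succ, sum_eq_zero fun j _ => by
    rw [if_neg (not_le.2 (h j)), mul_zero]]
  simp [e0, e1, cq, qfac_one, qfac_zero]

theorem BV_sum {t : ℝ} (ht : 0 < t) (h1 : t ≠ 1) {m b : ℕ} {ξ : Fin (m + 2) → ℕ}
    (h0 : ∀ i, ξ i ≠ 0) (e0 : ξ 0 = b + 2) (e1 : ξ 1 = b + 1)
    (h : ∀ j : Fin m, ξ j.succ.succ < b + 1) :
    BV t ξ 0 + BV t ξ 1 = 0 ↔
      ∏ j : Fin m, hh t b (ξ j.succ.succ) = ∏ s ∈ range b, hh t b (s + 1) := by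
  have g : ∀ r s, r ≠ 0 → s ≠ 0 → s ≠ r → g2 t r s ≠ 0 := fun r s hr hs hne => by
    have := one_sub_pow ht h1 (r := r + s) (by omega)
    rw [pow_add] at this
    exact div_ne_zero (pow_sub_ne ht h1 hne) this
  have gg : ∀ i j, GG (Yv t (ξ i)) (Yv t (ξ j)) = g2 t (ξ i) (ξ j) :=
    fun i j => (g2_eq ht h1 (h0 i) (h0 j)).symm
  have v0 : BV t ξ 0 = (g2 t (b + 2) (b + 1))⁻¹ *
      (∏ j : Fin m, g2 t (b + 2) (ξ j.succ.succ))⁻¹ / aq t (b + 2) := by
    unfold BV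
    rw [VV_eq, Fin.prod_univ_succ, ← prod_inv_distrib]
    simp only [gg]
    simp only [Fin.succAbove_zero, Fin.succ_zero_eq_one, e0, e1]
  have v1 : BV t ξ 1 = - (g2 t (b + 2) (b + 1))⁻¹ *
      (∏ j : Fin m, g2 t (b + 1) (ξ j.succ.succ))⁻¹ / aq t (b + 1) := by
    unfold BV
    rw [VV_eq, Fin.prod_univ_succ, ← prod_inv_distrib, GG_anti, inv_neg]
    simp only [gg]
    simp only [Fin.one_succAbove_zero, Fin.one_succAbove_succ, e0, e1]
  have n1 := g (b + 2) (b + 1) (by omega) (by omega) (by omega)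
  have n2 : ∏ j : Fin m, g2 t (b + 2) (ξ j.succ.succ) ≠ 0 :=
    prod_ne_zero_iff.2 fun j _ => g _ _ (by omega) (h0 _) (by have := h j; omega)
  have n3 : ∏ j : Fin m, g2 t (b + 1) (ξ j.succ.succ) ≠ 0 :=
    prod_ne_zero_iff.2 fun j _ => g _ _ (by omega) (h0 _) (by have := h j; omega)
  have n4 := (aq_pos ht (b + 1)).ne'
  have n5 := (aq_pos ht (b + 2)).ne'
  have tf := tele_full ht h1 b
  generalize ∏ s ∈ range b, hh t b (s + 1) = R at tf ⊢
  rw [v0, v1]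
  unfold hh
  rw [prod_div_distrib]
  constructor
  · intro e
    field_simp at e tf ⊢
    refine mul_left_cancel₀ n5 ?_
    linear_combination - e - (∏ j : Fin m, g2 t (b + 1) (ξ j.succ.succ)) * tf
  · intro e
    field_simp at e tf ⊢
    linear_combination (- aq t (b + 2)) * e - (∏ j : Fin m, g2 t (b + 1) (ξ j.succ.succ)) * tf

theorem hh_prod {m b : ℕ} {η : Fin m → ℕ} (hi : Function.Injective η) (h0 : ∀ j, η j ≠ 0)
    (h : ∀ j, η j < b + 1) :
    (m = b → ∀ t, ∏ j, hh t b (η j) = ∏ s ∈ range b, hh t b (s + 1)) ∧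
      (∏ j, hh 10 b (η j) = ∏ s ∈ range b, hh 10 b (s + 1) → m = b) := by
  have hi' : Function.Injective fun j => η j - 1 := fun i j e => hi (by
    have := h0 i
    have := h0 j
    simp only at e
    omega)
  have e1 : ∀ t, ∏ j, hh t b (η j) = ∏ s ∈ univ.image (fun j => η j - 1), hh t b (s + 1) :=
    fun t => by
      rw [prod_image fun _ _ _ _ e => hi' e]
      exact prod_congr rfl fun j _ => by rw [Nat.sub_add_cancel (Nat.pos_of_ne_zero (h0 j))]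
  have e2 : univ.image (fun j => η j - 1) ⊆ range b := fun s hs => by
    obtain ⟨j, -, rfl⟩ := mem_image.1 hs
    have := h j
    have := h0 j
    exact mem_range.2 (by omega)
  have e3 : (univ.image (fun j => η j - 1)).card = m := by
    rw [card_image_of_injective _ hi', card_univ, Fintype.card_fin]
  refine ⟨fun e t => ?_, fun e => ?_⟩
  · rw [e1, eq_of_subset_of_card_le e2 (by rw [e3, card_range, e])]
  · by_contra hne
    obtain ⟨s, hs, hs'⟩ := exists_of_ssubset (e2.ssubset_of_ne fun h => hne (by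
      rw [← e3, h, card_range]))
    have g : ∀ s ∈ range b, 1 < hh 10 b (s + 1) := fun s hs =>
      hh_gt (by omega) (mem_range.1 hs)
    have p1 : 0 < ∏ s ∈ univ.image (fun j => η j - 1), hh 10 b (s + 1) :=
      prod_pos fun s hs => one_pos.trans (g s (e2 hs))
    have p2 : 1 < ∏ s ∈ range b \ univ.image (fun j => η j - 1), hh 10 b (s + 1) := by
      have := prod_lt_prod_of_nonempty (f := fun _ => (1 : ℝ)) (fun _ _ => one_pos)
        (fun s hs => g s (mem_sdiff.1 hs).1) ⟨s, mem_sdiff.2 ⟨hs, hs'⟩⟩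
      simpa using this
    rw [e1, ← prod_sdiff e2] at e
    nlinarith

end Pool.Agent.Lib.MP_2c9e21_co
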