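import Mathlib
import Pool.Agent.Lib.MP_2c9e21_co.HkForm
import Pool.Agent.Lib.MP_2c9e21_co.DD

namespace Pool.Agent.Lib.MP_2c9e21_co

open Finset Polynomial

noncomputable def Lf (a : ZK) : PowerSeries ZK := 1 - PowerSeries.C a * PowerSeries.X

theorem Lf_zero : Lf 0 = 1 := by simp [Lf]

theorem Lf_mul {a b c : ZK} (h1 : a * b = 0) (h2 : a + b = c) : Lf a * Lf b = Lf c := by
  have e1 := congrArg PowerSeries.C h1
  rw [map_mul, map_zero] at e1
  rw [← h2]
  unfold Lf
  rw [map_add]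
  linear_combination PowerSeries.X ^ 2 * e1

theorem Lf_ite (p : Prop) [Decidable p] (c : ZK) :
    (if p then Lf c else 1) = Lf (if p then c else 0) := by
  split_ifs
  · rfl
  · exact Lf_zero.symm

theorem ph_lin (c : ℤ) : ph (1 - C c * X) = Lf c := by
  rw [map_sub, map_one, map_mul, ph_C, ph_X]
  rfl

theorem ten_pow {e : ℕ} (h : 3 ≤ e) : (10 : ZK) ^ e = 0 := by
  rw [show e = 3 + (e - 3) by omega, pow_add, ten_cube, zero_mul]

theorem Lf_range (c : ZK) (b : ℕ) : ∏ s ∈ range (b + 1), Lf (c * 10 ^ s) =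
    Lf c * Lf (c * if 1 ≤ b then 10 else 0) * Lf (c * if 2 ≤ b then 100 else 0) := by
  match b with
  | 0 => simp [Lf_zero]
  | 1 => simp [prod_range_succ, Lf_zero]
  | (n + 2) =>
    rw [show n + 2 + 1 = 3 + n by omega, prod_range_add, prod_eq_one (s := range n) fun s _ => by
      rw [ten_pow (by omega), mul_zero, Lf_zero], if_pos (by omega), if_pos (by omega)]
    simp only [prod_range_succ, range_zero, prod_empty, one_mul, pow_zero, mul_one, pow_one]
    rfl

theorem Lf_all {l : ℕ} {ξ : Fin l → ℕ} (hi : Function.Injective ξ) (h0 : ∀ i, ξ i ≠ 0) (b : ℕ) :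
    ∏ j, Lf (10 ^ (b + 1 + ξ j)) = Lf (if ¬ 1 ≤ b ∧ ∃ j, ξ j = b + 1 then 100 else 0) := by
  have h : ∀ j, Lf (10 ^ (b + 1 + ξ j)) = if ξ j = 1 then Lf (10 ^ (b + 2)) else 1 := fun j => by
    have := h0 j
    split_ifs with h
    · rw [h]
    · rw [ten_pow (by omega), Lf_zero]
  simp only [h]
  rw [prod_single hi, Lf_ite]
  congr 1
  cases b with
  | zero => simp only [zero_add, show ¬ 1 ≤ 0 by omega, not_false_eq_true, true_and]; rfl
  | succ b => rw [ten_pow (by omega), ite_self, if_neg (by omega)]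

theorem Lf_small {l : ℕ} {ξ : Fin l → ℕ} (hi : Function.Injective ξ) (b : ℕ) :
    ∏ j ∈ univ.filter (fun j => ¬ b + 1 ≤ ξ j), Lf (10 ^ (b - ξ j)) =
      Lf (if ∃ j, ξ j = b then 1 else 0) * Lf (if ∃ j, ξ j + 1 = b then 10 else 0) *
        Lf (if ∃ j, ξ j + 2 = b then 100 else 0) := by
  rw [← Lf_ite, ← Lf_ite, ← Lf_ite, ← prod_single hi,
    ← prod_single (ξ := fun j => ξ j + 1) (fun i j e => hi (by simpa using e)),
    ← prod_single (ξ := fun j => ξ j + 2) (fun i j e => hi (by simpa using e)),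
    ← prod_mul_distrib, ← prod_mul_distrib, prod_filter]
  refine prod_congr rfl fun j _ => ?_
  by_cases h0 : ξ j = b
  · rw [if_pos (by omega), if_pos h0, if_neg (by omega), if_neg (by omega), h0]; simp
  by_cases h1 : ξ j + 1 = b
  · rw [if_pos (by omega), if_neg h0, if_pos h1, if_neg (by omega), show b - ξ j = 1 by omega]; simp
  by_cases h2 : ξ j + 2 = b
  · rw [if_pos (by omega), if_neg h0, if_neg h1, if_pos h2, show b - ξ j = 2 by omega, one_mul,
      one_mul]
    rfl
  rw [if_neg h0, if_neg h1, if_neg h2]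
  split_ifs
  · simp
  · rw [ten_pow (by omega), Lf_zero]; simp

theorem sum_single {l : ℕ} {ξ : Fin l → ℕ} (hi : Function.Injective ξ) (v : ℕ) (c : ZK) :
    ∑ j, (if ξ j = v then c else 0) = if ∃ j, ξ j = v then c else 0 := by
  split_ifs with h
  · obtain ⟨j, rfl⟩ := h
    rw [sum_eq_single j, if_pos rfl]
    · intro k _ hk
      exact if_neg fun h => hk (hi h)
    · simp
  · exact sum_eq_zero fun j _ => if_neg fun hj => h ⟨j, hj⟩

theorem e1_eq {l : ℕ} {ξ : Fin l → ℕ} (hi : Function.Injective ξ) (b : ℕ) :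
    ∑ j ∈ univ.filter (fun j => b + 1 ≤ ξ j), (10 : ZK) ^ (ξ j - b) =
      (if ∃ j, ξ j = b + 1 then 10 else 0) + if ∃ j, ξ j = b + 2 then 100 else 0 := by
  rw [← sum_single hi, ← sum_single hi, ← sum_add_distrib, sum_filter]
  refine sum_congr rfl fun j _ => ?_
  by_cases h0 : ξ j = b + 1
  · rw [if_pos (by omega), if_pos h0, if_neg (by omega), show ξ j - b = 1 by omega]; simp
  by_cases h1 : ξ j = b + 2
  · rw [if_pos (by omega), if_neg h0, if_pos h1, show ξ j - b = 2 by omega, zero_add]; rfl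
  rw [if_neg h0, if_neg h1]
  split_ifs
  · rw [ten_pow (by omega), add_zero]
  · simp

noncomputable def II : PowerSeries ZK := PowerSeries.mk fun n => (-1) ^ n

theorem II_mul : Lf (-1) * II = 1 := by
  ext n
  unfold Lf
  cases n with
  | zero => simp [II]
  | succ n =>
    rw [sub_mul, one_mul, mul_assoc, map_sub, PowerSeries.coeff_C_mul,
      PowerSeries.coeff_succ_X_mul]
    simp [II, pow_succ, PowerSeries.coeff_one]

noncomputable def FF (g1 g2 g3 : ZK) : PowerSeries ZK :=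
  II + PowerSeries.C g1 * (PowerSeries.X ^ 1 * II) + PowerSeries.C g2 * (PowerSeries.X ^ 2 * II) +
    PowerSeries.C g3 * (PowerSeries.X ^ 3 * II)

theorem FF_coeff (g1 g2 g3 : ZK) (m : ℕ) : (-1) ^ m * PowerSeries.coeff m (FF g1 g2 g3) =
    1 - (if 1 ≤ m then g1 else 0) + (if 2 ≤ m then g2 else 0) - if 3 ≤ m then g3 else 0 := by
  have h : ((-1 : ZK) ^ 2) = 1 := by norm_num
  simp only [FF, map_add, PowerSeries.coeff_C_mul, PowerSeries.coeff_X_pow_mul', II,
    PowerSeries.coeff_mk]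
  match m with
  | 0 => simp
  | 1 => simp; ring
  | 2 => simp; ring
  | (m + 3) =>
    have h2 : ((-1 : ZK) ^ m) * (-1) ^ m = 1 := by rw [← mul_pow]; simp
    simp only [show 1 ≤ m + 3 by omega, show 2 ≤ m + 3 by omega, show 3 ≤ m + 3 by omega, if_true,
      show m + 3 - 1 = m + 2 from rfl, show m + 3 - 2 = m + 1 from rfl, Nat.add_sub_cancel]
    linear_combination (1 - g1 + g2 - g3) * h2

theorem FF_eq {ε u v : ZK} (h1 : u * 100 = 0) (h2 : u * v = 0) (h3 : 10 * v = 0) :
    Lf (-1) * Lf (-10) * FF (-ε - (u + 10 + v)) (10 * u + 100 + ε * (u + 10 + v))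
      (- (ε * (10 * u + 100))) = Lf ε * Lf u * Lf v := by
  have e0 := II_mul
  have e1 := congrArg PowerSeries.C h1
  have e2 := congrArg PowerSeries.C h2
  have e3 := congrArg PowerSeries.C h3
  have e4 := congrArg PowerSeries.C ten_cube
  unfold FF
  unfold Lf at *
  simp only [map_mul, map_add, map_neg, map_sub, map_zero, map_pow, map_ofNat, map_one] at *
  generalize (PowerSeries.C ε : PowerSeries ZK) = E at *
  generalize (PowerSeries.C u : PowerSeries ZK) = U at *
  generalize (PowerSeries.C v : PowerSeries ZK) = V at *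
  generalize (PowerSeries.X : PowerSeries ZK) = Y at *
  linear_combination ((1 + 10 * Y) * (1 - E * Y) * (1 - (U + 10 + V) * Y + (10 * U + 100) * Y ^ 2)) *
    e0 + (1 - E * Y) * (Y ^ 3 * e1 - Y ^ 2 * e2 - Y ^ 2 * e3 + Y ^ 3 * e4)

def Lval (ε u v e : ZK) (q1 q2 : Bool) : ZK :=
  (1 + ε + (u + 10 + v) + (if q1 then 10 * u + 100 + ε * (u + 10 + v) else 0) +
    if q2 then ε * (10 * u + 100) else 0) -
  e * (1 + ε + (u + 10 + v) + (10 * u + 100 + ε * (u + 10 + v)) +
    if q1 then ε * (10 * u + 100) else 0) +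
  e ^ 2 * (1 + ε + (u + 10 + v) + (10 * u + 100 + ε * (u + 10 + v)) + ε * (10 * u + 100))

theorem LL_FF (ε u v e : ZK) (q : ℕ) : (-1) ^ (q + 1) * LL e q (FF (-ε - (u + 10 + v))
    (10 * u + 100 + ε * (u + 10 + v)) (- (ε * (10 * u + 100)))) =
      Lval ε u v e (decide (1 ≤ q)) (decide (2 ≤ q)) := by
  have a1 := FF_coeff (-ε - (u + 10 + v)) (10 * u + 100 + ε * (u + 10 + v))
    (- (ε * (10 * u + 100))) (q + 1)
  have a2 := FF_coeff (-ε - (u + 10 + v)) (10 * u + 100 + ε * (u + 10 + v))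
    (- (ε * (10 * u + 100))) (q + 2)
  have a3 := FF_coeff (-ε - (u + 10 + v)) (10 * u + 100 + ε * (u + 10 + v))
    (- (ε * (10 * u + 100))) (q + 3)
  unfold LL Lval
  simp only [decide_eq_true_eq]
  rw [if_pos (by omega), if_congr (show 2 ≤ q + 1 ↔ 1 ≤ q by omega) rfl rfl,
    if_congr (show 3 ≤ q + 1 ↔ 2 ≤ q by omega) rfl rfl] at a1
  rw [if_pos (by omega), if_pos (by omega),
    if_congr (show 3 ≤ q + 2 ↔ 1 ≤ q by omega) rfl rfl] at a2
  rw [if_pos (by omega), if_pos (by omega), if_pos (by omega)] at a3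
  split_ifs at a1 a2 ⊢ <;> linear_combination a1 - e * a2 + e ^ 2 * a3

theorem fin_check2 (b2 b3 s0 s1 s2 α1 α2 q1 q2 : Bool) : ∀ k : Fin 4,
    (s1 = true → b2 = true) → (s2 = true → b3 = true) →
    Lval (if s0 then 0 else 1) ((if b2 then 10 else 0) - if s1 then 10 else 0)
      ((if b3 then 100 else 0) + (if !b2 && s0 then 100 else 0) + (if b2 then 100 else 0) -
        if s2 then 100 else 0) ((if α1 then 10 else 0) + if α2 then 100 else 0) q1 q2 = ww k →
    (q2 = true → q1 = true) → (b3 = true → b2 = true) →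
    α1 = true ∧ α2 = true ∧ q1 = false ∧ k = 0 := by
  intro k h1 h2 h3 h4 h5
  have h : (decide (Lval (if s0 then 0 else 1) ((if b2 then 10 else 0) - if s1 then 10 else 0)
      ((if b3 then 100 else 0) + (if !b2 && s0 then 100 else 0) + (if b2 then 100 else 0) -
        if s2 then 100 else 0) ((if α1 then 10 else 0) + if α2 then 100 else 0) q1 q2 = ww k) &&
      (!s1 || b2) && (!s2 || b3) && (!q2 || q1) && (!b3 || b2)) ≤
        (α1 && α2 && !q1 && decide (k = 0)) := by
    clear h1 h2 h3 h4 h5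
    revert k α1 α2 q1 q2
    cases b2 <;> cases b3 <;> cases s0 <;> cases s1 <;> cases s2 <;> decide +kernel
  rw [decide_eq_true h3, Bool.le_iff_imp] at h
  simp only [Bool.and_eq_true, Bool.or_eq_true, Bool.not_eq_true', decide_eq_true_eq,
    and_assoc, true_and] at h
  refine h ⟨?_, ?_, ?_, ?_⟩
  · cases s1 <;> simp_all
  · cases s2 <;> simp_all
  · cases q2 <;> simp_all
  · cases b3 <;> simp_all

end Pool.Agent.Lib.MP_2c9e21_co
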