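import Mathlib
import Pool.Agent.Lib.MP_2c9e21_co.HkNeg

namespace Pool.Agent.Lib.MP_2c9e21_co

open Finset Polynomial

theorem ca_eq {t : ℝ} (ht : 0 < t) (h1 : t ≠ 1) (d b : ℕ) :
    cq t d * (∏ s ∈ range b, (1 + t ^ s * t ^ (d + 1))) * 2 * (1 - t) ^ (b + 1) =
      aq t (b + 1 + d) * ∏ s ∈ range (b + 1), (1 - t ^ s * t ^ (d + 1)) := by
  induction b with
  | zero =>
    have p1 := (qfac_pos ht d).ne'
    have p2 := (qi_pos ht d).ne'
    have h := qi_mul t (d + 1)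
    rw [zero_add, add_comm 1 d, prod_range_one, prod_range_zero, pow_zero, one_mul, ← h]
    unfold aq cq
    rw [prod_range_succ', qfac_succ]
    field_simp
    ring
  | succ b ih =>
    have h2 := one_sub_pow ht h1 (r := b + 1 + d + 1) (by omega)
    rw [pow_succ'] at h2
    have e : 1 - t ^ (b + 1) * t ^ (d + 1) = 1 - t * t ^ (b + 1 + d) := by ring
    rw [show b + 1 + 1 + d = b + 1 + d + 1 by omega, aq_succ' ht h1, prod_range_succ,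
      prod_range_succ _ (b + 1), e]
    have e2 : aq t (b + 1 + d) * ((1 + t ^ (b + 1 + d)) * (1 - t) / (1 - t * t ^ (b + 1 + d))) *
        ((∏ s ∈ range (b + 1), (1 - t ^ s * t ^ (d + 1))) * (1 - t * t ^ (b + 1 + d))) =
        (aq t (b + 1 + d) * ∏ s ∈ range (b + 1), (1 - t ^ s * t ^ (d + 1))) *
          ((1 + t ^ (b + 1 + d)) * (1 - t)) := by
      generalize 1 - t * t ^ (b + 1 + d) = A at h2 ⊢
      generalize ∏ s ∈ range (b + 1), (1 - t ^ s * t ^ (d + 1)) = B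
      field_simp
    rw [e2, ← ih]
    ring

noncomputable def PP {l : ℕ} (ξ : Fin l → ℕ) (B : ℕ) : ℤ[X] :=
  (∏ s ∈ range B, (1 - C (1 * 10 ^ s) * X)) * ∏ j, (1 - C (10 ^ (B + ξ j)) * X)

noncomputable def QQ {l : ℕ} (ξ : Fin l → ℕ) (B : ℕ) : ℤ[X] :=
  (∏ s ∈ range (B + 1), (1 - C (-1 * 10 ^ s) * X)) *
    ∏ j ∈ univ.filter (fun j => ¬ B + 1 ≤ ξ j), (1 - C (10 ^ (B - ξ j)) * X)

theorem aeval_lin (x : ℝ) (c : ℤ) : aeval x (1 - C c * X) = 1 - c * x := by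
  rw [map_sub, map_one, map_mul, aeval_C, aeval_X, eq_intCast]

theorem conn {l : ℕ} {ξ : Fin l → ℕ} (hi : Function.Injective ξ) (h0 : ∀ i, ξ i ≠ 0) (B : ℕ)
    {i : Fin l} (hb : B + 1 ≤ ξ i) :
    aeval ((10 : ℝ) ^ (ξ i - B)) (PP ξ B) / aeval ((10 : ℝ) ^ (ξ i - B)) (QQ ξ B) /
      ∏ j ∈ (univ.filter (fun j => B + 1 ≤ ξ j)).erase i, ((10 : ℝ) ^ (ξ i - B) - 10 ^ (ξ j - B)) =
    (2 * (1 - 10) ^ (B + 1) * (-10 ^ B) ^ ((univ.filter (fun j => B + 1 ≤ ξ j)).card - 1) *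
      ∏ j ∈ univ.filter (fun j => ¬ B + 1 ≤ ξ j), 10 ^ ξ j) *
      (BV 10 ξ i * cq 10 (ξ i - (B + 1))) := by
  have ht : (0 : ℝ) < 10 := by norm_num
  have h1 : (10 : ℝ) ≠ 1 := by norm_num
  obtain ⟨d, hd⟩ : ∃ d, ξ i = B + 1 + d := ⟨ξ i - (B + 1), by omega⟩
  have hx : (10 : ℝ) ^ ξ i = 10 ^ B * 10 ^ (d + 1) := by rw [hd]; ring
  have ca := ca_eq ht h1 d B
  have v1 : VV (fun j => Yv 10 (ξ j)) i * ∏ j ∈ univ.erase i, ((10 : ℝ) ^ ξ j - 10 ^ ξ i) =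
      ∏ j ∈ univ.erase i, (1 - (10 : ℝ) ^ (B + ξ j) * 10 ^ (d + 1)) := by
    unfold VV
    rw [← mul_prod_erase _ _ (mem_univ i), if_pos rfl, one_mul, ← prod_mul_distrib]
    refine prod_congr rfl fun j hj => ?_
    have hne := ne_of_mem_erase hj
    rw [if_neg hne, ← g2_eq ht h1 (h0 i) (h0 j), g2, inv_div,
      div_mul_cancel₀ _ (pow_sub_ne ht h1 fun e => hne (hi e)), hx]
    ring
  have v2 := prod_erase_mul univ (fun j => 1 - (10 : ℝ) ^ (B + ξ j) * 10 ^ (d + 1)) (mem_univ i)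
  have v3 : ∏ j ∈ (univ.filter (fun j => B + 1 ≤ ξ j)).erase i, ((10 : ℝ) ^ ξ j - 10 ^ ξ i) =
      (-10 ^ B) ^ ((univ.filter (fun j => B + 1 ≤ ξ j)).card - 1) *
        ∏ j ∈ (univ.filter (fun j => B + 1 ≤ ξ j)).erase i,
          ((10 : ℝ) ^ (d + 1) - 10 ^ (ξ j - B)) := by
    rw [← card_erase_of_mem (a := i) (by simpa using hb), ← prod_const, ← prod_mul_distrib]
    refine prod_congr rfl fun j hj => ?_
    have := (mem_filter.1 (mem_of_mem_erase hj)).2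
    have e : (10 : ℝ) ^ ξ j = 10 ^ B * 10 ^ (ξ j - B) := by
      rw [← pow_add]; congr 1; omega
    rw [hx, e]
    ring
  have v4 : ∏ j ∈ univ.filter (fun j => ¬ B + 1 ≤ ξ j), ((10 : ℝ) ^ ξ j - 10 ^ ξ i) =
      (∏ j ∈ univ.filter (fun j => ¬ B + 1 ≤ ξ j), 10 ^ ξ j) *
        ∏ j ∈ univ.filter (fun j => ¬ B + 1 ≤ ξ j), (1 - (10 : ℝ) ^ (B - ξ j) * 10 ^ (d + 1)) := by
    rw [← prod_mul_distrib]
    refine prod_congr rfl fun j hj => ?_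
    have := (mem_filter.1 hj).2
    have e : (10 : ℝ) ^ B = 10 ^ ξ j * 10 ^ (B - ξ j) := by
      rw [← pow_add]; congr 1; omega
    rw [hx, e]
    ring
  rw [← prod_filter_mul_prod_filter_not (univ.erase i) (fun j => B + 1 ≤ ξ j), filter_erase,
    filter_erase, erase_eq_of_notMem (a := i) (s := univ.filter (fun j => ¬ B + 1 ≤ ξ j))
      (by simpa using hb), v3, v4] at v1
  have n1 : ∏ j ∈ (univ.filter (fun j => B + 1 ≤ ξ j)).erase i,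
      ((10 : ℝ) ^ (d + 1) - 10 ^ (ξ j - B)) ≠ 0 := prod_ne_zero_iff.2 fun j hj => by
    have a1 := (mem_filter.1 (mem_of_mem_erase hj)).2
    have a2 : ξ j ≠ ξ i := fun e => ne_of_mem_erase hj (hi e)
    exact pow_sub_ne ht h1 (by omega)
  have n2 : ∏ j ∈ univ.filter (fun j => ¬ B + 1 ≤ ξ j),
      (1 - (10 : ℝ) ^ (B - ξ j) * 10 ^ (d + 1)) ≠ 0 := prod_ne_zero_iff.2 fun j _ => by
    rw [← pow_add]
    exact one_sub_pow ht h1 (by omega)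
  have n3 : ∏ s ∈ range B, (1 + (10 : ℝ) ^ s * 10 ^ (d + 1)) ≠ 0 := by positivity
  have n4 := (aq_pos ht (B + 1 + d)).ne'
  have n5 : 1 + (10 : ℝ) ^ B * 10 ^ (d + 1) ≠ 0 := by positivity
  unfold PP QQ BV
  rw [map_mul, map_mul]
  simp only [map_prod, aeval_lin]
  push_cast
  simp only [one_mul, neg_mul, sub_neg_eq_add]
  rw [hd] at v2
  rw [hd, show B + 1 + d - B = d + 1 by omega, Nat.add_sub_cancel_left, ← v2, ← v1,
    prod_range_succ _ B]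
  rw [prod_range_succ] at ca
  generalize ∏ j ∈ (univ.filter (fun j => B + 1 ≤ ξ j)).erase i,
      ((10 : ℝ) ^ (d + 1) - 10 ^ (ξ j - B)) = D at n1 ⊢
  generalize ∏ j ∈ univ.filter (fun j => ¬ B + 1 ≤ ξ j),
      (1 - (10 : ℝ) ^ (B - ξ j) * 10 ^ (d + 1)) = R at n2 ⊢
  generalize ∏ s ∈ range B, (1 + (10 : ℝ) ^ s * 10 ^ (d + 1)) = Q at n3 ca ⊢
  rw [show (1 : ℝ) - 10 ^ (B + (B + 1 + d)) * 10 ^ (d + 1) =
    (1 - 10 ^ B * 10 ^ (d + 1)) * (1 + 10 ^ B * 10 ^ (d + 1)) by ring]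
  generalize (1 : ℝ) + 10 ^ B * 10 ^ (d + 1) = Z at n5 ⊢
  generalize (-(10 : ℝ) ^ B) ^ ((univ.filter (fun j => B + 1 ≤ ξ j)).card - 1) = S
  generalize ((1 : ℝ) - 10) ^ (B + 1) = T at ca ⊢
  field_simp
  linear_combination (- VV (fun j => Yv 10 (ξ j)) i * S) * ca

theorem ph_eq {l : ℕ} {ξ : Fin l → ℕ} (hi : Function.Injective ξ) (h0 : ∀ i, ξ i ≠ 0) (b : ℕ)
    {ε u v : ZK} (hε : ε = if ∃ j, ξ j = b + 1 then 0 else 1)
    (hu : u = (if 1 ≤ b then 10 else 0) - if ∃ j, ξ j + 1 = b + 1 then 10 else 0)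
    (hv : v = (if 2 ≤ b then 100 else 0) + (if ¬ 1 ≤ b ∧ ∃ j, ξ j = b + 1 then 100 else 0) +
      (if 1 ≤ b then 100 else 0) - if ∃ j, ξ j + 2 = b + 1 then 100 else 0) :
    ph (QQ ξ (b + 1)) * FF (-ε - (u + 10 + v)) (10 * u + 100 + ε * (u + 10 + v))
      (- (ε * (10 * u + 100))) = ph (PP ξ (b + 1)) := by
  have s1 : (∃ j, ξ j + 1 = b + 1) → 1 ≤ b := fun ⟨j, hj⟩ => by have := h0 j; omega
  have f := FF_eq (ε := ε) (u := u) (v := v) (by rw [hu]; split_ifs <;> rfl)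
    (by rw [hu, hv]; split_ifs <;> rfl) (by rw [hv]; split_ifs <;> rfl)
  have m1 := Lf_mul (a := if ∃ j, ξ j = b + 1 then 1 else 0) (b := ε) (c := 1)
    (by rw [hε]; split_ifs <;> rfl) (by rw [hε]; split_ifs <;> rfl)
  have m2 := Lf_mul (a := if ∃ j, ξ j + 1 = b + 1 then 10 else 0) (b := u)
    (c := 1 * if 1 ≤ b then 10 else 0)
    (by rw [hu]; split_ifs with a1 a2 <;> first | rfl | exact absurd (s1 a1) a2)
    (by rw [hu]; ring)
  have m3 := Lf_mul (a := -1 * if 2 ≤ b + 1 then 100 else 0)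
    (b := if ∃ j, ξ j + 2 = b + 1 then 100 else 0) (by split_ifs <;> rfl) rfl
  have m4 := Lf_mul (a := (-1 * if 2 ≤ b + 1 then 100 else 0) +
    if ∃ j, ξ j + 2 = b + 1 then 100 else 0) (b := v) (by rw [hv]; split_ifs <;> rfl) rfl
  have m5 := Lf_mul (a := 1 * if 2 ≤ b then 100 else 0)
    (b := if ¬ 1 ≤ b ∧ ∃ j, ξ j = b + 1 then 100 else 0)
    (c := ((-1 * if 2 ≤ b + 1 then 100 else 0) + if ∃ j, ξ j + 2 = b + 1 then 100 else 0) + v)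
    (by split_ifs <;> rfl) (by
      rw [hv, if_congr (show 2 ≤ b + 1 ↔ 1 ≤ b by omega) rfl rfl]
      ring)
  unfold PP QQ
  rw [map_mul ph, map_mul ph]
  simp only [map_prod, ph_lin]
  push_cast
  rw [Lf_range, Lf_range, Lf_all hi h0, Lf_small hi, if_pos (show 1 ≤ b + 1 by omega),
    show (-1 : ZK) * 10 = -10 by ring]
  generalize FF _ _ _ = F at f ⊢
  calc _ = Lf (-1) * Lf (-10) * F * Lf (if ∃ j, ξ j = b + 1 then 1 else 0) *
        Lf (if ∃ j, ξ j + 1 = b + 1 then 10 else 0) * (Lf (-1 * if 2 ≤ b + 1 then 100 else 0) *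
        Lf (if ∃ j, ξ j + 2 = b + 1 then 100 else 0)) := by ring
    _ = _ := by
      rw [f, m3, mul_assoc _ (Lf (1 * if 2 ≤ b then 100 else 0)), m5, ← m4, ← m1, ← m2]
      ring

end Pool.Agent.Lib.MP_2c9e21_co
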