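import Mathlib
import Pool.Agent.Lib.MP_2c9e21_co.HkConn

namespace Pool.Agent.Lib.MP_2c9e21_co

open Finset Polynomial

theorem neg_big {l : ℕ} {ξ : Fin l → ℕ} (hi : Function.Injective ξ) (h0 : ∀ i, ξ i ≠ 0) (b : ℕ)
    {q : ℕ} (hq : (univ.filter (fun j => b + 1 + 1 ≤ ξ j)).card = q + 2) (e : ℤ)
    (h : SS 10 ξ (b + 1 + 1) = 10 ^ e * SS 10⁻¹ ξ (b + 1 + 1)) :
    q = 0 ∧ (∃ j, ξ j = b + 1 + 1) ∧ (∃ j, ξ j = b + 1 + 2) ∧
      e + 1 = (∑ j ∈ univ.filter (fun j => b + 1 + 1 ≤ ξ j), (ξ j - (b + 1)) : ℕ) := by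
  have ht : (0 : ℝ) < 10 := by norm_num
  have h1 : (10 : ℝ) ≠ 1 := by norm_num
  have hx : ∀ i ∈ univ.filter (fun j => b + 1 + 1 ≤ ξ j),
      (((10 : ℤ) ^ (ξ i - (b + 1)) : ℤ) : ZK) ^ 3 = 0 := fun i hi => by
    have := (mem_filter.1 hi).2
    push_cast
    rw [← pow_mul, ten_pow (by omega)]
  obtain ⟨k, k1, k2⟩ := dd_main hq (n := fun j => ξ j - (b + 1)) (fun i hi' j hj e => hi (by
      have := (mem_filter.1 hi').2
      have := (mem_filter.1 hj).2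
      simp only at e
      omega))
    (fun i hi => by have := (mem_filter.1 hi).2; omega) (P := PP ξ (b + 1)) (Q := QQ ξ (b + 1))
    (Inv.mul (inv_prod _ _ fun _ _ => inv_lin _ _ hx _) (inv_prod _ _ fun _ _ => inv_lin _ _ hx _))
    (ph_eq hi h0 b rfl rfl rfl) (by simpa using FF_coeff _ _ _ 0) (e + 1) (by
      rw [← mul_zero (2 * (1 - 10) ^ (b + 1 + 1) *
        (-10 ^ (b + 1)) ^ ((univ.filter (fun j => b + 1 + 1 ≤ ξ j)).card - 1) *
          ∏ j ∈ univ.filter (fun j => ¬ b + 1 + 1 ≤ ξ j), (10 : ℝ) ^ ξ j), ← sub_eq_zero.2 h,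
        sum_filter]
      unfold SS
      rw [mul_sum univ _ ((10 : ℝ) ^ e), ← sum_sub_distrib, mul_sum]
      refine sum_congr rfl fun i _ => ?_
      split_ifs with hb
      · rw [mul_div_right_comm, conn hi h0 _ hb, BV_inv ht h1 h0, ← cq_inv ht h1,
          show ξ i - (b + 1) = ξ i - (b + 1 + 1) + 1 by omega, zpow_add_one₀ ht.ne', pow_succ _ (_ - _)]
        field_simp
      · simp)
  rw [LL_FF, e1_eq hi, pw] at k2
  have h2 := fin_check2 (decide (1 ≤ b)) (decide (2 ≤ b)) (decide (∃ j, ξ j = b + 1))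
    (decide (∃ j, ξ j + 1 = b + 1)) (decide (∃ j, ξ j + 2 = b + 1)) (decide (∃ j, ξ j = b + 1 + 1))
    (decide (∃ j, ξ j = b + 1 + 2)) (decide (1 ≤ q)) (decide (2 ≤ q)) ⟨min k 3, by omega⟩
    (by simp only [decide_eq_true_eq]; rintro ⟨j, hj⟩; have := h0 j; omega)
    (by simp only [decide_eq_true_eq]; rintro ⟨j, hj⟩; have := h0 j; omega)
    (by
      simp only [decide_eq_true_eq, Bool.and_eq_true, Bool.not_eq_true', decide_eq_false_iff_not]
      exact k2)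
    (by simp only [decide_eq_true_eq]; omega) (by simp only [decide_eq_true_eq]; omega)
  simp only [decide_eq_true_eq, decide_eq_false_iff_not, Fin.ext_iff, Fin.val_zero] at h2
  exact ⟨by omega, h2.1, h2.2.1, by omega⟩

theorem gap {l : ℕ} {ξ : Fin l → ℕ} (ha : StrictAnti ξ) :
    ∀ (d : ℕ) (i j : Fin l), j.val = i.val + d → ξ j + d ≤ ξ i := by
  intro d
  induction d with
  | zero => intro i j h; rw [Fin.ext h]; omega
  | succ d ih =>
    intro i j h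
    have h1 := ih i ⟨i.val + d, by omega⟩ rfl
    have h2 := ha (show (⟨i.val + d, by omega⟩ : Fin l) < j from by rw [Fin.lt_def]; simp; omega)
    omega

theorem neg_hook {l : ℕ} {ξ : Fin l → ℕ} (ha : StrictAnti ξ) (h0 : ∀ i, ξ i ≠ 0) (b : ℕ) (e : ℤ)
    (h : SS 10 ξ (b + 1 + 1) = 10 ^ e * SS 10⁻¹ ξ (b + 1 + 1)) :
    (∀ i : Fin l, i.val = 1 → ξ i < b + 1 + 1) ∨
      (l = b + 1 + 1 + 1 ∧ ∀ i, ξ i + i.val = b + 1 + 1 + 1) := by
  have ht : (0 : ℝ) < 10 := by norm_num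
  have h1 : (10 : ℝ) ≠ 1 := by norm_num
  refine or_iff_not_imp_left.2 fun hc => ?_
  push Not at hc
  obtain ⟨i, i1, i2⟩ := hc
  obtain ⟨m, rfl⟩ : ∃ m, l = m + 2 := ⟨l - 2, by omega⟩
  obtain rfl : i = 1 := Fin.ext i1
  have lt := ha (show (0 : Fin (m + 2)) < 1 from Fin.zero_lt_one)
  obtain ⟨q0, ⟨j1, e1⟩, ⟨j2, e2⟩, e3⟩ := neg_big ha.injective h0 b
    (q := ∑ j : Fin m, if b + 1 + 1 ≤ ξ j.succ.succ then 1 else 0) (by
      rw [card_filter, Fin.sum_univ_succ, Fin.sum_univ_succ, Fin.succ_zero_eq_one,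
        if_pos (by omega), if_pos i2]
      omega) e h
  have hs : ∀ j : Fin m, ξ j.succ.succ < b + 1 + 1 := fun j => by
    have := sum_eq_zero_iff.1 q0 j (mem_univ _)
    split_ifs at this
    omega
  have c : ∀ j, ξ j = ξ 0 ∨ ξ j = ξ 1 ∨ ξ j < b + 1 + 1 := fun j =>
    Fin.cases (Or.inl rfl) (fun j => Fin.cases (Or.inr (Or.inl rfl))
      (fun j => Or.inr (Or.inr (hs j))) j) j
  have c1 := c j1
  have c2 := c j2
  have f0 : ξ 0 = b + 1 + 2 := by omega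
  have f1 : ξ 1 = b + 1 + 1 := by omega
  rw [sum_filter, Fin.sum_univ_succ, Fin.sum_univ_succ, Fin.succ_zero_eq_one, if_pos (by omega),
    if_pos i2, sum_eq_zero fun j _ => if_neg (not_le.2 (hs j))] at e3
  obtain rfl : e = 2 := by omega
  rw [SS_two f0 f1 hs, SS_two f0 f1 hs, BV_inv ht h1 h0, BV_inv ht h1 h0, zpow_ofNat] at h
  obtain rfl := (hh_prod (η := fun j => ξ j.succ.succ) (fun i j e => by simpa using ha.injective e)
    (fun j => h0 _) hs).2 ((BV_sum ht h1 h0 f0 f1 hs).1 (by linear_combination (-1 / 99 : ℝ) * h))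
  refine ⟨rfl, fun i => ?_⟩
  have g1 := gap ha i.val 0 i (by simp)
  have g2 := gap ha (b + 2 - i.val) i (Fin.last _) (by have := i.2; simp; omega)
  have := h0 (Fin.last _)
  have := i.2
  omega

theorem pos_stair {b : ℕ} {ξ : Fin (b + 2) → ℕ} (ha : StrictAnti ξ) (h0 : ∀ i, ξ i ≠ 0)
    (h : ∀ i, ξ i + i.val = b + 2) : PalF fun t => SS t ξ (b + 1) := by
  have f0 : ξ 0 = b + 2 := by simpa using h 0
  have f1 : ξ 1 = b + 1 := by have := h 1; simp at this; omega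
  have hs : ∀ j : Fin b, ξ j.succ.succ < b + 1 := fun j => by
    have := h j.succ.succ
    simp only [Fin.val_succ] at this
    omega
  refine ⟨2, fun t ht h1 => ?_⟩
  have e := (BV_sum ht h1 h0 f0 f1 hs).2 ((hh_prod (η := fun j => ξ j.succ.succ)
    (fun i j e => by simpa using ha.injective e) (fun j => h0 _) hs).1 rfl t)
  have a3 : t * t⁻¹ = 1 := mul_inv_cancel₀ ht.ne'
  simp only [SS_two f0 f1 hs, BV_inv ht h1 h0, zpow_ofNat]
  linear_combination (t ^ 2 - 1) * e + t * BV t ξ 0 * a3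

theorem hook_main {N l : ℕ} {ξ : Fin l → ℕ} (ha : StrictAnti ξ) (hp : ∀ i, 0 < ξ i) {a k : ℕ}
    (h1 : 1 ≤ a) (hs : ∑ i, ξ i = a + k) (hN : a + k ≤ N) :
    ∃ K : (Fin N → ℕ) → Polynomial ℤ, IsExp N ξ K ∧
      (∀ K', IsExp N ξ K' → ∀ μ ∈ Par N (∑ i, ξ i), K' μ = K μ) ∧
      (Pal (K fun i => if i.val = 0 then a else if i.val ≤ k then 1 else 0) ↔
        a = 1 ∨ (∀ i : Fin l, i.val = 1 → ξ i < a) ∨ (l = a + 1 ∧ ∀ i, ξ i + i.val = a + 1)) := by
  obtain ⟨M, rfl⟩ : ∃ M, N = M + 1 := ⟨N - 1, by omega⟩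
  have h0 : ∀ i, ξ i ≠ 0 := fun i => (hp i).ne'
  obtain ⟨K, k1, k2⟩ := hook_formula (M := M) ha.injective h0 (by omega)
  have e : (fun i : Fin (M + 1) => if i.val = 0 then a else if i.val ≤ k then 1 else 0) =
      hk M a k := by
    funext i
    refine Fin.cases rfl (fun i => ?_) i
    simp only [hk, tri, Fin.cons_succ, Fin.val_succ]
    split_ifs <;> first | contradiction | omega
  refine ⟨K, k1, fun K' h => k1.unique h, ?_⟩
  rw [e]
  obtain rfl | ⟨b, rfl⟩ : a = 1 ∨ ∃ b, a = b + 1 + 1 := by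
    rcases Nat.eq_or_lt_of_le h1 with h | h
    · exact Or.inl h.symm
    · exact Or.inr ⟨a - 2, by omega⟩
  · refine iff_of_true ?_ (Or.inl rfl)
    rw [hk_one, show k + 1 = ∑ i, ξ i by omega]
    exact ((palF_qfac _).mul (palF_AV h0)).pal fun t ht h1 => (k2 t ht h1).1
  have f : ∀ t : ℝ, 0 < t → t ≠ 1 → aeval t (K (hk M (b + 1 + 1) k)) =
      qfac t k * (2 * AV t ξ * SS t ξ (b + 1 + 1)) :=
    fun t ht h1 => (k2 t ht h1).2 _ _ (by omega) hs.symm
  refine ⟨fun ⟨m, hm⟩ => Or.inr (neg_hook ha h0 b (m - tr k) ?_), fun h =>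
    ((palF_qfac k).mul (((palF_const 2).mul (palF_AV h0)).mul ?_)).pal f⟩
  · have ht : (0 : ℝ) < 10 := by norm_num
    have h1 : (10 : ℝ) ≠ 1 := by norm_num
    have e0 := hm 10 ht
    have n1 := (qfac_pos (inv_pos.2 ht) k).ne'
    have n2 := (rl_AV ha.injective h0).1
    rw [f _ ht h1, f _ (inv_pos.2 ht) (by norm_num), AV_inv ht h1 h0, ← qfac_inv ht h1] at e0
    rw [zpow_sub₀ ht.ne', zpow_natCast, div_mul_eq_mul_div, eq_div_iff (by positivity)]
    refine mul_left_cancel₀ (mul_ne_zero n1 n2) ?_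
    linear_combination (-1 / 2 : ℝ) * e0
  · rcases h with h | h | ⟨rfl, h⟩
    · omega
    · refine palF_SS_one h0 fun i hi => ?_
      have := i.2
      exact (ha.antitone (show (⟨1, by omega⟩ : Fin l) ≤ i from by
        rw [Fin.le_def]; simp; omega)).trans_lt (h _ rfl)
    · exact pos_stair ha h0 h

end Pool.Agent.Lib.MP_2c9e21_co
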