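import Mathlib
import Pool.Agent.Lib.MP_2c9e21_co.Stair

namespace Pool.Agent.Lib.MP_2c9e21_co

open Finset

theorem pos_all {N l : ℕ} {ξ : Fin l → ℕ} (ha : StrictAnti ξ) (h0 : ∀ i, 0 < ξ i)
    (hN : ∑ i, ξ i ≤ N) {K : (Fin N → ℕ) → Polynomial ℤ} (hK : IsExp N ξ K)
    (h : l ≤ 1 ∨ (l = 2 ∧ ∃ i, ξ i = 1) ∨ List.ofFn ξ = [3, 2, 1]) :
    ∀ μ ∈ Par N (∑ i, ξ i), Pal (K μ) := by
  rcases h with h | ⟨rfl, i, hi⟩ | h
  · exact pos_row h hK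
  · refine pos_hook ?_ hK
    have := ha (show (0 : Fin 2) < 1 by decide)
    have := h0 1
    fin_cases i <;> simp at hi <;> omega
  · obtain rfl : l = 3 := by simpa using congrArg List.length h
    obtain rfl : ξ = ![3, 2, 1] := List.ofFn_injective (h.trans (by simp))
    exact pos321 hN hK

theorem main {N l : ℕ} {ξ : Fin l → ℕ} (ha : StrictAnti ξ) (h0 : ∀ i, 0 < ξ i)
    (hN : ∑ i, ξ i ≤ N) : ∃ K : (Fin N → ℕ) → Polynomial ℤ, IsExp N ξ K ∧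
      (∀ K', IsExp N ξ K' → ∀ μ ∈ Par N (∑ i, ξ i), K' μ = K μ) ∧
      ((∀ μ ∈ Par N (∑ i, ξ i), Pal (K μ)) ↔
        l ≤ 1 ∨ (l = 2 ∧ ∃ i, ξ i = 1) ∨ List.ofFn ξ = [3, 2, 1]) ∧
      (Pal (K fun i => if i.val = 0 then 2 else if i.val + 1 < ∑ j, ξ j then 1 else 0) →
        l ≤ 1 ∨ (l = 2 ∧ ∃ i, ξ i = 1) ∨ List.ofFn ξ = [3, 2, 1]) := by
  obtain ⟨K, h1, h2⟩ := neg_main ha h0 hN
  have hs : 2 ≤ l → 3 ≤ ∑ i, ξ i := fun hl => by
    obtain ⟨p, rfl⟩ : ∃ p, l = p + 1 := ⟨l - 1, by omega⟩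
    have := (sum_lower ha h0 (by omega)).1
    omega
  refine ⟨K, h1, fun K' h => h1.unique h, ⟨fun h => ?_, pos_all ha h0 hN h1⟩, fun h => ?_⟩
  · by_cases hl : l ≤ 1
    · exact Or.inl hl
    · have := hs (by omega)
      exact Or.inr (h2 (by omega) (h _ (tri_mem (by omega) (by omega))))
  · by_cases hl : l ≤ 1
    · exact Or.inl hl
    · have := hs (by omega)
      refine Or.inr (h2 (by omega) ?_)
      convert h using 2
      funext i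
      unfold tri
      split_ifs <;> omega

end Pool.Agent.Lib.MP_2c9e21_co
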