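import Mathlib
import Pool.Agent.Lib.MP_2c9e21_co.Main

namespace Pool.Agent.Lib.MP_2c9e21_co

open Finset

variable {N : ℕ}

def ct (α : Fin N → ℕ) (c : ℕ) : ℕ := ∑ j, if c ≤ α j then 1 else 0

theorem ct_mu {α β : Fin N → ℕ} (h : mu α = mu β) : ct α = ct β := by
  obtain ⟨σ, hσ⟩ := exists_sort β
  obtain ⟨τ, hτ⟩ := exists_perm_of_mu hσ (h.trans (mu_comp β σ).symm)
  funext c
  have e : ∀ (f : Fin N → ℕ) (ρ : Equiv.Perm (Fin N)), ct (f ∘ ρ) c = ct f c := fun f ρ =>
    Equiv.sum_comp ρ (fun j => if c ≤ f j then 1 else 0)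
  rw [← e α τ, hτ, e]

theorem ct_dec {α α' : Fin N → ℕ} {i : Fin N} (h1 : α i = α' i + 1)
    (h2 : ∀ j, j ≠ i → α j = α' j) (c : ℕ) : ct α c = ct α' c + if α i = c then 1 else 0 := by
  have e1 : (if α i = c then 1 else 0) = ∑ p, if p = i then (if α i = c then 1 else 0) else 0 := by
    simp
  rw [e1]
  unfold ct
  rw [← sum_add_distrib]
  refine sum_congr rfl fun p _ => ?_
  by_cases hp : p = i
  · subst hp
    simp only [if_true]
    split_ifs <;> omega
  · simp only [if_neg hp, h2 p hp, add_zero]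

theorem ct_mu0 (α : Fin N → ℕ) : N - mu α 0 = ct α 1 := by
  have : mu α 0 + ct α 1 = N := by
    refine Eq.trans ?_ (cnt (N := N) le_rfl)
    unfold mu ct
    rw [← sum_add_distrib]
    refine sum_congr rfl fun i _ => ?_
    have := i.2
    split_ifs <;> omega
  omega

theorem ct_thr {m : Fin N → ℕ} (hm : Antitone m) (c : ℕ) :
    ct m c ≤ N ∧ ∀ i : Fin N, c ≤ m i ↔ i.val < ct m c := by
  obtain ⟨s, hs, h⟩ := thr hm c
  have : ct m c = s := (sum_congr rfl fun i _ => if_congr (h i) rfl rfl).trans (cnt hs)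
  rw [this]
  exact ⟨hs, h⟩

theorem ct_mono (α : Fin N → ℕ) (c : ℕ) : ct α (c + 1) ≤ ct α c :=
  sum_le_sum fun i _ => by split_ifs <;> omega

theorem box_sum {t : ℝ} (ht : 0 < t) {n : ℕ} {m : Fin N → ℕ} (hm : m ∈ Par N (n + 1))
    (G : ℕ → ℕ → ℝ) : ∑ l ∈ Par N n, BB t m l * (t ^ nn l * G (ct l 1) (ct l 2)) =
      t ^ nn m * (qi t⁻¹ (ct m 3) * G (ct m 1) (ct m 2) +
        (qi t⁻¹ (ct m 2) - qi t⁻¹ (ct m 3)) * G (ct m 1) (ct m 2 - 1) +
        (qi t⁻¹ (ct m 1) - qi t⁻¹ (ct m 2)) * G (ct m 1 - 1) (ct m 2)) := by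
  classical
  obtain ⟨h1, h2⟩ := mem_Par.1 hm
  obtain ⟨hL, h3⟩ := ct_thr h2 1
  obtain ⟨hs, h4⟩ := ct_thr h2 2
  obtain ⟨hr, h5⟩ := ct_thr h2 3
  have e2 : ∀ σ : Fin N → Bool, (if Sup m σ ∧ ∑ i, sb m σ i = n then
      t ^ iv m (nt σ) * (t ^ nn (sb m σ) * G (ct (sb m σ) 1) (ct (sb m σ) 2)) else 0) =
      if wt σ = 1 then (if Sup m σ then t ^ iv m (nt σ) *
        (t ^ nn (sb m σ) * G (ct (sb m σ) 1) (ct (sb m σ) 2)) else 0) else 0 := by
    intro σ
    by_cases h : Sup m σ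
    · have := sum_sb h
      simp only [h, true_and, if_true]
      exact if_congr (by omega) rfl rfl
    · simp [h]
  have e3 : ∀ i : Fin N, (if Sup m (dl i) then t ^ iv m (nt (dl i)) *
      (t ^ nn (sb m (dl i)) * G (ct (sb m (dl i)) 1) (ct (sb m (dl i)) 2)) else 0) =
      t ^ nn m * ((if i.val < ct m 3 then t⁻¹ ^ i.val else 0) * G (ct m 1) (ct m 2) +
        ((if i.val < ct m 2 then t⁻¹ ^ i.val else 0) - if i.val < ct m 3 then t⁻¹ ^ i.val else 0) *
          G (ct m 1) (ct m 2 - 1) +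
        ((if i.val < ct m 1 then t⁻¹ ^ i.val else 0) - if i.val < ct m 2 then t⁻¹ ^ i.val else 0) *
          G (ct m 1 - 1) (ct m 2)) := by
    intro i
    have f0 : Sup m (dl i) ↔ 1 ≤ m i := by simp [Sup, dl, Nat.one_le_iff_ne_zero, pos_iff_ne_zero]
    have g3 := h3 i
    have g4 := h4 i
    have g5 := h5 i
    by_cases hi : 1 ≤ m i
    · have d1 : m i = sb m (dl i) i + 1 := by simp [sb, dl]; omega
      have d2 : ∀ j, j ≠ i → m j = sb m (dl i) j := fun j hj => by simp [sb, dl, hj]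
      have f1 := nn_dec d1 d2
      have c1 := ct_dec d1 d2 1
      have c2 := ct_dec d1 d2 2
      have f3 : (∑ q, if i < q ∧ m i ≤ m q then 1 else 0) = iv m (nt (dl i)) := by
        unfold iv
        symm
        rw [sum_eq_single i]
        · refine sum_congr rfl fun q _ => if_congr (Iff.symm ?_) rfl rfl
          simp only [nt, dl, decide_true, Bool.not_true, true_and, Bool.not_eq_eq_eq_not,
            decide_eq_false_iff_not]
          exact ⟨fun h => ⟨h.1, le_antisymm h.2 (h2 h.1.le), h.1.ne'⟩, fun h => ⟨h.1, h.2.1.le⟩⟩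
        · intro p _ hp
          simp [nt, dl, hp]
        · simp
      have f4 : (∑ p, if p < i ∧ m i ≤ m p then 1 else 0) = i.val := by
        refine Eq.trans (sum_congr rfl fun p _ => if_congr ?_ rfl rfl) (cnt (N := N) i.2.le)
        exact ⟨fun h => h.1, fun h => ⟨h, h2 (le_of_lt h)⟩⟩
      have f5 : t ^ i.val * t⁻¹ ^ i.val = 1 := by rw [← mul_pow, mul_inv_cancel₀ ht.ne', one_pow]
      rw [if_pos (f0.2 hi), f1, f3, f4, pow_add, pow_add]
      generalize ct (sb m (dl i)) 1 = a at c1 ⊢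
      generalize ct (sb m (dl i)) 2 = b at c2 ⊢
      by_cases h6 : m i = 1
      · rw [if_pos h6] at c1
        rw [if_neg (by omega)] at c2
        rw [if_neg (by omega), if_neg (by omega), if_pos (by omega),
          show ct m 1 - 1 = a by omega, show ct m 2 = b by omega]
        linear_combination (- t ^ iv m (nt (dl i)) * t ^ nn (sb m (dl i)) * G a b) * f5
      by_cases h7 : m i = 2
      · rw [if_neg h6] at c1
        rw [if_pos h7] at c2
        rw [if_neg (by omega), if_pos (by omega), if_pos (by omega),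
          show ct m 2 - 1 = b by omega, show ct m 1 = a by omega]
        linear_combination (- t ^ iv m (nt (dl i)) * t ^ nn (sb m (dl i)) * G a b) * f5
      · rw [if_neg h6] at c1
        rw [if_neg h7] at c2
        rw [if_pos (by omega), if_pos (by omega), if_pos (by omega),
          show ct m 2 = b by omega, show ct m 1 = a by omega]
        linear_combination (- t ^ iv m (nt (dl i)) * t ^ nn (sb m (dl i)) * G a b) * f5
    · rw [if_neg (fun h => hi (f0.1 h)), if_neg (by omega), if_neg (by omega), if_neg (by omega)]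
      ring
  rw [BB_sum t m n (c := fun l => t ^ nn l * G (ct l 1) (ct l 2))
    (fun α β h => by simp only [nn_mu h, ct_mu h]), sum_congr rfl fun σ _ => e2 σ, sum_wt_one,
    sum_congr rfl fun i _ => e3 i, ← mul_sum]
  simp only [sum_add_distrib, ← sum_mul, sum_sub_distrib, sum_qi _ hL, sum_qi _ hs, sum_qi _ hr]

noncomputable def PI (u : ℝ) (L : ℕ) : ℝ := ∏ k ∈ range L, (1 + u ^ k)

noncomputable def G1 (u : ℝ) (L s : ℕ) : ℝ :=
  qi u s * PI u L + (qi u L - qi u s) * PI u (L - 1) - PI u L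

noncomputable def G2 (u : ℝ) (L s r : ℕ) : ℝ :=
  qi u r * G1 u L s + (qi u s - qi u r) * G1 u L (s - 1) + (qi u L - qi u s) * G1 u (L - 1) s -
    G1 u L s

theorem D_eq {t : ℝ} (ht : 0 < t) {n : ℕ} {m : Fin N → ℕ} (hm : m ∈ Par N (n + 1)) :
    ∑ l ∈ Par N n, BB t m l * cc t l - cc t m = t ^ nn m * G1 t⁻¹ (ct m 1) (ct m 2) := by
  have h := box_sum ht hm (fun L _ => PI t⁻¹ L)
  have e : ∀ l : Fin N → ℕ, cc t l = t ^ nn l * PI t⁻¹ (ct l 1) := fun l => by
    rw [cc, ct_mu0]; rfl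
  simp only [e]
  unfold G1
  linear_combination h

theorem qq_two (x : Fin N → ℝ) : qq x 2 = 2 * (ee x 1 * ee x 1) := by
  have h := qq_rec x (0 + 1 + 1)
  rw [Nat.sum_antidiagonal_succ, Nat.sum_antidiagonal_succ] at h
  simp only [Nat.antidiagonal_zero, sum_singleton, ee_zero, qq_zero, zero_add, qq_one,
    Nat.reduceAdd] at h
  linear_combination h

theorem two_coef {p : ℕ} {K : (Fin N → ℕ) → Polynomial ℤ} (hK : IsExp N ![p, 2] K)
    {m : Fin N → ℕ} (hm : m ∈ Par N (p + 2)) {t : ℝ} (ht : 0 < t) :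
    Polynomial.aeval t (K m) = 2 * t ^ nn m * G2 t⁻¹ (ct m 1) (ct m 2) (ct m 3) := by
  unfold IsExp at hK
  have hs : ∑ i, (![p, 2] : Fin 2 → ℕ) i = p + 1 + 1 := by simp [Fin.sum_univ_two]
  rw [hs] at hK
  have h : ∀ x : Fin N → ℝ, SQ x 2 ![p, 2] = 2 * (ee x 1 * (ee x 1 * qq x p - qq x (p + 1)) -
      (ee x 1 * qq x (p + 1) - qq x (p + 1 + 1))) := fun x => by
    have : SQ x 2 ![p, 2] = Q2 x p 2 := by simp [SQ]
    rw [this]
    simp [Q2, qq_zero, qq_one, qq_two, sum_range_succ]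
    ring
  have e := coef_unique ht (c := fun μ => Polynomial.aeval t (K μ))
    (c' := fun m => 2 * (∑ l ∈ Par N (p + 1), BB t m l * (t ^ nn l * G1 t⁻¹ (ct l 1) (ct l 2)) -
      t ^ nn m * G1 t⁻¹ (ct m 1) (ct m 2)))
    (fun x hx => by
      have a : ∀ n, ee x 1 * qq x n - qq x (n + 1) = ∑ l ∈ Par N (n + 1),
          (t ^ nn l * G1 t⁻¹ (ct l 1) (ct l 2)) * HLP t l x := fun n => by
        rw [qq_exp ht hx, qq_exp ht hx, exp_ee ht, ← sum_sub_distrib]
        exact sum_congr rfl fun l hl => by rw [← D_eq ht hl]; ring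
      rw [← hK t ht x hx, h, a, a, exp_ee ht, ← sum_sub_distrib, mul_sum]
      exact sum_congr rfl fun m _ => by ring) m hm
  rw [e, box_sum ht hm]
  unfold G2
  ring

noncomputable def RR (u : ℝ) (A s r : ℕ) : ℝ :=
  u ^ 2 + u ^ (A + 2) - u ^ (A + 3) - u ^ (A + s + 1) - u ^ (A + s + 2) - u ^ (A + s + r) +
    u ^ (A + s + r + 1) - u ^ (2 * A + s + r) + u ^ (2 * A + s + r + 1) + u ^ (2 * A + 2 * s)

theorem two_R {u : ℝ} (h1 : u ≠ 1) (A : ℕ) {s r : ℕ} (h : r ≤ s) :
    G2 u (A + 2) s r = PI u A * ((1 - u) ^ 2)⁻¹ * RR u A s r := by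
  have h2 : 1 - u ≠ 0 := sub_ne_zero.2 h1.symm
  have q : ∀ n, qi u n = (1 - u ^ n) / (1 - u) := fun n => by
    rw [eq_div_iff h2, mul_comm, qi_mul]
  have p : ∀ n, PI u (n + 1) = PI u n * (1 + u ^ n) := fun n => prod_range_succ _ _
  unfold G2 G1 RR
  simp only [show A + 2 - 1 = A + 1 from rfl, Nat.add_sub_cancel, q, p]
  cases s with
  | zero =>
    obtain rfl : r = 0 := by omega
    field_simp
    ring
  | succ s =>
    rw [Nat.add_sub_cancel]
    field_simp
    ring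

end Pool.Agent.Lib.MP_2c9e21_co
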