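import Mathlib
import Pool.Agent.Lib.MP_2c9e21_co.Abs
import Pool.Agent.Lib.MP_2c9e21_co.Two
import Pool.Agent.Lib.MP_2c9e21_co.HkForm

namespace Pool.Agent.Lib.MP_2c9e21_co

open Finset PowerSeries

variable {N : ℕ}

def Reg (b s j : ℕ) (α : Fin N → ℕ) : Prop := ct α 1 = b + j ∧ b ≤ ct α (s + 1) ∧ ct α 2 ≤ b

def Nice (t : ℝ) (b s d : ℕ) (f : (Fin N → ℝ) → ℝ) (Γ : ℝ⟦X⟧) : Prop :=
  ∃ c : (Fin N → ℕ) → ℝ, (∀ x, Function.Injective x → f x = ∑ μ ∈ Par N d, c μ * HLP t μ x) ∧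
    ∀ μ ∈ Par N d, ∀ j, Reg b s j μ → c μ = t ^ nn μ * (qfac t⁻¹ j * coeff j Γ)

theorem ct_le {α β : Fin N → ℕ} {c c' : ℕ} (h : ∀ i, c ≤ α i → c' ≤ β i) : ct α c ≤ ct β c' :=
  sum_le_sum fun i _ => by have := h i; split_ifs <;> omega

section
variable {t : ℝ} {b s d : ℕ} {f f' : (Fin N → ℝ) → ℝ} {Γ Γ' : ℝ⟦X⟧}

theorem Nice.congr {s' d' : ℕ} (h : Nice t b s d f Γ) (hs : s ≤ s') (hd : d = d')
    (hf : ∀ x, f' x = f x) (hΓ : Γ' = Γ) : Nice t b s' d' f' Γ' := by
  obtain ⟨c, h1, h2⟩ := h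
  subst hd hΓ
  exact ⟨c, fun x hx => (hf x).trans (h1 x hx), fun μ hμ j hj =>
    h2 μ hμ j ⟨hj.1, hj.2.1.trans (ct_le fun i => by omega), hj.2.2⟩⟩

theorem Nice.lin (h : Nice t b s d f Γ) (h' : Nice t b s d f' Γ') (a : ℝ) :
    Nice t b s d (fun x => a * f x + f' x) (a • Γ + Γ') := by
  obtain ⟨c, h1, h2⟩ := h
  obtain ⟨c', h1', h2'⟩ := h'
  refine ⟨fun μ => a * c μ + c' μ, fun x hx => ?_, fun μ hμ j hj => ?_⟩
  · simp only [h1 x hx, h1' x hx, mul_sum, ← sum_add_distrib]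
    exact sum_congr rfl fun μ _ => by ring
  · simp only [h2 μ hμ j hj, h2' μ hμ j hj, map_add, map_smul, smul_eq_mul]
    ring

theorem nice_zero : Nice (N := N) t b s d (fun _ => 0) 0 :=
  ⟨fun _ => 0, fun _ _ => by simp, fun _ _ _ _ => by simp⟩

end

noncomputable def G0 (u : ℝ) (b : ℕ) : ℝ⟦X⟧ := mk fun k => PI u (b + k) / qfac u k

theorem nice_q {t : ℝ} (ht : 0 < t) (b m : ℕ) :
    Nice (N := N) t b 0 m (fun x => qq x m) (G0 t⁻¹ b) := by
  refine ⟨cc t, fun x hx => qq_exp ht hx m, fun μ _ j hj => ?_⟩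
  rw [cc, ct_mu0, hj.1, G0, coeff_mk, mul_div_cancel₀ _ (qfac_pos (inv_pos.2 ht) j).ne']
  rfl

theorem nn_sb {m : Fin N → ℕ} (hm : Antitone m) {σ : Fin N → Bool} (h : Sup m σ) :
    nn m = nn (sb m σ) + iv m (nt σ) + ∑ j, j.val * (σ j).toNat := by
  have e : ∑ j : Fin N, j.val * (σ j).toNat = ∑ i : Fin N, ∑ j : Fin N,
      if i < j then (σ j).toNat else 0 := by
    rw [sum_comm]
    refine sum_congr rfl fun j _ => ?_
    rw [← cnt (N := N) j.2.le, sum_mul]
    exact sum_congr rfl fun i _ => by simp only [Fin.lt_def, ite_mul, one_mul, zero_mul]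
  rw [e]
  unfold nn iv
  simp only [← sum_add_distrib]
  refine sum_congr rfl fun i _ => sum_congr rfl fun j _ => ?_
  by_cases hij : i < j
  · have a1 := hm hij.le
    have a2 := h i
    have a3 := h j
    simp only [hij, if_true, true_and, sb, nt]
    cases h1 : σ i <;> cases h2 : σ j <;> simp [h1, h2] at a2 a3 ⊢ <;> (try split_ifs) <;> omega
  · simp [hij]

theorem coeff_pr {R : Type} [CommRing R] (w : Fin N → R) (r : ℕ) :
    coeff r (∏ i, (1 + C (w i) * X)) =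
      ∑ σ : Fin N → Bool, if wt σ = r then ∏ i, w i ^ (σ i).toNat else 0 := by
  have : ∀ i, (1 + C (w i) * X : R⟦X⟧) = ∑ β : Bool, (C (w i) * X) ^ β.toNat := fun i => by
    simp [add_comm]
  simp only [this]
  rw [prod_univ_sum, Fintype.piFinset_univ, map_sum]
  refine sum_congr rfl fun σ _ => ?_
  simp only [mul_pow, prod_mul_distrib, prod_pow_eq_pow_sum, ← map_pow, ← map_prod, coeff_C_mul,
    coeff_X_pow, wt, mul_ite, mul_one, mul_zero, eq_comm]

noncomputable def bet (t : ℝ) (k j : ℕ) : ℝ :=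
  if j ≤ k then qfac t⁻¹ k / (qfac t j * qfac t⁻¹ (k - j)) else 0

theorem bet_succ {t : ℝ} (ht : 0 < t) (h1 : t ≠ 1) (k j : ℕ) :
    bet t (k + 1) (j + 1) = bet t k (j + 1) + t⁻¹ ^ k * bet t k j := by
  have hu := inv_pos.2 ht
  have p1 := (qfac_pos ht j).ne'
  have p2 := (qi_pos hu j).ne'
  unfold bet
  rcases lt_trichotomy j k with h | rfl | h
  · obtain ⟨e, rfl⟩ : ∃ e, k = j + 1 + e := ⟨k - (j + 1), by omega⟩
    have p3 := (qfac_pos hu e).ne'
    have p4 := (qi_pos hu e).ne'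
    rw [if_pos (by omega), if_pos (by omega), if_pos (by omega), Nat.add_sub_cancel_left,
      show j + 1 + e + 1 - (j + 1) = e + 1 by omega, show j + 1 + e - j = e + 1 by omega,
      qfac_succ t, qfac_succ _ e, qfac_succ _ (j + 1 + e), ← qi_inv ht h1,
      show j + 1 + e + 1 = e + 1 + (j + 1) by omega, qi_add _ (e + 1)]
    generalize qi t⁻¹ (j + 1) = A at p2 ⊢
    generalize qi t⁻¹ (e + 1) = B at p4 ⊢
    generalize qfac t⁻¹ (j + 1 + e) = D
    simp only [inv_pow]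
    field_simp
    ring
  · rw [if_pos le_rfl, if_neg (by omega), if_pos le_rfl, Nat.sub_self, Nat.sub_self, qfac_zero,
      qfac_succ t, qfac_succ, ← qi_inv ht h1]
    generalize qi t⁻¹ (j + 1) = A at p2 ⊢
    simp only [inv_pow]
    field_simp
    ring
  · rw [if_neg (by omega), if_neg (by omega), if_neg (by omega)]
    ring

theorem qbin {t : ℝ} (ht : 0 < t) (h1 : t ≠ 1) (Y : ℝ⟦X⟧) (k : ℕ) :
    ∏ i ∈ range k, (1 + C (C (t⁻¹ ^ i) * Y) * X) = mk fun j => C (bet t k j) * Y ^ j := by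
  have z : ∀ k, bet t k 0 = 1 := fun k => by
    simp [bet, qfac_zero, (qfac_pos (inv_pos.2 ht) k).ne']
  induction k with
  | zero =>
    ext1 j
    cases j with
    | zero => simp [z]
    | succ j => simp [bet, coeff_one]
  | succ k ih =>
    rw [prod_range_succ, ih, mul_comm]
    ext1 j
    cases j with
    | zero => simp [z]
    | succ j =>
      rw [add_mul, one_mul, mul_assoc, map_add, coeff_C_mul, coeff_succ_X_mul, coeff_mk, coeff_mk,
        coeff_mk, bet_succ ht h1, map_add, map_mul]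
      ring

noncomputable def EB (u : ℝ) (b : ℕ) : ℝ⟦X⟧⟦X⟧ := ∏ i ∈ range b, (1 + C (C (u ^ i)) * X)

noncomputable def EX (t : ℝ) (Y : ℝ⟦X⟧) (j : ℕ) : ℝ⟦X⟧ := C (qfac t j)⁻¹ * Y ^ j

noncomputable def eps (t : ℝ) (b r : ℕ) : ℝ⟦X⟧ :=
  coeff r (EB t⁻¹ b * mk (EX t (C (t⁻¹ ^ b) * X)))

theorem EB_C (u : ℝ) (b r : ℕ) : ∃ a, coeff r (EB u b) = C a :=
  ⟨coeff r (∏ i ∈ range b, (1 + C (u ^ i) * X)), by
    rw [← coeff_map, map_prod]
    simp [EB]⟩

theorem Nice.e {t : ℝ} (ht : 0 < t) (h1 : t ≠ 1) {b s d : ℕ} {f : (Fin N → ℝ) → ℝ} {Γ : ℝ⟦X⟧}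
    (h : Nice t b s d f Γ) (r : ℕ) :
    Nice t b (s + 1) (d + r) (fun x => ee x r * f x) (eps t b r * Γ) := by
  classical
  obtain ⟨c, c1, c2⟩ := h
  refine ⟨fun m => ∑ l ∈ Par N d, BB t m l * c l, fun x hx => by
    simp only [c1 x hx, exp_ee ht], fun m hm k hk => ?_⟩
  obtain ⟨m1, m2⟩ := mem_Par.1 hm
  obtain ⟨k1, k2, k3⟩ := hk
  obtain ⟨b1, a1⟩ := ct_thr m2 1
  obtain ⟨-, a2⟩ := ct_thr m2 2
  have k4 : ct m 2 = b := le_antisymm k3 (k2.trans (ct_le fun i => by omega))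
  rw [k1] at a1 b1
  rw [k4] at a2
  set g : ℕ → ℝ := fun j => qfac t⁻¹ j * coeff j Γ with hg
  have r1 : ∀ σ, b ≤ ct (sb m σ) (s + 1) := fun σ => k2.trans (ct_le fun i => by
    have := Bool.toNat_le (σ i)
    simp only [sb]
    omega)
  have r2 : ∀ σ, b ≤ ct (sb m σ) 1 := fun σ => (r1 σ).trans (ct_le fun i => by omega)
  have e1 : ∀ l ∈ Par N d, BB t m l * c l = BB t m l * (t ^ nn l * g (ct l 1 - b)) := fun l hl => by
    by_cases hB : ∃ σ, Sup m σ ∧ mu (sb m σ) = mu l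
    · obtain ⟨σ, -, hσ⟩ := hB
      rw [c2 l hl (ct l 1 - b) ⟨?_, ?_, ?_⟩]
      · have := r2 σ
        rw [ct_mu hσ] at this
        omega
      · rw [← ct_mu hσ]
        exact r1 σ
      · rw [← ct_mu hσ]
        exact (ct_le fun i => by simp only [sb]; omega).trans k3
    · rw [BB, sum_eq_zero fun σ _ => if_neg fun h => hB ⟨σ, h⟩, zero_mul, zero_mul]
  let W : ℕ → ℝ⟦X⟧ := fun n =>
    if n < b then C (t⁻¹ ^ n) else if n < b + k then C (t⁻¹ ^ n) * X else 0
  have e2 : ∀ σ : Fin N → Bool, (if Sup m σ ∧ ∑ i, sb m σ i = d then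
      t ^ iv m (nt σ) * (t ^ nn (sb m σ) * g (ct (sb m σ) 1 - b)) else 0) =
      t ^ nn m * coeff k (mk g * if wt σ = r then ∏ i, W i.val ^ (σ i).toNat else 0) := by
    intro σ
    by_cases hs : Sup m σ
    · have s1 := sum_sb hs
      by_cases hw : wt σ = r
      · have s2 : ∏ i, W i.val ^ (σ i).toNat =
            C (t⁻¹ ^ ∑ j, j.val * (σ j).toNat) * X ^ cn m σ 1 := by
          rw [cn, ← prod_pow_eq_pow_sum, ← prod_pow_eq_pow_sum, map_prod, ← prod_mul_distrib]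
          refine prod_congr rfl fun i _ => ?_
          have := a1 i
          have := a2 i
          have := hs i
          cases hi : σ i
          · simp
          · have := hs i hi
            simp only [W, Bool.toNat_true, pow_one, mul_one, and_true]
            split_ifs <;> first | omega | simp
        have s3 : ct m 1 = ct (sb m σ) 1 + cn m σ 1 := by
          unfold ct cn sb
          rw [← sum_add_distrib]
          refine sum_congr rfl fun i _ => ?_
          cases hi : σ i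
          · simp
          · simp only [Bool.toNat_true, and_true]
            split_ifs <;> omega
        have := r2 σ
        have f5 : t ^ (∑ j, j.val * (σ j).toNat) * t⁻¹ ^ (∑ j, j.val * (σ j).toNat) = 1 := by
          rw [← mul_pow, mul_inv_cancel₀ ht.ne', one_pow]
        rw [if_pos ⟨hs, by omega⟩, if_pos hw, s2, mul_left_comm (mk g), coeff_C_mul,
          coeff_mul_X_pow', if_pos (by omega), coeff_mk, nn_sb m2 hs, pow_add, pow_add,
          show k - cn m σ 1 = ct (sb m σ) 1 - b by omega]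
        linear_combination (- t ^ iv m (nt σ) * t ^ nn (sb m σ) * g (ct (sb m σ) 1 - b)) * f5
      · rw [if_neg fun h => hw (by omega), if_neg hw]
        simp
    · rw [if_neg fun h => hs h.1]
      unfold Sup at hs
      push Not at hs
      obtain ⟨i, i1, i2⟩ := hs
      have := a1 i
      have := a2 i
      rw [prod_eq_zero (mem_univ i) (by
        simp only [W, i1, Bool.toNat_true, pow_one]
        rw [if_neg (by omega), if_neg (by omega)])]
      simp
  have e3 : ∏ i : Fin N, (1 + C (W i.val) * X) =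
      EB t⁻¹ b * mk fun j => C (bet t k j) * (C (t⁻¹ ^ b) * X) ^ j := by
    obtain ⟨n, hn⟩ : ∃ n, N = b + k + n := ⟨N - (b + k), by omega⟩
    rw [Fin.prod_univ_eq_prod_range (fun n => 1 + C (W n) * X) N, ← qbin ht h1, hn, prod_range_add,
      prod_range_add, prod_eq_one (s := range n) fun i _ => by
        simp only [W]
        rw [if_neg (by omega), if_neg (by omega)]
        simp, mul_one, EB]
    congr 1 <;> refine prod_congr rfl fun i hi => ?_ <;> have := mem_range.1 hi <;> simp only [W]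
    · rw [if_pos this]
    · rw [if_neg (by omega), if_pos (by omega), pow_add, map_mul (C : ℝ →+* ℝ⟦X⟧)]
      congr 3
      ring
  simp only
  rw [sum_congr rfl e1, BB_sum t m d (c := fun l => t ^ nn l * g (ct l 1 - b))
    (fun α β h => by simp only [nn_mu h, ct_mu h]), sum_congr rfl fun σ _ => e2 σ, ← mul_sum,
    ← map_sum, ← mul_sum, ← coeff_pr, e3, eps, coeff_mul r, coeff_mul r, mul_sum, sum_mul, map_sum,
    map_sum, mul_sum (antidiagonal r) _ (qfac t⁻¹ k)]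
  congr 1
  refine sum_congr rfl fun p _ => ?_
  obtain ⟨a, ha⟩ := EB_C t⁻¹ b p.1
  rw [ha, coeff_mk, coeff_mk, EX, mul_pow, ← map_pow,
    show PowerSeries.mk g * (C a * (C (bet t k p.2) * (C ((t⁻¹ ^ b) ^ p.2) * X ^ p.2))) =
      C (a * bet t k p.2 * (t⁻¹ ^ b) ^ p.2) * (PowerSeries.mk g * X ^ p.2) by simp only [map_mul]; ring,
    show C a * (C (qfac t p.2)⁻¹ * (C ((t⁻¹ ^ b) ^ p.2) * X ^ p.2)) * Γ =
      C (a * (qfac t p.2)⁻¹ * (t⁻¹ ^ b) ^ p.2) * (Γ * X ^ p.2) by simp only [map_mul]; ring,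
    coeff_C_mul, coeff_C_mul, coeff_mul_X_pow', coeff_mul_X_pow', bet]
  split_ifs
  · have := (qfac_pos (inv_pos.2 ht) (k - p.2)).ne'
    have := (qfac_pos ht p.2).ne'
    rw [coeff_mk]
    simp only [hg]
    generalize qfac t⁻¹ (k - p.2) = A at *
    generalize (t⁻¹ ^ b) ^ p.2 = B
    field_simp
  · simp

end Pool.Agent.Lib.MP_2c9e21_co
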