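import Mathlib
import Pool.Agent.Lib.MP_2c9e21_co.Nice

namespace Pool.Agent.Lib.MP_2c9e21_co

open Finset PowerSeries

variable {N : ℕ}

theorem eps_zero (t : ℝ) (b : ℕ) : eps t b 0 = 1 := by
  simp [eps, EB, EX, qfac_zero, map_prod]

noncomputable def rh (t : ℝ) (b : ℕ) : AR →ₐ[ℝ] ℝ⟦X⟧ := MvPolynomial.aeval fun i => eps t b (i + 1)

noncomputable def ev (x : Fin N → ℝ) : AR →ₐ[ℝ] ℝ := MvPolynomial.aeval fun i => ee x (i + 1)

theorem rh_eA (t : ℝ) (b r : ℕ) : rh t b (eA r) = eps t b r := by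
  cases r with
  | zero => rw [eps_zero, eA, map_one]
  | succ r => exact MvPolynomial.aeval_X _ _

theorem ev_eA (x : Fin N → ℝ) (r : ℕ) : ev x (eA r) = ee x r := by
  cases r with
  | zero => rw [ee_zero, eA, map_one]
  | succ r => exact MvPolynomial.aeval_X _ _

theorem ev_qA (x : Fin N → ℝ) (r : ℕ) : ev x (qA r) = qq x r := by
  have h := qA_spec.map (ev x : AR →+* ℝ)
  simp only [RingHom.coe_coe, ev_eA] at h
  exact h.uniq (qq_rec x) (ee_zero x) r

def Op (N : ℕ) (t : ℝ) (b s w : ℕ) (p : Polynomial AR) : Prop :=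
  ∀ r, Nice (N := N) t b s (r + w) (fun x => ev x (Lam qA r p))
    (rh t b (p.eval (-1)) * G0 t⁻¹ b)

theorem op_mono {t : ℝ} (ht : 0 < t) (h1 : t ≠ 1) (b : ℕ) (α : ℕ →₀ ℕ) :
    Op N t b (dg α) (Finsupp.weight (fun i : ℕ => i + 1) α) (sg (MvPolynomial.monomial α 1)) := by
  induction α using mono_ind with
  | h0 =>
    intro r
    refine (nice_q ht b r).congr (Nat.zero_le _) (by simp) (fun x => ?_) (by simp)
    rw [MvPolynomial.monomial_zero', MvPolynomial.C_1, map_one, ← Polynomial.C_1, Lam_C, mul_one,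
      ev_qA]
  | h1 i α ih =>
    intro r
    rw [mono_step, map_mul, sg_eA, dg_add, dg_single, map_add, Finsupp.weight_single]
    refine ((((ih (r + 1)).e ht h1 i).congr le_rfl (by omega) (fun _ => rfl) rfl).lin
      ((ih r).e ht h1 (i + 1)) (-1)).congr (by omega) (by simp only [smul_eq_mul]; omega)
      (fun x => ?_) ?_
    · rw [add_mul, mul_assoc, map_add, Lam_X, Lam_C_mul, Lam_C_mul]
      simp only [map_add, map_neg, map_mul, ev_eA]
      ring
    · simp only [Polynomial.eval_mul, Polynomial.eval_add, Polynomial.eval_C, Polynomial.eval_X,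
        map_add, map_neg, map_mul, map_one, rh_eA, neg_smul, one_smul]
      ring

theorem op_all {t : ℝ} (ht : 0 < t) (h1 : t ≠ 1) (b : ℕ) {s w : ℕ} {Φ : AR} (hw : Φ ∈ WH w)
    (hs : (sg Φ).natDegree ≤ s) : Op N t b s w (sg Φ) := by
  have h : ∀ T : Finset (ℕ →₀ ℕ), T ⊆ Φ.support →
      Op N t b s w (sg (∑ γ ∈ T, Φ.coeff γ • MvPolynomial.monomial γ 1)) := by
    intro T
    induction T using Finset.induction_on with
    | empty => exact fun _ r => nice_zero.congr le_rfl rfl (by simp) (by simp)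
    | insert γ T hγ ih =>
      intro hT r
      have g := hT (mem_insert_self _ _)
      refine (((op_mono ht h1 b γ r).congr ((tdeg_le g).trans hs)
        (congrArg (r + ·) (hw (MvPolynomial.mem_support_iff.1 g))) (fun _ => rfl) rfl).lin
        (ih ((subset_insert _ _).trans hT) r) (Φ.coeff γ)).congr le_rfl rfl (fun x => ?_) ?_
      · rw [sum_insert hγ, map_add, map_add, map_add, map_smul, LinearMap.map_smul_of_tower,
          map_smul, smul_eq_mul]
      · rw [sum_insert hγ, map_add, map_smul, Polynomial.eval_add, Polynomial.eval_smul, map_add,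
          map_smul, add_mul, smul_mul_assoc]
  have := h _ Subset.rfl
  simp only [MvPolynomial.smul_monomial, smul_eq_mul, mul_one] at this
  rwa [← Φ.as_sum] at this

noncomputable def psi (t : ℝ) (b : ℕ) : AR →+* ℝ⟦X⟧ :=
  (rh t b : AR →+* ℝ⟦X⟧).comp ((Polynomial.evalRingHom (-1)).comp (sg : AR →+* Polynomial AR))

theorem nice_SL {t : ℝ} (ht : 0 < t) (h1 : t ≠ 1) (b : ℕ) {s : ℕ} (r : ℕ) {l : List ℕ}
    (hl : ∀ r ∈ l, r ≤ s) : Nice (N := N) t b s (r + l.sum) (fun x => SL (qq x) (r :: l))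
      (SL (fun n => psi t b (qA n)) l * G0 t⁻¹ b) := by
  refine (op_all ht h1 b (WH_SL l) ((sg_split l).1 s hl) r).congr le_rfl rfl (fun x => ?_) ?_
  · rw [← (sg_split l).2, (SL_map (ev x : AR →+* ℝ) 1 (q := qA) fun r => by simp [ev_qA]).2]
    simp
  · rw [(SL_map (psi t b) 1 (q := qA) fun r => by simp).2]
    simp [psi]

theorem rs_lin {R : Type} [CommRing R] (a z : R) :
    rescale a (1 + C z * X) = 1 + C (a * z) * X := by
  have c : rescale a (C z) = C z := by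
    ext n
    cases n <;> simp [coeff_C]
  rw [map_add, map_one, map_mul, c, rescale_X, map_mul]
  ring

noncomputable def LL1 (z : ℝ) : ℝ⟦X⟧⟦X⟧ := 1 + C (C z) * X

theorem unit_L (z : ℝ) : IsUnit (LL1 z) := isUnit_iff_constantCoeff.2 (by simp [LL1])

theorem char_psi {t : ℝ} (ht : 0 < t) (b : ℕ) :
    LL1 1 * PowerSeries.mk (fun n => psi t b (qA n)) * ∏ i ∈ range b, LL1 (-1 * t⁻¹ ^ i) =
      LL1 (-1) * (∏ i ∈ range b, LL1 (1 * t⁻¹ ^ i)) *
        PowerSeries.mk fun n => C (aq t n) * (C (t⁻¹ ^ b) * X) ^ n := by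
  have q1 := qA_spec.map (rh t b : AR →+* ℝ⟦X⟧)
  have a := add_var (-1 : ℝ⟦X⟧) (by simp [eA]) (by simp [eA])
    (fun n => by simp [psi, sg_eA]) q1 (qA_spec.map (psi t b))
  simp only [RingHom.coe_coe, rh_eA] at q1 a
  have q2 : QE (EX t (C (t⁻¹ ^ b) * X)) fun n => C (aq t n) * (C (t⁻¹ ^ b) * X) ^ n := fun r => by
    rw [EX, ← Fsum ht r, map_sum, sum_mul]
    refine sum_congr rfl fun p hp => ?_
    rw [← mem_antidiagonal.1 hp, EX]
    simp only [map_mul, map_pow, map_neg, map_one]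
    ring
  have u := unit_neg (e := EX t (C (t⁻¹ ^ b) * X)) (by simp [EX, qfac_zero])
  have g : ∀ e : ℕ → ℝ⟦X⟧, (PowerSeries.mk fun n => (-1) ^ n * e n) =
      rescale (-1) (PowerSeries.mk e) := fun e => by ext1 n; simp
  have e : PowerSeries.mk (eps t b) = EB t⁻¹ b * PowerSeries.mk (EX t (C (t⁻¹ ^ b) * X)) := by
    ext1 n
    simp [eps]
  rw [QE_iff] at q1 q2
  rw [g, e, map_mul, ← g, EB, map_prod] at q1
  simp only [rs_lin] at q1
  refine u.mul_left_cancel ?_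
  simp only [LL1, map_mul (C : ℝ →+* ℝ⟦X⟧), map_neg, map_one, one_mul] at a q1 ⊢
  linear_combination ((PowerSeries.mk fun n => (-1) ^ n * EX t (C (t⁻¹ ^ b) * X) n) *
    ∏ i ∈ range b, (1 + C (-1 * C (t⁻¹ ^ i)) * X)) * a + (1 - X) * q1 -
    (1 - X) * (∏ i ∈ range b, (1 + C (C (t⁻¹ ^ i)) * X)) * q2

theorem psi_inv {t : ℝ} (ht : 0 < t) (h1 : t ≠ 1) (b n : ℕ) :
    psi t⁻¹ b (qA n) = C (t ^ b) ^ n * rescale (t ^ b) (psi t b (qA n)) := by
  let Φ : ℝ⟦X⟧⟦X⟧ →+* ℝ⟦X⟧⟦X⟧ := (rescale (C (t ^ b))).comp (PowerSeries.map (rescale (t ^ b)))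
  have c : ∀ z : ℝ, rescale (t ^ b) (C z) = C z := fun z => by
    ext n
    cases n <;> simp [coeff_C]
  have f1 : ∀ z, Φ (LL1 z) = LL1 (z * t ^ b) := fun z => by
    simp only [Φ, LL1, RingHom.comp_apply, map_add (PowerSeries.map _), map_one,
      map_mul (PowerSeries.map _), map_C, map_X, c, rs_lin]
    rw [← map_mul, mul_comm z]
  have f2 : ∀ f : ℕ → ℝ⟦X⟧, Φ (PowerSeries.mk f) =
      PowerSeries.mk fun n => C (t ^ b) ^ n * rescale (t ^ b) (f n) := fun f => by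
    ext1 n
    simp [Φ]
  have hb : t⁻¹ ^ b * t ^ b = 1 := by rw [← mul_pow, inv_mul_cancel₀ ht.ne', one_pow]
  have i : ∀ ε : ℝ, LL1 (ε * t ^ b) * ∏ i ∈ range b, LL1 (ε * t ^ i) =
      LL1 ε * ∏ i ∈ range b, LL1 (ε * t⁻¹ ^ i * t ^ b) := fun ε => by
    rw [mul_comm, ← prod_range_succ (fun i => LL1 (ε * t ^ i)), prod_range_succ', pow_zero, mul_one,
      mul_comm, ← prod_range_reflect]
    congr 1
    refine prod_congr rfl fun j hj => ?_
    have := mem_range.1 hj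
    rw [show t ^ b = t ^ j * t ^ (b - 1 - j + 1) by rw [← pow_add]; congr 1; omega, inv_pow]
    congr 1
    field_simp
  have k1 := congrArg Φ (char_psi ht b)
  have k2 := char_psi (inv_pos.2 ht) b
  simp only [map_mul Φ, map_prod Φ, f1, f2] at k1
  have th : (fun n => C (t ^ b) ^ n * rescale (t ^ b) (C (aq t n) * (C (t⁻¹ ^ b) * X) ^ n)) =
      fun n => C (aq t n) * (C (t ^ b) * X : ℝ⟦X⟧) ^ n := by
    funext n
    rw [map_mul, map_pow (rescale _), map_mul, c, c, rescale_X, ← mul_assoc (C _) (C _), ← map_mul,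
      hb, map_one]
    ring
  rw [th] at k1
  simp only [inv_inv, aq_inv ht h1] at k2
  have u := ((unit_L (1 * t ^ b)).mul ((unit_L 1).mul (unit_L (-1)))).mul
    (IsUnit.prod_iff.2 fun i (_ : i ∈ range b) => unit_L (-1 * t⁻¹ ^ i * t ^ b))
  have k : PowerSeries.mk (fun n => C (t ^ b) ^ n * rescale (t ^ b) (psi t b (qA n))) =
      PowerSeries.mk fun n => psi t⁻¹ b (qA n) := u.mul_left_cancel (by
    linear_combination LL1 1 * LL1 (-1) * k1 - LL1 (-1) * LL1 (-1 * t ^ b) *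
      (PowerSeries.mk fun n => C (aq t n) * (C (t ^ b) * X : ℝ⟦X⟧) ^ n) * i 1 +
      LL1 (1 * t ^ b) * LL1 1 * (PowerSeries.mk fun n => psi t⁻¹ b (qA n)) * i (-1) -
      LL1 (1 * t ^ b) * LL1 (-1 * t ^ b) * k2)
  simpa only [coeff_mk] using (congrArg (coeff n) k).symm

theorem G0_inv {t : ℝ} (ht : 0 < t) (h1 : t ≠ 1) (b : ℕ) :
    G0 t b = C (t ^ tr b) * rescale (t ^ b) (G0 t⁻¹ b) := by
  have p : ∀ n, PI t n = PI t⁻¹ n * t ^ tr n := fun n => by
    rw [PI, ← prod_congr rfl fun i _ => one_add_inv ht i, prod_mul_distrib, prod_pow_eq_pow_sum]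
    rfl
  have r : ∀ k, tr (b + k) = tr b + b * k + tr k := fun k => by
    rw [tr, tr, tr, sum_range_add, sum_add_distrib, sum_const, card_range, smul_eq_mul]
    ring
  ext k
  have := (qfac_pos (inv_pos.2 ht) k).ne'
  rw [coeff_C_mul, coeff_rescale, G0, G0, coeff_mk, coeff_mk, p, r, ← qfac_inv ht h1]
  field_simp
  ring

theorem palF_long (b k : ℕ) (l : List ℕ) :
    PalF fun t => qfac t⁻¹ k * coeff k (SL (fun n => psi t b (qA n)) l * G0 t⁻¹ b) := by
  refine ⟨-(tr k + (b * l.sum + tr b + b * k) : ℕ), fun t ht h1 => ?_⟩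
  simp only [inv_inv]
  rw [(SL_map (rescale (t ^ b)) (C (t ^ b)) (psi_inv ht h1 b)).2, G0_inv ht h1, mul_mul_mul_comm,
    ← map_mul (rescale _), ← map_pow, ← map_mul, coeff_C_mul, coeff_rescale, ← qfac_inv ht h1,
    zpow_neg, zpow_natCast]
  field_simp
  ring

theorem long_main {l : ℕ} {ξ : Fin l → ℕ} (ha : StrictAnti ξ) (h0 : ∀ i, 0 < ξ i)
    (hN : ∑ i, ξ i ≤ N) : ∃ K : (Fin N → ℕ) → Polynomial ℤ, IsExp N ξ K ∧
      (∀ K', IsExp N ξ K' → ∀ μ ∈ Par N (∑ i, ξ i), K' μ = K μ) ∧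
      ∀ μ ∈ Par N (∑ i, ξ i), (∀ i, μ i ≤ 1 ∨ ∀ j : Fin l, j.val = 1 → ξ j < μ i) → Pal (K μ) := by
  obtain ⟨K, hK, -⟩ := neg_main ha h0 hN
  refine ⟨K, hK, fun K' h => hK.unique h, fun μ hμ h => ?_⟩
  by_cases hl : l ≤ 1
  · exact pos_row hl hK μ hμ
  obtain ⟨p, rfl⟩ : ∃ p, l = p + 2 := ⟨l - 2, by omega⟩
  refine ((palF_pow (nn μ)).mul (palF_long (ct μ 2) (ct μ 1 - ct μ 2)
    (List.ofFn fun i => ξ i.succ))).pal fun t ht h1 => ?_
  obtain ⟨c, c1, c2⟩ := nice_SL (N := N) ht h1 (ct μ 2) (s := ξ 1) (ξ 0)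
    (l := List.ofFn fun i => ξ i.succ) fun r hr => by
      obtain ⟨i, rfl⟩ := List.mem_ofFn.1 hr
      exact ha.antitone (Fin.succ_le_succ_iff.2 (Fin.zero_le i))
  rw [List.sum_ofFn, ← Fin.sum_univ_succ] at c1 c2
  rw [← c2 μ hμ _ ⟨by have : ct μ 2 ≤ ct μ 1 := ct_mono μ 1; omega, ct_le fun i hi => ?_, le_rfl⟩]
  · exact coef_unique ht (c := fun μ => Polynomial.aeval t (K μ)) (fun x hx => by
      rw [← hK t ht x hx, ← c1 x hx, SQ_eq, List.ofFn_succ]) μ hμ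
  · exact (h i).elim (fun h => by omega) fun h => h 1 rfl

end Pool.Agent.Lib.MP_2c9e21_co
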