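import Mathlib
import Pool.Agent.Lib.MP_2c9e21_co.Two

namespace Pool.Agent.Lib.MP_2c9e21_co

open Finset Finsupp

theorem zind (f : ℤ →₀ ℝ)
    (h : ∀ t : ℝ, 0 < t → Finsupp.linearCombination ℝ (fun e : ℤ => t ^ e) f = 0) : f = 0 := by
  have li := (linearIndependent_monoidHom (Multiplicative ℕ) ℝ).comp
    (fun e : ℤ => powersHom ℝ ((2 : ℝ) ^ e)) (fun a b hab =>
      zpow_right_injective₀ (by norm_num) (by norm_num) ((powersHom ℝ).injective hab))
  refine linearIndependent_iff.1 li f (funext fun n => ?_)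
  have := h (2 ^ n.toAdd) (by positivity)
  rw [Finsupp.linearCombination_apply, Finsupp.sum] at this ⊢
  rw [Finset.sum_apply]
  refine Eq.trans (sum_congr rfl fun e _ => ?_) this
  simp only [Pi.smul_apply, Function.comp_apply, powersHom_apply]
  rw [← zpow_natCast, ← zpow_mul, mul_comm e, zpow_mul, zpow_natCast]

noncomputable def fR (A s r : ℕ) (φ : ℕ → ℤ) : ℤ →₀ ℝ :=
  single (φ 2) 1 + single (φ (A + 2)) 1 - single (φ (A + 3)) 1 - single (φ (A + s + 1)) 1 -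
    single (φ (A + s + 2)) 1 - single (φ (A + s + r)) 1 + single (φ (A + s + r + 1)) 1 -
    single (φ (2 * A + s + r)) 1 + single (φ (2 * A + s + r + 1)) 1 + single (φ (2 * A + 2 * s)) 1

noncomputable def cf (A s r : ℕ) (j : ℤ) : ℝ :=
  (if (2 : ℕ) = j then 1 else 0) + (if (A + 2 : ℕ) = j then 1 else 0) -
    (if (A + 3 : ℕ) = j then 1 else 0) - (if (A + s + 1 : ℕ) = j then 1 else 0) -
    (if (A + s + 2 : ℕ) = j then 1 else 0) - (if (A + s + r : ℕ) = j then 1 else 0) +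
    (if (A + s + r + 1 : ℕ) = j then 1 else 0) - (if (2 * A + s + r : ℕ) = j then 1 else 0) +
    (if (2 * A + s + r + 1 : ℕ) = j then 1 else 0) + if (2 * A + 2 * s : ℕ) = j then 1 else 0

theorem fR_apply (A s r : ℕ) {φ : ℕ → ℤ} {j j' : ℤ} (h : ∀ e : ℕ, φ e = j ↔ e = j') :
    fR A s r φ j = cf A s r j' := by
  simp only [cf, fR, Finsupp.add_apply, Finsupp.sub_apply, Finsupp.single_apply, h]

theorem sym_cf {A s r : ℕ} (h : PalF fun t => RR t⁻¹ A s r) :
    ∃ M : ℤ, ∀ j, cf A s r (M - j) = cf A s r j := by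
  obtain ⟨m, hm⟩ := h
  have h1 : fR A s r (fun e => m + e) - fR A s r (fun e => - e) = 0 := zind _ fun t ht => by
    have h2 : t ^ m * RR t A s r = RR t⁻¹ A s r := by
      by_cases h1 : t = 1
      · simp [h1]
      · simpa only [inv_inv] using hm t ht h1
    unfold RR at h2
    simp only [fR, map_sub, map_add, linearCombination_single, one_smul, zpow_add₀ ht.ne',
      zpow_neg, zpow_natCast, ← inv_pow]
    linear_combination h2
  refine ⟨-m, fun j => ?_⟩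
  have h2 := DFunLike.congr_fun (sub_eq_zero.1 h1) (-j)
  rwa [fR_apply A s r (j' := -m - j) fun e => by omega,
    fR_apply A s r (j' := j) fun e => by omega] at h2

theorem neg_R {A s r : ℕ} (h1 : r < s) (h2 : s ≤ A + 2) (h3 : r = 0 → 5 ≤ A + 2 + s)
    (h : PalF fun t => RR t⁻¹ A s r) : (A + 2 = s ∧ r = 1) ∨ (A + 2 = s + 1 ∧ r = 0) := by
  obtain ⟨M, hM⟩ := sym_cf h
  by_contra hc
  have lo : ∀ j : ℤ, j < 2 → cf A s r j = 0 := fun j hj => by
    unfold cf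
    simp (disch := omega) only [if_neg]
    norm_num
  have hi : ∀ j : ℤ, 2 * A + 2 * s < j → cf A s r j = 0 := fun j hj => by
    unfold cf
    simp (disch := omega) only [if_neg]
    norm_num
  have c1 : cf A s r 2 = 1 := by
    unfold cf
    simp (disch := omega) only [if_neg, if_pos]
    norm_num
  have c2 : cf A s r (2 * A + 2 * s) = if r + 1 = s then 2 else 1 := by
    unfold cf
    by_cases e : r + 1 = s <;> simp (disch := omega) only [if_neg, if_pos] <;> norm_num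
  obtain rfl : M = 2 * A + 2 * s + 2 := by
    refine le_antisymm (le_of_not_gt fun hh => ?_) (le_of_not_gt fun hh => ?_)
    · have := hM 2
      rw [hi _ (by omega), c1] at this
      norm_num at this
    · have := hM (2 * A + 2 * s)
      rw [lo _ (by omega), c2] at this
      split_ifs at this <;> norm_num at this
  have a1 := hM 2
  rw [add_sub_cancel_right, c1, c2] at a1
  have a2 : r + 1 ≠ s := fun e => by
    rw [if_pos e] at a1
    norm_num at a1
  have a3 := hM (A + 2)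
  unfold cf at a3
  by_cases hs : s = 2
  · simp (disch := omega) only [if_neg, if_pos] at a3
    split_ifs at a3 <;> norm_num at a3
  · simp (disch := omega) only [if_neg, if_pos] at a3
    split_ifs at a3 <;> norm_num at a3

theorem pos_R {A s r : ℕ} (h : r = s ∨ (A + 2 = s ∧ r = 1) ∨ (A + 2 = s + 1 ∧ r = 0)) :
    PalF fun t => RR t⁻¹ A s r := by
  have k : ∀ M : ℕ, (∀ t : ℝ, 0 < t → RR t A s r = t ^ M * RR t⁻¹ A s r) →
      PalF fun t => RR t⁻¹ A s r := fun M h => ⟨-M, fun t ht _ => by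
    simp only [inv_inv]
    rw [h t ht, zpow_neg, zpow_natCast, inv_mul_cancel_left₀ (by positivity)]⟩
  rcases h with rfl | ⟨rfl, rfl⟩ | ⟨h, rfl⟩
  · refine k (2 * A + 2 * r + 3) fun t ht => ?_
    simp only [RR, inv_pow]
    field_simp
    ring
  · refine k (4 * A + 6) fun t ht => ?_
    simp only [RR, inv_pow]
    field_simp
    ring
  · obtain rfl : s = A + 1 := by omega
    refine k (4 * A + 4) fun t ht => ?_
    simp only [RR, inv_pow]
    field_simp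
    ring

theorem PalF.cancel {F G : ℝ → ℝ} (h : PalF F) (h0 : ∀ t, 0 < t → t ≠ 1 → F t ≠ 0)
    {K : Polynomial ℤ} (hK : ∀ t : ℝ, 0 < t → t ≠ 1 → Polynomial.aeval t K = F t * G t)
    (hP : Pal K) : PalF G := by
  obtain ⟨m, hm⟩ := h
  obtain ⟨n, hn⟩ := hP
  refine ⟨n - m, fun t ht h1 => ?_⟩
  have h2 : t⁻¹ ≠ 1 := by simpa using h1
  have e := hn t ht
  rw [hK t ht h1, hK _ (inv_pos.2 ht) h2, ← hm t ht h1] at e
  rw [zpow_sub₀ ht.ne', div_mul_eq_mul_div, div_eq_iff (zpow_ne_zero _ ht.ne')]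
  refine mul_left_cancel₀ (h0 _ (inv_pos.2 ht) h2) ?_
  linear_combination e

theorem palF_sq : PalF fun t => ((1 - t⁻¹) ^ 2)⁻¹ := by
  refine ⟨2, fun t ht h1 => ?_⟩
  have h2 : 1 - t ≠ 0 := sub_ne_zero.2 h1.symm
  have h3 : t - 1 ≠ 0 := sub_ne_zero.2 h1
  simp only [zpow_ofNat, inv_inv]
  field_simp
  ring

theorem two_main {p N : ℕ} (hp : 3 ≤ p) (hN : p + 2 ≤ N) :
    ∃ K : (Fin N → ℕ) → Polynomial ℤ, IsExp N ![p, 2] K ∧
      (∀ K', IsExp N ![p, 2] K' → ∀ μ ∈ Par N (p + 2), K' μ = K μ) ∧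
      ∀ μ ∈ Par N (p + 2), (Pal (K μ) ↔ (∀ i, μ i ≠ 2) ∨
        ((∀ i, μ i ≠ 1) ∧ ∀ i, 3 ≤ μ i ↔ i.val = 0) ∨ ((∀ i, μ i ≤ 2) ∧ ∃! i, μ i = 1)) := by
  have hs : ∑ i, (![p, 2] : Fin 2 → ℕ) i = p + 2 := by simp [Fin.sum_univ_two]
  obtain ⟨K, hK, -⟩ := neg_main (N := N) (l := 2) (ξ := ![p, 2])
    (Fin.strictAnti_iff_succ_lt.2 fun i => by fin_cases i; simp; omega)
    (fun i => by fin_cases i <;> simp; omega) (hs.trans_le hN)
  refine ⟨K, hK, fun K' h => hs ▸ hK.unique h, fun μ hμ => ?_⟩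
  obtain ⟨h1, h2⟩ := mem_Par.1 hμ
  obtain ⟨b1, a1⟩ := ct_thr h2 1
  obtain ⟨b2, a2⟩ := ct_thr h2 2
  obtain ⟨b3, a3⟩ := ct_thr h2 3
  have l1 : ct μ 2 ≤ ct μ 1 := ct_mono μ 1
  have l2 : ct μ 3 ≤ ct μ 2 := ct_mono μ 2
  have f := fun t ht => two_coef hK hμ (t := t) ht
  have hsum : ct μ 3 = 0 → p + 2 = ct μ 1 + ct μ 2 := fun h => by
    rw [← h1, ct, ct, ← sum_add_distrib]
    refine sum_congr rfl fun i _ => ?_
    have := a3 i
    split_ifs <;> omega
  generalize ct μ 1 = L at *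
  generalize ct μ 2 = s at *
  generalize ct μ 3 = r at *
  have a : ∀ i : Fin N, (1 ≤ μ i ↔ i.val < L) ∧ (2 ≤ μ i ↔ i.val < s) ∧ (3 ≤ μ i ↔ i.val < r) :=
    fun i => ⟨a1 i, a2 i, a3 i⟩
  have a' : ∀ k (hk : k < N), (1 ≤ μ ⟨k, hk⟩ ↔ k < L) ∧ (2 ≤ μ ⟨k, hk⟩ ↔ k < s) ∧
      (3 ≤ μ ⟨k, hk⟩ ↔ k < r) := fun k hk => a ⟨k, hk⟩
  have c1 : (∀ i, μ i ≠ 2) ↔ r = s := ⟨fun h => by
    by_contra hc
    have k : r < N := by omega
    have := a' r k
    have := h ⟨r, k⟩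
    omega, fun h i => by have := a i; omega⟩
  have c2 : ((∀ i, μ i ≠ 1) ∧ ∀ i, 3 ≤ μ i ↔ i.val = 0) ↔ L = s ∧ r = 1 := ⟨fun h => ⟨by
    by_contra hc
    have k : s < N := by omega
    have := a' s k
    have := h.1 ⟨s, k⟩
    omega, by
    have k0 : 0 < N := by omega
    have k1 : 1 < N := by omega
    have := a' 0 k0
    have := (h.2 ⟨0, k0⟩).2 rfl
    have := a' 1 k1
    have : 3 ≤ μ ⟨1, k1⟩ → 1 = 0 := (h.2 ⟨1, k1⟩).1
    omega⟩, fun h => ⟨fun i => by have := a i; omega, fun i => by have := a i; omega⟩⟩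
  have c3 : ((∀ i, μ i ≤ 2) ∧ ∃! i, μ i = 1) ↔ L = s + 1 ∧ r = 0 := ⟨fun ⟨h, i, hi, hu⟩ => ⟨by
    have := a i
    have hi' : μ i = 1 := hi
    by_contra hc
    have k0 : s < N := by omega
    have k1 : s + 1 < N := by omega
    have x1 := a' s k0
    have x2 := a' (s + 1) k1
    have y1 : μ ⟨s, k0⟩ = 1 := by omega
    have y2 : μ ⟨s + 1, k1⟩ = 1 := by omega
    have : s = s + 1 := congrArg Fin.val ((hu _ y1).trans (hu _ y2).symm)
    omega, by
    have k0 : 0 < N := by omega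
    have := a' 0 k0
    have := h ⟨0, k0⟩
    omega⟩, fun h => by
      have k0 : s < N := by omega
      have := a' s k0
      refine ⟨fun i => by have := a i; omega, ⟨s, k0⟩, show μ ⟨s, k0⟩ = 1 by omega,
        fun i (hi : μ i = 1) => Fin.ext (show i.val = s by have := a i; omega)⟩⟩
  rw [c1, c2, c3]
  by_cases hL : L ≤ 1
  · obtain ⟨rfl, rfl, rfl⟩ : L = 1 ∧ s = 1 ∧ r = 1 := by omega
    exact iff_of_true ((palF_const 0).pal fun t ht _ => by rw [f t ht]; simp [G2, qi_one])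
      (Or.inl rfl)
  obtain ⟨A, rfl⟩ : ∃ A, L = A + 2 := ⟨L - 2, by omega⟩
  have g : ∀ t : ℝ, 0 < t → t ≠ 1 → Polynomial.aeval t (K μ) =
      2 * t ^ nn μ * (∏ k ∈ range A, (1 + t⁻¹ ^ k)) * ((1 - t⁻¹) ^ 2)⁻¹ * RR t⁻¹ A s r :=
    fun t ht h1 => by
      rw [f t ht, two_R (by simpa using h1) A l2, PI]
      ring
  have pF := (((palF_const 2).mul (palF_pow (nn μ))).mul (palF_prod A)).mul palF_sq
  refine ⟨fun h => or_iff_not_imp_left.2 fun hne => neg_R (by omega) l1 (by omega)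
    (pF.cancel (fun t ht h1 => ?_) g h), fun h => (pF.mul (pos_R h)).pal g⟩
  have : 1 - t⁻¹ ≠ 0 := sub_ne_zero.2 (by simpa using h1)
  positivity

end Pool.Agent.Lib.MP_2c9e21_co
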